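import Pool.Agent.EndsLamp.Word

/-! # The lamplighter group and its word metric -/

set_option autoImplicit false
set_option linter.unusedSectionVars false
set_option linter.unnecessarySimpa false
set_option linter.unusedSimpArgs false

open scoped Pointwise Classical

namespace Pool.Agent.EndsLamp

/-- The restricted wreath product as a type. -/
abbrev Lm (F H : Type*) [Group F] [Group H] := ↥(RWreath F H)

/-- Finitely supported lamp configurations. -/
def Cfg (F H : Type*) [Group F] : Type _ := {c : H → F // (Function.mulSupport c).Finite}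

section

variable {F H : Type*} [Group F] [Group H]

instance : CoeFun (Cfg F H) (fun _ => H → F) := ⟨fun c => c.1⟩

lemma Cfg.ext {c c' : Cfg F H} (h : ∀ z, c z = c' z) : c = c' := Subtype.ext (funext h)

def mk (c : Cfg F H) (y : H) : Lm F H := ⟨⟨c.1, y⟩, c.2⟩
def cf (u : Lm F H) : Cfg F H := ⟨u.1.left, u.2⟩
def ps (u : Lm F H) : H := u.1.right

@[simp] lemma cf_mk (c : Cfg F H) (y : H) : cf (mk c y) = c := rfl
@[simp] lemma ps_mk (c : Cfg F H) (y : H) : ps (mk c y) = y := rfl
@[simp] lemma mk_cf_ps (u : Lm F H) : mk (cf u) (ps u) = u := rfl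

lemma Lm.ext {u v : Lm F H} (h1 : ∀ z, cf u z = cf v z) (h2 : ps u = ps v) : u = v := by
  apply Subtype.ext
  apply RegularWreathProduct.ext
  · exact funext h1
  · exact h2

@[simp] lemma ps_mul (u v : Lm F H) : ps (u * v) = ps u * ps v := rfl
@[simp] lemma ps_inv (u : Lm F H) : ps u⁻¹ = (ps u)⁻¹ := rfl
@[simp] lemma ps_one : ps (1 : Lm F H) = 1 := rfl
lemma cf_mul (u v : Lm F H) (z : H) : cf (u * v) z = cf u z * cf v ((ps u)⁻¹ * z) := rfl
lemma cf_inv (u : Lm F H) (z : H) : cf u⁻¹ z = (cf u (ps u * z))⁻¹ := rfl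
@[simp] lemma cf_one (z : H) : cf (1 : Lm F H) z = 1 := rfl

/-- the trivial configuration -/
def c1 : Cfg F H := ⟨fun _ => 1, by simp⟩
@[simp] lemma c1_apply (z : H) : (c1 : Cfg F H) z = 1 := rfl

/-- changing one lamp -/
noncomputable def upd (c : Cfg F H) (z : H) (a : F) : Cfg F H :=
  ⟨Function.update c.1 z a, by
    apply (c.2.union (Set.finite_singleton z)).subset
    intro x hx
    by_cases h : x = z
    · right; exact h
    · left
      simpa [Function.update_of_ne h] using hx⟩

@[simp] lemma upd_self (c : Cfg F H) (z : H) (a : F) : upd c z a z = a := by simp [upd]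
lemma upd_ne (c : Cfg F H) {z x : H} (a : F) (h : x ≠ z) : upd c z a x = c x := by
  simp [upd, Function.update_of_ne h]

/-- combining two configurations -/
noncomputable def comb (S : Set H) (c c' : Cfg F H) : Cfg F H :=
  ⟨fun z => if z ∈ S then c z else c' z, by
    apply (c.2.union c'.2).subset
    intro x hx
    by_cases h : x ∈ S
    · left; simpa [h] using hx
    · right; simpa [h] using hx⟩

lemma comb_mem {S : Set H} (c c' : Cfg F H) {z : H} (h : z ∈ S) : comb S c c' z = c z := by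
  simp [comb, h]
lemma comb_not {S : Set H} (c c' : Cfg F H) {z : H} (h : z ∉ S) : comb S c c' z = c' z := by
  simp [comb, h]

lemma diff_fin (c c' : Cfg F H) : {z | c z ≠ c' z}.Finite := by
  apply (c.2.union c'.2).subset
  intro x hx
  by_contra h
  simp only [Set.mem_union, Function.mem_mulSupport, not_or, not_not] at h
  exact hx (by rw [h.1, h.2])

/-- Induction on configurations: going from `c₁` to `c₂` one lamp at a time, at the places where
they differ. -/
lemma cfg_induct (c₁ c₂ : Cfg F H) (Pr : Cfg F H → Prop) (h1 : Pr c₁)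
    (step : ∀ (c : Cfg F H) (z : H), (∀ x, c x = c₁ x ∨ c x = c₂ x) → c₁ z ≠ c₂ z →
      c z = c₁ z → Pr c → Pr (upd c z (c₂ z))) : Pr c₂ := by
  have key : ∀ s : Finset H, (∀ z ∈ s, c₁ z ≠ c₂ z) →
      Pr (comb (↑s : Set H) c₂ c₁) := by
    intro s
    induction s using Finset.induction_on with
    | empty =>
      intro _
      have : comb (↑(∅ : Finset H) : Set H) c₂ c₁ = c₁ := Cfg.ext fun z => by simp [comb]
      rw [this]; exact h1
    | insert z s hz ih =>
      intro hs
      have h2 := ih (fun x hx => hs x (Finset.mem_insert_of_mem hx))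
      have h3 := step _ z (fun x => by
        by_cases hx : x ∈ (↑s : Set H)
        · right; rw [comb_mem _ _ hx]
        · left; rw [comb_not _ _ hx]) (hs z (Finset.mem_insert_self _ _))
        (by rw [comb_not]; exact_mod_cast hz) h2
      have : upd (comb (↑s : Set H) c₂ c₁) z (c₂ z) = comb (↑(insert z s) : Set H) c₂ c₁ := by
        apply Cfg.ext
        intro x
        by_cases hx : x = z
        · subst hx
          rw [upd_self, comb_mem]
          simp
        · rw [upd_ne _ _ hx]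
          simp [comb, hx]
      rw [← this]; exact h3
  have := key (diff_fin c₁ c₂).toFinset (by intro z hz; simpa using hz)
  have h : comb (↑(diff_fin c₁ c₂).toFinset : Set H) c₂ c₁ = c₂ := by
    apply Cfg.ext; intro x
    by_cases hx : c₁ x = c₂ x
    · simp [comb, hx]
    · simp [comb, hx]
  rwa [h] at this

/-- The basic generators. -/
def gens (F : Type*) {H : Type*} [Group F] [Group H] (m : WM H) : Set (Lm F H) :=
  {x | (∀ z, cf x z = 1) ∧ m.len (ps x) ≤ 1} ∪ {x | ps x = 1 ∧ ∀ z, z ≠ 1 → cf x z = 1}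

lemma gens_one (m : WM H) : (1 : Lm F H) ∈ gens F m := by
  left; exact ⟨fun _ => rfl, by simp [m.len_one]⟩

lemma gens_inv (m : WM H) : ∀ x ∈ gens F m, x⁻¹ ∈ gens F m := by
  intro x hx
  rcases hx with ⟨h1, h2⟩ | ⟨h1, h2⟩
  · left
    exact ⟨fun z => by rw [cf_inv, h1]; simp, by simpa [m.len_inv] using h2⟩
  · right
    refine ⟨by simp [h1], fun z hz => ?_⟩
    rw [cf_inv, h1, one_mul, h2 z hz, inv_one]

lemma fin_supp [Finite F] {B : Set H} (hB : B.Finite) (P : Set H) (hP : P.Finite) :
    {u : Lm F H | ps u ∈ P ∧ ∀ z, z ∉ B → cf u z = 1}.Finite := by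
  have : Finite B := hB
  have : Finite P := hP
  have hinj : Set.InjOn (fun u : Lm F H => ((fun b : B => cf u b.1), ps u))
      {u : Lm F H | ps u ∈ P ∧ ∀ z, z ∉ B → cf u z = 1} := by
    rintro u ⟨hu1, hu2⟩ v ⟨hv1, hv2⟩ h
    simp only [Prod.mk.injEq] at h
    apply Lm.ext _ h.2
    intro z
    by_cases hz : z ∈ B
    · exact congrFun h.1 ⟨z, hz⟩
    · rw [hu2 z hz, hv2 z hz]
  apply Set.Finite.of_finite_image _ hinj
  apply ((Set.finite_univ (α := B → F)).prod hP).subset
  rintro _ ⟨u, ⟨hu1, _⟩, rfl⟩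
  exact ⟨trivial, hu1⟩

lemma gens_fin [Finite F] (m : WM H) : (gens F m).Finite := by
  apply Set.Finite.subset (fin_supp (F := F) (Set.finite_singleton (1 : H))
    {g | m.len g ≤ 1} (m.fin 1))
  rintro x (⟨h1, h2⟩ | ⟨h1, h2⟩)
  · exact ⟨h2, fun z _ => h1 z⟩
  · exact ⟨by simp [h1, m.len_one], fun z hz => h2 z (by simpa using hz)⟩

lemma gens_gen (m : WM H) (g : Lm F H) : ∃ n : ℕ, g ∈ (gens F m) ^ n := by
  have hmul : ∀ x y : Lm F H, (∃ n : ℕ, x ∈ (gens F m) ^ n) → (∃ n : ℕ, y ∈ (gens F m) ^ n) →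
      ∃ n : ℕ, x * y ∈ (gens F m) ^ n := by
    rintro x y ⟨n, hn⟩ ⟨k, hk⟩
    exact ⟨n + k, by rw [pow_add]; exact Set.mul_mem_mul hn hk⟩
  have hpos : ∀ n, ∀ y : H, m.len y = n → ∃ n : ℕ, (mk c1 y : Lm F H) ∈ (gens F m) ^ n := by
    intro n
    induction n with
    | zero =>
      intro y hy
      refine ⟨1, ?_⟩
      rw [pow_one]; left
      exact ⟨fun z => rfl, by simp [hy]⟩
    | succ n ih =>
      intro y hy
      obtain ⟨a, b, rfl, ha, hb⟩ := m.split y n hy
      have h1 := ih a ha
      have h2 : ∃ n : ℕ, (mk c1 b : Lm F H) ∈ (gens F m) ^ n := by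
        refine ⟨1, ?_⟩
        rw [pow_one]; left
        exact ⟨fun z => rfl, by simpa using hb⟩
      have := hmul _ _ h1 h2
      have e : (mk c1 a : Lm F H) * mk c1 b = mk c1 (a * b) := by
        apply Lm.ext
        · intro z; simp [cf_mul]
        · simp
      rwa [e] at this
  have hsingle : ∀ (z : H) (a : F), ∃ n : ℕ, (mk (upd c1 z a) 1 : Lm F H) ∈ (gens F m) ^ n := by
    intro z a
    have h1 := hpos _ z rfl
    have h2 : ∃ n : ℕ, (mk (upd c1 1 a) 1 : Lm F H) ∈ (gens F m) ^ n := by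
      refine ⟨1, ?_⟩
      rw [pow_one]; right
      exact ⟨rfl, fun x hx => by rw [cf_mk, upd_ne _ _ hx]; rfl⟩
    have h3 := hpos _ z⁻¹ rfl
    have := hmul _ _ (hmul _ _ h1 h2) h3
    have e : (mk c1 z : Lm F H) * mk (upd c1 1 a) 1 * mk c1 z⁻¹ = mk (upd c1 z a) 1 := by
      apply Lm.ext
      · intro x
        simp only [cf_mul, cf_mk, c1_apply, one_mul, ps_mk, mul_one]
        by_cases hx : x = z
        · subst hx; simp
        · rw [upd_ne _ _ hx, upd_ne]
          · rfl
          · intro h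
            exact hx (by rw [inv_mul_eq_one] at h; exact h.symm)
      · simp
    rwa [e] at this
  have hcfg : ∀ c : Cfg F H, ∃ n : ℕ, (mk c 1 : Lm F H) ∈ (gens F m) ^ n := by
    intro c
    refine cfg_induct c1 c (fun c => ∃ n : ℕ, (mk c 1 : Lm F H) ∈ (gens F m) ^ n) ?_ ?_
    · exact hpos _ 1 rfl
    · intro c' z _ _ hz ih
      have := hmul _ _ ih (hsingle z (c z))
      have e : (mk c' 1 : Lm F H) * mk (upd c1 z (c z)) 1 = mk (upd c' z (c z)) 1 := by
        apply Lm.ext
        · intro x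
          simp only [cf_mul, cf_mk, ps_mk, inv_one, one_mul]
          by_cases hx : x = z
          · subst hx; simp [hz]
          · rw [upd_ne _ _ hx, upd_ne _ _ hx]; simp
        · simp
      rwa [e] at this
  have := hmul _ _ (hcfg (cf g)) (hpos _ (ps g) rfl)
  have e : (mk (cf g) 1 : Lm F H) * mk c1 (ps g) = g := by
    apply Lm.ext
    · intro x; simp [cf_mul]
    · simp
  rwa [e] at this

/-- The word metric of the lamplighter group. -/
noncomputable def lw (F : Type*) {H : Type*} [Group F] [Group H] [Finite F] (m : WM H) :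
    WM (Lm F H) :=
  WM.ofSet (gens F m) (gens_one m) (gens_inv m) (gens_fin m) (gens_gen m)

variable [Finite F] (m : WM H)

lemma lw_le_one {u v : Lm F H} : (lw F m).d u v ≤ 1 ↔ u⁻¹ * v ∈ gens F m := by
  unfold WM.d lw
  rw [WM.ofSet_le, pow_one]

/-- one step -/
lemma lw_step {u v : Lm F H} (h : (lw F m).d u v ≤ 1) :
    m.d (ps u) (ps v) ≤ 1 ∧ ∀ z, cf v z ≠ cf u z → z = ps u := by
  rw [lw_le_one] at h
  have hv : v = u * (u⁻¹ * v) := by group
  rcases h with ⟨h1, h2⟩ | ⟨h1, h2⟩
  · refine ⟨by simpa [WM.d] using h2, fun z hz => absurd ?_ hz⟩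
    rw [hv, cf_mul, h1, mul_one]
  · have e : ps v = ps u := by
      have := h1
      simp only [ps_mul, ps_inv] at this
      exact (inv_mul_eq_one.mp this).symm
    refine ⟨by simp [e], fun z hz => ?_⟩
    by_contra hne
    apply hz
    rw [hv, cf_mul, h2 _ _, mul_one]
    intro h
    exact hne (inv_mul_eq_one.mp h).symm

/-- the two types of unit steps -/
lemma lw_step' {u v : Lm F H} (h : (lw F m).d u v ≤ 1) :
    (cf v = cf u ∧ m.d (ps u) (ps v) ≤ 1) ∨ (ps v = ps u ∧ cf v = upd (cf u) (ps u) (cf v (ps u))) := by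
  have h' := (lw_le_one m).mp h
  have hv : v = u * (u⁻¹ * v) := by group
  rcases h' with ⟨h1, h2⟩ | ⟨h1, h2⟩
  · left
    refine ⟨Cfg.ext fun z => ?_, (lw_step m h).1⟩
    conv_lhs => rw [hv]
    rw [cf_mul, h1, mul_one]
  · right
    have e : ps v = ps u := by
      have := h1
      simp only [ps_mul, ps_inv] at this
      exact (inv_mul_eq_one.mp this).symm
    refine ⟨e, Cfg.ext fun z => ?_⟩
    by_cases hz : z = ps u
    · subst hz; simp
    · rw [upd_ne _ _ hz]
      by_contra hne
      exact hz ((lw_step m h).2 z hne)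

lemma lw_ps (u v : Lm F H) : m.d (ps u) (ps v) ≤ (lw F m).d u v := by
  have := WM.lip_of_step (lw F m) m (fun u => ps u) 1 (fun x y h => (lw_step m h).1) u v
  simpa using this

/-- a lamp whose value differs has been visited -/
lemma lw_lamp (u v : Lm F H) {z : H} (hz : cf u z ≠ cf v z) : m.d (ps u) z ≤ (lw F m).d u v := by
  have key : ∀ n, ∀ v, (lw F m).d u v = n → cf v z ≠ cf u z → m.d (ps u) z ≤ n := by
    intro n
    induction n with
    | zero => intro v h hv; exact absurd (by rw [(lw F m).eq_of_d h]) hv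
    | succ n ih =>
      intro v h hv
      obtain ⟨v', h1, h2⟩ := (lw F m).prev h
      by_cases hc : cf v' z = cf u z
      · have : z = ps v' := (lw_step m h2).2 z (by rw [hc]; exact hv)
        rw [this]
        have := lw_ps m u v'
        omega
      · have := ih v' h1 hc
        omega
  exact key _ v rfl (Ne.symm hz)

lemma lw_leaf (c : Cfg F H) (y y' : H) : (lw F m).d (mk c y) (mk c y') ≤ m.d y y' := by
  have := WM.lip_of_step m (lw F m) (fun y => mk c y) 1 (fun x y h => by
    rw [lw_le_one]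
    left
    refine ⟨fun z => ?_, by simpa [WM.d] using h⟩
    simp [cf_mul, cf_inv]) y y'
  simpa using this

lemma lw_upd (c : Cfg F H) (y : H) (a : F) : (lw F m).d (mk c y) (mk (upd c y a) y) ≤ 1 := by
  rw [lw_le_one]
  right
  refine ⟨by simp, fun z hz => ?_⟩
  simp only [cf_mul, cf_inv, cf_mk, ps_mk, ps_inv, inv_inv]
  rw [upd_ne]
  · simp
  · intro h; apply hz; simpa using h

/-- cost of changing lamps in a ball -/
lemma lw_bdd (r : ℕ) : ∃ M : ℕ, ∀ (y : H) (c c' : Cfg F H), (∀ z, c z ≠ c' z → m.d y z ≤ r) →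
    (lw F m).d (mk c y) (mk c' y) ≤ M := by
  have hfin := fin_supp (F := F) (m.fin r) {(1 : H)} (Set.finite_singleton 1)
  obtain ⟨M, hM⟩ := (lw F m).bdd hfin 1
  refine ⟨M, fun y c c' h => ?_⟩
  have := hM ((mk c y)⁻¹ * mk c' y) ⟨by simp, fun z hz => ?_⟩
  · simpa [WM.d] using this
  · simp only [cf_mul, cf_inv, cf_mk, ps_mk, ps_inv, inv_inv]
    by_contra hne
    apply hz
    have := h (y * z) (fun h => hne (by rw [h]; simp))
    simpa [WM.d] using this

/-- general version: also moving -/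
lemma lw_bdd2 (r s : ℕ) : ∃ M : ℕ, ∀ (u v : Lm F H), (∀ z, cf u z ≠ cf v z → m.d (ps u) z ≤ r) →
    m.d (ps u) (ps v) ≤ s → (lw F m).d u v ≤ M := by
  obtain ⟨M, hM⟩ := lw_bdd (F := F) m r
  refine ⟨M + s, fun u v h1 h2 => ?_⟩
  have e1 := hM (ps u) (cf u) (cf v) h1
  have e2 := lw_leaf m (cf v) (ps u) (ps v)
  have e3 := (lw F m).tri (mk (cf u) (ps u)) (mk (cf v) (ps u)) (mk (cf v) (ps v))
  simp only [mk_cf_ps] at *
  omega

lemma lw_upd_far (c : Cfg F H) (y z : H) (a : F) :
    (lw F m).d (mk c y) (mk (upd c z a) y) ≤ 2 * m.d y z + 1 := by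
  have e1 := lw_leaf (F := F) m c y z
  have e2 := lw_upd (F := F) m c z a
  have e3 := lw_leaf (F := F) m (upd c z a) z y
  have e4 := (lw F m).tri (mk c y) (mk c z) (mk (upd c z a) y)
  have e5 := (lw F m).tri (mk c z) (mk (upd c z a) z) (mk (upd c z a) y)
  rw [m.d_comm z y] at e3
  omega

end

end Pool.Agent.EndsLamp
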