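import Pool.Agent.EndsLamp.Growth
import Pool.Agent.EndsLamp.Lamp

/-! # Many cheap rows of lamps -/

set_option autoImplicit false
set_option linter.unusedSectionVars false
set_option linter.unnecessarySimpa false
set_option linter.unusedSimpArgs false
set_option linter.deprecated false

open scoped Pointwise Classical
open Filter

namespace Pool.Agent.EndsLamp

lemma exists_inj {α : Type*} (S : Finset α) (n : ℕ) (h : n ≤ S.card) :
    ∃ g : Fin n → α, Function.Injective g ∧ ∀ i, g i ∈ S := by
  refine ⟨fun i => (S.equivFin.symm (Fin.castLE h i)).1, fun i j hij => ?_, fun i => ?_⟩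
  · have h1 := S.equivFin.symm.injective (Subtype.ext hij)
    exact Fin.castLE_injective h h1
  · exact (S.equivFin.symm (Fin.castLE h i)).2

section

variable {H : Type*} [Group H]

/-- a walk in a ball visiting many points -/
lemma exists_walk (m : WM H) (r : ℕ) : ∀ k : ℕ, 1 ≤ k → k ≤ {z | m.d 1 z ≤ r}.ncard →
    ∃ W : ℕ → H, W 0 = 1 ∧ (∀ t, m.d (W t) (W (t + 1)) ≤ 1) ∧ (∀ t, m.d 1 (W t) ≤ r) ∧
      k ≤ ((Finset.range (2 * k)).image W).card := by
  intro k hk
  induction k, hk using Nat.le_induction with
  | base =>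
    intro _
    refine ⟨fun _ => 1, rfl, fun t => by simp, fun t => by simp, ?_⟩
    rw [Nat.one_le_iff_ne_zero, Ne, Finset.card_eq_zero]
    intro h
    have : (1 : H) ∈ (Finset.range (2 * 1)).image (fun _ => (1 : H)) :=
      Finset.mem_image.mpr ⟨0, by simp, rfl⟩
    rw [h] at this
    simp at this
  | succ k hk ih =>
    intro hc
    obtain ⟨W, hW0, hWs, hWr, hWc⟩ := ih (by omega)
    by_cases hbig : k + 1 ≤ ((Finset.range (2 * k)).image W).card
    · refine ⟨W, hW0, hWs, hWr, hbig.trans (Finset.card_le_card (Finset.image_subset_image ?_))⟩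
      intro t ht
      simp only [Finset.mem_range] at *
      omega
    set I := (Finset.range (2 * k)).image W with hI
    have h1I : (1 : H) ∈ I := Finset.mem_image.mpr ⟨0, by simp; omega, hW0⟩
    obtain ⟨y, hy, hyI⟩ : ∃ y, m.d 1 y ≤ r ∧ y ∉ I := by
      by_contra hcon
      push Not at hcon
      have h1 : {z | m.d 1 z ≤ r} ⊆ (I : Set H) := fun z hz => hcon z hz
      have h2 := Set.ncard_le_ncard h1 I.finite_toSet
      rw [Set.ncard_coe_finset] at h2
      omega
    obtain ⟨a, b, ha, hb, hab, h3, h4⟩ := m.change (fun z => z ∈ I) h1I hyI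
    obtain ⟨i, hi, hia⟩ := Finset.mem_image.mp ha
    rw [Finset.mem_range] at hi
    refine ⟨fun t => if t ≤ i then W t else if t = i + 1 then b else W (t - 2), ?_, ?_, ?_, ?_⟩
    · simp [hW0]
    · intro t
      rcases lt_trichotomy t i with h | h | h
      · simp only [h.le, if_true, Nat.succ_le_of_lt h]
        exact hWs t
      · subst h
        simp only [le_refl, if_true, Nat.not_succ_le_self, if_false]
        rw [hia]; exact hab
      · have e1 : ¬ t ≤ i := by omega
        have e2 : ¬ t + 1 ≤ i := by omega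
        have e3 : ¬ t + 1 = i + 1 := by omega
        simp only [e1, e2, e3, if_false]
        by_cases h5 : t = i + 1
        · simp only [h5, if_true]
          have : i + 1 + 1 - 2 = i := by omega
          rw [this, hia, m.d_comm]; exact hab
        · simp only [h5, if_false]
          have : t + 1 - 2 = (t - 2) + 1 := by omega
          rw [this]; exact hWs _
    · intro t
      simp only
      split_ifs
      · exact hWr t
      · omega
      · exact hWr _
    · have hsub : insert b I ⊆ (Finset.range (2 * (k + 1))).image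
          (fun t => if t ≤ i then W t else if t = i + 1 then b else W (t - 2)) := by
        intro x hx
        rw [Finset.mem_insert] at hx
        rcases hx with rfl | hx
        · refine Finset.mem_image.mpr ⟨i + 1, ?_, ?_⟩
          · rw [Finset.mem_range]; omega
          · simp
        · obtain ⟨t, ht, rfl⟩ := Finset.mem_image.mp hx
          rw [Finset.mem_range] at ht
          by_cases hti : t ≤ i
          · refine Finset.mem_image.mpr ⟨t, ?_, ?_⟩
            · rw [Finset.mem_range]; omega
            · simp [hti]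
          · refine Finset.mem_image.mpr ⟨t + 2, ?_, ?_⟩
            · rw [Finset.mem_range]; omega
            · have e1 : ¬ t + 2 ≤ i := by omega
              have e2 : ¬ t + 2 = i + 1 := by omega
              simp [e1, e2]
      have := Finset.card_le_card hsub
      rw [Finset.card_insert_of_notMem hb] at this
      omega

/-- rows -/
lemma exists_rows {m : WM H} (h : OneEnded H) (N : ℕ) (hN : 1 ≤ N) : ∃ r : ℕ, 1 ≤ r ∧
    ∃ x : Fin N → Fin r → H, Function.Injective (fun p : Fin N × Fin r => x p.1 p.2) ∧
      (∀ i j, m.d 1 (x i j) ≤ r) ∧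
      ∀ i, ∃ W : ℕ → H, (∀ t, m.d (W t) (W (t + 1)) ≤ 1) ∧ m.d 1 (W 0) ≤ r ∧
        m.d 1 (W (4 * r)) ≤ r ∧ ∀ j, ∃ t < 4 * r, W t = x i j := by
  obtain ⟨r, hr, hcard⟩ := growth (m := m) h (8 * N)
  have hNr : 1 ≤ N * r := Nat.mul_pos hN hr
  obtain ⟨W, hW0, hWs, hWr, hWc⟩ := exists_walk m r (8 * N * r) (by nlinarith) hcard
  refine ⟨r, hr, ?_⟩
  set T : Finset ℕ := (Finset.range (2 * (8 * N * r))).filter (fun t => ∀ s < t, W s ≠ W t) with hT
  have hTc : 8 * N * r ≤ T.card := by
    refine hWc.trans ?_
    refine (Finset.card_le_card (t := T.image W) ?_).trans Finset.card_image_le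
    intro y hy
    obtain ⟨t, ht, rfl⟩ := Finset.mem_image.mp hy
    have hex : ∃ s, W s = W t := ⟨t, rfl⟩
    refine Finset.mem_image.mpr ⟨Nat.find hex, ?_, Nat.find_spec hex⟩
    rw [hT, Finset.mem_filter, Finset.mem_range]
    refine ⟨(Nat.find_min' hex rfl).trans_lt (Finset.mem_range.mp ht), fun s hs => ?_⟩
    rw [Nat.find_spec hex]
    exact Nat.find_min hex hs
  have hTinj : ∀ s ∈ T, ∀ t ∈ T, W s = W t → s = t := by
    intro s hs t ht hst
    rw [hT, Finset.mem_filter] at hs ht
    rcases lt_trichotomy s t with h | h | h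
    · exact absurd hst (ht.2 s h)
    · exact h
    · exact absurd hst.symm (hs.2 t h)
  -- windows
  set G : Finset ℕ := (Finset.range (4 * N)).filter
    (fun w => r ≤ (T.filter (fun t => t / (4 * r) = w)).card) with hG
  have hGc : N ≤ G.card := by
    have h1 : T.card = ∑ w ∈ Finset.range (4 * N), (T.filter (fun t => t / (4 * r) = w)).card := by
      apply Finset.card_eq_sum_card_fiberwise
      intro t ht
      simp only [hT, Finset.coe_filter, Finset.mem_range, Set.mem_setOf_eq] at ht
      simp only [Finset.coe_range, Set.mem_Iio]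
      rw [Nat.div_lt_iff_lt_mul (by omega)]
      nlinarith [ht.1]
    have h2 : ∀ w ∈ Finset.range (4 * N), (T.filter (fun t => t / (4 * r) = w)).card ≤
        (if r ≤ (T.filter (fun t => t / (4 * r) = w)).card then 4 * r else 0) + r := by
      intro w _
      split_ifs with hw
      · have : (T.filter (fun t => t / (4 * r) = w)).card ≤ 4 * r := by
          have hsub : T.filter (fun t => t / (4 * r) = w) ⊆
              (Finset.range (4 * r)).image (fun s => 4 * r * w + s) := by
            intro t ht
            rw [Finset.mem_filter] at ht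
            refine Finset.mem_image.mpr ⟨t % (4 * r), ?_, ?_⟩
            · rw [Finset.mem_range]; exact Nat.mod_lt _ (by omega)
            · rw [← ht.2]; exact Nat.div_add_mod t (4 * r)
          refine (Finset.card_le_card hsub).trans (Finset.card_image_le.trans ?_)
          simp
        omega
      · omega
    have h3 := Finset.sum_le_sum h2
    rw [← h1, Finset.sum_add_distrib, ← Finset.sum_filter, ← hG, Finset.sum_const,
      Finset.sum_const, Finset.card_range] at h3
    simp only [smul_eq_mul] at h3
    by_contra hcon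
    push Not at hcon
    have h4 : G.card * (4 * r) + 4 * r ≤ N * (4 * r) := by
      have : G.card + 1 ≤ N := hcon
      nlinarith [Nat.mul_le_mul_right (4 * r) this]
    nlinarith
  obtain ⟨g, hg, hgG⟩ := exists_inj G N hGc
  have hrow : ∀ i : Fin N, ∃ t : Fin r → ℕ, Function.Injective t ∧
      ∀ j, t j ∈ T.filter (fun t => t / (4 * r) = g i) := by
    intro i
    have := hgG i
    rw [hG, Finset.mem_filter] at this
    exact exists_inj _ r this.2
  choose t ht htT using hrow
  refine ⟨fun i j => W (t i j), ?_, fun i j => hWr _, fun i => ?_⟩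
  · rintro ⟨i, j⟩ ⟨i', j'⟩ hij
    simp only at hij
    have h1 := htT i j
    have h2 := htT i' j'
    rw [Finset.mem_filter] at h1 h2
    have h3 := hTinj _ h1.1 _ h2.1 hij
    have h4 : g i = g i' := by rw [← h1.2, ← h2.2, h3]
    have h5 := hg h4
    subst h5
    have h6 := ht i h3
    rw [h6]
  · refine ⟨fun s => W (4 * r * g i + s), fun s => ?_, hWr _, hWr _, fun j => ?_⟩
    · exact hWs _
    · have h1 := htT i j
      rw [Finset.mem_filter] at h1
      refine ⟨t i j % (4 * r), Nat.mod_lt _ (by omega), ?_⟩
      simp only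
      rw [← h1.2, Nat.div_add_mod]

variable {F : Type*} [Group F] [Finite F]

/-- The cost of changing lamps along a walk. -/
lemma walkcost (m : WM H) (W : ℕ → H) (hW : ∀ t, m.d (W t) (W (t + 1)) ≤ 1) :
    ∀ (n : ℕ) (c c' : Cfg F H), (∀ z, c z ≠ c' z → ∃ t < n, W t = z) →
      (lw F m).d (mk c (W 0)) (mk c' (W n)) ≤ 2 * n := by
  intro n
  induction n with
  | zero =>
    intro c c' h
    have : c = c' := Cfg.ext fun z => by
      by_contra hz
      obtain ⟨t, ht, -⟩ := h z hz
      omega
    rw [this]; simp
  | succ n ih =>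
    intro c c' h
    have h1 := ih c (upd c' (W n) (c (W n))) (by
      intro z hz
      by_cases hzn : z = W n
      · rw [hzn, upd_self] at hz
        exact absurd rfl hz
      · rw [upd_ne _ _ hzn] at hz
        obtain ⟨t, ht, htz⟩ := h z hz
        have : t ≠ n := fun h => hzn (by rw [← htz, h])
        exact ⟨t, by omega, htz⟩)
    have h2 := lw_upd m (upd c' (W n) (c (W n))) (W n) (c' (W n))
    have h3 : upd (upd c' (W n) (c (W n))) (W n) (c' (W n)) = c' := by
      apply Cfg.ext
      intro z
      by_cases hz : z = W n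
      · rw [hz, upd_self]
      · rw [upd_ne _ _ hz, upd_ne _ _ hz]
    rw [h3] at h2
    have h4 := lw_leaf m c' (W n) (W (n + 1))
    have h5 := hW n
    have h6 := (lw F m).tri (mk c (W 0)) (mk (upd c' (W n) (c (W n))) (W n)) (mk c' (W (n + 1)))
    have h7 := (lw F m).tri (mk (upd c' (W n) (c (W n))) (W n)) (mk c' (W n)) (mk c' (W (n + 1)))
    omega

/-- The cost of changing a row. -/
lemma rowcost (m : WM H) (r : ℕ) (W : ℕ → H) (hW : ∀ t, m.d (W t) (W (t + 1)) ≤ 1)
    (h0 : m.d 1 (W 0) ≤ r) (h1 : m.d 1 (W (4 * r)) ≤ r) (c c' : Cfg F H)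
    (h : ∀ z, c z ≠ c' z → ∃ t < 4 * r, W t = z) :
    (lw F m).d (mk c 1) (mk c' 1) ≤ 10 * r := by
  have e1 := lw_leaf m c 1 (W 0)
  have e2 := walkcost m W hW (4 * r) c c' h
  have e3 := lw_leaf m c' (W (4 * r)) 1
  rw [m.d_comm (W (4 * r)) 1] at e3
  have e4 := (lw F m).tri (mk c 1) (mk c (W 0)) (mk c' 1)
  have e5 := (lw F m).tri (mk c (W 0)) (mk c' (W (4 * r))) (mk c' 1)
  omega

end

end Pool.Agent.EndsLamp
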