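import Mathlib

/-! # Variance bound and hybrids on a finite product space -/

set_option autoImplicit false
set_option linter.unusedSectionVars false
set_option linter.unnecessarySimpa false
set_option linter.unusedSimpArgs false
set_option linter.deprecated false

open scoped Classical

namespace Pool.Agent.EndsLamp

/-- the average of a function -/
noncomputable def avg {Ω : Type*} [Fintype Ω] (g : Ω → ℝ) : ℝ := (∑ ω, g ω) / Fintype.card Ω

section

variable {Ω : Type*} [Fintype Ω] [Nonempty Ω]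

lemma avg_mul (g : Ω → ℝ) : avg g * Fintype.card Ω = ∑ ω, g ω := by
  unfold avg
  have : (Fintype.card Ω : ℝ) ≠ 0 := by exact_mod_cast Fintype.card_ne_zero
  field_simp

lemma avg_le {g : Ω → ℝ} {b : ℝ} (h : ∀ ω, g ω ≤ b) : avg g ≤ b := by
  have h0 : (0 : ℝ) < Fintype.card Ω := by exact_mod_cast Fintype.card_pos
  have h1 : ∑ ω, g ω ≤ ∑ _ω : Ω, b := Finset.sum_le_sum fun ω _ => h ω
  rw [Finset.sum_const, Finset.card_univ, nsmul_eq_mul, ← avg_mul g] at h1
  nlinarith

lemma le_avg {g : Ω → ℝ} {b : ℝ} (h : ∀ ω, b ≤ g ω) : b ≤ avg g := by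
  have h0 : (0 : ℝ) < Fintype.card Ω := by exact_mod_cast Fintype.card_pos
  have h1 : ∑ _ω : Ω, b ≤ ∑ ω, g ω := Finset.sum_le_sum fun ω _ => h ω
  rw [Finset.sum_const, Finset.card_univ, nsmul_eq_mul, ← avg_mul g] at h1
  nlinarith

lemma avg_sub_le {g g' : Ω → ℝ} {b : ℝ} (h : ∀ ω, g ω ≤ g' ω + b) : avg g ≤ avg g' + b := by
  have h0 : (0 : ℝ) < Fintype.card Ω := by exact_mod_cast Fintype.card_pos
  have h1 : ∑ ω, g ω ≤ ∑ ω, (g' ω + b) := Finset.sum_le_sum fun ω _ => h ω
  rw [Finset.sum_add_distrib, Finset.sum_const, Finset.card_univ, nsmul_eq_mul, ← avg_mul g,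
    ← avg_mul g'] at h1
  nlinarith

/-- decomposition of the sum of squares -/
lemma sum_sq (g : Ω → ℝ) (E : ℝ) :
    ∑ ω, (g ω - E) ^ 2 = ∑ ω, (g ω - avg g) ^ 2 + Fintype.card Ω * (avg g - E) ^ 2 := by
  have h1 : ∀ ω, (g ω - E) ^ 2 = (g ω - avg g) ^ 2 + 2 * (avg g - E) * (g ω - avg g) +
      (avg g - E) ^ 2 := fun ω => by ring
  have h2 : ∑ ω, (g ω - avg g) = 0 := by
    rw [Finset.sum_sub_distrib, Finset.sum_const, Finset.card_univ, nsmul_eq_mul, ← avg_mul g]
    ring
  rw [Finset.sum_congr rfl fun ω _ => h1 ω, Finset.sum_add_distrib, Finset.sum_add_distrib,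
    ← Finset.mul_sum, h2, Finset.sum_const, Finset.card_univ, nsmul_eq_mul]
  ring

/-- Chebyshev -/
lemma cheb (g : Ω → ℝ) (w V : ℝ) (hw : 0 ≤ w)
    (h : ∑ ω, (g ω - avg g) ^ 2 ≤ V) :
    ((Finset.univ.filter fun ω => w < |g ω - avg g|).card : ℝ) * w ^ 2 ≤ V := by
  refine le_trans ?_ h
  rw [← nsmul_eq_mul, ← Finset.sum_const]
  refine (Finset.sum_le_sum (g := fun ω => (g ω - avg g) ^ 2) ?_).trans
    (Finset.sum_le_sum_of_subset_of_nonneg (Finset.filter_subset _ _) fun _ _ _ => sq_nonneg _)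
  intro ω hω
  rw [Finset.mem_filter] at hω
  rw [← sq_abs (g ω - avg g)]
  exact pow_le_pow_left₀ hw hω.2.le 2

end

section

variable {Θ : Type*} [Fintype Θ] [Nonempty Θ]

lemma var_bound (a : ℝ) (ha : 0 ≤ a) : ∀ (N : ℕ) (g : (Fin N → Θ) → ℝ),
    (∀ ω i θ, |g (Function.update ω i θ) - g ω| ≤ a) →
    ∑ ω, (g ω - avg g) ^ 2 ≤ N * a ^ 2 * Fintype.card (Fin N → Θ) := by
  intro N
  induction N with
  | zero =>
    intro g _
    have h1 : ∀ ω : Fin 0 → Θ, g ω - avg g = 0 := by
      intro ω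
      have : avg g = g ω := by
        unfold avg
        rw [Fintype.sum_unique]
        simp
        congr 1
        exact Subsingleton.elim _ _
      rw [this]; ring
    simp [h1]
  | succ N ih =>
    intro g hg
    set gθ : Θ → (Fin N → Θ) → ℝ := fun θ ω => g (Fin.cons θ ω) with hgθ
    set C : ℝ := (Fintype.card (Fin N → Θ) : ℝ) with hC
    set T : ℝ := (Fintype.card Θ : ℝ) with hT
    have hT0 : 0 < T := by rw [hT]; exact_mod_cast Fintype.card_pos
    have hC0 : 0 < C := by rw [hC]; exact_mod_cast Fintype.card_pos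
    have hcard : (Fintype.card (Fin (N + 1) → Θ) : ℝ) = T * C := by
      rw [hT, hC]
      simp only [Fintype.card_fun, Fintype.card_fin]
      push_cast
      ring
    have hsum : ∀ G : (Fin (N + 1) → Θ) → ℝ, ∑ ω, G ω = ∑ θ, ∑ ω : Fin N → Θ, G (Fin.cons θ ω) := by
      intro G
      rw [← Fintype.sum_prod_type' (fun (θ : Θ) (ω : Fin N → Θ) => G (Fin.cons θ ω))]
      exact (Fintype.sum_equiv (Fin.consEquiv (fun _ => Θ)) _ _ fun x => rfl).symm
    have hE : ∀ θ, avg (gθ θ) * C = ∑ ω, gθ θ ω := fun θ => avg_mul _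
    have hEE : avg g * (T * C) = ∑ θ, avg (gθ θ) * C := by
      rw [← hcard, avg_mul, hsum]
      exact Finset.sum_congr rfl fun θ _ => (hE θ).symm
    have hdiff : ∀ θ θ', avg (gθ θ) ≤ avg (gθ θ') + a := by
      intro θ θ'
      apply avg_sub_le
      intro ω
      have h1 := hg (Fin.cons θ' ω) 0 θ
      rw [Fin.update_cons_zero] at h1
      have := (abs_le.mp h1).2
      simp only [hgθ]
      linarith
    have hclose : ∀ θ, |avg (gθ θ) - avg g| ≤ a := by
      intro θ
      have h1 : T * (avg (gθ θ) - avg g) = ∑ θ', (avg (gθ θ) - avg (gθ θ')) := by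
        rw [Finset.sum_sub_distrib, Finset.sum_const, Finset.card_univ, nsmul_eq_mul, ← hT]
        have : avg g * T = ∑ θ', avg (gθ θ') := by
          have h2 : avg g * T * C = (∑ θ', avg (gθ θ')) * C := by
            rw [Finset.sum_mul, ← hEE]; ring
          exact mul_right_cancel₀ hC0.ne' h2
        rw [← this]; ring
      have h2 : T * (avg (gθ θ) - avg g) ≤ T * a := by
        rw [h1]
        calc ∑ θ', (avg (gθ θ) - avg (gθ θ')) ≤ ∑ _θ' : Θ, a :=
              Finset.sum_le_sum fun θ' _ => by linarith [hdiff θ θ']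
          _ = T * a := by rw [Finset.sum_const, Finset.card_univ, nsmul_eq_mul]
      have h3 : -(T * a) ≤ T * (avg (gθ θ) - avg g) := by
        rw [h1]
        calc -(T * a) = ∑ _θ' : Θ, (-a) := by
              rw [Finset.sum_const, Finset.card_univ, nsmul_eq_mul]; ring
          _ ≤ ∑ θ', (avg (gθ θ) - avg (gθ θ')) :=
              Finset.sum_le_sum fun θ' _ => by linarith [hdiff θ' θ]
      rw [abs_le]
      constructor
      · nlinarith
      · nlinarith
    rw [hsum, hcard]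
    have h1 : ∀ θ, ∑ ω : Fin N → Θ, (g (Fin.cons θ ω) - avg g) ^ 2 ≤ N * a ^ 2 * C + C * a ^ 2 := by
      intro θ
      have h2 := sum_sq (gθ θ) (avg g)
      have h3 := ih (gθ θ) (by
        intro ω i θ'
        have := hg (Fin.cons θ ω) i.succ θ'
        rw [← Fin.cons_update] at this
        exact this)
      have h4 : (avg (gθ θ) - avg g) ^ 2 ≤ a ^ 2 := by
        rw [← sq_abs]
        exact pow_le_pow_left₀ (abs_nonneg _) (hclose θ) 2
      calc ∑ ω : Fin N → Θ, (g (Fin.cons θ ω) - avg g) ^ 2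
          = ∑ ω, (gθ θ ω - avg (gθ θ)) ^ 2 + C * (avg (gθ θ) - avg g) ^ 2 := h2
        _ ≤ N * a ^ 2 * C + C * a ^ 2 := by nlinarith
    calc ∑ θ, ∑ ω : Fin N → Θ, (g (Fin.cons θ ω) - avg g) ^ 2
        ≤ ∑ _θ : Θ, (N * a ^ 2 * C + C * a ^ 2) := Finset.sum_le_sum fun θ _ => h1 θ
      _ = ((N + 1 : ℕ) : ℝ) * a ^ 2 * (T * C) := by
        rw [Finset.sum_const, Finset.card_univ, nsmul_eq_mul]
        push_cast
        ring

/-- hybrid of two states -/
def hyb {N : ℕ} (j : ℕ) (ω ω' : Fin N → Θ) : Fin N → Θ := fun i => if i.1 < j then ω' i else ω i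

lemma hyb_zero {N : ℕ} (ω ω' : Fin N → Θ) : hyb 0 ω ω' = ω := by
  funext i; simp [hyb]

lemma hyb_all {N : ℕ} (ω ω' : Fin N → Θ) : hyb N ω ω' = ω' := by
  funext i; simp [hyb]

lemma hyb_succ {N : ℕ} (j : ℕ) (hj : j < N) (ω ω' : Fin N → Θ) :
    hyb (j + 1) ω ω' = Function.update (hyb j ω ω') ⟨j, hj⟩ (ω' ⟨j, hj⟩) := by
  funext i
  by_cases h : i = ⟨j, hj⟩
  · subst h; simp [hyb]
  · rw [Function.update_of_ne h]
    have h' : i.1 ≠ j := fun h2 => h (Fin.ext h2)
    have : i.1 < j + 1 ↔ i.1 < j := by omega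
    simp [hyb, this]

lemma hyb_card {N : ℕ} (j : ℕ) (Bad : Finset (Fin N → Θ)) :
    ((Finset.univ : Finset ((Fin N → Θ) × (Fin N → Θ))).filter
      fun p => hyb j p.1 p.2 ∈ Bad).card = Bad.card * Fintype.card (Fin N → Θ) := by
  have h1 : Bad.card * Fintype.card (Fin N → Θ) =
      (Bad ×ˢ (Finset.univ : Finset (Fin N → Θ))).card := by
    rw [Finset.card_product, Finset.card_univ]
  rw [h1]
  have hinv : ∀ p : (Fin N → Θ) × (Fin N → Θ),
      hyb j (hyb j p.1 p.2) (hyb j p.2 p.1) = p.1 := by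
    intro p; funext i
    simp only [hyb]
    split_ifs <;> rfl
  refine Finset.card_bij' (fun p _ => (hyb j p.1 p.2, hyb j p.2 p.1))
    (fun p _ => (hyb j p.1 p.2, hyb j p.2 p.1)) ?_ ?_ ?_ ?_
  · intro p hp
    rw [Finset.mem_filter] at hp
    rw [Finset.mem_product]
    exact ⟨hp.2, Finset.mem_univ _⟩
  · intro p hp
    rw [Finset.mem_product] at hp
    rw [Finset.mem_filter]
    refine ⟨Finset.mem_univ _, ?_⟩
    simp only
    rw [hinv]
    exact hp.1
  · intro p _
    exact Prod.ext (hinv p) (hinv p.swap)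
  · intro p _
    exact Prod.ext (hinv p) (hinv p.swap)

/-- Most states are connected to a fixed one through typical states. -/
lemma connect (a : ℝ) (ha : 0 < a) (q G : ℕ) (hG : 8 * q * (q + 1) ≤ G) (hG1 : 1 ≤ G)
    (g : (Fin (q * G) → Θ) → ℝ)
    (hg : ∀ ω i θ, |g (Function.update ω i θ) - g ω| ≤ a) :
    ∃ ω₀ : Fin (q * G) → Θ, 8 * ((Finset.univ : Finset (Fin (q * G) → Θ)).filter
      fun ω => ∃ j, j ≤ q * G ∧ 2 * (G * a) < |g (hyb j ω ω₀) - avg g|).card ≤
        Fintype.card (Fin (q * G) → Θ) := by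
  set Bad : Finset (Fin (q * G) → Θ) := Finset.univ.filter fun ω => G * a < |g ω - avg g|
    with hBad
  have hGr : (1 : ℝ) ≤ G := by exact_mod_cast hG1
  have hD : 0 < (G : ℝ) * a := by positivity
  have hcheb := cheb g (G * a) _ hD.le (var_bound a ha.le (q * G) g hg)
  rw [← hBad] at hcheb
  set Cn : ℝ := (Fintype.card (Fin (q * G) → Θ) : ℝ) with hCn
  have hCn0 : 0 < Cn := by rw [hCn]; exact_mod_cast Fintype.card_pos
  have h1 : (Bad.card : ℝ) * G ≤ q * Cn := by
    have h2 : (Bad.card : ℝ) * (G * a) ^ 2 ≤ (q * Cn) * (G * a ^ 2) := by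
      refine hcheb.trans (le_of_eq ?_)
      push_cast
      ring
    have h3 : ((Bad.card : ℝ) * G) * (G * a ^ 2) ≤ (q * Cn) * (G * a ^ 2) := by
      calc ((Bad.card : ℝ) * G) * (G * a ^ 2) = (Bad.card : ℝ) * (G * a) ^ 2 := by ring
        _ ≤ _ := h2
    exact le_of_mul_le_mul_right h3 (by positivity)
  have h8 : 8 * ((q + 1) * (Bad.card : ℝ)) ≤ Cn := by
    have h2 : (8 : ℝ) * q * (q + 1) ≤ G := by exact_mod_cast hG
    have h3 : 8 * ((q + 1) * (Bad.card : ℝ)) * G ≤ Cn * G := by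
      calc 8 * ((q + 1) * (Bad.card : ℝ)) * G = 8 * (q + 1) * ((Bad.card : ℝ) * G) := by ring
        _ ≤ 8 * (q + 1) * (q * Cn) := by
            apply mul_le_mul_of_nonneg_left h1; positivity
        _ = (8 * q * (q + 1)) * Cn := by ring
        _ ≤ G * Cn := mul_le_mul_of_nonneg_right h2 hCn0.le
        _ = Cn * G := by ring
    exact le_of_mul_le_mul_right h3 (by linarith)
  -- double counting
  obtain ⟨ω₀, hω₀⟩ : ∃ ω₀ : Fin (q * G) → Θ,
      ((Finset.univ : Finset (Fin (q * G) → Θ)).filter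
        fun ω => ∃ l ∈ Finset.range (q + 1), hyb (l * G) ω ω₀ ∈ Bad).card ≤ (q + 1) * Bad.card := by
    by_contra hcon
    push Not at hcon
    have h2 : ((Finset.univ : Finset ((Fin (q * G) → Θ) × (Fin (q * G) → Θ))).filter
        fun p => ∃ l ∈ Finset.range (q + 1), hyb (l * G) p.1 p.2 ∈ Bad).card ≤
        (q + 1) * (Bad.card * Fintype.card (Fin (q * G) → Θ)) := by
      have hsub : ((Finset.univ : Finset ((Fin (q * G) → Θ) × (Fin (q * G) → Θ))).filter
          fun p => ∃ l ∈ Finset.range (q + 1), hyb (l * G) p.1 p.2 ∈ Bad) ⊆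
          (Finset.range (q + 1)).biUnion fun l =>
            (Finset.univ : Finset ((Fin (q * G) → Θ) × (Fin (q * G) → Θ))).filter
              fun p => hyb (l * G) p.1 p.2 ∈ Bad := by
        intro p hp
        rw [Finset.mem_filter] at hp
        obtain ⟨-, l, hl, hp⟩ := hp
        rw [Finset.mem_biUnion]
        exact ⟨l, hl, Finset.mem_filter.mpr ⟨Finset.mem_univ _, hp⟩⟩
      refine (Finset.card_le_card hsub).trans (Finset.card_biUnion_le.trans ?_)
      rw [Finset.sum_congr rfl fun l _ => hyb_card (l * G) Bad, Finset.sum_const,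
        Finset.card_range, smul_eq_mul]
    have h3 : ((Finset.univ : Finset ((Fin (q * G) → Θ) × (Fin (q * G) → Θ))).filter
        fun p => ∃ l ∈ Finset.range (q + 1), hyb (l * G) p.1 p.2 ∈ Bad).card =
        ∑ ω₀ : Fin (q * G) → Θ, ((Finset.univ : Finset (Fin (q * G) → Θ)).filter
          fun ω => ∃ l ∈ Finset.range (q + 1), hyb (l * G) ω ω₀ ∈ Bad).card := by
      simp only [Finset.card_filter]
      rw [Fintype.sum_prod_type_right]
    rw [h3] at h2
    have h4 : ∑ _ω₀ : Fin (q * G) → Θ, ((q + 1) * Bad.card + 1) ≤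
        ∑ ω₀ : Fin (q * G) → Θ, ((Finset.univ : Finset (Fin (q * G) → Θ)).filter
          fun ω => ∃ l ∈ Finset.range (q + 1), hyb (l * G) ω ω₀ ∈ Bad).card :=
      Finset.sum_le_sum fun ω₀ _ => hcon ω₀
    rw [Finset.sum_const, Finset.card_univ, smul_eq_mul] at h4
    have h5 : 0 < Fintype.card (Fin (q * G) → Θ) := Fintype.card_pos
    nlinarith
  refine ⟨ω₀, ?_⟩
  have hsub : ((Finset.univ : Finset (Fin (q * G) → Θ)).filter
      fun ω => ∃ j, j ≤ q * G ∧ 2 * (G * a) < |g (hyb j ω ω₀) - avg g|) ⊆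
      ((Finset.univ : Finset (Fin (q * G) → Θ)).filter
        fun ω => ∃ l ∈ Finset.range (q + 1), hyb (l * G) ω ω₀ ∈ Bad) := by
    intro ω hω
    rw [Finset.mem_filter] at hω ⊢
    obtain ⟨-, j, hj, hjd⟩ := hω
    refine ⟨Finset.mem_univ _, j / G, ?_, ?_⟩
    · rw [Finset.mem_range, Nat.lt_succ_iff]
      exact Nat.div_le_of_le_mul (by rw [mul_comm]; exact hj)
    · rw [hBad, Finset.mem_filter]
      refine ⟨Finset.mem_univ _, ?_⟩
      have hwalk : ∀ s, j / G * G + s ≤ q * G →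
          |g (hyb (j / G * G + s) ω ω₀) - g (hyb (j / G * G) ω ω₀)| ≤ s * a := by
        intro s
        induction s with
        | zero => intro _; simp
        | succ s ih =>
          intro hs
          have e1 := ih (by omega)
          have e2 := hg (hyb (j / G * G + s) ω ω₀) ⟨j / G * G + s, by omega⟩
            (ω₀ ⟨j / G * G + s, by omega⟩)
          rw [← hyb_succ] at e2
          rw [← add_assoc]
          push_cast
          calc |g (hyb (j / G * G + s + 1) ω ω₀) - g (hyb (j / G * G) ω ω₀)| ≤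
              |g (hyb (j / G * G + s + 1) ω ω₀) - g (hyb (j / G * G + s) ω ω₀)| +
              |g (hyb (j / G * G + s) ω ω₀) - g (hyb (j / G * G) ω ω₀)| := abs_sub_le _ _ _
            _ ≤ a + s * a := add_le_add e2 e1
            _ = (s + 1) * a := by ring
      have e1 := hwalk (j % G) (by rw [Nat.div_add_mod']; exact hj)
      rw [Nat.div_add_mod'] at e1
      have e2 : ((j % G : ℕ) : ℝ) * a ≤ G * a := by
        apply mul_le_mul_of_nonneg_right _ ha.le
        exact_mod_cast (Nat.mod_lt _ (by omega)).le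
      have e3 := abs_sub_le (g (hyb j ω ω₀)) (g (hyb (j / G * G) ω ω₀)) (avg g)
      linarith
  have h9 := Finset.card_le_card hsub
  have h10 : 8 * ((q + 1) * Bad.card) ≤ Fintype.card (Fin (q * G) → Θ) := by
    rw [hCn] at h8
    exact_mod_cast h8
  omega

end

end Pool.Agent.EndsLamp
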