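import Pool.Agent.EndsLamp.Star
import Pool.Agent.EndsLamp.Rows
import Pool.Agent.EndsLamp.Var

/-! # Preparations for the counting argument -/

set_option autoImplicit false
set_option linter.unusedSectionVars false
set_option linter.unnecessarySimpa false
set_option linter.unusedSimpArgs false
set_option linter.unusedVariables false
set_option linter.deprecated false

open scoped Classical

namespace Pool.Agent.EndsLamp

section

variable {G : Type*} [Group G]

lemma ball_card (m : WM G) : ∃ Λ : ℕ, 1 ≤ Λ ∧ ∀ (n : ℕ) (x : G), {y | m.d x y ≤ n}.ncard ≤ Λ ^ n := by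
  have h1 : ∀ n : ℕ, ∀ x : G, {y | m.d x y ≤ n}.ncard = {g | m.len g ≤ n}.ncard := by
    intro n x
    have : {y | m.d x y ≤ n} = (fun y => x * y) '' {g | m.len g ≤ n} := by
      ext y; constructor
      · intro h; exact ⟨x⁻¹ * y, h, by simp⟩
      · rintro ⟨g, hg, rfl⟩; simpa [WM.d] using hg
    rw [this, Set.ncard_image_of_injective _ (mul_right_injective x)]
  refine ⟨{g | m.len g ≤ 1}.ncard, ?_, ?_⟩
  · rw [Nat.one_le_iff_ne_zero]
    intro h
    rw [Set.ncard_eq_zero (m.fin 1)] at h
    have : (1 : G) ∈ {g | m.len g ≤ 1} := by simp [m.len_one]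
    rw [h] at this
    exact this
  · intro n x
    rw [h1]
    induction n with
    | zero =>
      have : {g | m.len g ≤ 0} ⊆ {1} := fun g hg => m.eq_one g (by simpa using hg)
      calc {g | m.len g ≤ 0}.ncard ≤ ({1} : Set G).ncard := Set.ncard_le_ncard this
        _ = _ := by simp
    | succ n ih =>
      have hsub : {g | m.len g ≤ n + 1} ⊆
          (fun p : G × G => p.1 * p.2) '' ({g | m.len g ≤ n} ×ˢ {g | m.len g ≤ 1}) := by
        intro g hg
        by_cases hn : m.len g ≤ n
        · exact ⟨(g, 1), ⟨hn, by simp [m.len_one]⟩, by simp⟩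
        · simp only [Set.mem_setOf_eq] at hg
          obtain ⟨a, b, hab, ha, hb⟩ := m.split g n (by omega)
          exact ⟨(a, b), ⟨by simp [ha], hb⟩, hab.symm⟩
      calc {g | m.len g ≤ n + 1}.ncard ≤ _ :=
            Set.ncard_le_ncard hsub (((m.fin n).prod (m.fin 1)).image _)
        _ ≤ ({g | m.len g ≤ n} ×ˢ {g | m.len g ≤ 1} : Set (G × G)).ncard :=
            Set.ncard_image_le ((m.fin n).prod (m.fin 1))
        _ = {g | m.len g ≤ n}.ncard * {g | m.len g ≤ 1}.ncard := Set.ncard_prod
        _ ≤ _ := by rw [pow_succ]; exact Nat.mul_le_mul_right _ ih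

lemma Cn.of_close {m : WM G} {x y : G} {n : ℕ} {U : Set G} (h : m.d x y ≤ n)
    (hU : ∀ z, m.d x z ≤ n → z ∈ U) : Cn m U x y := (ball_conn x n h).mono fun z hz => hU z hz

end

section

variable {F H : Type*} [Group F] [Group H] [Finite F]

lemma cn_low {m : WM H} {s : ℕ} {u v : Lm F H}
    (h : Cn (lw F m) {w | m.d 1 (ps w) ≤ s} u v) (z : H) (hz : s < m.d 1 z) :
    cf v z = cf u z := by
  refine h.prop (fun w => cf w z = cf u z) (fun a b ha hb hab hPa => ?_) rfl
  rw [← hPa]
  by_contra hne
  have := (lw_step m hab).2 z hne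
  simp only [Set.mem_setOf_eq] at ha
  rw [this] at hz
  omega

lemma cn_high {m : WM H} {s : ℕ} {u v : Lm F H}
    (h : Cn (lw F m) {w | s < m.d 1 (ps w)} u v) :
    (∀ z, m.d 1 z ≤ s → cf v z = cf u z) ∧ Cn m {z | s < m.d 1 z} (ps u) (ps v) := by
  constructor
  · intro z hz
    refine h.prop (fun w => cf w z = cf u z) (fun a b ha hb hab hPa => ?_) rfl
    rw [← hPa]
    by_contra hne
    have := (lw_step m hab).2 z hne
    simp only [Set.mem_setOf_eq] at ha
    rw [this] at hz
    omega
  · refine h.prop (fun w => Cn m {z | s < m.d 1 z} (ps u) (ps w))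
      (fun a b ha hb hab hPa => ?_) (Cn.refl _)
    exact hPa.trans (Cn.step ha hb (lw_step m hab).1)

/-- Performing only the changes of lamps in `S`. -/
lemma modify (m : WM H) (S : Set H) (u v : Lm F H) :
    (lw F m).d u (mk (comb S (cf v) (cf u)) (ps v)) ≤ (lw F m).d u v := by
  have key : ∀ n, ∀ v, (lw F m).d u v = n →
      (lw F m).d u (mk (comb S (cf v) (cf u)) (ps v)) ≤ n := by
    intro n
    induction n with
    | zero =>
      intro v h
      rw [← (lw F m).eq_of_d h]
      have : comb S (cf u) (cf u) = cf u := Cfg.ext fun z => by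
        by_cases hz : z ∈ S
        · rw [comb_mem _ _ hz]
        · rw [comb_not _ _ hz]
      rw [this, mk_cf_ps]; simp
    | succ n ih =>
      intro v h
      obtain ⟨v', h1, h2⟩ := (lw F m).prev h
      have h3 := ih v' h1
      have h4 : (lw F m).d (mk (comb S (cf v') (cf u)) (ps v')) (mk (comb S (cf v) (cf u)) (ps v))
          ≤ 1 := by
        rcases lw_step' m h2 with ⟨e1, e2⟩ | ⟨e1, e2⟩
        · rw [e1]
          exact (lw_leaf m _ _ _).trans e2
        · by_cases hp : ps v' ∈ S
          · have : comb S (cf v) (cf u) =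
                upd (comb S (cf v') (cf u)) (ps v') (cf v (ps v')) := by
              apply Cfg.ext
              intro z
              by_cases hz : z = ps v'
              · rw [hz, upd_self, comb_mem _ _ hp]
              · rw [upd_ne _ _ hz]
                by_cases hzS : z ∈ S
                · rw [comb_mem _ _ hzS, comb_mem _ _ hzS, e2, upd_ne _ _ hz]
                · rw [comb_not _ _ hzS, comb_not _ _ hzS]
            rw [this, e1]
            exact lw_upd m _ _ _
          · have : comb S (cf v) (cf u) = comb S (cf v') (cf u) := by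
              apply Cfg.ext
              intro z
              by_cases hzS : z ∈ S
              · have hz : z ≠ ps v' := fun h => hp (h ▸ hzS)
                rw [comb_mem _ _ hzS, comb_mem _ _ hzS, e2, upd_ne _ _ hz]
              · rw [comb_not _ _ hzS, comb_not _ _ hzS]
            rw [this, e1]
            simp
      have h5 := (lw F m).tri u (mk (comb S (cf v') (cf u)) (ps v'))
        (mk (comb S (cf v) (cf u)) (ps v))
      omega
  exact key _ v rfl

end

section

/-- the zero state -/
def z0 {N r : ℕ} : Fin N → Fin r → Bool := fun _ _ => false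

/-- number of lamps that are on -/
noncomputable def nt {N r : ℕ} (ω : Fin N → Fin r → Bool) : ℕ :=
  (Finset.univ.filter fun p : Fin N × Fin r => ω p.1 p.2 = true).card

lemma hyb_update {N : ℕ} {Θ : Type*} (k : ℕ) (η ω : Fin N → Θ) (i : Fin N) (θ : Θ) :
    hyb k η (Function.update ω i θ) = hyb k η ω ∨
    hyb k η (Function.update ω i θ) = Function.update (hyb k η ω) i θ := by
  by_cases h : i.1 < k
  · right
    funext j
    by_cases hj : j = i
    · subst hj; simp [hyb, h]
    · simp [hyb, Function.update_of_ne hj]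
  · left
    funext j
    by_cases hj : j = i
    · subst hj; simp [hyb, h]
    · simp [hyb, Function.update_of_ne hj]

lemma avg_nt {N r : ℕ} (h : (Fin N → Fin r → Bool) → ℝ) (C : ℝ) (hC : 0 < C)
    (hlow : ∀ ω, (nt ω : ℝ) ≤ C * (h ω + r + 1)) :
    (N * r : ℝ) / (2 * C) ≤ avg h + r + 1 := by
  have h0 : (0 : ℝ) < Fintype.card (Fin N → Fin r → Bool) := by exact_mod_cast Fintype.card_pos
  -- flipping all lamps
  let e : (Fin N → Fin r → Bool) ≃ (Fin N → Fin r → Bool) :=
    { toFun := fun ω i j => !ω i j
      invFun := fun ω i j => !ω i j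
      left_inv := fun ω => by funext i j; simp
      right_inv := fun ω => by funext i j; simp }
  have h1 : ∀ ω, nt ω + nt (e ω) = N * r := by
    intro ω
    have h2 : nt (e ω) = (Finset.univ.filter fun p : Fin N × Fin r => ¬ ω p.1 p.2 = true).card := by
      unfold nt
      congr 1
      ext p
      simp [e]
    rw [h2]
    unfold nt
    rw [Finset.card_filter_add_card_filter_not]
    simp
  have h2 : ∑ ω, h ω = ∑ ω, h (e ω) := (Equiv.sum_comp e h).symm
  have h3 : ∀ ω, (N * r : ℝ) ≤ C * (h ω + h (e ω) + 2 * (r + 1)) := by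
    intro ω
    have e1 := hlow ω
    have e2 := hlow (e ω)
    have e3 : (N * r : ℝ) = nt ω + nt (e ω) := by exact_mod_cast (h1 ω).symm
    nlinarith
  have h4 : ∑ _ω : Fin N → Fin r → Bool, (N * r : ℝ) ≤
      ∑ ω, C * (h ω + h (e ω) + 2 * (r + 1)) := Finset.sum_le_sum fun ω _ => h3 ω
  have h4' : ∑ ω, C * (h ω + h (e ω) + 2 * (r + 1)) =
      C * (∑ ω, h ω + ∑ ω, h ω + (Fintype.card (Fin N → Fin r → Bool) : ℝ) * (2 * (r + 1))) := by
    rw [← Finset.mul_sum, Finset.sum_add_distrib, Finset.sum_add_distrib, ← h2, Finset.sum_const,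
      Finset.card_univ, nsmul_eq_mul]
  rw [h4', Finset.sum_const, Finset.card_univ, nsmul_eq_mul, ← avg_mul h] at h4
  set c : ℝ := (Fintype.card (Fin N → Fin r → Bool) : ℝ) with hc
  have h5 : (N * r : ℝ) * c ≤ (2 * C * (avg h + r + 1)) * c := by nlinarith
  have h6 := le_of_mul_le_mul_right h5 h0
  rw [div_le_iff₀ (by positivity)]
  linarith

lemma slope {N r : ℕ} (G J j0 : ℕ) (hN : N = J * G) (hj0 : j0 ≤ J)
    (h : (Fin N → Fin r → Bool) → ℝ) (a C : ℝ) (ha : 0 ≤ a) (hC : 0 < C)
    (hLip : ∀ ω i θ, |h (Function.update ω i θ) - h ω| ≤ a)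
    (hlow : ∀ ω, (nt ω : ℝ) ≤ C * (h ω + r + 1))
    (hbig : h z0 + j0 * G * a + r + 1 < N * r / (4 * C)) :
    ∃ j, j0 ≤ j ∧ j < J ∧ G * r / (4 * C) ≤
      avg (fun ω => h (hyb ((j + 1) * G) z0 ω)) - avg (fun ω => h (hyb (j * G) z0 ω)) := by
  by_contra hcon
  push Not at hcon
  have h1 : ∀ k, k ≤ N → avg (fun ω => h (hyb k z0 ω)) ≤ h z0 + k * a := by
    intro k
    induction k with
    | zero =>
      intro _
      refine avg_le fun ω => ?_
      rw [hyb_zero]; simp
    | succ k ih =>
      intro hk
      have e1 := ih (by omega)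
      have e2 : avg (fun ω => h (hyb (k + 1) z0 ω)) ≤ avg (fun ω => h (hyb k z0 ω)) + a := by
        apply avg_sub_le
        intro ω
        rw [hyb_succ k (by omega)]
        have := (abs_le.mp (hLip (hyb k z0 ω) ⟨k, by omega⟩ (ω ⟨k, by omega⟩))).2
        linarith
      push_cast
      linarith
  have h2 : ∀ n, j0 + n ≤ J → avg (fun ω => h (hyb ((j0 + n) * G) z0 ω)) ≤
      h z0 + j0 * G * a + n * (G * r / (4 * C)) := by
    intro n
    induction n with
    | zero =>
      intro _
      have := h1 (j0 * G) (by rw [hN]; exact Nat.mul_le_mul_right _ hj0)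
      push_cast at this
      simpa using this
    | succ n ih =>
      intro hn
      have e1 := ih (by omega)
      have e2 := hcon (j0 + n) (by omega) (by omega)
      rw [show j0 + (n + 1) = j0 + n + 1 by ring]
      push_cast
      linarith
  have h3 := h2 (J - j0) (by omega)
  have h4 : (j0 + (J - j0)) * G = N := by rw [hN]; congr 1; omega
  rw [h4] at h3
  have h5 : (fun ω => h (hyb N z0 ω)) = h := by funext ω; rw [hyb_all]
  rw [h5] at h3
  have h6 := avg_nt h C hC hlow
  have h7 : ((J - j0 : ℕ) : ℝ) * (G * r / (4 * C)) ≤ N * r / (4 * C) := by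
    have : ((J - j0 : ℕ) : ℝ) ≤ J := by exact_mod_cast Nat.sub_le _ _
    rw [hN]
    push_cast
    calc ((J - j0 : ℕ) : ℝ) * (G * r / (4 * C)) ≤ J * (G * r / (4 * C)) := by
          apply mul_le_mul_of_nonneg_right this; positivity
      _ = _ := by ring
  have h8 : (N * r : ℝ) / (2 * C) = N * r / (4 * C) + N * r / (4 * C) := by
    field_simp; ring
  rw [h8] at h6
  linarith

/-- number of states with a given truncation -/
lemma fiber_card {N r : ℕ} (k : ℕ) (hk : k ≤ N) (S : Finset (Fin N → Fin r → Bool)) :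
    S.card ≤ (2 ^ r) ^ (N - k) * (S.image (hyb k z0)).card := by
  apply Finset.card_le_mul_card_image
  intro τ _
  have h1 : (S.filter fun ω => hyb k z0 ω = τ).card ≤
      Fintype.card ({i : Fin N // ¬ i.1 < k} → Fin r → Bool) := by
    rw [← Finset.card_univ]
    apply Finset.card_le_card_of_injOn (fun ω => fun i => ω i.1) (fun _ _ => Finset.mem_coe.mpr (Finset.mem_univ _))
    intro ω hω ω' hω' heq
    simp only [Finset.coe_filter, Set.mem_setOf_eq] at hω hω'
    funext i
    by_cases hi : i.1 < k
    · have e1 := congrFun hω.2 i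
      have e2 := congrFun hω'.2 i
      simp only [hyb, hi, if_true] at e1 e2
      rw [e1, e2]
    · exact congrFun heq ⟨i, hi⟩
  refine h1.trans (le_of_eq ?_)
  rw [Fintype.card_fun, Fintype.card_fun, Fintype.card_bool, Fintype.card_fin]
  congr 1
  have e1 : Fintype.card {i : Fin N // i.1 < k} = k := by
    rw [Fintype.card_subtype]
    have : (Finset.univ.filter fun i : Fin N => i.1 < k).card = ((Finset.range k)).card := by
      apply Finset.card_bij (fun i _ => i.1)
      · intro i hi; simpa using hi
      · intro i _ j _ hij; exact Fin.ext hij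
      · intro i hi
        rw [Finset.mem_range] at hi
        exact ⟨⟨i, by omega⟩, by simp [hi], rfl⟩
    rw [this, Finset.card_range]
  have e2 := Fintype.card_subtype_compl (fun i : Fin N => i.1 < k)
  rw [e1, Fintype.card_fin] at e2
  convert e2 using 1

end

end Pool.Agent.EndsLamp
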