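import Pool.Agent.EndsLamp.WM

/-! # Components of complements of finite sets -/

set_option autoImplicit false
set_option linter.unusedSectionVars false
set_option linter.unnecessarySimpa false
set_option linter.deprecated false

open scoped Pointwise Classical

namespace Pool.Agent.EndsLamp

variable {H : Type*} [Group H] (m : WM H)

/-- `A` avoids `K` and is closed under unit steps outside `K`. -/
structure Clo (K A : Set H) : Prop where
  disj : ∀ x ∈ A, x ∉ K
  clo : ∀ x ∈ A, ∀ y, y ∉ K → m.d x y ≤ 1 → y ∈ A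

/-- `A` is a component of the complement of `K`. -/
structure IsComp (K A : Set H) : Prop extends Clo m K A where
  conn : ∀ x ∈ A, ∀ y ∈ A, Cn m A x y

variable {m}

lemma Clo.exit {K A : Set H} (h : Clo m K A) {x y : H} (hx : x ∈ A) (hy : y ∉ A) :
    ∃ k ∈ K, m.d x k + m.d k y ≤ m.d x y := by
  obtain ⟨a, b, ha, hb, hab, h1, h2⟩ := m.change (fun z => z ∈ A) hx hy
  refine ⟨b, ?_, by omega⟩
  by_contra hk
  exact hb (h.clo a ha b hk hab)

lemma Clo.mono {K K' A : Set H} (h : Clo m K A) (hKK : K ⊆ K') : Clo m K' (A \ K') :=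
  ⟨fun _ hx => hx.2, fun x hx y hy hd => ⟨h.clo x hx.1 y (fun h => hy (hKK h)) hd, hy⟩⟩

/-- points deep inside -/
lemma Clo.deep {K A : Set H} (h : Clo m K A) {r : ℕ} {x : H} (hx : x ∈ A)
    (hd : ∀ k ∈ K, r < m.d x k) {y : H} (hy : m.d x y ≤ r) : y ∈ A := by
  by_contra hA
  obtain ⟨k, hk, h1⟩ := h.exit hx hA
  have := hd k hk
  omega

lemma Clo.almostInvariant {K A : Set H} (h : Clo m K A) (hK : K.Finite) :
    AlmostInvariant A := by
  intro g
  apply (m.nb_fin hK (m.len g)).subset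
  rintro z (⟨hz, hzg⟩ | ⟨⟨x, hx, rfl⟩, hz⟩)
  · have h1 : z * g⁻¹ ∉ A := fun h => hzg ⟨z * g⁻¹, h, by simp⟩
    obtain ⟨k, hk, h2⟩ := h.exit hz h1
    refine ⟨k, hk, ?_⟩
    rw [m.d_mul_right, m.len_inv] at h2
    omega
  · obtain ⟨k, hk, h2⟩ := h.exit hx hz
    refine ⟨k, hk, ?_⟩
    simp only [m.d_mul_right] at h2
    rw [m.d_comm]
    change m.d k (x * g) ≤ m.len g
    omega

/-- the component of a point -/
def compOf (m : WM H) (K : Set H) (x : H) : Set H := {y | Cn m Kᶜ x y}

lemma mem_compOf {K : Set H} (x : H) : x ∈ compOf m K x := Cn.refl x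

lemma compOf_isComp {K : Set H} {x : H} (hx : x ∉ K) : IsComp m K (compOf m K x) where
  disj := fun y hy => Cn.mem hy hx
  clo := fun y hy z hz hd => Cn.trans hy (Cn.step (Cn.mem hy hx) hz hd)
  conn := by
    have key : ∀ y, Cn m Kᶜ x y → Cn m (compOf m K x) x y := by
      intro y hy
      unfold Cn at hy
      induction hy with
      | refl => exact Cn.refl x
      | tail hab hbc ih =>
        exact ih.trans (Cn.step hab (Relation.ReflTransGen.tail hab hbc) hbc.2.2)
    intro y hy z hz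
    exact (key y hy).symm.trans (key z hz)

lemma compOf_eq {K : Set H} {x y : H} (h : y ∈ compOf m K x) : compOf m K y = compOf m K x := by
  ext z
  exact ⟨fun hz => Cn.trans h hz, fun hz => Cn.trans (Cn.symm h) hz⟩

lemma fin_comps {K : Set H} (hK : K.Finite) (hne : K.Nonempty) :
    {x | x ∉ K ∧ (compOf m K x).Finite}.Finite := by
  have : {x | x ∉ K ∧ (compOf m K x).Finite} ⊆
      ⋃ y ∈ {y | y ∈ m.nb 1 K ∧ (compOf m K y).Finite}, compOf m K y := by
    rintro x ⟨hx, hxf⟩
    obtain ⟨k, hk⟩ := hne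
    have hc := compOf_isComp (m := m) hx
    obtain ⟨a, b, ha, hb, hab, h1, h2⟩ := m.change (fun z => z ∈ compOf m K x)
      (mem_compOf x) (y := k) (fun h => hc.disj k h hk)
    have hbK : b ∈ K := by
      by_contra h
      exact hb (hc.clo a ha b h hab)
    have he := compOf_eq ha
    simp only [Set.mem_iUnion]
    exact ⟨a, ⟨⟨b, hbK, hab⟩, by rw [he]; exact hxf⟩, by rw [he]; exact mem_compOf x⟩
  apply Set.Finite.subset _ this
  apply Set.Finite.biUnion
  · exact (m.nb_fin hK 1).subset fun y hy => hy.1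
  · intro y hy; exact hy.2

/-- An infinite set closed outside `K` contains an infinite component of the complement of any
finite `K' ⊇ K`. -/
lemma Clo.subcomp {K K' C : Set H} (h : Clo m K C) (hC : C.Infinite) (hKK : K ⊆ K')
    (hK' : K'.Finite) (hne : K'.Nonempty) :
    ∃ A, IsComp m K' A ∧ A.Infinite ∧ A ⊆ C := by
  have hfin := (hK'.union (fin_comps (m := m) hK' hne))
  obtain ⟨x, hx, hx'⟩ := (hC.diff hfin).nonempty
  simp only [Set.mem_union, Set.mem_setOf_eq, not_or, not_and] at hx'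
  have hxK := hx'.1
  refine ⟨compOf m K' x, compOf_isComp hxK, hx'.2 hxK, ?_⟩
  intro y hy
  exact Cn.prop hy (fun z => z ∈ C) (fun a b ha hb hab hPa =>
    h.clo a hPa b (fun h => hb (hKK h)) hab) hx

lemma infinite_of_hasEnds {n : ℕ} (hn : 0 < n) (h : HasEnds n H) : Infinite H := by
  obtain ⟨A, hA, -, -⟩ := h
  exact Set.infinite_univ_iff.mp ((hA ⟨0, hn⟩).mono (Set.subset_univ _))

/-- One-endedness: complements of suitable large finite sets are connected. -/
lemma oneEnded_conn (h : OneEnded H) {K : Set H} (hK : K.Finite) :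
    ∃ B : Set H, B.Finite ∧ K ⊆ B ∧ ∀ x, x ∉ B → ∀ y, y ∉ B → Cn m Bᶜ x y := by
  classical
  set K₀ : Set H := insert 1 K with hK₀
  have hK₀f : K₀.Finite := hK.insert 1
  have hne : K₀.Nonempty := ⟨1, by simp [hK₀]⟩
  set B : Set H := K₀ ∪ {x | x ∉ K₀ ∧ (compOf m K₀ x).Finite} with hB
  have hBf : B.Finite := hK₀f.union (fin_comps hK₀f hne)
  have out : ∀ x, x ∉ B → x ∉ K₀ ∧ (compOf m K₀ x).Infinite := by
    intro x hx
    simp only [hB, Set.mem_union, Set.mem_setOf_eq, not_or, not_and] at hx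
    exact ⟨hx.1, hx.2 hx.1⟩
  have up : ∀ x y, x ∉ B → Cn m K₀ᶜ x y → Cn m Bᶜ x y := by
    intro x y hx hxy
    have hx' := out x hx
    have : ∀ z, z ∈ compOf m K₀ x → z ∉ B := by
      intro z hz
      simp only [hB, Set.mem_union, Set.mem_setOf_eq, not_or, not_and]
      refine ⟨(compOf_isComp hx'.1).disj z hz, fun _ => ?_⟩
      rw [compOf_eq hz]; exact hx'.2
    exact Cn.mono (fun z hz => this z hz)
      ((compOf_isComp hx'.1).conn x (mem_compOf x) y hxy)
  refine ⟨B, hBf, (Set.subset_insert _ _).trans Set.subset_union_left, ?_⟩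
  intro x hx y hy
  apply up x y hx
  by_contra hne2
  apply h.2
  have hx' := out x hx
  have hy' := out y hy
  refine ⟨![compOf m K₀ x, compOf m K₀ y], ?_, ?_, ?_⟩
  · intro i; fin_cases i
    · exact hx'.2
    · exact hy'.2
  · intro i; fin_cases i
    · exact (compOf_isComp hx'.1).toClo.almostInvariant hK₀f
    · exact (compOf_isComp hy'.1).toClo.almostInvariant hK₀f
  · have hd : Disjoint (compOf m K₀ x) (compOf m K₀ y) := by
      rw [Set.disjoint_left]
      intro z hz1 hz2
      exact hne2 (Cn.trans hz1 (Cn.symm hz2))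
    intro i j hij
    fin_cases i <;> fin_cases j
    · exact absurd rfl hij
    · exact hd
    · exact hd.symm
    · exact absurd rfl hij

/-- thickened boundary of an almost invariant set -/
lemma ai_bd {A : Set H} (hA : AlmostInvariant A) (r : ℕ) :
    {x | (∃ y ∈ A, m.d x y ≤ r) ∧ ∃ y, y ∉ A ∧ m.d x y ≤ r}.Finite := by
  have : {x | (∃ y ∈ A, m.d x y ≤ r) ∧ ∃ y, y ∉ A ∧ m.d x y ≤ r} ⊆
      ⋃ g ∈ {g | m.len g ≤ r}, ⋃ h ∈ {h | m.len h ≤ r},
        (fun x => x * h⁻¹) '' (symmDiff A ((fun x => x * (g⁻¹ * h)) '' A)) := by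
    rintro x ⟨⟨y, hy, hxy⟩, z, hz, hxz⟩
    simp only [Set.mem_iUnion]
    refine ⟨x⁻¹ * y, hxy, x⁻¹ * z, hxz, z, Or.inr ⟨⟨y, hy, by group⟩, hz⟩, by group⟩
  apply Set.Finite.subset _ this
  apply (m.fin r).biUnion
  intro g _
  apply (m.fin r).biUnion
  intro h _
  exact (hA _).image _

/-- balls are connected -/
lemma ball_conn (x : H) (n : ℕ) {y : H} (hy : m.d x y ≤ n) : Cn m {z | m.d x z ≤ n} x y := by
  have key : ∀ k y, m.d x y = k → k ≤ n → Cn m {z | m.d x z ≤ n} x y := by
    intro k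
    induction k with
    | zero => intro y h _; rw [m.eq_of_d h]; exact Cn.refl _
    | succ k ih =>
      intro y h hk
      obtain ⟨y', h1, h2⟩ := m.prev h
      exact (ih y' h1 (by omega)).trans (Cn.step (by simp; omega) (by simp; omega) h2)
  exact key _ y rfl hy

/-- Three infinite components outside a ball. -/
lemma three_comps (h : HasEnds 3 H) : ∃ (n : ℕ) (C : Fin 3 → Set H),
    (∀ i, IsComp m {z | m.d 1 z ≤ n} (C i)) ∧ (∀ i, (C i).Infinite) ∧
    Pairwise fun i j => Disjoint (C i) (C j) := by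
  obtain ⟨A, hA, hAI, hd⟩ := h
  have hbd : (⋃ i, {x | (∃ y ∈ A i, m.d x y ≤ 1) ∧ ∃ y, y ∉ A i ∧ m.d x y ≤ 1}).Finite :=
    Set.finite_iUnion fun i => ai_bd (hAI i) 1
  obtain ⟨n, hn⟩ := m.bdd hbd 1
  have hclo : ∀ i, Clo m {z | m.d 1 z ≤ n} (A i \ {z | m.d 1 z ≤ n}) := by
    intro i
    refine ⟨fun x hx => hx.2, fun x hx y hy hxy => ⟨?_, hy⟩⟩
    by_contra hyA
    apply hx.2
    apply hn x
    simp only [Set.mem_iUnion]
    exact ⟨i, ⟨x, hx.1, by simp⟩, y, hyA, hxy⟩
  have hfin : {z | m.d 1 z ≤ n}.Finite := m.ball_fin 1 n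
  have hsub : ∀ i, ∃ C, IsComp m {z | m.d 1 z ≤ n} C ∧ C.Infinite ∧
      C ⊆ (A i \ {z | m.d 1 z ≤ n}) := fun i =>
    (hclo i).subcomp ((hA i).diff hfin) subset_rfl hfin ⟨1, by simp⟩
  choose C hC1 hC2 hC3 using hsub
  refine ⟨n, C, hC1, hC2, fun i j hij => ?_⟩
  exact (hd hij).mono ((hC3 i).trans Set.diff_subset) ((hC3 j).trans Set.diff_subset)

lemma IsComp.translate {K A : Set H} (h : IsComp m K A) (g : H) :
    IsComp m ((fun z => g * z) '' K) ((fun z => g * z) '' A) where
  disj := by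
    rintro _ ⟨x, hx, rfl⟩ ⟨y, hy, hxy⟩
    simp only [mul_right_inj] at hxy
    subst hxy
    exact h.disj _ hx hy
  clo := by
    rintro _ ⟨x, hx, rfl⟩ y hy hd
    refine ⟨g⁻¹ * y, h.clo x hx _ (fun hk => hy ⟨_, hk, by simp⟩) ?_, by simp⟩
    have := m.d_mul g x (g⁻¹ * y)
    simp only [mul_inv_cancel_left] at this
    simp only at hd
    omega
  conn := by
    rintro _ ⟨x, hx, rfl⟩ _ ⟨y, hy, rfl⟩
    exact (h.conn x hx y hy).translate g

lemma ball_translate (g : H) (n : ℕ) :
    (fun z => g * z) '' {z | m.d 1 z ≤ n} = {z | m.d g z ≤ n} := by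
  ext y; constructor
  · rintro ⟨z, hz, rfl⟩
    have := m.d_mul g 1 z
    simp only [mul_one] at this
    simp only [Set.mem_setOf_eq] at *
    omega
  · intro hy
    refine ⟨g⁻¹ * y, ?_, by simp⟩
    have := m.d_mul g 1 (g⁻¹ * y)
    simp only [mul_one, mul_inv_cancel_left] at this
    simp only [Set.mem_setOf_eq] at *
    omega

/-- Branching: an infinite component splits into two infinite parts. -/
lemma branch (h : HasEnds 3 H) {K A : Set H} (hK : K.Finite) (hA : IsComp m K A)
    (hinf : A.Infinite) : ∃ (K' A' A'' : Set H), K'.Finite ∧ IsComp m K' A' ∧ A'.Infinite ∧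
      A''.Infinite ∧ A' ⊆ A ∧ A'' ⊆ A ∧ Disjoint A' A'' ∧ K' ⊆ K ∪ A := by
  obtain ⟨n, C, hC, hCi, hd⟩ := three_comps (m := m) h
  obtain ⟨r, hr⟩ := m.bdd hK 1
  obtain ⟨g, hgA, hg⟩ := m.exists_far_of_infinite hinf 1 (r + n)
  -- the translated ball
  have hB : ∀ z, m.d g z ≤ n → z ∈ A := by
    intro z hz
    have hc := ball_conn g n hz
    refine hc.prop (fun z => z ∈ A) (fun a b ha hb hab hPa => ?_) hgA
    apply hA.clo a hPa b _ hab
    intro hbK
    have h1 := hr b hbK
    have h2 := m.tri 1 b g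
    rw [m.d_comm b g] at h2
    simp only [Set.mem_setOf_eq] at hb
    omega
  have hT : ∀ i, IsComp m {z | m.d g z ≤ n} ((fun z => g * z) '' C i) := by
    intro i
    have := (hC i).translate g
    rwa [ball_translate] at this
  -- those components that do not contain `1` avoid the ball of radius `r`
  have hav : ∀ i, (1 : H) ∉ (fun z => g * z) '' C i → ∀ z ∈ (fun z => g * z) '' C i,
      r < m.d 1 z := by
    intro i hi z hz
    by_contra hle
    push Not at hle
    apply hi
    refine (ball_conn 1 r hle).symm.prop (fun z => z ∈ (fun z => g * z) '' C i)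
      (fun a b ha hb hab hPa => ?_) hz
    apply (hT i).clo a hPa b _ hab
    intro hb'
    have h2 := m.tri 1 b g
    rw [m.d_comm b g] at h2
    simp only [Set.mem_setOf_eq] at hb hb'
    omega
  have hsubA : ∀ i, (1 : H) ∉ (fun z => g * z) '' C i → (fun z => g * z) '' C i ⊆ A := by
    intro i hi
    obtain ⟨z₀, hz₀⟩ := (hCi i).nonempty
    have hz₁ : g * z₀ ∈ (fun z => g * z) '' C i := ⟨z₀, hz₀, rfl⟩
    have hgn : g ∉ (fun z => g * z) '' C i := by
      intro h
      exact (hT i).disj g h (by simp)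
    obtain ⟨a, b, ha, hb, hab, -, -⟩ := m.change
      (fun z => z ∈ (fun z => g * z) '' C i) hz₁ hgn
    have hbB : m.d g b ≤ n := by
      by_contra hcon
      exact hb ((hT i).clo a ha b hcon hab)
    have hbA : b ∈ A := hB b hbB
    have haK : a ∉ K := by
      intro haK
      have := hr a haK
      have := hav i hi a ha
      omega
    have haA : a ∈ A := hA.clo b hbA a haK (by rw [m.d_comm]; exact hab)
    intro z hz
    refine ((hT i).conn a ha z hz).prop (fun z => z ∈ A) (fun x y hx hy hxy hPx => ?_) haA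
    apply hA.clo x hPx y _ hxy
    intro hyK
    have := hr y hyK
    have := hav i hi y hy
    omega
  -- choose two of the three
  have hdT : ∀ i j, i ≠ j → Disjoint ((fun z => g * z) '' C i) ((fun z => g * z) '' C j) := by
    intro i j hij
    exact (Set.disjoint_image_iff (mul_right_injective g)).mpr (hd hij)
  have hpick : ∃ i j, i ≠ j ∧ (1 : H) ∉ (fun z => g * z) '' C i ∧
      (1 : H) ∉ (fun z => g * z) '' C j := by
    by_contra hcon
    push Not at hcon
    have hone : ∀ i j, i ≠ j → (1 : H) ∈ (fun z => g * z) '' C i →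
        (1 : H) ∈ (fun z => g * z) '' C j → False := by
      intro i j hij h1 h2
      exact Set.disjoint_left.mp (hdT i j hij) h1 h2
    by_cases h0 : (1 : H) ∈ (fun z => g * z) '' C 0
    · by_cases h1 : (1 : H) ∈ (fun z => g * z) '' C 1
      · exact hone 0 1 (by decide) h0 h1
      · exact hone 0 2 (by decide) h0 (hcon 1 2 (by decide) h1)
    · have h1 := hcon 0 1 (by decide) h0
      have h2 := hcon 0 2 (by decide) h0
      exact hone 1 2 (by decide) h1 h2
  obtain ⟨i, j, hij, hi, hj⟩ := hpick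
  refine ⟨{z | m.d g z ≤ n}, (fun z => g * z) '' C i, (fun z => g * z) '' C j, m.ball_fin g n,
    hT i, (hCi i).image (mul_right_injective g).injOn,
    (hCi j).image (mul_right_injective g).injOn, hsubA i hi, hsubA j hj, hdT i j hij, ?_⟩
  intro z hz
  right; exact hB z hz

/-- Half-spaces pointing away from `1`. -/
lemma away (h : HasEnds 3 H) : ∃ (K : Set H) (n : ℕ) (A : Fin 3 → Set H), K.Finite ∧
    (∀ i, IsComp m K (A i)) ∧ (∀ i, (A i).Infinite) ∧
    ∀ v, n < m.d 1 v → ∃ i, ∀ z ∈ A i, m.d 1 v < m.d 1 (v * z) := by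
  obtain ⟨n, C, hC, hCi, hd⟩ := three_comps (m := m) h
  have hfin : {z | m.d 1 z ≤ 2 * n}.Finite := m.ball_fin 1 _
  have hsub : ∀ i, ∃ A, IsComp m {z | m.d 1 z ≤ 2 * n} A ∧ A.Infinite ∧ A ⊆ C i := fun i =>
    (hC i).toClo.subcomp (hCi i) (fun z hz => by simp only [Set.mem_setOf_eq] at *; omega) hfin
      ⟨1, by simp⟩
  choose A hA1 hA2 hA3 using hsub
  refine ⟨_, n, A, hfin, hA1, hA2, ?_⟩
  intro v hv
  have hdT : ∀ i j, i ≠ j → Disjoint ((fun z => v * z) '' C i) ((fun z => v * z) '' C j) := by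
    intro i j hij
    exact (Set.disjoint_image_iff (mul_right_injective v)).mpr (hd hij)
  have hpick : ∃ i, (1 : H) ∉ (fun z => v * z) '' C i := by
    by_contra hcon
    push Not at hcon
    exact Set.disjoint_left.mp (hdT 0 1 (by decide)) (hcon 0) (hcon 1)
  obtain ⟨i, hi⟩ := hpick
  refine ⟨i, fun z hz => ?_⟩
  have hT : IsComp m {z | m.d v z ≤ n} ((fun z => v * z) '' C i) := by
    have := (hC i).translate v
    rwa [ball_translate] at this
  have hvz : v * z ∈ (fun z => v * z) '' C i := ⟨z, hA3 i hz, rfl⟩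
  obtain ⟨k, hk, h1⟩ := hT.exit hvz hi
  have h2 : 2 * n < m.d 1 z := by
    have := (hA1 i).disj z hz
    simpa using this
  have h3 : m.d v (v * z) = m.d 1 z := by
    have := m.d_mul v 1 z
    simpa using this
  simp only [Set.mem_setOf_eq] at hk
  have h4 := m.tri v k (v * z)
  have h5 := m.tri 1 k v
  rw [m.d_comm k v] at h5
  rw [m.d_comm (v * z) k, m.d_comm (v * z) 1, m.d_comm k 1] at h1
  omega

end Pool.Agent.EndsLamp
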