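import Pool.Agent.EndsLamp.ProdNS

/-! # Finitely presented one-ended groups are not thinly separable -/

set_option autoImplicit false
set_option linter.unusedSectionVars false
set_option linter.unnecessarySimpa false
set_option linter.unusedSimpArgs false
set_option linter.deprecated false

open scoped Pointwise Classical

namespace Pool.Agent.EndsLamp

section

variable {G : Type*} [Group G] {n : ℕ} (φ : FreeGroup (Fin n) →* G)

/-- one letter step -/
def lstep (p : G) (x : Fin n × Bool) : G := p * φ (FreeGroup.mk [x])

/-- sum of `w` along the path of a word. -/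
def lsum (w : G → G → ZMod 2) : G → List (Fin n × Bool) → ZMod 2
  | _, [] => 0
  | p, x :: L => w p (lstep φ p x) + lsum w (lstep φ p x) L

/-- The permutation of a generator. -/
def gperm (w : G → G → ZMod 2) (i : Fin n) : Equiv.Perm (G × ZMod 2) where
  toFun := fun x => (x.1 * φ (FreeGroup.of i), x.2 + w x.1 (x.1 * φ (FreeGroup.of i)))
  invFun := fun x => (x.1 * (φ (FreeGroup.of i))⁻¹, x.2 - w (x.1 * (φ (FreeGroup.of i))⁻¹) x.1)
  left_inv := fun x => by
    apply Prod.ext
    · simp
    · simp only [mul_inv_cancel_right]; ring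
  right_inv := fun x => by
    apply Prod.ext
    · simp
    · simp only [inv_mul_cancel_right]; ring

/-- The monodromy homomorphism. -/
def mono (w : G → G → ZMod 2) : FreeGroup (Fin n) →* (Equiv.Perm (G × ZMod 2))ᵐᵒᵖ :=
  FreeGroup.lift fun i => MulOpposite.op (gperm φ w i)

lemma mono_letter (w : G → G → ZMod 2) (hw : ∀ p q, w p q = - w q p) (x : Fin n × Bool)
    (y : G × ZMod 2) :
    (mono φ w (FreeGroup.mk [x])).unop y = (lstep φ y.1 x, y.2 + w y.1 (lstep φ y.1 x)) := by
  obtain ⟨i, b⟩ := x
  cases b with
  | true =>
    have : (FreeGroup.mk [(i, true)] : FreeGroup (Fin n)) = FreeGroup.of i := rfl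
    unfold lstep
    rw [this]
    unfold mono
    rw [FreeGroup.lift_apply_of]
    rfl
  | false =>
    have h1 : (FreeGroup.mk [(i, false)] : FreeGroup (Fin n)) = (FreeGroup.of i)⁻¹ := rfl
    unfold lstep
    rw [h1]
    unfold mono
    rw [map_inv, FreeGroup.lift_apply_of, map_inv, MulOpposite.unop_inv, MulOpposite.unop_op]
    show (gperm φ w i).symm y = _
    apply Prod.ext
    · rfl
    · show y.2 - w (y.1 * (φ (FreeGroup.of i))⁻¹) y.1 = _
      simp only
      rw [hw y.1 _]
      ring

lemma mono_list (w : G → G → ZMod 2) (hw : ∀ p q, w p q = - w q p) (L : List (Fin n × Bool)) :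
    ∀ y : G × ZMod 2, (mono φ w (FreeGroup.mk L)).unop y =
      (y.1 * φ (FreeGroup.mk L), y.2 + lsum φ w y.1 L) := by
  induction L with
  | nil =>
    intro y
    have : (FreeGroup.mk [] : FreeGroup (Fin n)) = 1 := rfl
    rw [this, map_one, map_one]
    simp [lsum]
  | cons x L ih =>
    intro y
    have h1 : (FreeGroup.mk (x :: L) : FreeGroup (Fin n)) = FreeGroup.mk [x] * FreeGroup.mk L := by
      rw [FreeGroup.mul_mk]; rfl
    rw [h1, map_mul, MulOpposite.unop_mul, Equiv.Perm.mul_apply, mono_letter φ w hw, ih]
    apply Prod.ext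
    · simp only [lstep, map_mul, mul_assoc]
    · simp only [lsum, add_assoc]

end

section

variable {G : Type*} [Group G]

lemma om_antisymm (m : WM G) (X : Set G) (R : ℕ) (χ : G → ZMod 2)
    (α : Quotient (chainS m X R)) (p q : G) : om m X R χ α p q = - om m X R χ α q p := by
  unfold om
  by_cases h : p ∈ clsS m X R α ∨ q ∈ clsS m X R α
  · rw [if_pos h, if_pos h.symm]; ring
  · rw [if_neg h, if_neg (fun h' => h h'.symm)]; simp

theorem fpNSW (hfp : Group.IsFinitelyPresented G) (h1 : OneEnded G) : ∃ m : WM G, NSW m := by
  obtain ⟨n, φ, hφ, Rel, hRel, hker⟩ := hfp.out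
  have hinf : Infinite G := infinite_of_hasEnds one_pos h1.1
  set S : Set G := Set.range (fun i : Fin n => φ (FreeGroup.of i)) with hS
  have hSf : S.Finite := Set.finite_range _
  have hSg : Subgroup.closure S = ⊤ := by
    have e1 : S = φ '' (Set.range (FreeGroup.of : Fin n → FreeGroup (Fin n))) := by
      rw [hS, ← Set.range_comp]; rfl
    rw [e1, ← MonoidHom.map_closure, FreeGroup.closure_range_of, ← MonoidHom.range_eq_map,
      MonoidHom.range_eq_top.mpr hφ]
  set m : WM G := wm S hSf hSg with hm
  have hunit : ∀ p p', m.d p p' ≤ 1 ↔ p⁻¹ * p' ∈ (insert 1 (S ∪ S⁻¹) : Set G) := by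
    intro p p'
    rw [hm]
    unfold WM.d wm
    rw [WM.ofSet_le, pow_one]
  set adj : G → G → Prop := fun p p' => ∃ i : Fin n, p' = p * φ (FreeGroup.of i) ∨
    p = p' * φ (FreeGroup.of i) with hadj
  have hadj_symm : ∀ p p', adj p p' → adj p' p := by
    rintro p p' ⟨i, h | h⟩
    · exact ⟨i, Or.inr h⟩
    · exact ⟨i, Or.inl h⟩
  have hadj1 : ∀ p p', adj p p' → m.d p p' ≤ 1 := by
    rintro p p' ⟨i, h | h⟩
    · rw [hunit]
      right; left
      exact ⟨i, by rw [h]; group⟩
    · rw [hunit]
      right; right
      rw [Set.mem_inv]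
      exact ⟨i, by rw [h]; group⟩
  have hunit_adj : ∀ p p', m.d p p' ≤ 1 → p = p' ∨ adj p p' := by
    intro p p' h
    rw [hunit] at h
    rcases h with h | ⟨i, hi⟩ | h
    · left; exact inv_mul_eq_one.mp h
    · right
      have hi' : φ (FreeGroup.of i) = p⁻¹ * p' := hi
      exact ⟨i, Or.inl (by rw [hi']; group)⟩
    · right
      rw [Set.mem_inv] at h
      obtain ⟨i, hi⟩ := h
      have hi' : φ (FreeGroup.of i) = (p⁻¹ * p')⁻¹ := hi
      exact ⟨i, Or.inr (by rw [hi']; group)⟩
  have hconn : ∀ p q, Relation.ReflTransGen adj p q := by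
    intro p q
    have key : ∀ k, ∀ q, m.d p q = k → Relation.ReflTransGen adj p q := by
      intro k
      induction k with
      | zero => intro q h; rw [m.eq_of_d h]
      | succ k ih =>
        intro q h
        obtain ⟨q', e1, e2⟩ := m.prev h
        rcases hunit_adj _ _ e2 with e3 | e3
        · rw [← e3]; exact ih q' e1
        · exact (ih q' e1).tail e3
    exact key _ q rfl
  have hadj_lstep : ∀ (p : G) (x : Fin n × Bool), adj p (lstep φ p x) := by
    rintro p ⟨i, b⟩
    cases b with
    | true => exact ⟨i, Or.inl rfl⟩
    | false =>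
      refine ⟨i, Or.inr ?_⟩
      have h1 : (FreeGroup.mk [(i, false)] : FreeGroup (Fin n)) = (FreeGroup.of i)⁻¹ := rfl
      unfold lstep
      rw [h1, map_inv, inv_mul_cancel_right]
  -- maximal length of a relator
  obtain ⟨N, hN⟩ := (hRel.image (fun r : FreeGroup (Fin n) => r.toWord.length)).bddAbove
  refine ⟨m, nsw_of_potentials m adj hconn hadj1 (2 * N + 1) (by omega) ?_⟩
  intro k
  obtain ⟨B, hBf, hKB, hBc⟩ := oneEnded_conn (m := m) h1 (m.ball_fin 1 k)
  obtain ⟨K₀, hK₀⟩ := m.bdd hBf 1
  refine ⟨k + K₀, by omega, fun X χ hχ α hdiam => ?_⟩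
  set w : G → G → ZMod 2 := om m X (2 * N + 1) χ α with hw
  have hwanti : ∀ p q, w p q = - w q p := om_antisymm m X _ χ α
  -- relators act trivially
  have hrel : ∀ r ∈ Rel, r ∈ (mono φ w).ker := by
    intro r hr
    rw [MonoidHom.mem_ker]
    apply MulOpposite.unop_injective
    apply Equiv.ext
    intro y
    have hlen : r.toWord.length ≤ N := hN ⟨r, hr, rfl⟩
    have hφr : φ r = 1 := by
      have : r ∈ φ.ker := by rw [← hker]; exact Subgroup.subset_normalClosure hr
      exact this
    have e1 := mono_list φ w hwanti r.toWord y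
    rw [FreeGroup.mk_toWord] at e1
    rw [e1, hφr, mul_one]
    have e2 : lsum φ w y.1 r.toWord = 0 := by
      by_cases hex : ∃ v ∈ clsS m X (2 * N + 1) α, m.d y.1 v ≤ N
      · obtain ⟨v, hv, hvd⟩ := hex
        have key : ∀ (L : List (Fin n × Bool)) (q : G), m.d y.1 q + L.length ≤ N →
            lsum φ w q L = χ (q * φ (FreeGroup.mk L)) - χ q := by
          intro L
          induction L with
          | nil =>
            intro q _
            have : (FreeGroup.mk [] : FreeGroup (Fin n)) = 1 := rfl
            simp [lsum, this]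
          | cons x L ih =>
            intro q hq
            have hst := hadj_lstep q x
            have hst1 := hadj1 _ _ hst
            have ht := m.tri y.1 q (lstep φ q x)
            simp only [List.length_cons] at hq
            have h3 := ih (lstep φ q x) (by omega)
            have h4 : (FreeGroup.mk (x :: L) : FreeGroup (Fin n)) =
                FreeGroup.mk [x] * FreeGroup.mk L := by
              rw [FreeGroup.mul_mk]; rfl
            have h5 : lstep φ q x * φ (FreeGroup.mk L) = q * φ (FreeGroup.mk (x :: L)) := by
              rw [h4, map_mul]; unfold lstep; group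
            have h6 : w q (lstep φ q x) = χ (lstep φ q x) - χ q := by
              rw [hw]
              unfold om
              by_cases hX : q ∈ X ∨ lstep φ q x ∈ X
              · rw [if_pos]
                rcases hX with hX | hX
                · left
                  refine ⟨hX, ?_⟩
                  rw [← hv.2]
                  apply cls_close hX hv.1
                  have := m.tri q y.1 v
                  rw [m.d_comm q y.1] at this
                  omega
                · right
                  refine ⟨hX, ?_⟩
                  rw [← hv.2]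
                  apply cls_close hX hv.1
                  have := m.tri (lstep φ q x) y.1 v
                  rw [m.d_comm (lstep φ q x) y.1] at this
                  omega
              · push Not at hX
                rw [if_neg]
                · rw [hχ _ _ hst hX.1 hX.2, sub_self]
                · rintro (h | h)
                  · exact hX.1 h.1
                  · exact hX.2 h.1
            simp only [lsum]
            rw [h3, h5, h6]
            ring
        have := key r.toWord y.1 (by simp; exact hlen)
        rw [FreeGroup.mk_toWord, hφr, mul_one, sub_self] at this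
        exact this
      · push Not at hex
        have key : ∀ (L : List (Fin n × Bool)) (q : G), m.d y.1 q + L.length ≤ N →
            lsum φ w q L = 0 := by
          intro L
          induction L with
          | nil => intro q _; rfl
          | cons x L ih =>
            intro q hq
            have hst1 := hadj1 _ _ (hadj_lstep q x)
            have ht := m.tri y.1 q (lstep φ q x)
            simp only [List.length_cons] at hq
            have h3 := ih (lstep φ q x) (by omega)
            have h6 : w q (lstep φ q x) = 0 := by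
              rw [hw]
              unfold om
              rw [if_neg]
              rintro (h | h)
              · have := hex _ h; omega
              · have := hex _ h; omega
            simp only [lsum]
            rw [h3, h6, add_zero]
        exact key r.toWord y.1 (by simp; exact hlen)
    rw [e2, add_zero]
    rfl
  have hkk : φ.ker ≤ (mono φ w).ker := by
    rw [← hker]
    exact Subgroup.normalClosure_le_normal hrel
  -- the potential
  choose σ hσ using hφ
  set Ψ : G → ZMod 2 := fun g => ((mono φ w (σ g)).unop (1, 0)).2 with hΨ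
  have hval : ∀ v : FreeGroup (Fin n), (mono φ w v).unop (1, 0) = (φ v, Ψ (φ v)) := by
    intro v
    have e1 : mono φ w v = mono φ w (σ (φ v)) := by
      have : v⁻¹ * σ (φ v) ∈ φ.ker := by
        rw [MonoidHom.mem_ker, map_mul, map_inv, hσ, inv_mul_cancel]
      have := hkk this
      rw [MonoidHom.mem_ker, map_mul, map_inv, inv_mul_eq_one] at this
      exact this
    have e2 := mono_list φ w hwanti v.toWord (1, 0)
    rw [FreeGroup.mk_toWord] at e2
    apply Prod.ext
    · rw [e2]; simp
    · rw [e1]
  have hstep : ∀ (p : G) (i : Fin n), Ψ (p * φ (FreeGroup.of i)) =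
      Ψ p + w p (p * φ (FreeGroup.of i)) := by
    intro p i
    have e1 := hval (σ p * FreeGroup.of i)
    rw [map_mul, MulOpposite.unop_mul, Equiv.Perm.mul_apply, hval, map_mul, hσ] at e1
    have e2 := mono_letter φ w hwanti (i, true) (p, Ψ p)
    have e3 : (FreeGroup.mk [(i, true)] : FreeGroup (Fin n)) = FreeGroup.of i := rfl
    rw [e3] at e2
    rw [e2] at e1
    have := congrArg Prod.snd e1
    simp only [lstep, e3] at this
    exact this.symm
  have hpot : ∀ p p', adj p p' → Ψ p' - Ψ p = w p p' := by
    rintro p p' ⟨i, h | h⟩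
    · rw [h, hstep]; ring
    · rw [h, hstep, hwanti]; ring
  by_cases hne : (clsS m X (2 * N + 1) α).Nonempty
  · obtain ⟨x₀, hx₀⟩ := hne
    set B' : Set G := (fun z => x₀ * z) '' B with hB'
    have hcls : ∀ x ∈ clsS m X (2 * N + 1) α, x ∈ B' := by
      intro x hx
      refine ⟨x₀⁻¹ * x, hKB ?_, by simp⟩
      have := hdiam x₀ hx₀ x hx
      simpa [WM.d] using this
    obtain ⟨p₀, hp₀⟩ : ∃ p₀, p₀ ∉ B' := (hBf.image _).exists_notMem
    have hconst : ∀ p, p ∉ B' → Ψ p = Ψ p₀ := by
      intro p hp
      have h1 : x₀⁻¹ * p₀ ∉ B := fun h => hp₀ ⟨_, h, by simp⟩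
      have h2 : x₀⁻¹ * p ∉ B := fun h => hp ⟨_, h, by simp⟩
      have h3 := (hBc _ h1 _ h2).translate x₀
      rw [mul_inv_cancel_left, mul_inv_cancel_left] at h3
      refine h3.prop (fun z => Ψ z = Ψ p₀) ?_ rfl
      rintro a b ⟨a', ha', rfl⟩ ⟨b', hb', rfl⟩ hab hPa
      have ha : x₀ * a' ∉ B' := by rintro ⟨z, hz, hz2⟩; simp at hz2; subst hz2; exact ha' hz
      have hb : x₀ * b' ∉ B' := by rintro ⟨z, hz, hz2⟩; simp at hz2; subst hz2; exact hb' hz
      rcases hunit_adj _ _ hab with h | h
      · simp only at h hPa ⊢
        rw [← h]; exact hPa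
      · have h5 := hpot _ _ h
        have h6 : w (x₀ * a') (x₀ * b') = 0 := by
          rw [hw]
          unfold om
          rw [if_neg]
          rintro (h | h)
          · exact ha (hcls _ h)
          · exact hb (hcls _ h)
        simp only at h5 hPa ⊢
        rw [h6] at h5
        rw [sub_eq_zero.mp h5]
        exact hPa
    refine ⟨fun g => Ψ g - Ψ p₀, fun p p' h => ?_, fun p hp => ?_⟩
    · rw [← hpot p p' h]; ring
    · simp only
      rw [sub_eq_zero]
      apply hconst
      rintro ⟨z, hz, rfl⟩
      have e1 := hK₀ z hz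
      have e2 := hp x₀ hx₀
      rw [m.d_comm, m.d_mul_right] at e2
      have e3 : m.d 1 z = m.len z := by simp [WM.d]
      omega
  · have hw0 : ∀ p q, w p q = 0 := by
      intro p q
      rw [hw]
      unfold om
      rw [if_neg]
      rintro (h | h)
      · exact hne ⟨_, h⟩
      · exact hne ⟨_, h⟩
    exact ⟨fun _ => 0, fun p p' _ => by rw [hw0]; ring, fun _ _ => rfl⟩

end

end Pool.Agent.EndsLamp
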