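import Pool.Agent.EndsLamp.Window

/-! # The theorem for groups with slow boundaries -/

set_option autoImplicit false
set_option linter.unusedSectionVars false
set_option linter.unnecessarySimpa false
set_option linter.unusedSimpArgs false
set_option linter.unusedVariables false
set_option linter.deprecated false

open scoped Classical

namespace Pool.Agent.EndsLamp

lemma numeric (X T P Q D k r s e Λ : ℕ) (hX : X = 2 ^ (k * r)) (hk : 1 ≤ k * r) (hD : 1 ≤ D)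
    (h1 : 3 * X ≤ 4 * T) (h2 : T ≤ P * Q) (hP : P ^ (4 * D) ≤ 2 ^ s) (hs : s ≤ D * (k * r))
    (hQ : Q = Λ ^ e) (he : 4 * Λ * e ≤ k * r) : False := by
  have hP4 : P ^ 4 ≤ X := by
    have h3 : (P ^ 4) ^ D ≤ X ^ D := by
      rw [← pow_mul, hX, ← pow_mul]
      refine hP.trans (Nat.pow_le_pow_right (by norm_num) ?_)
      rw [mul_comm (k * r) D]; exact hs
    exact (Nat.pow_le_pow_iff_left (by omega)).mp h3
  have hQ4 : Q ^ 4 ≤ X := by
    have h3 : Λ ≤ 2 ^ Λ := Nat.lt_two_pow_self.le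
    rw [hQ, hX, ← pow_mul]
    calc Λ ^ (e * 4) ≤ (2 ^ Λ) ^ (e * 4) := Nat.pow_le_pow_left h3 _
      _ = 2 ^ (Λ * (e * 4)) := by rw [← pow_mul]
      _ ≤ _ := Nat.pow_le_pow_right (by norm_num) (by nlinarith)
  have hX2 : 2 ≤ X := by
    rw [hX]
    calc 2 = 2 ^ 1 := by norm_num
      _ ≤ _ := Nat.pow_le_pow_right (by norm_num) hk
  have h3 : 3 * X ≤ 4 * (P * Q) := h1.trans (Nat.mul_le_mul_left _ h2)
  have h4 : (3 * X) ^ 4 ≤ (4 * (P * Q)) ^ 4 := Nat.pow_le_pow_left h3 4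
  have h5 : (4 * (P * Q)) ^ 4 = 256 * (P ^ 4 * Q ^ 4) := by ring
  have h6 : P ^ 4 * Q ^ 4 ≤ X * X := Nat.mul_le_mul hP4 hQ4
  have h7 : 81 * (X * X) * (X * X) ≤ 256 * (X * X) := by
    calc 81 * (X * X) * (X * X) = (3 * X) ^ 4 := by ring
      _ ≤ 256 * (P ^ 4 * Q ^ 4) := by rw [← h5]; exact h4
      _ ≤ _ := Nat.mul_le_mul_left _ h6
  have h8 : 0 < X * X := by positivity
  have h9 : 81 * (X * X) ≤ 256 := Nat.le_of_mul_le_mul_right h7 h8
  nlinarith

lemma ar1 (p r : ℕ) : p + r + 1 ≤ (p + 1) * (r + 1) := by nlinarith [Nat.zero_le (p * r)]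

lemma ar2 (x r : ℕ) (hx : 1 ≤ x) (hr : 1 ≤ r) : r + 1 ≤ 2 * (x * r) := by
  have : r ≤ x * r := Nat.le_mul_of_pos_left r (by omega)
  omega

lemma ar3 (ρ G r α : ℕ) (h : 1 ≤ G * r) :
    ρ + ρ * (2 * (G * (α * r))) ≤ (2 * α * ρ + ρ) * (G * r) := by
  have h1 : ρ ≤ ρ * (G * r) := Nat.le_mul_of_pos_right ρ (by omega)
  calc ρ + ρ * (2 * (G * (α * r))) ≤ ρ * (G * r) + ρ * (2 * (G * (α * r))) := by omega
    _ = _ := by ring

section

variable {F₁ F₂ H₁ H₂ : Type*} [Group F₁] [Group F₂] [Group H₁] [Group H₂]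
variable [Finite F₁] [Finite F₂]
variable {m₁ : WM H₁} {m₂ : WM H₂} {ρ : ℕ} {f : Lm F₁ H₁ → Lm F₂ H₂} {φ : Lm F₂ H₂ → Lm F₁ H₁}

/-- The image of most of a large cube of configurations is close to one leaf, over the boundary
of one component of the complement of a ball. -/
theorem cube_leaf [Nontrivial F₁] [Nontrivial F₂] (h1 : OneEnded H₁) (h2 : HasEnds 3 H₂)
    (hf : LP (lw F₁ m₁) (lw F₂ m₂) ρ f φ) (hρ : 1 ≤ ρ) {K A : Set H₂}
    (hK : K.Finite) (hA : IsComp m₂ K A) (hAi : A.Infinite)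
    (hmiss : ∀ c : Cfg F₁ H₁, ps (f (mk c 1)) ∉ A) :
    ∃ D : ℕ, 1 ≤ D ∧ ∀ j0 s₀ : ℕ, 1 ≤ j0 → ∃ (N r k G s : ℕ)
      (c : (Fin N → Fin r → Bool) → Cfg F₁ H₁) (T : Finset (Fin N → Fin r → Bool)) (x₀ : H₂)
      (pst : Cfg F₂ H₂), 1 ≤ G * r ∧ j0 * G ≤ k ∧ k ≤ N ∧ s₀ ≤ s ∧ s ≤ D * (k * r) ∧
      (∀ ω ω', (Finset.univ.filter fun p : Fin N × Fin r => ω p.1 p.2 ≠ ω' p.1 p.2).card ≤
        {z | c ω z ≠ c ω' z}.ncard) ∧
      (∀ τ ∈ T, hyb k z0 τ = τ) ∧ 3 * 2 ^ (k * r) ≤ 4 * T.card ∧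
      ∀ τ ∈ T, ∃ y, m₂.d 1 y = s + 1 ∧ Cn m₂ {z | s < m₂.d 1 z} x₀ y ∧
        (lw F₁ m₁).d (φ (mk pst y)) (mk (c τ) 1) ≤ ρ + ρ * (2 * (G * (10 * ρ * r))) := by
  obtain ⟨C₀, hC₀⟩ := star h1 h2 hf hK hA hAi hmiss
  obtain ⟨C, hC⟩ : ∃ C : ℕ, C = C₀ + 1 := ⟨_, rfl⟩
  obtain ⟨p0, hp0⟩ : ∃ p0 : ℕ, p0 = m₂.d 1 (ps (f 1)) := ⟨_, rfl⟩
  obtain ⟨C3, hC3⟩ : ∃ C3 : ℕ, C3 = p0 + ρ * (2 * (C * (p0 + 1))) := ⟨_, rfl⟩
  obtain ⟨α, hα⟩ : ∃ α : ℕ, α = 10 * ρ := ⟨_, rfl⟩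
  obtain ⟨D, hD⟩ : ∃ D : ℕ, D = 2 * C3 + 2 * α := ⟨_, rfl⟩
  refine ⟨D, by omega, fun j0 s₀ hj0 => ?_⟩
  obtain ⟨J, hJ⟩ : ∃ J : ℕ, J = 4 * C * (2 * C3 + 2 + j0 * α) + 1 := ⟨_, rfl⟩
  obtain ⟨B, hB⟩ : ∃ B : ℕ, B = 32 * α * C := ⟨_, rfl⟩
  obtain ⟨q, hq⟩ : ∃ q : ℕ, q = J * B := ⟨_, rfl⟩
  obtain ⟨G', hG'⟩ : ∃ G' : ℕ, G' = 8 * q * (q + 1) + s₀ + 1 := ⟨_, rfl⟩
  have hα1 : 1 ≤ α := by omega
  have hC1 : 1 ≤ C := by omega
  have hB1 : 1 ≤ B := by
    rw [hB]; exact Nat.mul_pos (by omega) hC1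
  have hJ1 : 1 ≤ J := by omega
  have hq1 : 1 ≤ q := by rw [hq]; exact Nat.mul_pos hJ1 hB1
  have hG1 : 1 ≤ G' := by omega
  obtain ⟨r, hr, x, hxinj, hxr, hW⟩ := exists_rows (m := m₁) h1 (q * G') (Nat.mul_pos hq1 hG1)
  obtain ⟨κ, hκ⟩ := hC₀ r
  obtain ⟨v0, hv0, hv0d⟩ := hκ 1
  have hb := fun z => exists_ne (κ z)
  choose b hb using hb
  -- the configurations
  obtain ⟨c, hcdef⟩ : ∃ c : (Fin (q * G') → Fin r → Bool) → Cfg F₁ H₁, ∀ ω z,
      c ω z = if ∃ i j, x i j = z ∧ ω i j = true then b z else cf v0 z :=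
    ⟨fun ω => ⟨fun z => if ∃ i j, x i j = z ∧ ω i j = true then b z else cf v0 z, by
      apply ((cf v0).2.union (Set.finite_range fun p : Fin (q * G') × Fin r => x p.1 p.2)).subset
      intro z hz
      by_cases h : ∃ i j, x i j = z ∧ ω i j = true
      · obtain ⟨i, j, hij, -⟩ := h
        right; exact ⟨(i, j), hij⟩
      · left
        simp only [Function.mem_mulSupport, h, if_false] at hz
        exact hz⟩, fun ω z => rfl⟩
  have hcx : ∀ ω i j, c ω (x i j) = if ω i j = true then b (x i j) else κ (x i j) := by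
    intro ω i j
    have hiff : (∃ i' j', x i' j' = x i j ∧ ω i' j' = true) ↔ ω i j = true := by
      constructor
      · rintro ⟨i', j', h, h'⟩
        have := hxinj (a₁ := (i', j')) (a₂ := (i, j)) h
        simp only [Prod.mk.injEq] at this
        rw [← this.1, ← this.2]; exact h'
      · intro h; exact ⟨i, j, rfl, h⟩
    have e1 := hcdef ω (x i j)
    rw [e1, hv0 _ (hxr i j)]
    simp only [hiff]
  have hcdiff : ∀ ω ω' z, c ω z ≠ c ω' z → ∃ i j, x i j = z ∧ ω i j ≠ ω' i j := by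
    intro ω ω' z hz
    by_contra hcon
    push Not at hcon
    apply hz
    have e1 := hcdef ω z
    have e2 := hcdef ω' z
    have hiff : (∃ i' j', x i' j' = z ∧ ω i' j' = true) ↔
        (∃ i' j', x i' j' = z ∧ ω' i' j' = true) := by
      constructor
      · rintro ⟨i, j, h, h'⟩; exact ⟨i, j, h, by rw [← hcon i j h]; exact h'⟩
      · rintro ⟨i, j, h, h'⟩; exact ⟨i, j, h, by rw [hcon i j h]; exact h'⟩
    rw [e1, e2]
    simp only [hiff]
  have hcount : ∀ ω ω', (Finset.univ.filter fun p : Fin (q * G') × Fin r =>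
      ω p.1 p.2 ≠ ω' p.1 p.2).card ≤ {z | c ω z ≠ c ω' z}.ncard := by
    intro ω ω'
    rw [← Set.ncard_coe_finset]
    refine Set.ncard_le_ncard_of_injOn (fun p => x p.1 p.2) ?_ hxinj.injOn (diff_fin _ _)
    intro p hp
    simp only [Finset.coe_filter, Finset.mem_univ, true_and, Set.mem_setOf_eq] at hp
    simp only [Set.mem_setOf_eq]
    rw [hcx, hcx]
    have := hb (x p.1 p.2)
    by_cases h1 : ω p.1 p.2 = true <;> by_cases h2 : ω' p.1 p.2 = true
    · exact absurd (h1.trans h2.symm) hp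
    · rw [if_pos h1, if_neg h2]; exact this
    · rw [if_neg h1, if_pos h2]; exact this.symm
    · rw [Bool.not_eq_true] at h1 h2; exact absurd (h1.trans h2.symm) hp
  have hrow1 : ∀ ω i θ, (lw F₁ m₁).d (mk (c ω) 1) (mk (c (Function.update ω i θ)) 1) ≤ 10 * r := by
    intro ω i θ
    obtain ⟨W, hWs, hW0, hW4, hWx⟩ := hW i
    refine rowcost m₁ r W hWs hW0 hW4 _ _ ?_
    intro z hz
    obtain ⟨i', j, hij, hne⟩ := hcdiff _ _ z hz
    have : i' = i := by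
      by_contra hne2
      rw [Function.update_of_ne hne2] at hne
      exact hne rfl
    subst this
    obtain ⟨t, ht, htx⟩ := hWx j
    exact ⟨t, ht, by rw [htx, hij]⟩
  obtain ⟨a, ha⟩ : ∃ a : ℕ, a = α * r := ⟨_, rfl⟩
  have ha1 : 1 ≤ a := by rw [ha]; exact Nat.mul_pos hα1 hr
  have hrow : ∀ ω i θ, (lw F₂ m₂).d (f (mk (c ω) 1)) (f (mk (c (Function.update ω i θ)) 1)) ≤ a := by
    intro ω i θ
    refine (hf.fl _ _).trans ?_
    calc ρ * (lw F₁ m₁).d (mk (c ω) 1) (mk (c (Function.update ω i θ)) 1) ≤ ρ * (10 * r) :=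
          Nat.mul_le_mul_left ρ (hrow1 ω i θ)
      _ = a := by rw [ha, hα]; ring
  obtain ⟨h, hh⟩ : ∃ h : (Fin (q * G') → Fin r → Bool) → ℕ,
      ∀ ω, h ω = m₂.d 1 (ps (f (mk (c ω) 1))) := ⟨_, fun ω => rfl⟩
  have hlow : ∀ ω, nt ω ≤ C * (h ω + r + 1) := by
    intro ω
    obtain ⟨v', hv', hd⟩ := hκ (mk (c ω) 1)
    have e1 := lw_count m₁ (mk (c ω) 1) v'
    have e2 : nt ω ≤ {z | cf (mk (c ω) 1) z ≠ cf v' z}.ncard := by
      unfold nt
      rw [← Set.ncard_coe_finset]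
      refine Set.ncard_le_ncard_of_injOn (fun p => x p.1 p.2) ?_ hxinj.injOn (diff_fin _ _)
      intro p hp
      simp only [Finset.coe_filter, Finset.mem_univ, true_and, Set.mem_setOf_eq] at hp
      simp only [Set.mem_setOf_eq, cf_mk]
      rw [hcx, if_pos hp, hv' _ (hxr _ _)]
      exact hb _
    have e3 : C₀ * (m₂.d 1 (ps (f (mk (c ω) 1))) + r + 1) ≤ C * (h ω + r + 1) := by
      rw [hh]; exact Nat.mul_le_mul_right _ (by omega)
    omega
  have hz0 : h z0 ≤ C3 * (r + 1) := by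
    have e0 : c z0 = cf v0 := by
      apply Cfg.ext
      intro z
      have e1 := hcdef z0 z
      rw [e1, if_neg]
      rintro ⟨i, j, -, hij⟩
      simp [z0] at hij
    have e1 := lw_leaf (F := F₁) m₁ (cf v0) (ps v0) 1
    rw [mk_cf_ps] at e1
    have e2 := lw_ps m₁ 1 v0
    rw [ps_one] at e2
    rw [m₁.d_comm (ps v0)] at e1
    have e3 := (lw F₁ m₁).tri 1 v0 (mk (cf v0) 1)
    have e4 : (lw F₁ m₁).d 1 (mk (cf v0) 1) ≤ 2 * (C * (p0 + r + 1)) := by
      have : C₀ * (m₂.d 1 (ps (f 1)) + r + 1) ≤ C * (p0 + r + 1) := by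
        rw [hp0]; exact Nat.mul_le_mul_right _ (by omega)
      omega
    have e5 := hf.fl 1 (mk (cf v0) 1)
    have e6 := lw_ps m₂ (f 1) (f (mk (cf v0) 1))
    have e7 := m₂.tri 1 (ps (f 1)) (ps (f (mk (cf v0) 1)))
    have e8 : ρ * (lw F₁ m₁).d 1 (mk (cf v0) 1) ≤ ρ * (2 * (C * (p0 + r + 1))) :=
      Nat.mul_le_mul_left _ e4
    have e9 : h z0 ≤ p0 + ρ * (2 * (C * (p0 + r + 1))) := by
      rw [hh, e0]
      omega
    refine e9.trans ?_
    rw [hC3]
    have e10 : p0 + r + 1 ≤ (p0 + 1) * (r + 1) := ar1 p0 r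
    calc p0 + ρ * (2 * (C * (p0 + r + 1))) ≤
        p0 * (r + 1) + ρ * (2 * (C * ((p0 + 1) * (r + 1)))) := by
          apply Nat.add_le_add
          · exact Nat.le_mul_of_pos_right p0 (Nat.succ_pos r)
          · exact Nat.mul_le_mul_left _ (Nat.mul_le_mul_left _ (Nat.mul_le_mul_left _ e10))
      _ = _ := by ring
  -- real versions
  obtain ⟨hR, hhR⟩ : ∃ hR : (Fin (q * G') → Fin r → Bool) → ℝ, ∀ ω, hR ω = (h ω : ℝ) :=
    ⟨_, fun ω => rfl⟩
  have har : (1 : ℝ) ≤ (a : ℝ) := by exact_mod_cast ha1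
  have hG'r : (1 : ℝ) ≤ (G' : ℝ) := by exact_mod_cast hG1
  have hLip : ∀ ω i θ, |hR (Function.update ω i θ) - hR ω| ≤ (a : ℝ) := by
    intro ω i θ
    have e1 := hrow ω i θ
    have e2 := lw_ps m₂ (f (mk (c ω) 1)) (f (mk (c (Function.update ω i θ)) 1))
    have e3 := m₂.tri 1 (ps (f (mk (c ω) 1))) (ps (f (mk (c (Function.update ω i θ)) 1)))
    have e4 := m₂.tri 1 (ps (f (mk (c (Function.update ω i θ)) 1))) (ps (f (mk (c ω) 1)))
    rw [m₂.d_comm (ps (f (mk (c (Function.update ω i θ)) 1)))] at e4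
    have e5 : h (Function.update ω i θ) ≤ h ω + a := by simp only [hh]; omega
    have e6 : h ω ≤ h (Function.update ω i θ) + a := by simp only [hh]; omega
    rw [abs_le]
    have e5' : (h (Function.update ω i θ) : ℝ) ≤ h ω + a := by exact_mod_cast e5
    have e6' : (h ω : ℝ) ≤ h (Function.update ω i θ) + a := by exact_mod_cast e6
    simp only [hhR]
    constructor <;> linarith
  have hlowR : ∀ ω, (nt ω : ℝ) ≤ (C : ℝ) * (hR ω + r + 1) := by
    intro ω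
    simp only [hhR]
    exact_mod_cast hlow ω
  have hCr : (0 : ℝ) < (C : ℝ) := by exact_mod_cast hC1
  have hbig : hR z0 + j0 * (B * G' : ℕ) * (a : ℝ) + r + 1 < ((q * G' : ℕ) : ℝ) * r / (4 * C) := by
    have hBG : 1 ≤ B * G' := Nat.mul_pos hB1 hG1
    have e1 : h z0 + j0 * (B * G') * a + r + 1 ≤ (2 * C3 + 2 + j0 * α) * (B * G' * r) := by
      have e2 : h z0 ≤ 2 * C3 * (B * G' * r) := by
        refine hz0.trans ?_
        have : r + 1 ≤ 2 * (B * G' * r) := ar2 _ _ hBG hr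
        calc C3 * (r + 1) ≤ C3 * (2 * (B * G' * r)) := Nat.mul_le_mul_left _ this
          _ = _ := by ring
      have e3 : r + 1 ≤ 2 * (B * G' * r) := ar2 _ _ hBG hr
      have e4 : j0 * (B * G') * a = j0 * α * (B * G' * r) := by rw [ha]; ring
      rw [e4]
      calc h z0 + j0 * α * (B * G' * r) + r + 1 ≤
          2 * C3 * (B * G' * r) + j0 * α * (B * G' * r) + 2 * (B * G' * r) := by omega
        _ = _ := by ring
    have e5 : 4 * C * ((2 * C3 + 2 + j0 * α) * (B * G' * r)) < q * G' * r := by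
      have e6 : q * G' * r = 4 * C * ((2 * C3 + 2 + j0 * α) * (B * G' * r)) + B * G' * r := by
        rw [hq, hJ]; ring
      have e7 : 0 < B * G' * r := Nat.mul_pos hBG hr
      omega
    rw [lt_div_iff₀ (by positivity)]
    have e8 : (h z0 + j0 * (B * G') * a + r + 1) * (4 * C) < q * G' * r := by
      calc (h z0 + j0 * (B * G') * a + r + 1) * (4 * C) ≤
          ((2 * C3 + 2 + j0 * α) * (B * G' * r)) * (4 * C) := Nat.mul_le_mul_right _ e1
        _ = 4 * C * ((2 * C3 + 2 + j0 * α) * (B * G' * r)) := by ring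
        _ < _ := e5
    simp only [hhR]
    exact_mod_cast e8
  have hNJ : q * G' = J * (B * G') := by rw [hq]; ring
  have hj0J : j0 ≤ J := by
    rw [hJ]
    have : j0 * 1 ≤ 4 * C * (2 * C3 + 2 + j0 * α) := by
      calc j0 * 1 ≤ j0 * α := Nat.mul_le_mul_left _ hα1
        _ ≤ 1 * (2 * C3 + 2 + j0 * α) := by omega
        _ ≤ _ := Nat.mul_le_mul_right _ (by omega)
    omega
  obtain ⟨j, hjj0, hjJ, hgap⟩ := slope (B * G') J j0 hNJ hj0J hR a C (by linarith) hCr hLip hlowR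
    hbig
  obtain ⟨G, hG⟩ : ∃ G : ℕ, G = B * G' := ⟨_, rfl⟩
  rw [← hG] at hgap hNJ
  obtain ⟨k, hk⟩ : ∃ k : ℕ, k = j * G := ⟨_, rfl⟩
  have hk1 : (j + 1) * G = k + G := by rw [hk]; ring
  rw [hk1, ← hk] at hgap
  have hkG : k + G ≤ q * G' := by
    rw [← hk1, hNJ]; exact Nat.mul_le_mul_right _ hjJ
  have hgapeq : ((G : ℕ) : ℝ) * r / (4 * C) = 8 * (G' * a) := by
    rw [hG, ha, hB]
    push_cast
    field_simp
    ring
  rw [hgapeq] at hgap
  obtain ⟨gm, hgm⟩ : ∃ gm : (Fin (q * G') → Fin r → Bool) → ℝ, gm = fun ω => hR (hyb k z0 ω) :=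
    ⟨_, rfl⟩
  obtain ⟨gp, hgp⟩ : ∃ gp : (Fin (q * G') → Fin r → Bool) → ℝ,
    gp = fun ω => hR (hyb (k + G) z0 ω) := ⟨_, rfl⟩
  rw [← hgm, ← hgp] at hgap
  have hLk : ∀ k ω i θ, |hR (hyb k z0 (Function.update ω i θ)) - hR (hyb k z0 ω)| ≤ (a : ℝ) := by
    intro k ω i θ
    rcases hyb_update k z0 ω i θ with h | h
    · rw [h]; simp
    · rw [h]; exact hLip _ _ _
  obtain ⟨ωm, hωm⟩ := connect (a : ℝ) (by linarith) q G' (by omega) hG1 gm
    (by rw [hgm]; exact hLk k)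
  obtain ⟨ωp, hωp⟩ := connect (a : ℝ) (by linarith) q G' (by omega) hG1 gp
    (by rw [hgp]; exact hLk (k + G))
  set bm := ((Finset.univ : Finset (Fin (q * G') → Fin r → Bool)).filter
      fun ω => ∃ j, j ≤ q * G' ∧ 2 * (G' * (a : ℝ)) < |gm (hyb j ω ωm) - avg gm|) with hbm
  set bp := ((Finset.univ : Finset (Fin (q * G') → Fin r → Bool)).filter
      fun ω => ∃ j, j ≤ q * G' ∧ 2 * (G' * (a : ℝ)) < |gp (hyb j ω ωp) - avg gp|) with hbp
  set Good := (bm ∪ bp)ᶜ with hGood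
  have hcardG : 3 * Fintype.card (Fin (q * G') → Fin r → Bool) ≤ 4 * Good.card := by
    have e1 := Finset.card_union_le bm bp
    have e2 := Finset.card_compl_add_card (bm ∪ bp)
    rw [← hGood] at e2
    omega
  have hm0 : 0 ≤ avg gm := le_avg fun ω => by simp only [hgm, hhR]; positivity
  have hGa : (1 : ℝ) ≤ G' * a := one_le_mul_of_one_le_of_one_le hG'r har
  have haG : (a : ℝ) ≤ G' * a := le_mul_of_one_le_left (by linarith) hG'r
  have hGG : (G' : ℝ) ≤ G' * a := le_mul_of_one_le_right (by linarith) har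
  obtain ⟨s, hs⟩ : ∃ s : ℕ, s = ⌈avg gm + 3 * (G' * a)⌉₊ := ⟨_, rfl⟩
  have hs1 : avg gm + 3 * (G' * a) ≤ s := by rw [hs]; exact Nat.le_ceil _
  have hs2 : (s : ℝ) < avg gm + 3 * (G' * a) + 1 := by
    rw [hs]; exact Nat.ceil_lt_add_one (by positivity)
  have hgoodm : ∀ ω ∈ Good, ∀ j, j ≤ q * G' → |gm (hyb j ω ωm) - avg gm| ≤ 2 * (G' * a) := by
    intro ω hω j hj
    rw [hGood, Finset.mem_compl, Finset.mem_union, not_or] at hω
    by_contra hcon
    push Not at hcon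
    exact hω.1 (Finset.mem_filter.mpr ⟨Finset.mem_univ _, j, hj, hcon⟩)
  have hgoodp : ∀ ω ∈ Good, ∀ j, j ≤ q * G' → |gp (hyb j ω ωp) - avg gp| ≤ 2 * (G' * a) := by
    intro ω hω j hj
    rw [hGood, Finset.mem_compl, Finset.mem_union, not_or] at hω
    by_contra hcon
    push Not at hcon
    exact hω.2 (Finset.mem_filter.mpr ⟨Finset.mem_univ _, j, hj, hcon⟩)
  obtain ⟨x₀, pst, hx₀⟩ := window hf c a hrow k G s hkG ωm ωp Good
    (by
      intro ω hω j hj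
      have e1 := (abs_le.mp (hgoodm ω hω j hj)).2
      have e2 : gm (hyb j ω ωm) + a ≤ s := by linarith
      simp only [hgm, hhR, hh] at e2
      exact_mod_cast e2)
    (by
      intro ω hω j hj
      have e1 := (abs_le.mp (hgoodp ω hω j hj)).1
      have e2 : (s : ℝ) + a < gp (hyb j ω ωp) := by linarith
      simp only [hgp, hhR, hh] at e2
      exact_mod_cast e2)
  have hfib := fiber_card k (by omega : k ≤ q * G') Good
  obtain ⟨T, hT⟩ : ∃ T : Finset (Fin (q * G') → Fin r → Bool), T = Good.image (hyb k z0) :=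
    ⟨_, rfl⟩
  rw [← hT] at hfib
  -- the final count
  have hjr : 1 ≤ j := by omega
  have hBG1 : 1 ≤ G := by rw [hG]; exact Nat.mul_pos hB1 hG1
  have hkG1 : G ≤ k := by rw [hk]; exact Nat.le_mul_of_pos_left _ hjr
  have hkr : 1 ≤ k * r := Nat.mul_pos (by omega) hr
  have hcountT : 3 * 2 ^ (k * r) ≤ 4 * T.card := by
    have e1 : Fintype.card (Fin (q * G') → Fin r → Bool) =
        (2 ^ r) ^ (q * G' - k) * 2 ^ (k * r) := by
      rw [Fintype.card_fun, Fintype.card_fun, Fintype.card_bool, Fintype.card_fin, Fintype.card_fin,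
        mul_comm k r, pow_mul 2 r k, ← pow_add]
      congr 1
      omega
    rw [e1] at hcardG
    have e2 : (2 ^ r) ^ (q * G' - k) * (3 * 2 ^ (k * r)) ≤ (2 ^ r) ^ (q * G' - k) * (4 * T.card) := by
      calc (2 ^ r) ^ (q * G' - k) * (3 * 2 ^ (k * r)) =
          3 * ((2 ^ r) ^ (q * G' - k) * 2 ^ (k * r)) := by ring
        _ ≤ 4 * Good.card := hcardG
        _ ≤ 4 * ((2 ^ r) ^ (q * G' - k) * T.card) := Nat.mul_le_mul_left _ hfib
        _ = _ := by ring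
    exact Nat.le_of_mul_le_mul_left e2 (by positivity)
  have hss₀ : s₀ ≤ s := by
    have e1 : (G' : ℝ) ≤ s := by linarith
    have e2 : G' ≤ s := by exact_mod_cast e1
    omega
  have hsup : s ≤ D * (k * r) := by
    have e1 : ∀ t, t ≤ q * G' → ∀ ω, h (hyb t z0 ω) ≤ h z0 + t * a := by
      intro t
      induction t with
      | zero => intro _ ω; rw [hyb_zero]; omega
      | succ t ih =>
        intro ht ω
        have e2 := ih (by omega) ω
        rw [hyb_succ t (by omega)]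
        have e3 := (abs_le.mp (hLip (hyb t z0 ω) ⟨t, by omega⟩ (ω ⟨t, by omega⟩))).2
        simp only [hhR] at e3
        have e4 : (h (Function.update (hyb t z0 ω) ⟨t, by omega⟩ (ω ⟨t, by omega⟩)) : ℝ) ≤
          h (hyb t z0 ω) + a := by linarith
        have e5 : h (Function.update (hyb t z0 ω) ⟨t, by omega⟩ (ω ⟨t, by omega⟩)) ≤
          h (hyb t z0 ω) + a := by exact_mod_cast e4
        rw [Nat.succ_mul]; omega
    have e2 : avg gp ≤ ((h z0 + (k + G) * a : ℕ) : ℝ) := by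
      apply avg_le
      intro ω
      simp only [hgp, hhR]
      exact_mod_cast e1 (k + G) hkG ω
    have e3 : (s : ℝ) ≤ ((h z0 + (k + G) * a : ℕ) : ℝ) := by linarith
    have e4 : s ≤ h z0 + (k + G) * a := by exact_mod_cast e3
    have e5 : C3 * (r + 1) ≤ 2 * C3 * (k * r) := by
      have : r + 1 ≤ 2 * (k * r) := by
        have : r ≤ k * r := Nat.le_mul_of_pos_left r (by omega)
        omega
      calc C3 * (r + 1) ≤ C3 * (2 * (k * r)) := Nat.mul_le_mul_left _ this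
        _ = _ := by ring
    have e6 : (k + G) * a ≤ 2 * α * (k * r) := by
      rw [ha]
      calc (k + G) * (α * r) ≤ (2 * k) * (α * r) := Nat.mul_le_mul_right _ (by omega)
        _ = _ := by ring
    rw [hD]
    calc s ≤ 2 * C3 * (k * r) + 2 * α * (k * r) := by omega
      _ = _ := by ring
  refine ⟨q * G', r, k, G, s, c, T, x₀, pst, Nat.mul_pos hBG1 hr, ?_, by omega, hss₀, hsup,
    hcount, ?_, hcountT, ?_⟩
  · rw [hk]; exact Nat.mul_le_mul_right _ hjj0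
  · intro τ hτ
    rw [hT] at hτ
    obtain ⟨ω, -, rfl⟩ := Finset.mem_image.mp hτ
    funext i
    simp only [hyb]
    split_ifs <;> rfl
  · intro τ hτ
    rw [hT] at hτ
    obtain ⟨ω, hω, rfl⟩ := Finset.mem_image.mp hτ
    have := hx₀ ω hω
    rw [ha, hα] at this
    exact this

theorem vf_core [Nontrivial F₁] [Nontrivial F₂] (h1 : OneEnded H₁) (h2 : HasEnds 3 H₂)
    (hs : SlowB m₂) (hf : LP (lw F₁ m₁) (lw F₂ m₂) ρ f φ) (hρ : 1 ≤ ρ) {K A : Set H₂}
    (hK : K.Finite) (hA : IsComp m₂ K A) (hAi : A.Infinite)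
    (hmiss : ∀ c : Cfg F₁ H₁, ps (f (mk c 1)) ∉ A) : False := by
  obtain ⟨Λ, hΛ1, hΛ⟩ := ball_card (lw F₁ m₁)
  obtain ⟨D, hD1, hD⟩ := cube_leaf h1 h2 hf hρ hK hA hAi hmiss
  obtain ⟨s₀, hs₀⟩ := hs (4 * D)
  obtain ⟨N, r, k, G, s, c, T, x₀, pst, hGr, hjk, hkN, hss₀, hsD, hcount, hTk, hTc, hT⟩ :=
    hD (4 * (Λ * (2 * (10 * ρ) * ρ + ρ)) + 1) s₀ (by omega)
  have hc : Function.Injective c := by
    intro ω ω' h
    have e1 := hcount ω ω'
    rw [h] at e1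
    simp only [ne_eq, not_true_eq_false, Set.setOf_false, Set.ncard_empty, Nat.le_zero,
      Finset.card_eq_zero] at e1
    funext i j
    by_contra hne
    have : (i, j) ∈ Finset.univ.filter fun p : Fin N × Fin r => ¬ ω p.1 p.2 = ω' p.1 p.2 :=
      Finset.mem_filter.mpr ⟨Finset.mem_univ _, hne⟩
    rw [e1] at this
    simp at this
  set R := ρ + ρ * (2 * (G * (10 * ρ * r))) with hR
  set bd : Set H₂ := {y | m₂.d 1 y = s + 1 ∧ Cn m₂ {z | s < m₂.d 1 z} x₀ y} with hbd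
  have hbdf : bd.Finite := (m₂.ball_fin 1 (s + 1)).subset fun y hy => hy.1.le
  have hTle : T.card ≤ bd.ncard * Λ ^ R := by
    have hsub : T ⊆ hbdf.toFinset.biUnion fun y =>
        T.filter fun τ => (lw F₁ m₁).d (φ (mk pst y)) (mk (c τ) 1) ≤ R := by
      intro τ hτ
      obtain ⟨y, hy, hyc, hyd⟩ := hT τ hτ
      rw [Finset.mem_biUnion]
      exact ⟨y, hbdf.mem_toFinset.mpr ⟨hy, hyc⟩, Finset.mem_filter.mpr ⟨hτ, hyd⟩⟩
    refine (Finset.card_le_card hsub).trans (Finset.card_biUnion_le.trans ?_)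
    have hone : ∀ y ∈ hbdf.toFinset, (T.filter fun τ =>
        (lw F₁ m₁).d (φ (mk pst y)) (mk (c τ) 1) ≤ R).card ≤ Λ ^ R := by
      intro y _
      refine le_trans ?_ (hΛ R (φ (mk pst y)))
      rw [← Set.ncard_coe_finset]
      refine Set.ncard_le_ncard_of_injOn (fun τ => (mk (c τ) 1 : Lm F₁ H₁)) ?_ ?_
        ((lw F₁ m₁).ball_fin _ _)
      · intro τ hτ
        simp only [Finset.coe_filter, Set.mem_setOf_eq] at hτ
        exact hτ.2
      · intro τ _ τ' _ heq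
        apply hc
        have : cf (mk (c τ) 1 : Lm F₁ H₁) = cf (mk (c τ') 1) := by
          simp only at heq
          rw [heq]
        simpa using this
    refine (Finset.sum_le_sum hone).trans ?_
    rw [Finset.sum_const, smul_eq_mul, ← Set.ncard_eq_toFinset_card bd hbdf]
  have hkr : 1 ≤ k * r := by
    have : G * r ≤ k * r := by
      apply Nat.mul_le_mul_right
      calc G = 1 * G := by ring
        _ ≤ (4 * (Λ * (2 * (10 * ρ) * ρ + ρ)) + 1) * G := Nat.mul_le_mul_right _ (by omega)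
        _ ≤ k := hjk
    omega
  have he : 4 * Λ * R ≤ k * r := by
    calc 4 * Λ * R ≤ 4 * Λ * ((2 * (10 * ρ) * ρ + ρ) * (G * r)) :=
          Nat.mul_le_mul_left _ (ar3 ρ G r (10 * ρ) hGr)
      _ ≤ (4 * (Λ * (2 * (10 * ρ) * ρ + ρ)) + 1) * G * r := by
          have : (4 * (Λ * (2 * (10 * ρ) * ρ + ρ)) + 1) * G * r =
            4 * Λ * ((2 * (10 * ρ) * ρ + ρ) * (G * r)) + G * r := by ring
          omega
      _ ≤ k * r := Nat.mul_le_mul_right _ hjk
  exact numeric (2 ^ (k * r)) T.card bd.ncard (Λ ^ R) D k r s R Λ rfl hkr hD1 hTc hTle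
    (hs₀ s hss₀ x₀) hsD rfl he

/-- One-ended against several ends with slow boundaries. -/
theorem vf [Nontrivial F₁] [Nontrivial F₂] (h1 : OneEnded H₁) (h2 : HasEnds 3 H₂)
    (hs : SlowB m₂) (hf : LP (lw F₁ m₁) (lw F₂ m₂) ρ f φ) : False := by
  have hf' : LP (lw F₁ m₁) (lw F₂ m₂) (ρ + 1) f φ :=
    ⟨fun x y => (hf.fl x y).trans (Nat.mul_le_mul_right _ (by omega)),
      fun x y => (hf.gl x y).trans (Nat.mul_le_mul_right _ (by omega)),
      fun x => (hf.gf x).trans (by omega), fun y => (hf.fg y).trans (by omega)⟩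
  obtain ⟨f', φ', K, A, hf', hK, hA, hAi, hmiss⟩ := limit h1 h2 hf'
  exact vf_core h1 h2 hs hf' (by omega) hK hA hAi hmiss

end

end Pool.Agent.EndsLamp
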