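import Pool.Agent.EndsLamp.FPNS
import Pool.Agent.EndsLamp.VF

/-! # Finitely presented groups: separation by thin sets -/

set_option autoImplicit false
set_option linter.unusedSectionVars false
set_option linter.unnecessarySimpa false
set_option linter.unusedSimpArgs false
set_option linter.unusedVariables false
set_option linter.deprecated false

open scoped Pointwise Classical

namespace Pool.Agent.EndsLamp

section

variable {G : Type*} [Group G]

/-- In a finitely presented group the coboundary of a function splits into local parts. -/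
theorem fp_potential (hfp : Group.IsFinitelyPresented G) : ∃ (m : WM G) (R : ℕ), 1 ≤ R ∧
    ∀ (X : Set G) (χ : G → ZMod 2), (∀ p p', m.d p p' ≤ 1 → p ∉ X → p' ∉ X → χ p' = χ p) →
      ∀ α : Quotient (chainS m X R), ∃ Ψ : G → ZMod 2, ∀ p p', m.d p p' ≤ 1 →
        Ψ p' - Ψ p = om m X R χ α p p' := by
  obtain ⟨n, φ, hφ, Rel, hRel, hker⟩ := hfp.out
  set S : Set G := Set.range (fun i : Fin n => φ (FreeGroup.of i)) with hS
  have hSf : S.Finite := Set.finite_range _
  have hSg : Subgroup.closure S = ⊤ := by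
    have e1 : S = φ '' (Set.range (FreeGroup.of : Fin n → FreeGroup (Fin n))) := by
      rw [hS, ← Set.range_comp]; rfl
    rw [e1, ← MonoidHom.map_closure, FreeGroup.closure_range_of, ← MonoidHom.range_eq_map,
      MonoidHom.range_eq_top.mpr hφ]
  set m : WM G := wm S hSf hSg with hm
  have hunit : ∀ p p', m.d p p' ≤ 1 ↔ p⁻¹ * p' ∈ (insert 1 (S ∪ S⁻¹) : Set G) := by
    intro p p'
    rw [hm]
    unfold WM.d wm
    rw [WM.ofSet_le, pow_one]
  set adj : G → G → Prop := fun p p' => ∃ i : Fin n, p' = p * φ (FreeGroup.of i) ∨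
    p = p' * φ (FreeGroup.of i) with hadj
  have hadj_symm : ∀ p p', adj p p' → adj p' p := by
    rintro p p' ⟨i, h | h⟩
    · exact ⟨i, Or.inr h⟩
    · exact ⟨i, Or.inl h⟩
  have hadj1 : ∀ p p', adj p p' → m.d p p' ≤ 1 := by
    rintro p p' ⟨i, h | h⟩
    · rw [hunit]
      right; left
      exact ⟨i, by rw [h]; group⟩
    · rw [hunit]
      right; right
      rw [Set.mem_inv]
      exact ⟨i, by rw [h]; group⟩
  have hunit_adj : ∀ p p', m.d p p' ≤ 1 → p = p' ∨ adj p p' := by
    intro p p' h
    rw [hunit] at h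
    rcases h with h | ⟨i, hi⟩ | h
    · left; exact inv_mul_eq_one.mp h
    · right
      have hi' : φ (FreeGroup.of i) = p⁻¹ * p' := hi
      exact ⟨i, Or.inl (by rw [hi']; group)⟩
    · right
      rw [Set.mem_inv] at h
      obtain ⟨i, hi⟩ := h
      have hi' : φ (FreeGroup.of i) = (p⁻¹ * p')⁻¹ := hi
      exact ⟨i, Or.inr (by rw [hi']; group)⟩
  have hconn : ∀ p q, Relation.ReflTransGen adj p q := by
    intro p q
    have key : ∀ k, ∀ q, m.d p q = k → Relation.ReflTransGen adj p q := by
      intro k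
      induction k with
      | zero => intro q h; rw [m.eq_of_d h]
      | succ k ih =>
        intro q h
        obtain ⟨q', e1, e2⟩ := m.prev h
        rcases hunit_adj _ _ e2 with e3 | e3
        · rw [← e3]; exact ih q' e1
        · exact (ih q' e1).tail e3
    exact key _ q rfl
  have hadj_lstep : ∀ (p : G) (x : Fin n × Bool), adj p (lstep φ p x) := by
    rintro p ⟨i, b⟩
    cases b with
    | true => exact ⟨i, Or.inl rfl⟩
    | false =>
      refine ⟨i, Or.inr ?_⟩
      have h1 : (FreeGroup.mk [(i, false)] : FreeGroup (Fin n)) = (FreeGroup.of i)⁻¹ := rfl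
      unfold lstep
      rw [h1, map_inv, inv_mul_cancel_right]
  -- maximal length of a relator
  obtain ⟨N, hN⟩ := (hRel.image (fun r : FreeGroup (Fin n) => r.toWord.length)).bddAbove
  refine ⟨m, 2 * N + 1, by omega, fun X χ hχ' α => ?_⟩
  have hχ : ∀ p p', adj p p' → p ∉ X → p' ∉ X → χ p' = χ p := fun p p' h =>
    hχ' p p' (hadj1 p p' h)
  set w : G → G → ZMod 2 := om m X (2 * N + 1) χ α with hw
  have hwanti : ∀ p q, w p q = - w q p := om_antisymm m X _ χ α
  -- relators act trivially
  have hrel : ∀ r ∈ Rel, r ∈ (mono φ w).ker := by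
    intro r hr
    rw [MonoidHom.mem_ker]
    apply MulOpposite.unop_injective
    apply Equiv.ext
    intro y
    have hlen : r.toWord.length ≤ N := hN ⟨r, hr, rfl⟩
    have hφr : φ r = 1 := by
      have : r ∈ φ.ker := by rw [← hker]; exact Subgroup.subset_normalClosure hr
      exact this
    have e1 := mono_list φ w hwanti r.toWord y
    rw [FreeGroup.mk_toWord] at e1
    rw [e1, hφr, mul_one]
    have e2 : lsum φ w y.1 r.toWord = 0 := by
      by_cases hex : ∃ v ∈ clsS m X (2 * N + 1) α, m.d y.1 v ≤ N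
      · obtain ⟨v, hv, hvd⟩ := hex
        have key : ∀ (L : List (Fin n × Bool)) (q : G), m.d y.1 q + L.length ≤ N →
            lsum φ w q L = χ (q * φ (FreeGroup.mk L)) - χ q := by
          intro L
          induction L with
          | nil =>
            intro q _
            have : (FreeGroup.mk [] : FreeGroup (Fin n)) = 1 := rfl
            simp [lsum, this]
          | cons x L ih =>
            intro q hq
            have hst := hadj_lstep q x
            have hst1 := hadj1 _ _ hst
            have ht := m.tri y.1 q (lstep φ q x)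
            simp only [List.length_cons] at hq
            have h3 := ih (lstep φ q x) (by omega)
            have h4 : (FreeGroup.mk (x :: L) : FreeGroup (Fin n)) =
                FreeGroup.mk [x] * FreeGroup.mk L := by
              rw [FreeGroup.mul_mk]; rfl
            have h5 : lstep φ q x * φ (FreeGroup.mk L) = q * φ (FreeGroup.mk (x :: L)) := by
              rw [h4, map_mul]; unfold lstep; group
            have h6 : w q (lstep φ q x) = χ (lstep φ q x) - χ q := by
              rw [hw]
              unfold om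
              by_cases hX : q ∈ X ∨ lstep φ q x ∈ X
              · rw [if_pos]
                rcases hX with hX | hX
                · left
                  refine ⟨hX, ?_⟩
                  rw [← hv.2]
                  apply cls_close hX hv.1
                  have := m.tri q y.1 v
                  rw [m.d_comm q y.1] at this
                  omega
                · right
                  refine ⟨hX, ?_⟩
                  rw [← hv.2]
                  apply cls_close hX hv.1
                  have := m.tri (lstep φ q x) y.1 v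
                  rw [m.d_comm (lstep φ q x) y.1] at this
                  omega
              · push Not at hX
                rw [if_neg]
                · rw [hχ _ _ hst hX.1 hX.2, sub_self]
                · rintro (h | h)
                  · exact hX.1 h.1
                  · exact hX.2 h.1
            simp only [lsum]
            rw [h3, h5, h6]
            ring
        have := key r.toWord y.1 (by simp; exact hlen)
        rw [FreeGroup.mk_toWord, hφr, mul_one, sub_self] at this
        exact this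
      · push Not at hex
        have key : ∀ (L : List (Fin n × Bool)) (q : G), m.d y.1 q + L.length ≤ N →
            lsum φ w q L = 0 := by
          intro L
          induction L with
          | nil => intro q _; rfl
          | cons x L ih =>
            intro q hq
            have hst1 := hadj1 _ _ (hadj_lstep q x)
            have ht := m.tri y.1 q (lstep φ q x)
            simp only [List.length_cons] at hq
            have h3 := ih (lstep φ q x) (by omega)
            have h6 : w q (lstep φ q x) = 0 := by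
              rw [hw]
              unfold om
              rw [if_neg]
              rintro (h | h)
              · have := hex _ h; omega
              · have := hex _ h; omega
            simp only [lsum]
            rw [h3, h6, add_zero]
        exact key r.toWord y.1 (by simp; exact hlen)
    rw [e2, add_zero]
    rfl
  have hkk : φ.ker ≤ (mono φ w).ker := by
    rw [← hker]
    exact Subgroup.normalClosure_le_normal hrel
  -- the potential
  choose σ hσ using hφ
  set Ψ : G → ZMod 2 := fun g => ((mono φ w (σ g)).unop (1, 0)).2 with hΨ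
  have hval : ∀ v : FreeGroup (Fin n), (mono φ w v).unop (1, 0) = (φ v, Ψ (φ v)) := by
    intro v
    have e1 : mono φ w v = mono φ w (σ (φ v)) := by
      have : v⁻¹ * σ (φ v) ∈ φ.ker := by
        rw [MonoidHom.mem_ker, map_mul, map_inv, hσ, inv_mul_cancel]
      have := hkk this
      rw [MonoidHom.mem_ker, map_mul, map_inv, inv_mul_eq_one] at this
      exact this
    have e2 := mono_list φ w hwanti v.toWord (1, 0)
    rw [FreeGroup.mk_toWord] at e2
    apply Prod.ext
    · rw [e2]; simp
    · rw [e1]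
  have hstep : ∀ (p : G) (i : Fin n), Ψ (p * φ (FreeGroup.of i)) =
      Ψ p + w p (p * φ (FreeGroup.of i)) := by
    intro p i
    have e1 := hval (σ p * FreeGroup.of i)
    rw [map_mul, MulOpposite.unop_mul, Equiv.Perm.mul_apply, hval, map_mul, hσ] at e1
    have e2 := mono_letter φ w hwanti (i, true) (p, Ψ p)
    have e3 : (FreeGroup.mk [(i, true)] : FreeGroup (Fin n)) = FreeGroup.of i := rfl
    rw [e3] at e2
    rw [e2] at e1
    have := congrArg Prod.snd e1
    simp only [lstep, e3] at this
    exact this.symm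
  have hpot : ∀ p p', adj p p' → Ψ p' - Ψ p = w p p' := by
    rintro p p' ⟨i, h | h⟩
    · rw [h, hstep]; ring
    · rw [h, hstep, hwanti]; ring
  refine ⟨Ψ, fun p p' h => ?_⟩
  rcases hunit_adj _ _ h with h | h
  · subst h
    rw [hw]
    unfold om
    simp
  · exact hpot p p' h

/-- Separation of the points of a boundary of a component by a thin set happens near one of
the points. -/
def RelNS (m : WM G) : Prop := ∀ D : ℕ → ℕ, ∃ D₀ : ℕ, ∀ X : Set G, ThinW m D X →
  ∀ (s : ℕ) (p q : G), m.d 1 p = s + 1 → m.d 1 q = s + 1 → Cn m {z | s < m.d 1 z} p q →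
    (∀ x ∈ X, D₀ < m.d p x) → (∀ x ∈ X, D₀ < m.d q x) → Cn m Xᶜ p q

theorem fp_relNS (hfp : Group.IsFinitelyPresented G) : ∃ m : WM G, RelNS m := by
  obtain ⟨m, R, hR, hpot⟩ := fp_potential hfp
  refine ⟨m, fun D => ⟨D R, fun X hX s p q hp hq hpq hpX hqX => ?_⟩⟩
  by_contra hcon
  have hpX' : p ∉ X := fun h => by have := hpX p h; simp at this
  have hqX' : q ∉ X := fun h => by have := hqX q h; simp at this
  set χ : G → ZMod 2 := fun z => if z ∉ X ∧ Cn m Xᶜ p z then 1 else 0 with hχ
  have hχs : ∀ z z', m.d z z' ≤ 1 → z ∉ X → z' ∉ X → χ z' = χ z := by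
    intro z z' hd h1 h2
    have : (z' ∉ X ∧ Cn m Xᶜ p z') ↔ (z ∉ X ∧ Cn m Xᶜ p z) := by
      constructor
      · rintro ⟨-, h⟩
        exact ⟨h1, h.trans (Cn.step h2 h1 (by rw [m.d_comm]; exact hd))⟩
      · rintro ⟨-, h⟩
        exact ⟨h2, h.trans (Cn.step h1 h2 hd)⟩
    rw [hχ]
    simp only [this]
  -- potentials normalised at `p`
  have hΨ := fun α => hpot X χ hχs α
  choose Ψ' hΨ' using hΨ
  set Ψ : Quotient (chainS m X R) → G → ZMod 2 := fun α z => Ψ' α z - Ψ' α p with hΨdef
  have hΨs : ∀ α a b, m.d a b ≤ 1 → Ψ α b - Ψ α a = om m X R χ α a b := by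
    intro α a b hab
    rw [← hΨ' α a b hab, hΨdef]
    ring
  have hΨp : ∀ α, Ψ α p = 0 := fun α => by rw [hΨdef]; ring
  -- paths avoiding the class
  have havoid : ∀ α (U : Set G), (∀ z ∈ U, z ∉ clsS m X R α) → ∀ a b, Cn m U a b →
      Ψ α b = Ψ α a := by
    intro α U hU a b hab
    refine hab.prop (fun z => Ψ α z = Ψ α a) (fun c d hc hd hcd hPc => ?_) rfl
    have e1 := hΨs α c d hcd
    have e2 : om m X R χ α c d = 0 := by
      unfold om
      rw [if_neg]
      rintro (h | h)
      · exact hU c hc h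
      · exact hU d hd h
    rw [e2] at e1
    rw [sub_eq_zero.mp e1]; exact hPc
  -- finiteness
  have hfin : ∀ z, (Function.support fun α => Ψ α z).Finite := by
    intro z
    apply ((m.ball_fin p (m.d p z)).image (Quotient.mk (chainS m X R))).subset
    intro α hα
    simp only [Function.mem_support] at hα
    by_contra hno
    apply hα
    rw [← hΨp α]
    apply havoid α {y | m.d p y ≤ m.d p z}
    · intro y hy hyc
      exact hno ⟨y, hy, hyc.2⟩
    · exact ball_conn p _ le_rfl
  set Sg : G → ZMod 2 := fun z => ∑ᶠ α, Ψ α z with hSg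
  have hstep : ∀ a b, m.d a b ≤ 1 → χ b - Sg b = χ a - Sg a := by
    intro a b hd
    have e1 : Sg b - Sg a = ∑ᶠ α, om m X R χ α a b := by
      rw [hSg]
      simp only
      rw [← finsum_sub_distrib (hfin b) (hfin a)]
      exact finsum_congr fun α => hΨs α a b hd
    have e2 : ∑ᶠ α, om m X R χ α a b = χ b - χ a := by
      by_cases haX : a ∈ X
      · rw [finsum_eq_single _ (Quotient.mk (chainS m X R) a)]
        · unfold om
          rw [if_pos (Or.inl ⟨haX, rfl⟩)]
        · intro α hα
          unfold om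
          rw [if_neg]
          rintro (h1 | h1)
          · exact hα h1.2.symm
          · apply hα
            rw [← h1.2]
            exact (cls_close haX h1.1 (hd.trans hR)).symm
      · by_cases hbX : b ∈ X
        · rw [finsum_eq_single _ (Quotient.mk (chainS m X R) b)]
          · unfold om
            rw [if_pos (Or.inr ⟨hbX, rfl⟩)]
          · intro α hα
            unfold om
            rw [if_neg]
            rintro (h1 | h1)
            · exact haX h1.1
            · exact hα h1.2.symm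
        · have : ∀ α, om m X R χ α a b = 0 := by
            intro α
            unfold om
            rw [if_neg]
            rintro (h1 | h1)
            · exact haX h1.1
            · exact hbX h1.1
          rw [finsum_congr this, finsum_zero, hχs a b hd haX hbX, sub_self]
    rw [e2] at e1
    have e3 : χ b - Sg b - (χ a - Sg a) = (χ b - χ a) - (Sg b - Sg a) := by ring
    rw [e1, sub_self] at e3
    exact sub_eq_zero.mp e3
  have hall : ∀ z, χ z - Sg z = χ p - Sg p := by
    intro z
    exact (ball_conn p _ le_rfl : Cn m {y | m.d p y ≤ m.d p z} p z).prop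
      (fun y => χ y - Sg y = χ p - Sg p) (fun a b _ _ hab hPa => by rw [hstep a b hab, hPa]) rfl
  have hSp : Sg p = 0 := by
    rw [hSg]
    simp only
    rw [finsum_congr fun α => hΨp α, finsum_zero]
  have e1 : χ p = 1 := by
    rw [hχ]; simp only; rw [if_pos ⟨hpX', Cn.refl p⟩]
  have e2 : χ q = 0 := by
    rw [hχ]; simp only; rw [if_neg]; exact fun h => hcon h.2
  have hSq : Sg q ≠ 0 := by
    intro h
    have := hall q
    rw [e1, e2, hSp, h] at this
    simp at this
  -- a class that separates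
  obtain ⟨α, hα⟩ : ∃ α, Ψ α q ≠ 0 := by
    by_contra hno
    push Not at hno
    apply hSq
    rw [hSg]
    simp only
    rw [finsum_congr hno, finsum_zero]
  rw [← hΨp α] at hα
  -- the path outside the ball
  obtain ⟨t, hts, htα⟩ : ∃ t, s < m.d 1 t ∧ t ∈ clsS m X R α := by
    by_contra hno
    push Not at hno
    exact hα (havoid α {z | s < m.d 1 z} (fun z hz => hno z hz) p q hpq)
  -- the path through `1`
  obtain ⟨t', htα', ht'⟩ : ∃ t' ∈ clsS m X R α,
      m.d 1 t' + m.d t' p = s + 1 ∨ m.d 1 t' + m.d t' q = s + 1 := by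
    by_contra hno
    push Not at hno
    apply hα
    have hgeo : ∀ y, m.d 1 y = s + 1 → (∀ t' ∈ clsS m X R α, m.d 1 t' + m.d t' y ≠ s + 1) →
        Ψ α y = Ψ α 1 := by
      intro y hy hyn
      have hc : ∀ n z, m.d 1 z = n → m.d 1 z + m.d z y = s + 1 →
          Cn m {z | m.d 1 z + m.d z y = s + 1} 1 z := by
        intro n
        induction n with
        | zero => intro z h _; rw [m.eq_of_d h]; exact Cn.refl _
        | succ n ih =>
          intro z h h'
          obtain ⟨z', h3, h4⟩ := m.prev h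
          have h5 := m.tri z' z y
          have h6 := m.tri 1 z' y
          have h7 : m.d 1 z' + m.d z' y = s + 1 := by omega
          exact (ih z' h3 h7).trans (Cn.step h7 h' h4)
      exact havoid α _ (fun z hz h => hyn z h hz) 1 y (hc _ y rfl (by simp [hy]))
    rw [hgeo p hp fun t' ht' => (hno t' ht').1, hgeo q hq fun t' ht' => (hno t' ht').2]
  have hd := cls_diam hX htα htα'
  have e3 := m.tri 1 t' t
  rw [m.d_comm t' t] at e3
  rcases ht' with h | h
  · have := hpX t' htα'.1
    rw [m.d_comm] at this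
    omega
  · have := hqX t' htα'.1
    rw [m.d_comm] at this
    omega

end

section

variable {F₁ F₂ H K : Type*} [Group F₁] [Group F₂] [Group H] [Group K] [Finite F₁] [Finite F₂]
variable {m₁ : WM H} {m₂ : WM K} {ρ : ℕ} {f : Lm F₁ H → Lm F₂ K} {φ : Lm F₂ K → Lm F₁ H}

/-- The part of a leaf that is mapped near a given fibre is thin, uniformly. -/
lemma control0 (hf : LP (lw F₁ m₁) (lw F₂ m₂) ρ f φ) (r : ℕ) :
    ∃ D : ℕ → ℕ, ∀ (c : Cfg F₁ H) (q : K),
      ThinW m₁ D {p : H | m₂.d q (ps (f (mk c p))) ≤ r} := by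
  have hM : ∀ R : ℕ, ∃ M : ℕ, ∀ (u v : Lm F₂ K),
      (∀ z, cf u z ≠ cf v z → m₂.d (ps u) z ≤ 2 * r + ρ * R) →
      m₂.d (ps u) (ps v) ≤ 2 * r → (lw F₂ m₂).d u v ≤ M := fun R => lw_bdd2 m₂ _ _
  choose M hM using hM
  refine ⟨fun R => ρ * M R + 2 * ρ, fun c q R x y hx hxy => ?_⟩
  have key : m₂.d q (ps (f (mk c y))) ≤ r ∧ ∀ z, cf (f (mk c x)) z ≠
      cf (f (mk c y)) z → m₂.d q z ≤ r + ρ * R := by
    induction hxy with
    | refl => exact ⟨hx, fun z hz => absurd rfl hz⟩
    | tail hab hbc ih =>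
      rename_i b d
      refine ⟨hbc.1, fun z hz => ?_⟩
      by_cases hzb : cf (f (mk c x)) z = cf (f (mk c b)) z
      · rw [hzb] at hz
        have e1 := lw_lamp m₂ _ _ hz
        have e2 := hf.fl (mk c b) (mk c d)
        have e3 := lw_leaf (F := F₁) m₁ c b d
        have e5 := hbc.2
        have e6 : ρ * (lw F₁ m₁).d (mk c b) (mk c d) ≤ ρ * R :=
          Nat.mul_le_mul_left _ (by omega)
        have e7 := m₂.tri q (ps (f (mk c b))) z
        have e8 := ih.1
        omega
      · exact ih.2 z hzb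
  have hx' : m₂.d q (ps (f (mk c x))) ≤ r := hx
  have e1 := hM R (f (mk c x)) (f (mk c y)) (fun z hz => by
      have e1 := key.2 z hz
      have e2 := m₂.tri (ps (f (mk c x))) q z
      rw [m₂.d_comm _ q] at e2
      omega) (by
      have e2 := m₂.tri (ps (f (mk c x))) q (ps (f (mk c y)))
      rw [m₂.d_comm _ q] at e2
      omega)
  have e2 := hf.low (mk c x) (mk c y)
  have e3 := lw_ps m₁ (mk c x : Lm F₁ H) (mk c y)
  simp only [ps_mk] at e3
  have e4 : ρ * (lw F₂ m₂).d (f (mk c x)) (f (mk c y)) ≤ ρ * M R :=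
    Nat.mul_le_mul_left _ e1
  show m₁.d x y ≤ ρ * M R + 2 * ρ
  omega

/-- Along the boundary of a component few lamps change. -/
lemma RelNS.few (hf : LP (lw F₁ m₁) (lw F₂ m₂) ρ f φ) (hNS : RelNS m₁) :
    ∃ c₀ : ℕ, ∀ (c : Cfg F₁ H) (s : ℕ) (p q : H), m₁.d 1 p = s + 1 → m₁.d 1 q = s + 1 →
      Cn m₁ {z | s < m₁.d 1 z} p q →
      {z | cf (f (mk c p)) z ≠ cf (f (mk c q)) z}.ncard ≤ c₀ := by
  obtain ⟨D, hD⟩ := control0 hf ρ
  obtain ⟨D₀, hD₀⟩ := hNS D
  obtain ⟨Λ, hΛ1, hΛ⟩ := ball_card m₂
  refine ⟨Λ ^ (ρ + ρ * D₀) + Λ ^ (ρ + ρ * D₀), fun c s p q hp hq hpq => ?_⟩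
  have step : ∀ a b : H, m₂.d (ps (f (mk c a))) (ps (f (mk c b))) ≤ ρ * m₁.d a b := by
    intro a b
    have e1 := lw_ps m₂ (f (mk c a)) (f (mk c b))
    have e2 := hf.fl (mk c a) (mk c b)
    have e3 := Nat.mul_le_mul_left ρ (lw_leaf (F := F₁) m₁ c a b)
    omega
  have hsub : {z | cf (f (mk c p)) z ≠ cf (f (mk c q)) z} ⊆
      {z | m₂.d (ps (f (mk c p))) z ≤ ρ + ρ * D₀} ∪ {z | m₂.d (ps (f (mk c q))) z ≤ ρ + ρ * D₀} := by
    intro z hz
    by_contra hcon
    simp only [Set.mem_union, Set.mem_setOf_eq, not_or, not_le] at hcon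
    apply hz
    have hfar : ∀ y, ρ + ρ * D₀ < m₂.d (ps (f (mk c y))) z →
        ∀ x ∈ {x : H | m₂.d z (ps (f (mk c x))) ≤ ρ}, D₀ < m₁.d y x := by
      intro y hy x hx
      by_contra hle
      push Not at hle
      have e1 := step y x
      have e2 : ρ * m₁.d y x ≤ ρ * D₀ := Nat.mul_le_mul_left _ hle
      have e3 := m₂.tri (ps (f (mk c y))) (ps (f (mk c x))) z
      rw [m₂.d_comm _ z] at e3
      have e4 : m₂.d z (ps (f (mk c x))) ≤ ρ := hx
      rw [m₂.d_comm (ps (f (mk c x))) z] at e3
      rw [m₂.d_comm (ps (f (mk c y))) z] at hy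
      omega
    have hc := hD₀ _ (hD c z) s p q hp hq hpq (hfar p hcon.1) (hfar q hcon.2)
    refine (hc.prop (fun x => cf (f (mk c x)) z = cf (f (mk c p)) z)
      (fun a b ha hb hab hPa => ?_) rfl).symm
    rw [← hPa]
    by_contra hne
    have e1 := lw_lamp m₂ _ _ (Ne.symm hne)
    have e2 := hf.fl (mk c a) (mk c b)
    have e3 := lw_leaf (F := F₁) m₁ c a b
    have e4 : ρ * (lw F₁ m₁).d (mk c a) (mk c b) ≤ ρ * 1 := Nat.mul_le_mul_left _ (by omega)
    apply ha
    simp only [Set.mem_setOf_eq]
    rw [m₂.d_comm]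
    omega
  refine (Set.ncard_le_ncard hsub ((m₂.ball_fin _ _).union (m₂.ball_fin _ _))).trans ?_
  refine (Set.ncard_union_le _ _).trans ?_
  exact Nat.add_le_add (hΛ _ _) (hΛ _ _)

end

section

lemma trunc_card {N r : ℕ} (k : ℕ) (hk : k ≤ N) (T : Finset (Fin N → Fin r → Bool))
    (hT : ∀ τ ∈ T, hyb k z0 τ = τ) : T.card ≤ 2 ^ (k * r) := by
  have h1 : T.card ≤ Fintype.card ({i : Fin N // i.1 < k} → Fin r → Bool) := by
    rw [← Finset.card_univ]
    apply Finset.card_le_card_of_injOn (fun ω => fun i => ω i.1)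
      (fun _ _ => Finset.mem_coe.mpr (Finset.mem_univ _))
    intro ω hω ω' hω' heq
    rw [← hT ω hω, ← hT ω' hω']
    funext i
    simp only [hyb]
    by_cases hi : i.1 < k
    · simp only [hi, if_true]
      exact congrFun heq ⟨i, hi⟩
    · simp only [hi, if_false]
  refine h1.trans (le_of_eq ?_)
  rw [Fintype.card_fun, Fintype.card_fun, Fintype.card_bool, Fintype.card_fin, mul_comm, pow_mul]
  congr 1
  rw [Fintype.card_subtype]
  have : (Finset.univ.filter fun i : Fin N => i.1 < k).card = ((Finset.range k)).card := by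
    apply Finset.card_bij (fun i _ => i.1)
    · intro i hi; simpa using hi
    · intro i _ j _ hij; exact Fin.ext hij
    · intro i hi
      rw [Finset.mem_range] at hi
      exact ⟨⟨i, by omega⟩, by simp [hi], rfl⟩
  rw [this, Finset.card_range]

/-- a large set of truncated states contains two opposite states -/
lemma antipodes {N r : ℕ} (k : ℕ) (hk : k ≤ N) (T : Finset (Fin N → Fin r → Bool))
    (hT : ∀ τ ∈ T, hyb k z0 τ = τ) (hc : 3 * 2 ^ (k * r) ≤ 4 * T.card) :
    ∃ τ ∈ T, ∃ τ' ∈ T, k * r ≤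
      (Finset.univ.filter fun p : Fin N × Fin r => τ p.1 p.2 ≠ τ' p.1 p.2).card := by
  set fl : (Fin N → Fin r → Bool) → (Fin N → Fin r → Bool) :=
    fun τ => hyb k z0 (fun i j => !τ i j) with hfl
  have hflfl : ∀ τ, hyb k z0 τ = τ → fl (fl τ) = τ := by
    intro τ h
    rw [← h]
    funext i j
    simp only [hfl, hyb]
    by_cases hi : i.1 < k
    · simp [hi]
    · simp [hi]
  have hflT : ∀ τ, hyb k z0 (fl τ) = fl τ := by
    intro τ
    funext i
    simp only [hfl, hyb]
    split_ifs <;> rfl
  have hinj : Set.InjOn fl T := by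
    intro τ hτ τ' hτ' h
    rw [← hflfl τ (hT τ hτ), ← hflfl τ' (hT τ' hτ'), h]
  have hnd : ¬ Disjoint T (T.image fl) := by
    intro hd
    have h1 := trunc_card k hk (T ∪ T.image fl) (by
      intro τ hτ
      rcases Finset.mem_union.mp hτ with h | h
      · exact hT τ h
      · obtain ⟨τ', -, rfl⟩ := Finset.mem_image.mp h
        exact hflT τ')
    rw [Finset.card_union_of_disjoint hd, Finset.card_image_of_injOn hinj] at h1
    have h2 : 0 < 2 ^ (k * r) := by positivity
    omega
  rw [Finset.not_disjoint_iff] at hnd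
  obtain ⟨τ, hτ, hτ'⟩ := hnd
  obtain ⟨τ', hτ'', rfl⟩ := Finset.mem_image.mp hτ'
  refine ⟨fl τ', hτ, τ', hτ'', ?_⟩
  have h1 : k * r = ((Finset.range k) ×ˢ (Finset.univ : Finset (Fin r))).card := by
    rw [Finset.card_product, Finset.card_range, Finset.card_univ, Fintype.card_fin]
  rw [h1]
  apply Finset.card_le_card_of_surjOn (fun p : Fin N × Fin r => (p.1.1, p.2))
  rintro ⟨i, j⟩ hij
  simp only [Finset.coe_product, Set.mem_prod, Finset.coe_range, Set.mem_Iio, Finset.coe_univ,
    Set.mem_univ, and_true] at hij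
  refine ⟨(⟨i, by omega⟩, j), ?_, rfl⟩
  simp only [Finset.coe_filter, Finset.mem_univ, true_and, Set.mem_setOf_eq, hfl, hyb, hij, if_true]
  simp

end

section

variable {F₁ F₂ H₁ H₂ : Type*} [Group F₁] [Group F₂] [Group H₁] [Group H₂]
variable [Finite F₁] [Finite F₂]
variable {m₁ : WM H₁} {m₂ : WM H₂} {ρ : ℕ} {f : Lm F₁ H₁ → Lm F₂ H₂} {φ : Lm F₂ H₂ → Lm F₁ H₁}

theorem relNS_core [Nontrivial F₁] [Nontrivial F₂] (h1 : OneEnded H₁) (h2 : HasEnds 3 H₂)
    (hs : RelNS m₂) (hf : LP (lw F₁ m₁) (lw F₂ m₂) ρ f φ) (hρ : 1 ≤ ρ) {K A : Set H₂}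
    (hK : K.Finite) (hA : IsComp m₂ K A) (hAi : A.Infinite)
    (hmiss : ∀ c : Cfg F₁ H₁, ps (f (mk c 1)) ∉ A) : False := by
  obtain ⟨c₀, hc₀⟩ := hs.few hf.symm
  obtain ⟨D, hD1, hD⟩ := cube_leaf h1 h2 hf hρ hK hA hAi hmiss
  obtain ⟨N, r, k, G, s, c, T, x₀, pst, hGr, hjk, hkN, hss₀, hsD, hcount, hTk, hTc, hT⟩ :=
    hD (2 * (2 * (10 * ρ) * ρ + ρ) + c₀ + 1) 0 (by omega)
  obtain ⟨τ, hτ, τ', hτ', hdiff⟩ := antipodes k hkN T hTk hTc
  set R := ρ + ρ * (2 * (G * (10 * ρ * r))) with hR
  have hRle : R ≤ (2 * (10 * ρ) * ρ + ρ) * (G * r) := ar3 ρ G r (10 * ρ) hGr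
  obtain ⟨y, hy, hyc, hyd⟩ := hT τ hτ
  obtain ⟨y', hy', hyc', hyd'⟩ := hT τ' hτ'
  have e1 := hc₀ pst s y y' hy hy' (hyc.symm.trans hyc')
  have e2 := lw_count m₁ (φ (mk pst y)) (mk (c τ) 1)
  have e3 := lw_count m₁ (φ (mk pst y')) (mk (c τ') 1)
  have hsub : {z | c τ z ≠ c τ' z} ⊆
      {z | cf (φ (mk pst y)) z ≠ cf (mk (c τ) 1 : Lm F₁ H₁) z} ∪
      ({z | cf (φ (mk pst y)) z ≠ cf (φ (mk pst y')) z} ∪
      {z | cf (φ (mk pst y')) z ≠ cf (mk (c τ') 1 : Lm F₁ H₁) z}) := by
    intro z hz
    by_contra hcon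
    simp only [Set.mem_union, Set.mem_setOf_eq, not_or, not_not, cf_mk] at hcon
    apply hz
    rw [← hcon.1, hcon.2.1, hcon.2.2]
  have e4 := Set.ncard_le_ncard hsub ((diff_fin _ _).union ((diff_fin _ _).union (diff_fin _ _)))
  have e5 := Set.ncard_union_le
    {z | cf (φ (mk pst y)) z ≠ cf (mk (c τ) 1 : Lm F₁ H₁) z}
    ({z | cf (φ (mk pst y)) z ≠ cf (φ (mk pst y')) z} ∪
      {z | cf (φ (mk pst y')) z ≠ cf (mk (c τ') 1 : Lm F₁ H₁) z})
  have e6 := Set.ncard_union_le {z | cf (φ (mk pst y)) z ≠ cf (φ (mk pst y')) z}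
      {z | cf (φ (mk pst y')) z ≠ cf (mk (c τ') 1 : Lm F₁ H₁) z}
  have e7 := hcount τ τ'
  have e8 : (2 * (2 * (10 * ρ) * ρ + ρ) + c₀ + 1) * G * r ≤ k * r := Nat.mul_le_mul_right _ hjk
  have e9 : (2 * (2 * (10 * ρ) * ρ + ρ) + c₀ + 1) * G * r =
      2 * ((2 * (10 * ρ) * ρ + ρ) * (G * r)) + c₀ * (G * r) + G * r := by ring
  have e10 : c₀ * 1 ≤ c₀ * (G * r) := Nat.mul_le_mul_left _ hGr
  omega

/-- One-ended against several ends, relative version of non-separability. -/
theorem relNS [Nontrivial F₁] [Nontrivial F₂] (h1 : OneEnded H₁) (h2 : HasEnds 3 H₂)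
    (hs : RelNS m₂) (hf : LP (lw F₁ m₁) (lw F₂ m₂) ρ f φ) : False := by
  have hf' : LP (lw F₁ m₁) (lw F₂ m₂) (ρ + 1) f φ :=
    ⟨fun x y => (hf.fl x y).trans (Nat.mul_le_mul_right _ (by omega)),
      fun x y => (hf.gl x y).trans (Nat.mul_le_mul_right _ (by omega)),
      fun x => (hf.gf x).trans (by omega), fun y => (hf.fg y).trans (by omega)⟩
  obtain ⟨f', φ', K, A, hf', hK, hA, hAi, hmiss⟩ := limit h1 h2 hf'
  exact relNS_core h1 h2 hs hf' (by omega) hK hA hAi hmiss

end

end Pool.Agent.EndsLamp
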