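import Pool.Agent.EndsLamp.NS

/-! # A cohomological criterion for not being thinly separable -/

set_option autoImplicit false
set_option linter.unusedSectionVars false
set_option linter.unnecessarySimpa false
set_option linter.unusedSimpArgs false
set_option linter.deprecated false

open scoped Pointwise Classical

namespace Pool.Agent.EndsLamp

section

variable {G : Type*} [Group G]

/-- The equivalence relation of being joined by an `R`-chain in `X`. -/
def chainS (m : WM G) (X : Set G) (R : ℕ) : Setoid G where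
  r x y := Relation.ReflTransGen (fun a b => a ∈ X ∧ b ∈ X ∧ m.d a b ≤ R) x y
  iseqv :=
    { refl := fun _ => Relation.ReflTransGen.refl
      symm := by
        intro x y h
        induction h with
        | refl => exact Relation.ReflTransGen.refl
        | tail _ hbc ih =>
          exact Relation.ReflTransGen.head ⟨hbc.2.1, hbc.1, by rw [m.d_comm]; exact hbc.2.2⟩ ih
      trans := fun h h' => Relation.ReflTransGen.trans h h' }

/-- The `R`-chain classes. -/
def clsS (m : WM G) (X : Set G) (R : ℕ) (α : Quotient (chainS m X R)) : Set G :=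
  {x | x ∈ X ∧ Quotient.mk (chainS m X R) x = α}

lemma cls_close {m : WM G} {X : Set G} {R : ℕ} {x y : G} (hx : x ∈ X) (hy : y ∈ X)
    (h : m.d x y ≤ R) :
    Quotient.mk (chainS m X R) x = Quotient.mk (chainS m X R) y :=
  Quotient.sound (Relation.ReflTransGen.single ⟨hx, hy, h⟩)

lemma cls_diam {m : WM G} {X : Set G} {D : ℕ → ℕ} (hX : ThinW m D X) {R : ℕ}
    {α : Quotient (chainS m X R)} {x y : G} (hx : x ∈ clsS m X R α) (hy : y ∈ clsS m X R α) :
    m.d x y ≤ D R := by
  apply hX R x y hx.1
  have h : Quotient.mk (chainS m X R) x = Quotient.mk (chainS m X R) y := by rw [hx.2, hy.2]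
  have h2 : Relation.ReflTransGen (fun a b => a ∈ X ∧ b ∈ X ∧ m.d a b ≤ R) x y :=
    Quotient.exact h
  exact Relation.ReflTransGen.mono (fun a b hab => ⟨hab.2.1, hab.2.2⟩) _ _ h2

/-- The part of the coboundary of `χ` near the class `α`. -/
noncomputable def om (m : WM G) (X : Set G) (R : ℕ) (χ : G → ZMod 2)
    (α : Quotient (chainS m X R)) (p p' : G) : ZMod 2 :=
  if p ∈ clsS m X R α ∨ p' ∈ clsS m X R α then χ p' - χ p else 0

/-- If every local part of the coboundary is exact with a potential vanishing away from the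
class, then `χ` is constant far from `X`. -/
lemma glue (m : WM G) {X : Set G} {R : ℕ} (hR : 1 ≤ R) (adj : G → G → Prop)
    (hconn : ∀ p q, Relation.ReflTransGen adj p q) (hadj : ∀ p p', adj p p' → m.d p p' ≤ 1)
    (χ : G → ZMod 2) (hχ : ∀ p p', adj p p' → p ∉ X → p' ∉ X → χ p' = χ p) (K : ℕ)
    (hΨ : ∀ α : Quotient (chainS m X R), ∃ Ψ : G → ZMod 2,
      (∀ p p', adj p p' → Ψ p' - Ψ p = om m X R χ α p p') ∧
      ∀ p, (∀ x ∈ clsS m X R α, K < m.d p x) → Ψ p = 0) (p q : G)
    (hp : ∀ x ∈ X, K < m.d p x) (hq : ∀ x ∈ X, K < m.d q x) : χ p = χ q := by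
  choose Ψ hΨ1 hΨ2 using hΨ
  have hfin : ∀ p, (Function.support fun α => Ψ α p).Finite := by
    intro p
    apply ((m.ball_fin p K).image (Quotient.mk (chainS m X R))).subset
    intro α hα
    simp only [Function.mem_support] at hα
    have : ¬ ∀ x ∈ clsS m X R α, K < m.d p x := fun h => hα (hΨ2 α p h)
    push Not at this
    obtain ⟨x, hx, hd⟩ := this
    exact ⟨x, hd, hx.2⟩
  set Sg : G → ZMod 2 := fun p => ∑ᶠ α, Ψ α p with hSg
  have hstep : ∀ p p', adj p p' → χ p' - Sg p' = χ p - Sg p := by
    intro p p' h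
    have hd := hadj p p' h
    have e1 : Sg p' - Sg p = ∑ᶠ α, om m X R χ α p p' := by
      rw [hSg]
      simp only
      rw [← finsum_sub_distrib (hfin p') (hfin p)]
      exact finsum_congr fun α => hΨ1 α p p' h
    have e2 : ∑ᶠ α, om m X R χ α p p' = χ p' - χ p := by
      by_cases hpX : p ∈ X
      · rw [finsum_eq_single _ (Quotient.mk (chainS m X R) p)]
        · unfold om
          rw [if_pos (Or.inl ⟨hpX, rfl⟩)]
        · intro α hα
          unfold om
          rw [if_neg]
          rintro (h1 | h1)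
          · exact hα h1.2.symm
          · apply hα
            rw [← h1.2]
            exact (cls_close hpX h1.1 (hd.trans hR)).symm
      · by_cases hpX' : p' ∈ X
        · rw [finsum_eq_single _ (Quotient.mk (chainS m X R) p')]
          · unfold om
            rw [if_pos (Or.inr ⟨hpX', rfl⟩)]
          · intro α hα
            unfold om
            rw [if_neg]
            rintro (h1 | h1)
            · exact hpX h1.1
            · exact hα h1.2.symm
        · have : ∀ α, om m X R χ α p p' = 0 := by
            intro α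
            unfold om
            rw [if_neg]
            rintro (h1 | h1)
            · exact hpX h1.1
            · exact hpX' h1.1
          rw [finsum_congr this, finsum_zero, hχ p p' h hpX hpX', sub_self]
    rw [e2] at e1
    have e3 : χ p' - Sg p' - (χ p - Sg p) = (χ p' - χ p) - (Sg p' - Sg p) := by ring
    rw [e1, sub_self] at e3
    exact sub_eq_zero.mp e3
  have hall : ∀ p q, χ q - Sg q = χ p - Sg p := by
    intro p q
    have := hconn p q
    induction this with
    | refl => rfl
    | tail _ hbc ih => rw [hstep _ _ hbc, ih]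
  have hz : ∀ p, (∀ x ∈ X, K < m.d p x) → Sg p = 0 := by
    intro p hp
    rw [hSg]
    simp only
    rw [finsum_congr fun α => hΨ2 α p fun x hx => hp x hx.1, finsum_zero]
  have := hall p q
  rw [hz p hp, hz q hq, sub_zero, sub_zero] at this
  exact this.symm

/-- The criterion. -/
lemma nsw_of_potentials (m : WM G) (adj : G → G → Prop)
    (hconn : ∀ p q, Relation.ReflTransGen adj p q) (hadj : ∀ p p', adj p p' → m.d p p' ≤ 1)
    (R : ℕ) (hR : 1 ≤ R)
    (h : ∀ n : ℕ, ∃ K : ℕ, n ≤ K ∧ ∀ (X : Set G) (χ : G → ZMod 2),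
      (∀ p p', adj p p' → p ∉ X → p' ∉ X → χ p' = χ p) →
      ∀ α : Quotient (chainS m X R), (∀ x ∈ clsS m X R α, ∀ y ∈ clsS m X R α, m.d x y ≤ n) →
      ∃ Ψ : G → ZMod 2, (∀ p p', adj p p' → Ψ p' - Ψ p = om m X R χ α p p') ∧
        ∀ p, (∀ x ∈ clsS m X R α, K < m.d p x) → Ψ p = 0) : NSW m := by
  intro D
  obtain ⟨K, -, hK⟩ := h (D R)
  refine ⟨K, fun X hX p q hp hq => ?_⟩
  by_contra hcon
  have hpX : p ∉ X := fun h => by have := hp p h; simp at this
  have hqX : q ∉ X := fun h => by have := hq q h; simp at this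
  set χ : G → ZMod 2 := fun z => if z ∉ X ∧ Cn m Xᶜ p z then 1 else 0 with hχ
  have hχs : ∀ z z', adj z z' → z ∉ X → z' ∉ X → χ z' = χ z := by
    intro z z' hz h1 h2
    have hd := hadj z z' hz
    have : (z' ∉ X ∧ Cn m Xᶜ p z') ↔ (z ∉ X ∧ Cn m Xᶜ p z) := by
      constructor
      · rintro ⟨-, h⟩
        exact ⟨h1, h.trans (Cn.step h2 h1 (by rw [m.d_comm]; exact hd))⟩
      · rintro ⟨-, h⟩
        exact ⟨h2, h.trans (Cn.step h1 h2 hd)⟩
    rw [hχ]
    simp only [this]
  have := glue m hR adj hconn hadj χ hχs K (fun α => hK X χ hχs α fun x hx y hy =>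
    cls_diam hX hx hy) p q hp hq
  have e1 : χ p = 1 := by
    rw [hχ]; simp only; rw [if_pos ⟨hpX, Cn.refl p⟩]
  have e2 : χ q = 0 := by
    rw [hχ]; simp only; rw [if_neg]; exact fun h => hcon h.2
  rw [e1, e2] at this
  exact one_ne_zero this

end

end Pool.Agent.EndsLamp
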