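import Pool.Agent.EndsLamp.Ends

/-! # Superlinear growth of one-ended groups -/

set_option autoImplicit false
set_option linter.unusedSectionVars false
set_option linter.unnecessarySimpa false
set_option linter.unusedSimpArgs false
set_option linter.deprecated false

open scoped Pointwise Classical
open Filter

namespace Pool.Agent.EndsLamp

variable {H : Type*} [Group H] {m : WM H}

/-- If spheres of bounded size occur at arbitrarily large radii then the group has two ends. -/
lemma hasEnds_two_of_spheres [Infinite H] (K : ℕ)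
    (h : ∀ i₀ : ℕ, ∃ i, i₀ ≤ i ∧ {z | m.d 1 z = i}.ncard ≤ K) : HasEnds 2 H := by
  choose i hi hK using h
  -- a point `z n` at distance `i n` with geodesics on both sides
  have hz : ∀ n, ∃ z w, m.d 1 z = i n ∧ m.d z w = i n ∧ m.d 1 w = 2 * i n := by
    intro n
    obtain ⟨w, hw⟩ := m.exists_eq (1 : H) (2 * i n)
    obtain ⟨z, h1, h2⟩ := m.mid (i n) _ hw (by omega)
    exact ⟨z, w, h1, by omega, hw⟩
  choose z w hz1 hz2 hz3 using hz
  set U : Set H := {y | ∀ᶠ n in (hyperfilter ℕ : Filter ℕ), m.d 1 (z n * y) ≤ i n} with hU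
  set B : Set H := {y | ∀ᶠ n in (hyperfilter ℕ : Filter ℕ), m.d 1 (z n * y) = i n} with hB
  have hnU : ∀ y, y ∉ U → ∀ᶠ n in (hyperfilter ℕ : Filter ℕ), i n < m.d 1 (z n * y) := by
    intro y hy
    have := Ultrafilter.eventually_not.mpr hy
    filter_upwards [this] with n hn
    omega
  have hlarge : ∀ N₀ : ℕ, ∀ᶠ N in (hyperfilter ℕ : Filter ℕ), N₀ ≤ N := fun N₀ =>
    Nat.hyperfilter_le_atTop (eventually_ge_atTop N₀)
  -- `B` is finite
  have hBf : B.Finite := by
    by_contra hinf
    obtain ⟨T, hTB, hT⟩ := Set.Infinite.exists_subset_card_eq hinf (K + 1)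
    have hall : ∀ᶠ n in (hyperfilter ℕ : Filter ℕ), ∀ y ∈ T, m.d 1 (z n * y) = i n := by
      rw [Filter.eventually_all_finset]
      intro y hy
      exact hTB hy
    obtain ⟨n, hn⟩ := hall.exists
    have hsub : ((T.image fun y => z n * y : Finset H) : Set H) ⊆ {z | m.d 1 z = i n} := by
      intro x hx
      simp only [Finset.coe_image, Set.mem_image, Finset.mem_coe] at hx
      obtain ⟨y, hy, rfl⟩ := hx
      exact hn y hy
    have hfin : {z | m.d 1 z = i n}.Finite :=
      (m.ball_fin 1 (i n)).subset fun x hx => by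
        simp only [Set.mem_setOf_eq] at *; omega
    have h1 := Set.ncard_le_ncard hsub hfin
    rw [Set.ncard_coe_finset, Finset.card_image_of_injective _ (mul_right_injective _), hT] at h1
    have := hK n
    omega
  -- steps
  have hstepd : ∀ n x y, m.d x y ≤ 1 → m.d 1 (z n * x) ≤ m.d 1 (z n * y) + 1 := by
    intro n x y hxy
    have e1 := m.tri 1 (z n * y) (z n * x)
    rw [m.d_mul, m.d_comm y x] at e1
    omega
  have hcross : ∀ x y, x ∉ U → y ∈ U → m.d x y ≤ 1 → y ∈ B := by
    intro x y hx hy hxy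
    filter_upwards [hnU x hx, hy] with n h1 h2
    have := hstepd n x y hxy
    omega
  have hBU : B ⊆ U := by
    intro y hy
    filter_upwards [hy] with n hn
    exact hn.le
  have hc1 : Clo m B (U \ B) := by
    refine ⟨fun x hx => hx.2, fun x hx y hy hd => ⟨?_, hy⟩⟩
    by_contra hyU
    exact hx.2 (hcross y x hyU hx.1 (by rw [m.d_comm]; exact hd))
  have hc2 : Clo m B Uᶜ := by
    refine ⟨fun x hx hxB => hx (hBU hxB), fun x hx y hy hd => ?_⟩
    intro hyU
    exact hy (hcross x y hx hyU hd)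
  -- infinitely many points
  have hUi : U.Infinite := by
    intro hfin
    obtain ⟨b, hb⟩ := m.bdd hfin 1
    have hpt : ∀ n, ∃ y, b + 1 ≤ i n → (m.d 1 y ≤ b + 1 ∧ (m.d 1 (z n * y) ≤ i n ∧ b < m.d 1 y)) := by
      intro n
      by_cases hn : b + 1 ≤ i n
      · obtain ⟨p, hp1, hp2⟩ := m.mid (i n - (b + 1)) _ (hz1 n) (by omega)
        refine ⟨(z n)⁻¹ * p, fun _ => ?_⟩
        have e1 : m.d 1 ((z n)⁻¹ * p) = m.d (z n) p := by simp [WM.d]
        rw [e1, mul_inv_cancel_left, m.d_comm (z n) p]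
        omega
      · exact ⟨1, fun h => absurd h hn⟩
    choose y hy using hpt
    obtain ⟨v, -, hv⟩ := (Ultrafilter.eventually_exists_mem_iff (f := hyperfilter ℕ)
      (P := fun v N => y N = v ∧ b + 1 ≤ i N) (m.ball_fin (1 : H) (b + 1))).mp (by
        filter_upwards [hlarge (b + 1)] with N hN
        have h1 : b + 1 ≤ i N := hN.trans (hi N)
        exact ⟨y N, (hy N h1).1, rfl, h1⟩)
    have hvU : v ∈ U := by
      filter_upwards [hv] with N hN
      rw [← hN.1]
      exact (hy N hN.2).2.1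
    obtain ⟨N, hN1, hN2⟩ := hv.exists
    have e1 := (hy N hN2).2.2
    rw [hN1] at e1
    have e2 := hb v hvU
    omega
  have hUci : (Uᶜ : Set H).Infinite := by
    intro hfin
    obtain ⟨b, hb⟩ := m.bdd hfin 1
    have hpt : ∀ n, ∃ y, b + 1 ≤ i n → (m.d 1 y ≤ b + 1 ∧ (i n < m.d 1 (z n * y) ∧ b < m.d 1 y)) := by
      intro n
      by_cases hn : b + 1 ≤ i n
      · obtain ⟨p, hp1, hp2⟩ := m.mid (b + 1) _ (hz2 n) (by omega)
        refine ⟨(z n)⁻¹ * p, fun _ => ?_⟩
        have e1 : m.d 1 ((z n)⁻¹ * p) = m.d (z n) p := by simp [WM.d]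
        have e2 := m.tri 1 p (w n)
        rw [hz3 n] at e2
        rw [e1, mul_inv_cancel_left]
        omega
      · exact ⟨1, fun h => absurd h hn⟩
    choose y hy using hpt
    obtain ⟨v, -, hv⟩ := (Ultrafilter.eventually_exists_mem_iff (f := hyperfilter ℕ)
      (P := fun v N => y N = v ∧ b + 1 ≤ i N) (m.ball_fin (1 : H) (b + 1))).mp (by
        filter_upwards [hlarge (b + 1)] with N hN
        have h1 : b + 1 ≤ i N := hN.trans (hi N)
        exact ⟨y N, (hy N h1).1, rfl, h1⟩)
    have hvU : v ∈ Uᶜ := by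
      intro hvU
      obtain ⟨N, hN⟩ := (hv.and hvU).exists
      have := (hy N hN.1.2).2.1
      rw [hN.1.1] at this
      have := hN.2
      omega
    obtain ⟨N, hN1, hN2⟩ := hv.exists
    have e1 := (hy N hN2).2.2
    rw [hN1] at e1
    have e2 := hb v hvU
    omega
  refine ⟨![U \ B, Uᶜ], ?_, ?_, ?_⟩
  · intro j; fin_cases j
    · exact hUi.diff hBf
    · exact hUci
  · intro j; fin_cases j
    · exact hc1.almostInvariant hBf
    · exact hc2.almostInvariant hBf
  · have hd : Disjoint (U \ B) Uᶜ := by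
      rw [Set.disjoint_left]
      intro x hx1 hx2
      exact hx2 hx1.1
    intro a b hab
    fin_cases a <;> fin_cases b
    · exact absurd rfl hab
    · exact hd
    · exact hd.symm
    · exact absurd rfl hab

/-- The balls of a one-ended group grow faster than linearly. -/
lemma growth (h : OneEnded H) (K : ℕ) : ∃ r : ℕ, 1 ≤ r ∧ K * r ≤ {z | m.d 1 z ≤ r}.ncard := by
  have hinf : Infinite H := infinite_of_hasEnds one_pos h.1
  obtain ⟨i₀, hi₀⟩ : ∃ i₀, ∀ i, i₀ ≤ i → 2 * K < {z | m.d 1 z = i}.ncard := by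
    by_contra hcon
    push Not at hcon
    exact h.2 (hasEnds_two_of_spheres (2 * K) hcon)
  have key : ∀ n, 2 * K * n ≤ {z | m.d 1 z ≤ i₀ + n}.ncard := by
    intro n
    induction n with
    | zero => simp
    | succ n ih =>
      have h1 : {z | m.d 1 z ≤ i₀ + (n + 1)} =
          {z | m.d 1 z ≤ i₀ + n} ∪ {z | m.d 1 z = i₀ + (n + 1)} := by
        ext z; simp only [Set.mem_setOf_eq, Set.mem_union]; omega
      have hdisj : Disjoint {z | m.d 1 z ≤ i₀ + n} {z | m.d 1 z = i₀ + (n + 1)} := by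
        rw [Set.disjoint_left]
        intro z hz1 hz2
        simp only [Set.mem_setOf_eq] at *
        omega
      have hf2 : {z | m.d 1 z = i₀ + (n + 1)}.Finite :=
        (m.ball_fin 1 (i₀ + (n + 1))).subset fun x hx => by
          simp only [Set.mem_setOf_eq] at *; omega
      rw [h1, Set.ncard_union_eq hdisj (m.ball_fin 1 _) hf2]
      have := hi₀ (i₀ + (n + 1)) (by omega)
      rw [Nat.mul_succ]; omega
  refine ⟨i₀ + (i₀ + 1), by omega, ?_⟩
  have := key (i₀ + 1)
  nlinarith

end Pool.Agent.EndsLamp
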