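import Pool.Agent.EndsLamp.NS

/-! # The orbit of a configuration over a non-separable coset is bounded -/

set_option autoImplicit false
set_option linter.unusedSectionVars false
set_option linter.unnecessarySimpa false
set_option linter.unusedSimpArgs false
set_option linter.deprecated false

open scoped Pointwise Classical

namespace Pool.Agent.EndsLamp

section

variable {F₁ F₂ H K : Type*} [Group F₁] [Group F₂] [Group H] [Group K] [Finite F₁] [Finite F₂]
variable {m₁ : WM H} {m₂ : WM K} {ρ : ℕ} {f : Lm F₁ H → Lm F₂ K} {φ : Lm F₂ K → Lm F₁ H}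

/-- The lamps away from the position cannot be constant on the image of a fibre. -/
lemma noTau [Infinite H] [Infinite K] [Nontrivial F₁] [Nontrivial F₂]
    (hf : LP (lw F₁ m₁) (lw F₂ m₂) ρ f φ) (g : H) (τ : K → F₂) (D₂ : ℕ)
    (h : ∀ (c : Cfg F₁ H) (q : K), D₂ < m₂.d q (ps (f (mk c g))) → cf (f (mk c g)) q = τ q) :
    False := by
  set D₃ := D₂ + (ρ + ρ * ρ) with hD₃
  -- one step
  have hstep : ∀ u v : Lm F₂ K, (∃ q, cf u q ≠ τ q ∧ D₃ < m₂.d q (ps u)) →
      (lw F₂ m₂).d u v ≤ 1 → cf (φ v) g = cf (φ u) g := by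
    rintro u v ⟨q, hq, hqd⟩ huv
    by_contra hne
    obtain ⟨c, hc⟩ := cross hf g (Ne.symm hne)
    have e3 : ρ * (ρ * (lw F₂ m₂).d u v) ≤ ρ * ρ := Nat.mul_le_mul_left _ (by nlinarith)
    have e4 := lw_ps m₂ u (f (mk c g))
    have e5 := m₂.tri q (ps (f (mk c g))) (ps u)
    rw [m₂.d_comm (ps (f (mk c g))) (ps u)] at e5
    have e6 := h c q (by omega)
    rw [← e6] at hq
    have e7 := lw_lamp m₂ _ _ hq
    rw [m₂.d_comm] at e7
    omega
  -- configurations with two lamps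
  set Big : Set (Cfg F₂ K) := {c | ∃ q₁ q₂, c q₁ ≠ τ q₁ ∧ c q₂ ≠ τ q₂ ∧
    2 * D₃ + 1 < m₂.d q₁ q₂} with hBig
  have hfar : ∀ c ∈ Big, ∀ y, ∃ q, c q ≠ τ q ∧ D₃ < m₂.d q y := by
    rintro c ⟨q₁, q₂, h1, h2, h3⟩ y
    by_cases hq : D₃ < m₂.d q₁ y
    · exact ⟨q₁, h1, hq⟩
    · refine ⟨q₂, h2, ?_⟩
      have := m₂.tri q₁ y q₂
      rw [m₂.d_comm y q₂] at this
      omega
  -- independence of the position
  have hpos : ∀ c ∈ Big, ∀ y y', cf (φ (mk c y')) g = cf (φ (mk c y)) g := by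
    intro c hc y y'
    have key : ∀ n, ∀ y', m₂.d y y' = n → cf (φ (mk c y')) g = cf (φ (mk c y)) g := by
      intro n
      induction n with
      | zero => intro y' h; rw [m₂.eq_of_d h]
      | succ n ih =>
        intro y' h'
        obtain ⟨y'', h1, h2⟩ := m₂.prev h'
        rw [← ih y'' h1]
        exact hstep (mk c y'') (mk c y') (hfar c hc y'') ((lw_leaf m₂ c y'' y').trans h2)
    exact key _ y' rfl
  have htog : ∀ c ∈ Big, ∀ z a, cf (φ (mk (upd c z a) z)) g = cf (φ (mk c z)) g := by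
    intro c hc z a
    exact hstep (mk c z) (mk (upd c z a) z) (hfar c hc z) (lw_upd m₂ c z a)
  have hkeep : ∀ c ∈ Big, ∀ z a, a ≠ τ z → upd c z a ∈ Big := by
    rintro c ⟨q₁, q₂, h1, h2, h3⟩ z a ha
    refine ⟨q₁, q₂, ?_, ?_, h3⟩
    · by_cases hz : q₁ = z
      · rw [hz, upd_self]; exact ha
      · rw [upd_ne _ _ hz]; exact h1
    · by_cases hz : q₂ = z
      · rw [hz, upd_self]; exact ha
      · rw [upd_ne _ _ hz]; exact h2
  have hcol : ∀ c ∈ Big, ∀ z a, cf (φ (mk (upd c z a) 1)) g = cf (φ (mk c 1)) g ∨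
      upd c z a ∉ Big := by
    intro c hc z a
    by_cases h' : upd c z a ∈ Big
    · left
      rw [hpos _ h' z 1, htog c hc z a, hpos _ hc 1 z]
    · exact Or.inr h'
  -- two auxiliary lamps
  obtain ⟨r₂, hr₂⟩ := m₂.exists_far (1 : K) (2 * D₃ + 1)
  have hr12 : (1 : K) ≠ r₂ := by
    rintro rfl
    simp at hr₂
  obtain ⟨b₁, hb₁⟩ := exists_ne (τ 1)
  obtain ⟨b₂, hb₂⟩ := exists_ne (τ r₂)
  have hin : ∀ c : Cfg F₂ K, c 1 = b₁ → c r₂ = b₂ → c ∈ Big := by
    intro c h1 h2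
    exact ⟨1, r₂, by rw [h1]; exact hb₁, by rw [h2]; exact hb₂, hr₂⟩
  have hcol' : ∀ c ∈ Big, cf (φ (mk (upd (upd c 1 b₁) r₂ b₂) 1)) g = cf (φ (mk c 1)) g := by
    intro c hc
    have h1 := hkeep c hc 1 b₁ hb₁
    have h2 := hkeep _ h1 r₂ b₂ hb₂
    rcases hcol c hc 1 b₁ with e1 | e1
    · rcases hcol _ h1 r₂ b₂ with e2 | e2
      · rw [e2, e1]
      · exact absurd h2 e2
    · exact absurd h1 e1
  -- the colour of a big configuration
  have hbig : ∀ c ∈ Big, ∀ c' ∈ Big, cf (φ (mk c' 1)) g = cf (φ (mk c 1)) g := by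
    intro c hc c' hc'
    rw [← hcol' c hc, ← hcol' c' hc']
    set e := upd (upd c 1 b₁) r₂ b₂ with he
    set e' := upd (upd c' 1 b₁) r₂ b₂ with he'
    have e1 : e 1 = b₁ := by rw [he, upd_ne _ _ hr12, upd_self]
    have e2 : e r₂ = b₂ := by rw [he, upd_self]
    have e1' : e' 1 = b₁ := by rw [he', upd_ne _ _ hr12, upd_self]
    have e2' : e' r₂ = b₂ := by rw [he', upd_self]
    have := cfg_induct e e' (fun x => x ∈ Big ∧ cf (φ (mk x 1)) g = cf (φ (mk e 1)) g)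
      ⟨hin e e1 e2, rfl⟩ (by
      intro x z hx hz hxz ⟨hxB, hxe⟩
      have hz1 : z ≠ 1 := by rintro rfl; exact hz (by rw [e1, e1'])
      have hz2 : z ≠ r₂ := by rintro rfl; exact hz (by rw [e2, e2'])
      have hB : upd x z (e' z) ∈ Big := by
        apply hin
        · rw [upd_ne _ _ hz1.symm]
          rcases hx 1 with h | h
          · rw [h, e1]
          · rw [h, e1']
        · rw [upd_ne _ _ hz2.symm]
          rcases hx r₂ with h | h
          · rw [h, e2]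
          · rw [h, e2']
      refine ⟨hB, ?_⟩
      rcases hcol x hxB z (e' z) with h | h
      · rw [h, hxe]
      · exact absurd hB h)
    exact this.2
  -- the common colour
  set c₀ : Cfg F₂ K := upd (upd c1 1 b₁) r₂ b₂ with hc₀
  have hc₀B : c₀ ∈ Big := hin _ (by rw [hc₀, upd_ne _ _ hr12, upd_self]) (by rw [hc₀, upd_self])
  set κ := cf (φ (mk c₀ 1)) g with hκ
  have hall : ∀ c ∈ Big, ∀ y, cf (φ (mk c y)) g = κ := by
    intro c hc y
    rw [hpos c hc 1 y, hbig c₀ hc₀B c hc]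
  obtain ⟨a, ha⟩ := exists_ne κ
  -- near every point there is a big configuration
  obtain ⟨s, hs⟩ := m₂.exists_eq (1 : K) (2 * D₃ + 2)
  set M := 1 + (2 * (2 * D₃ + 2) + 1) with hM
  have hnear : ∀ u : Lm F₂ K, ∃ v : Lm F₂ K, cf v ∈ Big ∧ (lw F₂ m₂).d u v ≤ M := by
    intro u
    obtain ⟨b, hb⟩ := exists_ne (τ (ps u))
    obtain ⟨b', hb'⟩ := exists_ne (τ (ps u * s))
    have hds : m₂.d (ps u) (ps u * s) = 2 * D₃ + 2 := by
      rw [m₂.d_mul_right]; simpa [WM.d] using hs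
    have hne : ps u ≠ ps u * s := by
      intro h
      rw [← h] at hds
      simp at hds
    refine ⟨mk (upd (upd (cf u) (ps u) b) (ps u * s) b') (ps u), ?_, ?_⟩
    · refine ⟨ps u, ps u * s, ?_, ?_, by omega⟩
      · rw [cf_mk, upd_ne _ _ hne, upd_self]; exact hb
      · rw [cf_mk, upd_self]; exact hb'
    · have e1 := lw_upd (F := F₂) m₂ (cf u) (ps u) b
      have e2 := lw_upd_far m₂ (upd (cf u) (ps u) b) (ps u) (ps u * s) b'
      have e3 := (lw F₂ m₂).tri u (mk (upd (cf u) (ps u) b) (ps u))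
        (mk (upd (upd (cf u) (ps u) b) (ps u * s) b') (ps u))
      rw [mk_cf_ps] at e1
      rw [hds] at e2
      omega
  obtain ⟨y, hy⟩ := m₁.exists_far g (ρ + ρ * M)
  set v₀ : Lm F₁ H := mk (upd c1 g a) y with hv₀
  obtain ⟨v, hvB, hv⟩ := hnear (f v₀)
  have e1 : cf (φ v) g = κ := by
    have := hall (cf v) hvB (ps v)
    rwa [mk_cf_ps] at this
  have e2 : cf v₀ g ≠ cf (φ v) g := by
    rw [e1, hv₀, cf_mk, upd_self]; exact ha
  have e3 := lw_lamp m₁ _ _ e2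
  have e4 := (lw F₁ m₁).tri v₀ (φ (f v₀)) (φ v)
  have e5 := hf.gf v₀
  rw [(lw F₁ m₁).d_comm] at e5
  have e6 := hf.gl (f v₀) v
  have e7 : ρ * (lw F₂ m₂).d (f v₀) v ≤ ρ * M := Nat.mul_le_mul_left _ hv
  have e8 : ps v₀ = y := rfl
  rw [e8, m₁.d_comm] at e3
  omega

/-- `c'` agrees with `c` off the coset `g P`. -/
def Off (P : Subgroup H) (g : H) (c c' : Cfg F₁ H) : Prop := ∀ z, g⁻¹ * z ∉ P → c' z = c z

/-- The positions of the images of the points `(c', g)` with `c'` equal to `c` off `g P`. -/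
def Orb (f : Lm F₁ H → Lm F₂ K) (P : Subgroup H) (g : H) (c : Cfg F₁ H) : Set K :=
  {q | ∃ c' : Cfg F₁ H, Off P g c c' ∧ ps (f (mk c' g)) = q}

theorem lemmaW [Infinite H] [Infinite K] [Nontrivial F₁] [Nontrivial F₂]
    (hf : LP (lw F₁ m₁) (lw F₂ m₂) ρ f φ) (P : Subgroup H) {D₂ : ℕ} (hL : LeafP m₂ f P D₂)
    (g : H) (c : Cfg F₁ H) : (Orb f P g c).Finite := by
  by_contra hwild
  choose T hT₀ using fun c => hL c g
  have hT : ∀ (c : Cfg F₁ H) (z : H), g⁻¹ * z ∈ P → ∀ q, D₂ < m₂.d q (ps (f (mk c z))) →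
      cf (f (mk c z)) q = T c q := by
    intro c z hz q hq
    have e : g * (⟨g⁻¹ * z, hz⟩ : P) = z := by simp
    have := hT₀ c ⟨g⁻¹ * z, hz⟩ q
    rw [e] at this
    exact this hq
  have hg1 : g⁻¹ * g ∈ P := by simp
  obtain ⟨C₄, hC₄⟩ := hL.proper hf (2 * (D₂ + ρ))
  have hB : ∀ (c : Cfg F₁ H) (r z : H), g⁻¹ * r ∈ P → g⁻¹ * z ∈ P → C₄ < m₁.d r z →
      2 * (D₂ + ρ) < m₂.d (ps (f (mk c r))) (ps (f (mk c z))) := by
    intro c r z hr hz hd
    by_contra hcon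
    push Not at hcon
    have er : g * (⟨g⁻¹ * r, hr⟩ : P) = r := by simp
    have ez : g * (⟨g⁻¹ * z, hz⟩ : P) = z := by simp
    have := hC₄ c g ⟨g⁻¹ * r, hr⟩ ⟨g⁻¹ * z, hz⟩
    rw [er, ez] at this
    have := this hcon
    omega
  -- Claim A
  have hA : ∀ (c : Cfg F₁ H) (z : H) (a : F₁) (q : K), g⁻¹ * z ∈ P →
      T (upd c z a) q ≠ T c q → m₂.d q (ps (f (mk c z))) ≤ D₂ + ρ := by
    intro c z a q hz hne
    by_contra hcon
    push Not at hcon
    have e1 := hf.fl (mk c z) (mk (upd c z a) z)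
    have e2 := lw_upd m₁ c z a
    have e3 : ρ * (lw F₁ m₁).d (mk c z) (mk (upd c z a) z) ≤ ρ := by nlinarith
    have e4 := lw_ps m₂ (f (mk c z)) (f (mk (upd c z a) z))
    have e5 := m₂.tri q (ps (f (mk (upd c z a) z))) (ps (f (mk c z)))
    rw [m₂.d_comm (ps (f (mk (upd c z a) z)))] at e5
    have e6 := hT c z hz q (by omega)
    have e7 := hT (upd c z a) z hz q (by omega)
    rw [← e6, ← e7] at hne
    have e8 := lw_lamp m₂ _ _ (Ne.symm hne)
    rw [m₂.d_comm] at e8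
    omega
  -- bound for a wild configuration
  have hwb : ∀ c : Cfg F₁ H, ¬ (Orb f P g c).Finite → ∀ (q : K) (n : ℕ), ∃ c' : Cfg F₁ H,
      Off P g c c' ∧ n < m₂.d q (ps (f (mk c' g))) := by
    intro c hc q n
    obtain ⟨x, ⟨c', hc', rfl⟩, hx⟩ := m₂.exists_far_of_infinite hc q n
    exact ⟨c', hc', hx⟩
  -- (i) single toggle in the coset
  have hi : ∀ (c : Cfg F₁ H), ¬ (Orb f P g c).Finite → ∀ (z : H) (a : F₁), g⁻¹ * z ∈ P →
      T (upd c z a) = T c := by
    intro c hc z a hz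
    by_contra hne
    obtain ⟨q, hq⟩ : ∃ q, T (upd c z a) q ≠ T c q := by
      by_contra h
      push Not at h
      exact hne (funext h)
    have key : ∀ c₄ : Cfg F₁ H, (∀ x, c x ≠ c₄ x → g⁻¹ * x ∈ P ∧ C₄ < m₁.d x z) →
        T c₄ q = T c q ∧ T (upd c₄ z a) q = T (upd c z a) q := by
      intro c₄ h₄
      refine cfg_induct c c₄ (fun c₄ => T c₄ q = T c q ∧ T (upd c₄ z a) q = T (upd c z a) q)
        ⟨rfl, rfl⟩ ?_
      rintro x y - hy - ⟨h1, h2⟩
      obtain ⟨hyP, hyz⟩ := h₄ y hy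
      have hyz' : y ≠ z := by rintro rfl; simp at hyz
      have hdiff : T (upd x z a) q ≠ T x q := by rw [h1, h2]; exact hq
      have e1 := hA x z a q hz hdiff
      have e2 := hB x y z hyP hz hyz
      have e3 := m₂.tri (ps (f (mk x y))) q (ps (f (mk x z)))
      rw [m₂.d_comm _ q] at e3
      have back : upd (upd x z a) z (x z) = x := by
        apply Cfg.ext
        intro w
        by_cases hw : w = z
        · rw [hw, upd_self]
        · rw [upd_ne _ _ hw, upd_ne _ _ hw]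
      have e4 := hA (upd x z a) z (x z) q hz (by rw [back]; exact hdiff.symm)
      have e5 := hB (upd x z a) y z hyP hz hyz
      have e6 := m₂.tri (ps (f (mk (upd x z a) y))) q (ps (f (mk (upd x z a) z)))
      rw [m₂.d_comm _ q] at e6
      have comm : upd (upd x y (c₄ y)) z a = upd (upd x z a) y (c₄ y) := by
        apply Cfg.ext
        intro w
        by_cases hw : w = z
        · rw [hw, upd_self, upd_ne _ _ hyz'.symm, upd_self]
        · rw [upd_ne _ _ hw]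
          by_cases hw' : w = y
          · rw [hw', upd_self, upd_self]
          · rw [upd_ne _ _ hw', upd_ne _ _ hw', upd_ne _ _ hw]
      constructor
      · rw [← h1]
        by_contra hcon
        have := hA x y (c₄ y) q hyP hcon
        omega
      · rw [comm, ← h2]
        by_contra hcon
        have := hA (upd x z a) y (c₄ y) q hyP hcon
        omega
    obtain ⟨M, hM⟩ := lw_bdd (F := F₁) m₁ C₄
    apply hc
    refine m₂.fin_of_bdd q (ρ * (M + m₁.d z g) + (D₂ + ρ)) ?_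
    rintro _ ⟨c₁, hc₁, rfl⟩
    set c₄ : Cfg F₁ H := comb {x : H | C₄ < m₁.d x z} c₁ c with hc₄
    have hk := key c₄ (by
      intro x hx
      have hxm : x ∈ {x : H | C₄ < m₁.d x z} := by
        by_contra h
        rw [hc₄, comb_not _ _ h] at hx
        exact hx rfl
      rw [hc₄, comb_mem _ _ hxm] at hx
      refine ⟨?_, hxm⟩
      by_contra h
      exact hx (hc₁ x h).symm)
    have e1 := hA c₄ z a q hz (by rw [hk.1, hk.2]; exact hq)
    have e2 := hM z c₄ c₁ (by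
      intro x hx
      rw [m₁.d_comm]
      by_contra h
      push Not at h
      exact hx (comb_mem (S := {x : H | C₄ < m₁.d x z}) c₁ c h))
    have e3 := lw_leaf (F := F₁) m₁ c₁ z g
    have e4 := (lw F₁ m₁).tri (mk c₄ z) (mk c₁ z) (mk c₁ g)
    have e5 := hf.fl (mk c₄ z) (mk c₁ g)
    have e6 := lw_ps m₂ (f (mk c₄ z)) (f (mk c₁ g))
    have e7 : ρ * (lw F₁ m₁).d (mk c₄ z) (mk c₁ g) ≤ ρ * (M + m₁.d z g) :=
      Nat.mul_le_mul_left _ (by omega)
    have e8 := m₂.tri q (ps (f (mk c₄ z))) (ps (f (mk c₁ g)))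
    omega
  -- (ii) toggle off the coset
  have hii : ∀ (c : Cfg F₁ H), ¬ (Orb f P g c).Finite → ∀ (z : H) (a : F₁), g⁻¹ * z ∉ P →
      ¬ (Orb f P g (upd c z a)).Finite := by
    intro c hc z a hz hfin
    obtain ⟨n, hn⟩ := m₂.bdd hfin 1
    apply hc
    refine m₂.fin_of_bdd 1 (n + ρ * (2 * m₁.d g z + 1)) ?_
    rintro _ ⟨c₁, hc₁, rfl⟩
    have e1 := hn _ ⟨upd c₁ z a, fun x hx => by
      by_cases hxz : x = z
      · rw [hxz, upd_self, upd_self]
      · rw [upd_ne _ _ hxz, upd_ne _ _ hxz]; exact hc₁ x hx, rfl⟩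
    have e2 := lw_upd_far m₁ c₁ g z a
    have e3 := hf.fl (mk c₁ g) (mk (upd c₁ z a) g)
    have e4 := lw_ps m₂ (f (mk c₁ g)) (f (mk (upd c₁ z a) g))
    have e5 : ρ * (lw F₁ m₁).d (mk c₁ g) (mk (upd c₁ z a) g) ≤ ρ * (2 * m₁.d g z + 1) :=
      Nat.mul_le_mul_left _ e2
    have e6 := m₂.tri 1 (ps (f (mk (upd c₁ z a) g))) (ps (f (mk c₁ g)))
    rw [m₂.d_comm (ps (f (mk (upd c₁ z a) g)))] at e6
    omega
  -- wildness only depends on the class
  have hclass : ∀ (c c₁ : Cfg F₁ H), Off P g c c₁ → ¬ (Orb f P g c).Finite →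
      ¬ (Orb f P g c₁).Finite := by
    intro c c₁ h hc hfin
    apply hc
    apply hfin.subset
    rintro _ ⟨c₂, hc₂, rfl⟩
    exact ⟨c₂, fun z hz => by rw [hc₂ z hz, h z hz], rfl⟩
  have hi' : ∀ (c : Cfg F₁ H), ¬ (Orb f P g c).Finite → ∀ c₁, Off P g c c₁ → T c₁ = T c := by
    intro c hc c₁ hc₁
    have := cfg_induct c c₁ (fun x => Off P g c x ∧ T x = T c) ⟨fun _ _ => rfl, rfl⟩ (by
      rintro x z - hz - ⟨h1, h2⟩
      have hzP : g⁻¹ * z ∈ P := by
        by_contra h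
        exact hz (hc₁ z h).symm
      refine ⟨fun w hw => ?_, ?_⟩
      · rw [upd_ne]
        · exact h1 w hw
        · rintro rfl; exact hw hzP
      · rw [hi x (hclass c x h1 hc) z _ hzP, h2])
    exact this.2
  have hii' : ∀ (c : Cfg F₁ H), ¬ (Orb f P g c).Finite → ∀ (z : H) (a : F₁), g⁻¹ * z ∉ P →
      T (upd c z a) = T c := by
    intro c hc z a hz
    funext q
    obtain ⟨c₁, hc₁, hq⟩ := hwb c hc q (D₂ + ρ * (2 * m₁.d g z + 1))
    have e2 := lw_upd_far m₁ c₁ g z a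
    have e3 := hf.fl (mk c₁ g) (mk (upd c₁ z a) g)
    have e4 := lw_ps m₂ (f (mk c₁ g)) (f (mk (upd c₁ z a) g))
    have e5 : ρ * (lw F₁ m₁).d (mk c₁ g) (mk (upd c₁ z a) g) ≤ ρ * (2 * m₁.d g z + 1) :=
      Nat.mul_le_mul_left _ e2
    have e6 := m₂.tri q (ps (f (mk (upd c₁ z a) g))) (ps (f (mk c₁ g)))
    rw [m₂.d_comm (ps (f (mk (upd c₁ z a) g)))] at e6
    have e7 := hT c₁ g hg1 q (by omega)
    have e8 := hT (upd c₁ z a) g hg1 q (by omega)
    rw [hi' c hc c₁ hc₁] at e7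
    rw [hi' _ (hii c hc z a hz) (upd c₁ z a) (fun x hx => by
      by_cases hxz : x = z
      · rw [hxz, upd_self, upd_self]
      · rw [upd_ne _ _ hxz, upd_ne _ _ hxz]; exact hc₁ x hx)] at e8
    rw [← e7, ← e8]
    by_contra hne
    have e9 := lw_lamp m₂ _ _ (Ne.symm hne)
    rw [m₂.d_comm] at e9
    omega
  have hiii : ∀ c' : Cfg F₁ H, T c' = T c := by
    intro c'
    have := cfg_induct c c' (fun x => ¬ (Orb f P g x).Finite ∧ T x = T c) ⟨hwild, rfl⟩ (by
      rintro x z - hz - ⟨h1, h2⟩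
      by_cases hzP : g⁻¹ * z ∈ P
      · refine ⟨hclass x _ (fun w hw => ?_) h1, ?_⟩
        · rw [upd_ne]
          rintro rfl; exact hw hzP
        · rw [hi x h1 z _ hzP, h2]
      · exact ⟨hii x h1 z _ hzP, by rw [hii' x h1 z _ hzP, h2]⟩)
    exact this.2
  exact noTau hf g (T c) D₂ (fun c' q hq => by
    rw [hT c' g hg1 q hq, hiii c'])

end

end Pool.Agent.EndsLamp
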