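import Pool.Agent.EndsLamp.T1

/-! # The case of a subgroup of the base group with several ends -/

set_option autoImplicit false
set_option linter.unusedSectionVars false
set_option linter.unnecessarySimpa false
set_option linter.unusedSimpArgs false
set_option linter.deprecated false

open scoped Pointwise Classical
open Filter

namespace Pool.Agent.EndsLamp

section

variable {F₁ F₂ H₁ H₂ : Type*} [Group F₁] [Group F₂] [Group H₁] [Group H₂]
variable [Finite F₁] [Finite F₂]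
variable {m₁ : WM H₁} {m₂ : WM H₂} {ρ : ℕ} {f : Lm F₁ H₁ → Lm F₂ H₂} {φ : Lm F₂ H₂ → Lm F₁ H₁}

/-- A limit of translates for which a fibre misses a half-space. -/
lemma limit [Nontrivial F₁] [Nontrivial F₂] (h1 : OneEnded H₁) (h2 : HasEnds 3 H₂)
    (hf : LP (lw F₁ m₁) (lw F₂ m₂) ρ f φ) :
    ∃ (f' : Lm F₁ H₁ → Lm F₂ H₂) (φ' : Lm F₂ H₂ → Lm F₁ H₁) (K A : Set H₂),
      LP (lw F₁ m₁) (lw F₂ m₂) ρ f' φ' ∧ K.Finite ∧ IsComp m₂ K A ∧ A.Infinite ∧
      ∀ c : Cfg F₁ H₁, ps (f' (mk c 1)) ∉ A := by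
  have hV : {q | ∃ c : Cfg F₁ H₁, ps (f (mk c 1)) = q}.Infinite := fun h => noBdd h1 h2 hf 1 h
  obtain ⟨K, n, A, hK, hA, hAi, haway⟩ := away (m := m₂) h2
  -- maximal elements
  have hmax : ∀ N : ℕ, ∃ g : Lm F₁ H₁, (ps g ∈ ({1} : Set H₁) ∧
      ∀ z, z ∉ {z | m₁.d 1 z ≤ N} → cf g z = 1) ∧
      ∀ u : Lm F₁ H₁, (ps u ∈ ({1} : Set H₁) ∧ ∀ z, z ∉ {z | m₁.d 1 z ≤ N} → cf u z = 1) →
        m₂.d 1 (ps (f u)) ≤ m₂.d 1 (ps (f g)) := by
    intro N
    have hfin := fin_supp (F := F₁) (m₁.ball_fin 1 N) {(1 : H₁)} (Set.finite_singleton 1)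
    obtain ⟨g, hg, hgm⟩ := Set.exists_max_image _ (fun u : Lm F₁ H₁ => m₂.d 1 (ps (f u))) hfin
      ⟨1, by simp, fun z _ => rfl⟩
    exact ⟨g, hg, fun u hu => hgm u hu⟩
  choose g hg hgm using hmax
  set fN : ℕ → Lm F₁ H₁ → Lm F₂ H₂ := fun N u => (f (g N))⁻¹ * f (g N * u) with hfN
  set φN : ℕ → Lm F₂ H₂ → Lm F₁ H₁ := fun N w => (g N)⁻¹ * φ (f (g N) * w) with hφN
  have bf : ∀ N u, (lw F₂ m₂).d 1 (fN N u) ≤ ρ * (lw F₁ m₁).d 1 u := by
    intro N u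
    rw [hfN]
    simp only
    rw [show (lw F₂ m₂).d 1 ((f (g N))⁻¹ * f (g N * u)) = (lw F₂ m₂).d (f (g N)) (f (g N * u)) by
      simp [WM.d]]
    refine (hf.fl _ _).trans (Nat.mul_le_mul_left _ ?_)
    simp [WM.d]
  have bφ : ∀ N w, (lw F₁ m₁).d 1 (φN N w) ≤ ρ + ρ * (lw F₂ m₂).d 1 w := by
    intro N w
    rw [hφN]
    simp only
    rw [show (lw F₁ m₁).d 1 ((g N)⁻¹ * φ (f (g N) * w)) =
      (lw F₁ m₁).d (g N) (φ (f (g N) * w)) by simp [WM.d]]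
    have e1 := (lw F₁ m₁).tri (g N) (φ (f (g N))) (φ (f (g N) * w))
    have e2 := hf.gf (g N)
    rw [(lw F₁ m₁).d_comm] at e2
    have e3 := hf.gl (f (g N)) (f (g N) * w)
    have e4 : (lw F₂ m₂).d (f (g N)) (f (g N) * w) = (lw F₂ m₂).d 1 w := by simp [WM.d]
    rw [e4] at e3
    omega
  -- limits
  have limf : ∀ u, ∃ v, ∀ᶠ N in (hyperfilter ℕ : Filter ℕ), fN N u = v := by
    intro u
    have hfin : {v | (lw F₂ m₂).d 1 v ≤ ρ * (lw F₁ m₁).d 1 u}.Finite := (lw F₂ m₂).ball_fin 1 _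
    obtain ⟨v, -, hv⟩ := (Ultrafilter.eventually_exists_mem_iff (f := hyperfilter ℕ)
      (P := fun v N => fN N u = v) hfin).mp (Eventually.of_forall fun N => ⟨fN N u, bf N u, rfl⟩)
    exact ⟨v, hv⟩
  have limφ : ∀ u, ∃ v, ∀ᶠ N in (hyperfilter ℕ : Filter ℕ), φN N u = v := by
    intro u
    have hfin : {v | (lw F₁ m₁).d 1 v ≤ ρ + ρ * (lw F₂ m₂).d 1 u}.Finite :=
      (lw F₁ m₁).ball_fin 1 _
    obtain ⟨v, -, hv⟩ := (Ultrafilter.eventually_exists_mem_iff (f := hyperfilter ℕ)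
      (P := fun v N => φN N u = v) hfin).mp (Eventually.of_forall fun N => ⟨φN N u, bφ N u, rfl⟩)
    exact ⟨v, hv⟩
  choose f' hf' using limf
  choose φ' hφ' using limφ
  -- the direction
  have hlarge : ∀ N₀ : ℕ, ∀ᶠ N in (hyperfilter ℕ : Filter ℕ), N₀ ≤ N := fun N₀ =>
    Nat.hyperfilter_le_atTop (eventually_ge_atTop N₀)
  have hsupp : ∀ c : Cfg F₁ H₁, ∃ N₀ : ℕ, ∀ N, N₀ ≤ N →
      ∀ z, z ∉ {z | m₁.d 1 z ≤ N} → c z = 1 := by
    intro c
    obtain ⟨N₀, hN₀⟩ := m₁.bdd c.2 1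
    refine ⟨N₀, fun N hN z hz => ?_⟩
    by_contra hne
    have := hN₀ z hne
    simp only [Set.mem_setOf_eq, not_le] at hz
    omega
  have hdir : ∃ i, ∀ᶠ N in (hyperfilter ℕ : Filter ℕ), ∀ z ∈ A i,
      m₂.d 1 (ps (f (g N))) < m₂.d 1 (ps (f (g N)) * z) := by
    rw [← Ultrafilter.eventually_exists_iff]
    obtain ⟨q, ⟨c, rfl⟩, hq⟩ := m₂.exists_far_of_infinite hV 1 n
    obtain ⟨N₀, hN₀⟩ := hsupp c
    filter_upwards [hlarge N₀] with N hN
    apply haway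
    have := hgm N (mk c 1) ⟨by simp, hN₀ N hN⟩
    omega
  obtain ⟨i, hi⟩ := hdir
  refine ⟨f', φ', K, A i, ⟨?_, ?_, ?_, ?_⟩, hK, hA i, hAi i, ?_⟩
  · intro x y
    obtain ⟨N, e1, e2⟩ := ((hf' x).and (hf' y)).exists
    rw [← e1, ← e2, hfN]
    simp only
    rw [(lw F₂ m₂).d_mul]
    refine (hf.fl _ _).trans ?_
    rw [(lw F₁ m₁).d_mul]
  · intro x y
    obtain ⟨N, e1, e2⟩ := ((hφ' x).and (hφ' y)).exists
    rw [← e1, ← e2, hφN]
    simp only
    rw [(lw F₁ m₁).d_mul]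
    refine (hf.gl _ _).trans ?_
    rw [(lw F₂ m₂).d_mul]
  · intro x
    obtain ⟨N, e1, e2⟩ := ((hf' x).and (hφ' (f' x))).exists
    rw [← e2, ← e1, hfN, hφN]
    simp only
    rw [mul_inv_cancel_left]
    have e3 := (lw F₁ m₁).d_mul (g N)⁻¹ (φ (f (g N * x))) (g N * x)
    rw [inv_mul_cancel_left] at e3
    rw [e3]
    exact hf.gf _
  · intro y
    obtain ⟨N, e1, e2⟩ := ((hφ' y).and (hf' (φ' y))).exists
    rw [← e2, ← e1, hfN, hφN]
    simp only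
    rw [mul_inv_cancel_left]
    have e3 := (lw F₂ m₂).d_mul (f (g N))⁻¹ (f (φ (f (g N) * y))) (f (g N) * y)
    rw [inv_mul_cancel_left] at e3
    rw [e3]
    exact hf.fg _
  · intro c hc
    obtain ⟨N₀, hN₀⟩ := hsupp c
    obtain ⟨N, ⟨e1, e2⟩, e3⟩ := (((hf' (mk c 1)).and hi).and (hlarge N₀)).exists
    have e4 := e2 _ hc
    rw [← e1, hfN] at e4
    simp only [ps_mul, ps_inv, mul_inv_cancel_left] at e4
    have e5 := hgm N (g N * mk c 1) ⟨by
      have := (hg N).1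
      simpa using this, fun z hz => by
      rw [cf_mul, (hg N).2 z hz, one_mul]
      have h0 : ps (g N) = 1 := by simpa using (hg N).1
      rw [h0, inv_one, one_mul, cf_mk]
      exact hN₀ N e3 z hz⟩
    omega

/-- A coset meeting a half-space in an infinite set. -/
lemma exists_coset {K A : Set H₂} (hK : K.Finite) (hA : Clo m₂ K A) (hAi : A.Infinite)
    (P : Subgroup H₂) [Infinite P] (mP : WM P) :
    ∃ q : H₂, {p : P | q * (p : H₂) ∈ A}.Infinite := by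
  by_contra hcon
  push Not at hcon
  obtain ⟨l, hl⟩ := sub_lip m₂ P mP
  apply hAi
  have hB := m₂.nb_fin hK l
  have : A ⊆ ⋃ b ∈ m₂.nb l K, (fun p : P => b * (p : H₂)) '' {p : P | b * (p : H₂) ∈ A} := by
    intro q hq
    obtain ⟨p, hp⟩ : ∃ p : P, q * (p : H₂) ∉ A := by
      by_contra h
      push Not at h
      have h2 : {p : P | q * (p : H₂) ∈ A} = Set.univ := by ext p; simp [h p]
      have h3 := hcon q
      rw [h2] at h3
      exact Set.infinite_univ h3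
    obtain ⟨a, b, ha, hb, hab, -, -⟩ := mP.change (fun p : P => q * (p : H₂) ∈ A) (x := 1)
      (by simpa using hq) hp
    obtain ⟨k, hk, hk2⟩ := hA.exit ha hb
    have e1 := hl a b
    have e2 : l * mP.d a b ≤ l := by nlinarith
    rw [m₂.d_mul] at hk2
    simp only [Set.mem_iUnion]
    refine ⟨q * a, ⟨k, hk, by omega⟩, a⁻¹, ?_, by simp⟩
    simpa using hq
  exact (hB.biUnion fun b _ => (hcon b).image _).subset this

theorem T2core [Nontrivial F₁] [Nontrivial F₂] (h1 : OneEnded H₁) (h2 : HasEnds 3 H₂)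
    (hf : LP (lw F₁ m₁) (lw F₂ m₂) ρ f φ) {K A : Set H₂} (hK : K.Finite) (hA : IsComp m₂ K A)
    (hAi : A.Infinite) (hmiss : ∀ c : Cfg F₁ H₁, ps (f (mk c 1)) ∉ A)
    (P : Subgroup H₂) [Infinite P] (mP : WM P) (hNS : NSW mP) : False := by
  have hinf1 : Infinite H₁ := infinite_of_hasEnds one_pos h1.1
  have hinf2 : Infinite H₂ := infinite_of_hasEnds (by norm_num) h2
  -- a deeper half-space
  set K₁ : Set H₂ := insert 1 (m₂.nb (ρ + ρ * ρ) K) with hK₁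
  have hK₁f : K₁.Finite := (m₂.nb_fin hK _).insert 1
  have hKK₁ : K ⊆ K₁ := fun x hx => Or.inr (m₂.subset_nb _ _ hx)
  obtain ⟨A₁, hA₁, hA₁i, hA₁A⟩ := hA.toClo.subcomp hAi hKK₁ hK₁f ⟨1, Or.inl rfl⟩
  have hfar : ∀ q ∈ A₁, ∀ x, x ∉ A → ρ + ρ * ρ < m₂.d x q := by
    intro q hq x hx
    obtain ⟨k, hk, hk2⟩ := hA.toClo.exit (hA₁A hq) hx
    have h := hA₁.disj q hq
    by_contra hcon
    push Not at hcon
    apply h
    right
    refine ⟨k, hk, ?_⟩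
    rw [m₂.d_comm] at hcon
    omega
  obtain ⟨κ, hκ⟩ := sepB h1 h2 hf 1 hK₁f hA₁ hA₁i (fun c q hq => hfar q hq _ (hmiss c))
  -- the images of `M` miss `A₁`
  have hM : ∀ (c : Cfg F₁ H₁) (y : H₁), (y = 1 ∨ c 1 ≠ κ) → ps (f (mk c y)) ∉ A₁ := by
    intro c y hy hmem
    rcases hy with rfl | hy
    · exact hmiss c (hA₁A hmem)
    · have e1 := hκ (f (mk c y)) hmem
      have e2 : cf (mk c y) 1 ≠ cf (φ (f (mk c y))) 1 := by rw [e1, cf_mk]; exact hy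
      have e3 := lw_lamp m₁ _ _ e2
      have e4 := hf.gf (mk c y)
      rw [(lw F₁ m₁).d_comm] at e4
      rw [ps_mk] at e3
      have e5 := lw_leaf (F := F₁) m₁ c y 1
      have e6 := hf.fl (mk c y) (mk c 1)
      have e7 := lw_ps m₂ (f (mk c y)) (f (mk c 1))
      have e8 : ρ * (lw F₁ m₁).d (mk c y) (mk c 1) ≤ ρ * ρ := Nat.mul_le_mul_left _ (by omega)
      have e9 := hfar _ hmem _ (hmiss c)
      rw [m₂.d_comm] at e9
      omega
  -- deeper again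
  set K₃ : Set H₂ := m₂.nb ρ K₁ with hK₃
  have hK₃f : K₃.Finite := m₂.nb_fin hK₁f _
  set A₃ : Set H₂ := A₁ \ K₃ with hA₃
  have hA₃c : Clo m₂ K₃ A₃ := hA₁.toClo.mono (m₂.subset_nb _ _)
  have hA₃i : A₃.Infinite := hA₁i.diff hK₃f
  have hfar3 : ∀ q ∈ A₃, ∀ x, x ∉ A₁ → ρ < m₂.d x q := by
    intro q hq x hx
    obtain ⟨k, hk, hk2⟩ := hA₁.toClo.exit hq.1 hx
    by_contra hcon
    push Not at hcon
    apply hq.2
    refine ⟨k, hk, ?_⟩
    rw [m₂.d_comm] at hcon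
    omega
  -- the lamps on `A₃` are constant on the image of `M`
  have hstep : ∀ (u v : Lm F₁ H₁), ps (f u) ∉ A₁ → (lw F₁ m₁).d u v ≤ 1 → ∀ q ∈ A₃,
      cf (f v) q = cf (f u) q := by
    intro u v hu huv q hq
    by_contra hne
    have e1 := lw_lamp m₂ _ _ (Ne.symm hne)
    have e2 := hf.fl u v
    have e3 : ρ * (lw F₁ m₁).d u v ≤ ρ := by nlinarith
    have e4 := hfar3 q hq _ hu
    omega
  have hmove : ∀ (c : Cfg F₁ H₁), c 1 ≠ κ → ∀ y, ∀ q ∈ A₃,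
      cf (f (mk c y)) q = cf (f (mk c 1)) q := by
    intro c hc y q hq
    have key : ∀ n, ∀ y, m₁.d 1 y = n → cf (f (mk c y)) q = cf (f (mk c 1)) q := by
      intro n
      induction n with
      | zero => intro y h; rw [m₁.eq_of_d h]
      | succ n ih =>
        intro y h'
        obtain ⟨y', e1, e2⟩ := m₁.prev h'
        rw [← ih y' e1]
        exact hstep (mk c y') (mk c y) (hM c y' (Or.inr hc)) ((lw_leaf m₁ c y' y).trans e2) q hq
    exact key _ y rfl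
  obtain ⟨b, hb⟩ := exists_ne κ
  have htog : ∀ (c : Cfg F₁ H₁) (a : F₁), ∀ q ∈ A₃,
      cf (f (mk (upd c 1 a) 1)) q = cf (f (mk c 1)) q := by
    intro c a q hq
    exact hstep (mk c 1) (mk (upd c 1 a) 1) (hM c 1 (Or.inl rfl)) (lw_upd m₁ c 1 a) q hq
  have hall : ∀ (c : Cfg F₁ H₁), ∀ q ∈ A₃, cf (f (mk c 1)) q = cf (f (mk c1 1)) q := by
    intro c q hq
    refine cfg_induct c1 c (fun c => cf (f (mk c 1)) q = cf (f (mk c1 1)) q) rfl ?_
    intro c' z _ _ _ ih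
    by_cases hz : z = 1
    · rw [hz, htog c' _ q hq, ih]
    · -- toggle the lamp at `1` first
      have e1 := htog c' b q hq
      set x := upd c' 1 b with hx
      have hx1 : x 1 ≠ κ := by rw [hx, upd_self]; exact hb
      have e2 := hmove x hx1 z q hq
      have e3 : cf (f (mk (upd x z (c z)) z)) q = cf (f (mk x z)) q :=
        hstep (mk x z) (mk (upd x z (c z)) z) (hM x z (Or.inr hx1)) (lw_upd m₁ x z _) q hq
      have hx1' : upd x z (c z) 1 ≠ κ := by rw [upd_ne _ _ (Ne.symm hz)]; exact hx1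
      have e4 := hmove (upd x z (c z)) hx1' z q hq
      have e5 := htog (upd x z (c z)) (c' 1) q hq
      have e6 : upd (upd x z (c z)) 1 (c' 1) = upd c' z (c z) := by
        apply Cfg.ext
        intro w
        by_cases hw : w = 1
        · rw [hw, upd_self, upd_ne _ _ (Ne.symm hz)]
        · rw [upd_ne _ _ hw]
          by_cases hw' : w = z
          · rw [hw', upd_self, upd_self]
          · rw [upd_ne _ _ hw', upd_ne _ _ hw', hx, upd_ne _ _ hw]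
      rw [e6] at e5
      rw [e5, ← e4, e3, e2, e1, ih]
  -- a coset
  obtain ⟨q₀, hq₀⟩ := exists_coset hK₃f hA₃c hA₃i P mP
  obtain ⟨D₂, hL⟩ := leaf hf.symm P mP hNS
  have hW := lemmaW hf.symm P hL q₀ (c1 : Cfg F₂ H₂)
  obtain ⟨s, hs⟩ := m₁.bdd hW 1
  have hinj : Function.Injective (fun p : P => q₀ * (p : H₂)) := fun p p' h => by
    simpa using h
  obtain ⟨z, ⟨p, hp, rfl⟩, hzd⟩ := m₂.exists_far_of_infinite (hq₀.image hinj.injOn) q₀ (ρ + ρ * s)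
  obtain ⟨e, he⟩ := exists_ne (cf (f (mk c1 1)) (q₀ * (p : H₂)))
  set γ : Cfg F₂ H₂ := upd c1 (q₀ * (p : H₂)) e with hγ
  have hoff : Off P q₀ c1 γ := by
    intro w hw
    rw [hγ, upd_ne]
    rintro rfl
    apply hw
    simp
  have e1 := hs _ ⟨γ, hoff, rfl⟩
  set v := φ (mk γ q₀) with hv
  have e2 := hf.fg (mk γ q₀)
  rw [← hv] at e2
  have e3 := lw_leaf (F := F₁) m₁ (cf v) (ps v) 1
  rw [mk_cf_ps, m₁.d_comm] at e3
  have e4 := hf.fl v (mk (cf v) 1)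
  have e5 : ρ * (lw F₁ m₁).d v (mk (cf v) 1) ≤ ρ * s := Nat.mul_le_mul_left _ (by omega)
  have e6 := (lw F₂ m₂).tri (mk γ q₀) (f v) (f (mk (cf v) 1))
  rw [(lw F₂ m₂).d_comm] at e2
  have e7 : cf (mk γ q₀) (q₀ * (p : H₂)) ≠ cf (f (mk (cf v) 1)) (q₀ * (p : H₂)) := by
    rw [hall (cf v) _ hp, cf_mk, hγ, upd_self]
    exact he
  have e8 := lw_lamp m₂ _ _ e7
  rw [ps_mk] at e8
  simp only at hzd
  omega

/-- The subgroup is in the base with several ends. -/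
theorem T2 [Nontrivial F₁] [Nontrivial F₂] (h1 : OneEnded H₁) (h2 : HasEnds 3 H₂)
    (hf : LP (lw F₁ m₁) (lw F₂ m₂) ρ f φ) (P : Subgroup H₂) [Infinite P] (mP : WM P)
    (hNS : NSW mP) : False := by
  obtain ⟨f', φ', K, A, hf', hK, hA, hAi, hmiss⟩ := limit h1 h2 hf
  exact T2core h1 h2 hf' hK hA hAi hmiss P mP hNS

end

end Pool.Agent.EndsLamp
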