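import Pool.Agent.EndsLamp.FPNS
import Pool.Agent.EndsLamp.T2

/-! # Assembling the theorem -/

set_option autoImplicit false

namespace Pool.Agent.EndsLamp

/-- A rigid subgroup gives a subgroup with a word metric that is not thinly separable. -/
theorem HasRigidSubgroup.exists_nsw {H : Type*} [Group H] (h : HasRigidSubgroup H) :
    ∃ P : Subgroup H, Infinite P ∧ ∃ mP : WM P, NSW mP := by
  rcases h with ⟨P, hP, hNS⟩ | ⟨P, hfp, hone⟩ | ⟨A, B, hA, hB, hAi, hBi, hcomm, hfin⟩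
  · exact ⟨P, hP, Pool.Agent.EndsLamp.exists_nsw hNS⟩
  · exact ⟨P, infinite_of_hasEnds one_pos hone.1, fpNSW hfp hone⟩
  · exact commNSW A B hA hB hcomm hfin

theorem main {F₁ F₂ H₁ H₂ : Type*} [Group F₁] [Group F₂] [Group H₁] [Group H₂] [Finite F₁]
    [Finite F₂] [Nontrivial F₁] [Nontrivial F₂] (hfg₁ : Group.FG H₁) (hfg₂ : Group.FG H₂)
    (h1 : OneEnded H₁) (h2 : HasEnds 3 H₂) (hr : HasRigidSubgroup H₁ ∨ HasRigidSubgroup H₂) :
    ¬ QuasiIsometric (RWreath F₁ H₁) (RWreath F₂ H₂) := by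
  intro hqi
  obtain ⟨m₁⟩ := exists_wm hfg₁
  obtain ⟨m₂⟩ := exists_wm hfg₂
  obtain ⟨ρ, f, φ, hf⟩ := exists_LP (lw F₁ m₁) (lw F₂ m₂) hqi
  rcases hr with hr | hr
  · obtain ⟨P, hP, mP, hNS⟩ := hr.exists_nsw
    exact T1 h1 h2 hf P mP hNS
  · obtain ⟨P, hP, mP, hNS⟩ := hr.exists_nsw
    exact T2 h1 h2 hf P mP hNS

end Pool.Agent.EndsLamp
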