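import Pool.Agent.EndsLamp.Stmt

/-!
# Slow boundaries

Growth of the boundaries of the connected components of the complements of balls.
-/

set_option autoImplicit false

open scoped Pointwise

namespace Pool.Agent.EndsLamp

universe u

/-- The group `G` has slow boundaries if for the word metric of some finite generating set `S` the
following holds.  For every `K`, for all large `s`, and for every connected component `C` of the
complement of the ball of radius `s` around `1` in the Cayley graph, the number `b` of elements of
`C` at distance `s + 1` from `1` satisfies `b ^ K ≤ 2 ^ s`.  In other words, these numbers grow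
subexponentially in `s`, uniformly in `C`. -/
def SlowBoundaries (G : Type u) [Group G] : Prop :=
  ∃ S : Set G, S.Finite ∧ Subgroup.closure S = ⊤ ∧ ∀ K : ℕ, ∃ s₀ : ℕ, ∀ s : ℕ, s₀ ≤ s → ∀ x : G,
    {y : G | wordDist S 1 y = s + 1 ∧ Relation.ReflTransGen
      (fun a b => s < wordDist S 1 a ∧ s < wordDist S 1 b ∧ wordDist S a b ≤ 1) x y}.ncard ^ K
        ≤ 2 ^ s

end Pool.Agent.EndsLamp
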