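import Pool.Agent.EndsLamp.FPSep
import Pool.Agent.EndsLamp.Main
import Pool.Agent.EndsLamp.Stmt2

/-! # Assembling the second theorem -/

set_option autoImplicit false

open scoped Pointwise

namespace Pool.Agent.EndsLamp

lemma SlowBoundaries.exists_wm {G : Type*} [Group G] (h : SlowBoundaries G) :
    ∃ m : WM G, SlowB m := by
  obtain ⟨S, hSf, hS, h⟩ := h
  exact ⟨wm S hSf hS, fun K => h K⟩

theorem main2 {F₁ F₂ H₁ H₂ : Type*} [Group F₁] [Group F₂] [Group H₁] [Group H₂] [Finite F₁]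
    [Finite F₂] [Nontrivial F₁] [Nontrivial F₂] (hfg₁ : Group.FG H₁) (hfg₂ : Group.FG H₂)
    (h1 : OneEnded H₁) (h2 : HasEnds 3 H₂)
    (hr : Group.IsFinitelyPresented H₁ ∨ Group.IsFinitelyPresented H₂ ∨
      HasRigidSubgroup H₁ ∨ HasRigidSubgroup H₂ ∨ SlowBoundaries H₂) :
    ¬ QuasiIsometric (RWreath F₁ H₁) (RWreath F₂ H₂) := by
  intro hqi
  obtain ⟨m₁⟩ := exists_wm hfg₁
  rcases hr with hr | hr | hr | hr | hr
  · obtain ⟨m₂⟩ := exists_wm hfg₂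
    obtain ⟨ρ, f, φ, hf⟩ := exists_LP (lw F₁ m₁) (lw F₂ m₂) hqi
    obtain ⟨m, hm⟩ := fpNSW hr h1
    have hinf : Infinite H₁ := infinite_of_hasEnds one_pos h1.1
    have hinf' : Infinite (⊤ : Subgroup H₁) :=
      (Subgroup.topEquiv (G := H₁)).toEquiv.infinite_iff.mpr hinf
    set e : H₁ →* (⊤ : Subgroup H₁) := (Subgroup.topEquiv (G := H₁)).symm.toMonoidHom with he
    have hinj : Function.Injective e := (Subgroup.topEquiv (G := H₁)).symm.injective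
    have hsur : Function.Surjective e := (Subgroup.topEquiv (G := H₁)).symm.surjective
    have hker : (e.ker : Set H₁).Finite := by
      rw [(MonoidHom.ker_eq_bot_iff e).mpr hinj]
      simp
    exact T1 h1 h2 hf ⊤ (m.map e hsur) (hm.map e hsur hker)
  · obtain ⟨m₂, hm₂⟩ := fp_relNS hr
    obtain ⟨ρ, f, φ, hf⟩ := exists_LP (lw F₁ m₁) (lw F₂ m₂) hqi
    exact relNS h1 h2 hm₂ hf
  · exact main hfg₁ hfg₂ h1 h2 (Or.inl hr) hqi
  · exact main hfg₁ hfg₂ h1 h2 (Or.inr hr) hqi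
  · obtain ⟨m₂, hm₂⟩ := hr.exists_wm
    obtain ⟨ρ, f, φ, hf⟩ := exists_LP (lw F₁ m₁) (lw F₂ m₂) hqi
    exact vf h1 h2 hm₂ hf

end Pool.Agent.EndsLamp
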