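import Pool.Agent.EndsLamp.Sep

/-! # Leaves over subgroups that are not separable by thin sets -/

set_option autoImplicit false
set_option linter.unusedSectionVars false
set_option linter.unnecessarySimpa false
set_option linter.unusedSimpArgs false
set_option linter.deprecated false

open scoped Pointwise Classical

namespace Pool.Agent.EndsLamp

section

variable {G : Type*} [Group G]

/-- thinness for a word metric -/
def ThinW (m : WM G) (D : ℕ → ℕ) (X : Set G) : Prop :=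
  ∀ (R : ℕ) (x y : G), x ∈ X → Relation.ReflTransGen (fun a b => b ∈ X ∧ m.d a b ≤ R) x y →
    m.d x y ≤ D R

/-- not thinly separable, for a word metric -/
def NSW (m : WM G) : Prop := ∀ D : ℕ → ℕ, ∃ D₀ : ℕ, ∀ X : Set G, ThinW m D X → ∀ p q : G,
  (∀ x ∈ X, D₀ < m.d p x) → (∀ x ∈ X, D₀ < m.d q x) → Cn m Xᶜ p q

lemma exists_nsw (h : NotThinlySeparable G) : ∃ m : WM G, NSW m := by
  obtain ⟨S, hSf, hS, h⟩ := h
  refine ⟨wm S hSf hS, fun D => ?_⟩
  obtain ⟨D₀, hD⟩ := h D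
  refine ⟨D₀, fun X hX p q hp hq => ?_⟩
  have h1 := hD X hX p q hp hq
  have hpX : p ∉ X := fun h => by have := hp p h; simp at this
  induction h1 with
  | refl => exact Cn.refl _
  | tail hab hbc ih =>
    rename_i b c
    have hcn : Cn (wm S hSf hS) Xᶜ p b := by
      clear ih hq hbc
      induction hab with
      | refl => exact Cn.refl _
      | tail hab' hbc' ih' => exact Cn.trans ih' (Cn.step (Cn.mem ih' hpX) hbc'.1 hbc'.2)
    exact Cn.trans hcn (Cn.step (Cn.mem hcn hpX) hbc.1 hbc.2)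

/-- inclusion of a subgroup is Lipschitz -/
lemma sub_lip (m : WM G) (P : Subgroup G) (mP : WM P) :
    ∃ l : ℕ, ∀ a b : P, m.d (a : G) (b : G) ≤ l * mP.d a b := by
  obtain ⟨l, hl⟩ := ((mP.fin 1).image (fun p : P => m.len (p : G))).bddAbove
  refine ⟨l, fun a b => ?_⟩
  exact WM.lip_of_step mP m (fun p : P => (p : G)) l (fun x y hxy => hl ⟨x⁻¹ * y, hxy, by
    simp [WM.d]⟩) a b

/-- inclusion of a subgroup is proper -/
lemma sub_prop (m : WM G) (P : Subgroup G) (mP : WM P) (n : ℕ) :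
    ∃ k : ℕ, ∀ a b : P, m.d (a : G) (b : G) ≤ n → mP.d a b ≤ k := by
  have hfin : {p : P | m.len (p : G) ≤ n}.Finite :=
    Set.Finite.preimage (Set.injOn_of_injective Subtype.val_injective) (m.fin n)
  obtain ⟨k, hk⟩ := (hfin.image mP.len).bddAbove
  refine ⟨k, fun a b h => hk ⟨a⁻¹ * b, ?_, rfl⟩⟩
  simpa [WM.d] using h

end

section

variable {F₁ F₂ H K : Type*} [Group F₁] [Group F₂] [Group H] [Group K] [Finite F₁] [Finite F₂]
variable {m₁ : WM H} {m₂ : WM K} {ρ : ℕ} {f : Lm F₁ H → Lm F₂ K} {φ : Lm F₂ K → Lm F₁ H}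

/-- The part of a leaf that is mapped near a given fibre is thin, uniformly. -/
lemma control (hf : LP (lw F₁ m₁) (lw F₂ m₂) ρ f φ) (P : Subgroup H) (mP : WM P) (r : ℕ) :
    ∃ D : ℕ → ℕ, ∀ (c : Cfg F₁ H) (g : H) (q : K),
      ThinW mP D {p : P | m₂.d q (ps (f (mk c (g * p)))) ≤ r} := by
  obtain ⟨l, hl⟩ := sub_lip m₁ P mP
  have hM : ∀ R : ℕ, ∃ M : ℕ, ∀ (u v : Lm F₂ K),
      (∀ z, cf u z ≠ cf v z → m₂.d (ps u) z ≤ 2 * r + ρ * (l * R)) →
      m₂.d (ps u) (ps v) ≤ 2 * r → (lw F₂ m₂).d u v ≤ M := fun R => lw_bdd2 m₂ _ _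
  choose M hM using hM
  have hψ := sub_prop m₁ P mP
  choose ψ hψ using hψ
  refine ⟨fun R => ψ (ρ * M R + 2 * ρ), fun c g q R x y hx hxy => ?_⟩
  have key : m₂.d q (ps (f (mk c (g * y)))) ≤ r ∧ ∀ z, cf (f (mk c (g * x))) z ≠
      cf (f (mk c (g * y))) z → m₂.d q z ≤ r + ρ * (l * R) := by
    induction hxy with
    | refl => exact ⟨hx, fun z hz => absurd rfl hz⟩
    | tail hab hbc ih =>
      rename_i b d
      refine ⟨hbc.1, fun z hz => ?_⟩
      by_cases hzb : cf (f (mk c (g * x))) z = cf (f (mk c (g * b))) z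
      · rw [hzb] at hz
        have e1 := lw_lamp m₂ _ _ hz
        have e2 := hf.fl (mk c (g * b)) (mk c (g * d))
        have e3 := lw_leaf (F := F₁) m₁ c (g * b) (g * d)
        rw [m₁.d_mul] at e3
        have e4 := hl b d
        have e5 : l * mP.d b d ≤ l * R := Nat.mul_le_mul_left _ hbc.2
        have e6 : ρ * (lw F₁ m₁).d (mk c (g * b)) (mk c (g * d)) ≤ ρ * (l * R) :=
          Nat.mul_le_mul_left _ (by omega)
        have e7 := m₂.tri q (ps (f (mk c (g * b)))) z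
        have e8 := ih.1
        omega
      · exact ih.2 z hzb
  have hx' : m₂.d q (ps (f (mk c (g * x)))) ≤ r := hx
  apply hψ
  have e1 := hM R (f (mk c (g * x))) (f (mk c (g * y))) (fun z hz => by
      have e1 := key.2 z hz
      have e2 := m₂.tri (ps (f (mk c (g * x)))) q z
      rw [m₂.d_comm _ q] at e2
      omega) (by
      have e2 := m₂.tri (ps (f (mk c (g * x)))) q (ps (f (mk c (g * y))))
      rw [m₂.d_comm _ q] at e2
      omega)
  have e2 := hf.low (mk c (g * x)) (mk c (g * y))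
  have e3 := lw_ps m₁ (mk c (g * x) : Lm F₁ H) (mk c (g * y))
  simp only [ps_mk, m₁.d_mul] at e3
  have e4 : ρ * (lw F₂ m₂).d (f (mk c (g * x))) (f (mk c (g * y))) ≤ ρ * M R :=
    Nat.mul_le_mul_left _ e1
  omega

/-- Leaves over `P` are mapped close to leaves. -/
def LeafP (m₂ : WM K) (f : Lm F₁ H → Lm F₂ K) (P : Subgroup H) (D₂ : ℕ) : Prop :=
  ∀ (c : Cfg F₁ H) (g : H), ∃ T : K → F₂, ∀ (p : P) (q : K),
    D₂ < m₂.d q (ps (f (mk c (g * p)))) → cf (f (mk c (g * p))) q = T q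

lemma leaf (hf : LP (lw F₁ m₁) (lw F₂ m₂) ρ f φ) (P : Subgroup H) (mP : WM P) (hNS : NSW mP) :
    ∃ D₂ : ℕ, LeafP m₂ f P D₂ := by
  obtain ⟨l, hl⟩ := sub_lip m₁ P mP
  obtain ⟨D, hD⟩ := control hf P mP (ρ * l)
  obtain ⟨D₀, hD₀⟩ := hNS D
  refine ⟨ρ * l + ρ * (l * D₀), fun c g => ?_⟩
  -- key: two far points have the same lamp
  have step : ∀ a b : P, (lw F₂ m₂).d (f (mk c (g * a))) (f (mk c (g * b))) ≤
      ρ * (l * mP.d a b) := by
    intro a b
    have e2 := hf.fl (mk c (g * a)) (mk c (g * b))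
    have e3 := lw_leaf (F := F₁) m₁ c (g * a) (g * b)
    rw [m₁.d_mul] at e3
    exact e2.trans (Nat.mul_le_mul_left _ (e3.trans (hl a b)))
  have far : ∀ (p : P) (q : K), ρ * l + ρ * (l * D₀) < m₂.d q (ps (f (mk c (g * p)))) →
      ∀ x ∈ {p : P | m₂.d q (ps (f (mk c (g * p)))) ≤ ρ * l}, D₀ < mP.d p x := by
    intro p q hp x hx
    by_contra hcon
    push Not at hcon
    have e1 := step x p
    rw [mP.d_comm] at e1
    have e2 : ρ * (l * mP.d p x) ≤ ρ * (l * D₀) :=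
      Nat.mul_le_mul_left _ (Nat.mul_le_mul_left _ hcon)
    have e3 := lw_ps m₂ (f (mk c (g * x))) (f (mk c (g * p)))
    have e4 := m₂.tri q (ps (f (mk c (g * x)))) (ps (f (mk c (g * p))))
    have e5 : m₂.d q (ps (f (mk c (g * x)))) ≤ ρ * l := hx
    omega
  have key : ∀ (p p' : P) (q : K), ρ * l + ρ * (l * D₀) < m₂.d q (ps (f (mk c (g * p)))) →
      ρ * l + ρ * (l * D₀) < m₂.d q (ps (f (mk c (g * p')))) →
      cf (f (mk c (g * p'))) q = cf (f (mk c (g * p))) q := by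
    intro p p' q hp hp'
    have hc := hD₀ _ (hD c g q) p p' (far p q hp) (far p' q hp')
    refine hc.prop (fun x : P => cf (f (mk c (g * x))) q = cf (f (mk c (g * p))) q)
      (fun a b ha hb hab hPa => ?_) rfl
    rw [← hPa]
    by_contra hne
    have e1 := lw_lamp m₂ _ _ (Ne.symm hne)
    have e2 := step a b
    have e3 : ρ * (l * mP.d a b) ≤ ρ * l := Nat.mul_le_mul_left _ (by nlinarith)
    apply ha
    simp only [Set.mem_setOf_eq]
    rw [m₂.d_comm]
    omega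
  have hex : ∀ q : K, ∃ t : F₂, ∀ p : P,
      ρ * l + ρ * (l * D₀) < m₂.d q (ps (f (mk c (g * p)))) → cf (f (mk c (g * p))) q = t := by
    intro q
    by_cases h : ∃ p : P, ρ * l + ρ * (l * D₀) < m₂.d q (ps (f (mk c (g * p))))
    · obtain ⟨p₀, hp₀⟩ := h
      exact ⟨cf (f (mk c (g * p₀))) q, fun p hp => key p₀ p q hp₀ hp⟩
    · exact ⟨1, fun p hp => absurd ⟨p, hp⟩ h⟩
  choose T hT using hex
  exact ⟨T, fun p q h => hT q p h⟩

/-- positions on the image of a leaf determine the point coarsely -/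
lemma LeafP.proper (hf : LP (lw F₁ m₁) (lw F₂ m₂) ρ f φ) {P : Subgroup H} {D₂ : ℕ}
    (hL : LeafP m₂ f P D₂) (n : ℕ) : ∃ C : ℕ, ∀ (c : Cfg F₁ H) (g : H) (p p' : P),
      m₂.d (ps (f (mk c (g * p)))) (ps (f (mk c (g * p')))) ≤ n → m₁.d (g * p) (g * p') ≤ C := by
  obtain ⟨M, hM⟩ := lw_bdd2 (F := F₂) m₂ (D₂ + n) n
  refine ⟨ρ * M + 2 * ρ, fun c g p p' h => ?_⟩
  obtain ⟨T, hT⟩ := hL c g
  have e1 := hM (f (mk c (g * p))) (f (mk c (g * p'))) (fun z hz => by
    by_contra hcon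
    push Not at hcon
    have e2 := m₂.tri (ps (f (mk c (g * p)))) (ps (f (mk c (g * p')))) z
    rw [m₂.d_comm _ z] at hcon
    rw [m₂.d_comm _ z, m₂.d_comm _ z] at e2
    apply hz
    rw [hT p z (by omega), hT p' z (by omega)]) h
  have e2 := hf.low (mk c (g * p)) (mk c (g * p'))
  have e3 := lw_ps m₁ (mk c (g * p) : Lm F₁ H) (mk c (g * p'))
  simp only [ps_mk] at e3
  have e4 : ρ * (lw F₂ m₂).d (f (mk c (g * p))) (f (mk c (g * p'))) ≤ ρ * M :=
    Nat.mul_le_mul_left _ e1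
  omega

lemma LeafP.fin (hf : LP (lw F₁ m₁) (lw F₂ m₂) ρ f φ) {P : Subgroup H} {D₂ : ℕ}
    (hL : LeafP m₂ f P D₂) (c : Cfg F₁ H) (g : H) (q : K) (n : ℕ) :
    {p : P | m₂.d q (ps (f (mk c (g * p)))) ≤ n}.Finite := by
  obtain ⟨C, hC⟩ := hL.proper hf (2 * n)
  by_cases hne : {p : P | m₂.d q (ps (f (mk c (g * p)))) ≤ n}.Nonempty
  · obtain ⟨p₀, hp₀⟩ := hne
    have hfin : {p : P | m₁.d (p₀ : H) (p : H) ≤ C}.Finite :=
      Set.Finite.preimage (Set.injOn_of_injective Subtype.val_injective) (m₁.ball_fin _ C)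
    apply hfin.subset
    intro p hp
    have e1 := hC c g p₀ p (by
      have e2 := m₂.tri (ps (f (mk c (g * p₀)))) q (ps (f (mk c (g * p))))
      rw [m₂.d_comm _ q] at e2
      have e3 : m₂.d q (ps (f (mk c (g * p)))) ≤ n := hp
      have e4 : m₂.d q (ps (f (mk c (g * p₀)))) ≤ n := hp₀
      omega)
    rwa [m₁.d_mul] at e1
  · rw [Set.not_nonempty_iff_eq_empty] at hne
    rw [hne]; exact Set.finite_empty

lemma LeafP.far (hf : LP (lw F₁ m₁) (lw F₂ m₂) ρ f φ) {P : Subgroup H} [Infinite P] {D₂ : ℕ}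
    (hL : LeafP m₂ f P D₂) (c : Cfg F₁ H) (g : H) (q : K) (n : ℕ) :
    ∃ p : P, n < m₂.d q (ps (f (mk c (g * p)))) := by
  by_contra hcon
  push Not at hcon
  have := hL.fin hf c g q n
  have h2 : {p : P | m₂.d q (ps (f (mk c (g * p)))) ≤ n} = Set.univ := by
    ext p; simp [hcon p]
  rw [h2] at this
  exact Set.infinite_univ this

end

end Pool.Agent.EndsLamp
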