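import Pool.Agent.EndsLamp.Glue

/-! # Products of two infinite groups are not thinly separable -/

set_option autoImplicit false
set_option linter.unusedSectionVars false
set_option linter.unnecessarySimpa false
set_option linter.unusedSimpArgs false
set_option linter.deprecated false

open scoped Pointwise Classical

namespace Pool.Agent.EndsLamp

section

variable {A B : Type*} [Group A] [Group B]

/-- The product word metric. -/
def WM.prod (mA : WM A) (mB : WM B) : WM (A × B) where
  len := fun x => mA.len x.1 + mB.len x.2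
  len_one := by simp [mA.len_one, mB.len_one]
  len_inv := fun g => by simp [mA.len_inv, mB.len_inv]
  len_mul := fun g h => by
    have h1 := mA.len_mul g.1 h.1
    have h2 := mB.len_mul g.2 h.2
    simp only [Prod.fst_mul, Prod.snd_mul]
    omega
  fin := fun n => by
    apply ((mA.fin n).prod (mB.fin n)).subset
    rintro ⟨a, b⟩ h
    simp only [Set.mem_setOf_eq, Set.mem_prod] at *
    omega
  split := by
    rintro ⟨a, b⟩ n h
    simp only at h
    by_cases hb : mB.len b = 0
    · have hb1 := mB.eq_one b hb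
      obtain ⟨a1, a2, h1, h2, h3⟩ := mA.split a n (by omega)
      refine ⟨(a1, 1), (a2, 1), ?_, ?_, ?_⟩
      · simp [h1, hb1]
      · simp [h2, mB.len_one]
      · simp [mB.len_one]; exact h3
    · obtain ⟨k, hk⟩ := Nat.exists_eq_succ_of_ne_zero hb
      obtain ⟨b1, b2, h1, h2, h3⟩ := mB.split b k hk
      refine ⟨(a, b1), (1, b2), ?_, ?_, ?_⟩
      · simp [h1]
      · simp only; omega
      · simp [mA.len_one]; exact h3
  eq_one := by
    rintro ⟨a, b⟩ h
    simp only at h
    rw [Prod.mk_eq_one]
    exact ⟨mA.eq_one a (by omega), mB.eq_one b (by omega)⟩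

lemma WM.prod_d (mA : WM A) (mB : WM B) (p q : A × B) :
    (WM.prod mA mB).d p q = mA.d p.1 q.1 + mB.d p.2 q.2 := rfl

/-- A function that does not change along unit steps is constant. -/
lemma WM.const {T : Type*} (mA : WM A) (h : A → T) (hs : ∀ a a', mA.d a a' ≤ 1 → h a' = h a)
    (a a' : A) : h a' = h a := by
  have key : ∀ n, ∀ a', mA.d a a' = n → h a' = h a := by
    intro n
    induction n with
    | zero => intro a' h'; rw [mA.eq_of_d h']
    | succ n ih =>
      intro a' h'
      obtain ⟨a'', h1, h2⟩ := mA.prev h'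
      rw [hs _ _ h2, ih _ h1]
  exact key _ a' rfl

/-- adjacency in the grid -/
def gridAdj (mA : WM A) (mB : WM B) (p p' : A × B) : Prop :=
  (p.2 = p'.2 ∧ mA.d p.1 p'.1 ≤ 1) ∨ (p.1 = p'.1 ∧ mB.d p.2 p'.2 ≤ 1)

lemma grid_conn (mA : WM A) (mB : WM B) (p q : A × B) :
    Relation.ReflTransGen (gridAdj mA mB) p q := by
  obtain ⟨a, b⟩ := p
  obtain ⟨a', b'⟩ := q
  have h1 : ∀ n, ∀ a', mA.d a a' = n → Relation.ReflTransGen (gridAdj mA mB) (a, b) (a', b) := by
    intro n
    induction n with
    | zero => intro a' h'; rw [mA.eq_of_d h']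
    | succ n ih =>
      intro a' h'
      obtain ⟨a'', h1, h2⟩ := mA.prev h'
      exact (ih _ h1).tail (Or.inl ⟨rfl, h2⟩)
  have h2 : ∀ n, ∀ b', mB.d b b' = n → Relation.ReflTransGen (gridAdj mA mB) (a', b) (a', b') := by
    intro n
    induction n with
    | zero => intro b' h'; rw [mB.eq_of_d h']
    | succ n ih =>
      intro b' h'
      obtain ⟨b'', h1, h2⟩ := mB.prev h'
      exact (ih _ h1).tail (Or.inr ⟨rfl, h2⟩)
  exact (h1 _ a' rfl).trans (h2 _ b' rfl)

/-- The local part of a coboundary is closed on squares. -/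
lemma square (mA : WM A) (mB : WM B) (m : WM (A × B))
    (hmd : ∀ p q, m.d p q = mA.d p.1 q.1 + mB.d p.2 q.2) {X : Set (A × B)} {χ : A × B → ZMod 2}
    (hχ : ∀ p p', gridAdj mA mB p p' → p ∉ X → p' ∉ X → χ p' = χ p)
    (α : Quotient (chainS m X 2)) {a a' : A} {b b' : B} (ha : mA.d a a' ≤ 1)
    (hb : mB.d b b' ≤ 1) :
    om m X 2 χ α (a, b) (a', b) + om m X 2 χ α (a', b) (a', b') =
    om m X 2 χ α (a, b) (a, b') + om m X 2 χ α (a, b') (a', b') := by
  -- all vertices are close
  have hclose : ∀ p q : A × B, (p.1 = a ∨ p.1 = a') → (p.2 = b ∨ p.2 = b') →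
      (q.1 = a ∨ q.1 = a') → (q.2 = b ∨ q.2 = b') → m.d p q ≤ 2 := by
    intro p q h1 h2 h3 h4
    rw [hmd]
    have ha' : mA.d a' a ≤ 1 := by rw [mA.d_comm]; exact ha
    have hb' : mB.d b' b ≤ 1 := by rw [mB.d_comm]; exact hb
    have e1 : mA.d p.1 q.1 ≤ 1 := by
      rcases h1 with h1 | h1 <;> rcases h3 with h3 | h3 <;> rw [h1, h3] <;> simp [ha, ha']
    have e2 : mB.d p.2 q.2 ≤ 1 := by
      rcases h2 with h2 | h2 <;> rcases h4 with h4 | h4 <;> rw [h2, h4] <;> simp [hb, hb']
    omega
  by_cases hex : ∃ v : A × B, (v.1 = a ∨ v.1 = a') ∧ (v.2 = b ∨ v.2 = b') ∧ v ∈ clsS m X 2 α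
  · obtain ⟨v, hv1, hv2, hv⟩ := hex
    have key : ∀ p q : A × B, (p.1 = a ∨ p.1 = a') → (p.2 = b ∨ p.2 = b') →
        (q.1 = a ∨ q.1 = a') → (q.2 = b ∨ q.2 = b') → gridAdj mA mB p q →
        om m X 2 χ α p q = χ q - χ p := by
      intro p q h1 h2 h3 h4 hadj
      unfold om
      by_cases hX : p ∈ X ∨ q ∈ X
      · rw [if_pos]
        rcases hX with hX | hX
        · left
          exact ⟨hX, by rw [← hv.2]; exact cls_close hX hv.1 (hclose p v h1 h2 hv1 hv2)⟩
        · right
          exact ⟨hX, by rw [← hv.2]; exact cls_close hX hv.1 (hclose q v h3 h4 hv1 hv2)⟩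
      · push Not at hX
        rw [if_neg]
        · rw [hχ p q hadj hX.1 hX.2, sub_self]
        · rintro (h | h)
          · exact hX.1 h.1
          · exact hX.2 h.1
    rw [key (a, b) (a', b) (by simp) (by simp) (by simp) (by simp) (Or.inl ⟨rfl, ha⟩),
      key (a', b) (a', b') (by simp) (by simp) (by simp) (by simp) (Or.inr ⟨rfl, hb⟩),
      key (a, b) (a, b') (by simp) (by simp) (by simp) (by simp) (Or.inr ⟨rfl, hb⟩),
      key (a, b') (a', b') (by simp) (by simp) (by simp) (by simp) (Or.inl ⟨rfl, ha⟩)]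
    ring
  · push Not at hex
    have key : ∀ p q : A × B, (p.1 = a ∨ p.1 = a') → (p.2 = b ∨ p.2 = b') →
        (q.1 = a ∨ q.1 = a') → (q.2 = b ∨ q.2 = b') → om m X 2 χ α p q = 0 := by
      intro p q h1 h2 h3 h4
      unfold om
      rw [if_neg]
      rintro (h | h)
      · exact hex p h1 h2 h
      · exact hex q h3 h4 h
    rw [key (a, b) (a', b) (by simp) (by simp) (by simp) (by simp),
      key (a', b) (a', b') (by simp) (by simp) (by simp) (by simp),
      key (a, b) (a, b') (by simp) (by simp) (by simp) (by simp),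
      key (a, b') (a', b') (by simp) (by simp) (by simp) (by simp)]

theorem prodNSW_aux [Infinite A] [Infinite B] (mA : WM A) (mB : WM B) (m : WM (A × B))
    (hmd : ∀ p q, m.d p q = mA.d p.1 q.1 + mB.d p.2 q.2) : NSW m := by
  apply nsw_of_potentials m (gridAdj mA mB) (grid_conn mA mB) _ 2 (by norm_num)
  · intro n
    refine ⟨n, le_rfl, fun X χ hχ α hdiam => ?_⟩
    set S := clsS m X 2 α with hS
    have hfin : S.Finite := by
      by_cases hne : S.Nonempty
      · obtain ⟨x, hx⟩ := hne
        exact (m.ball_fin x n).subset fun y hy => hdiam x hx y hy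
      · rw [Set.not_nonempty_iff_eq_empty] at hne
        rw [hne]; exact Set.finite_empty
    obtain ⟨a₀, ha₀⟩ : ∃ a₀ : A, ∀ b, (a₀, b) ∉ S := by
      have := (hfin.image Prod.fst).exists_notMem
      obtain ⟨a₀, ha₀⟩ := this
      exact ⟨a₀, fun b hb => ha₀ ⟨(a₀, b), hb, rfl⟩⟩
    obtain ⟨b₀, hb₀⟩ : ∃ b₀ : B, ∀ a, (a, b₀) ∉ S := by
      have := (hfin.image Prod.snd).exists_notMem
      obtain ⟨b₀, hb₀⟩ := this
      exact ⟨b₀, fun a ha => hb₀ ⟨(a, b₀), ha, rfl⟩⟩
    have hF : ∀ b : B, ∃ F : A → ZMod 2,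
        (∀ a a', mA.d a a' ≤ 1 → F a' - F a = om m X 2 χ α (a, b) (a', b)) ∧
        ∀ a, (∀ b, (a, b) ∉ S) → F a = 0 := by
      have key : ∀ k, ∀ b, mB.d b₀ b = k → ∃ F : A → ZMod 2,
          (∀ a a', mA.d a a' ≤ 1 → F a' - F a = om m X 2 χ α (a, b) (a', b)) ∧
          ∀ a, (∀ b, (a, b) ∉ S) → F a = 0 := by
        intro k
        induction k with
        | zero =>
          intro b hb
          have := mB.eq_of_d hb
          subst this
          refine ⟨fun _ => 0, fun a a' _ => ?_, fun _ _ => rfl⟩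
          unfold om
          rw [if_neg, sub_zero]
          rintro (h | h)
          · exact hb₀ _ h
          · exact hb₀ _ h
        | succ k ih =>
          intro b' hb'
          obtain ⟨b, h1, h2⟩ := mB.prev hb'
          obtain ⟨F, hF1, hF2⟩ := ih b h1
          refine ⟨fun a => F a + om m X 2 χ α (a, b) (a, b'), fun a a' ha => ?_, fun a ha => ?_⟩
          · have e1 := hF1 a a' ha
            have e2 := square mA mB m hmd hχ α ha h2
            have : F a' + om m X 2 χ α (a', b) (a', b') - (F a + om m X 2 χ α (a, b) (a, b')) =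
              (F a' - F a) + om m X 2 χ α (a', b) (a', b') - om m X 2 χ α (a, b) (a, b') := by ring
            rw [this, e1, e2]
            ring
          · simp only
            rw [hF2 a ha, zero_add]
            unfold om
            rw [if_neg]
            rintro (h | h)
            · exact ha _ h
            · exact ha _ h
      exact fun b => key _ b rfl
    choose F hF1 hF2 using hF
    refine ⟨fun p => F p.2 p.1, ?_, ?_⟩
    · rintro ⟨a, b⟩ ⟨a', b'⟩ (⟨h1, h2⟩ | ⟨h1, h2⟩)
      · simp only at h1 h2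
        subst h1
        exact hF1 b a a' h2
      · simp only at h1 h2
        subst h1
        have hconst := WM.const mA (fun a => F b' a - F b a - om m X 2 χ α (a, b) (a, b'))
          (fun a a' ha => by
            have e1 := hF1 b a a' ha
            have e2 := hF1 b' a a' ha
            have e3 := square mA mB m hmd hχ α ha h2
            rw [← sub_eq_zero]
            have : F b' a' - F b a' - om m X 2 χ α (a', b) (a', b') -
              (F b' a - F b a - om m X 2 χ α (a, b) (a, b')) =
              (F b' a' - F b' a) - (F b a' - F b a) - om m X 2 χ α (a', b) (a', b') +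
                om m X 2 χ α (a, b) (a, b') := by ring
            rw [this, e1, e2]
            have e4 : om m X 2 χ α (a, b') (a', b') - om m X 2 χ α (a, b) (a', b) -
              om m X 2 χ α (a', b) (a', b') + om m X 2 χ α (a, b) (a, b') =
              (om m X 2 χ α (a, b) (a, b') + om m X 2 χ α (a, b') (a', b')) -
              (om m X 2 χ α (a, b) (a', b) + om m X 2 χ α (a', b) (a', b')) := by ring
            rw [e4, e3, sub_self]) a₀ a
        have h0 : om m X 2 χ α (a₀, b) (a₀, b') = 0 := by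
          unfold om
          rw [if_neg]
          rintro (h | h)
          · exact ha₀ _ h
          · exact ha₀ _ h
        rw [hF2 b' a₀ ha₀, hF2 b a₀ ha₀, h0] at hconst
        simp only [sub_zero] at hconst
        exact sub_eq_zero.mp hconst
    · rintro ⟨a, b⟩ hp
      simp only
      by_cases hcol : ∀ b', (a, b') ∉ S
      · exact hF2 b a hcol
      · push Not at hcol
        obtain ⟨b', hb'⟩ := hcol
        have hline : ∀ a', (a', b) ∉ S := by
          intro a' ha'
          have e1 := hdiam _ ha' _ hb'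
          have e2 := hp _ ha'
          rw [hmd] at e1 e2
          simp only [WM.d_self, add_zero] at e1 e2
          rw [mA.d_comm a a'] at e2
          omega
        have := WM.const mA (F b) (fun a a' ha => by
          rw [← sub_eq_zero, hF1 b a a' ha]
          unfold om
          rw [if_neg]
          rintro (h | h)
          · exact hline _ h
          · exact hline _ h) a₀ a
        rw [this, hF2 b a₀ ha₀]
  · rintro p p' (⟨h1, h2⟩ | ⟨h1, h2⟩)
    · rw [hmd, h1]; simpa using h2
    · rw [hmd, h1]; simpa using h2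

theorem prodNSW [Infinite A] [Infinite B] (mA : WM A) (mB : WM B) : NSW (WM.prod mA mB) :=
  prodNSW_aux mA mB _ (WM.prod_d mA mB)

end

section

variable {G G' : Type*} [Group G] [Group G']

/-- minimal length of a preimage -/
noncomputable def plen (m : WM G) (π : G →* G') (g : G') : ℕ :=
  sInf {n | ∃ x, π x = g ∧ m.len x = n}

lemma plen_ex (m : WM G) (π : G →* G') (hπ : Function.Surjective π) (g : G') :
    ∃ x, π x = g ∧ m.len x = plen m π g := by
  obtain ⟨x, hx⟩ := hπ g
  exact Nat.sInf_mem (s := {n | ∃ x, π x = g ∧ m.len x = n}) ⟨_, x, hx, rfl⟩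

lemma plen_le (m : WM G) (π : G →* G') (x : G) : plen m π (π x) ≤ m.len x :=
  Nat.sInf_le ⟨x, rfl, rfl⟩

lemma plen_mul (m : WM G) (π : G →* G') (hπ : Function.Surjective π) (g h : G') :
    plen m π (g * h) ≤ plen m π g + plen m π h := by
  obtain ⟨x, hx, hx2⟩ := plen_ex m π hπ g
  obtain ⟨y, hy, hy2⟩ := plen_ex m π hπ h
  have := plen_le m π (x * y)
  rw [map_mul, hx, hy] at this
  have := m.len_mul x y
  omega

lemma plen_inv_le (m : WM G) (π : G →* G') (hπ : Function.Surjective π) (g : G') :
    plen m π g⁻¹ ≤ plen m π g := by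
  obtain ⟨x, hx, hx2⟩ := plen_ex m π hπ g
  have := plen_le m π x⁻¹
  rw [map_inv, hx, m.len_inv] at this
  omega

/-- The push-forward of a word metric. -/
noncomputable def WM.map (m : WM G) (π : G →* G') (hπ : Function.Surjective π) : WM G' where
  len := plen m π
  len_one := by
    have := plen_le m π 1
    rw [map_one, m.len_one] at this
    omega
  len_inv := fun g => by
    have h1 := plen_inv_le m π hπ g
    have h2 := plen_inv_le m π hπ g⁻¹
    rw [inv_inv] at h2
    omega
  len_mul := plen_mul m π hπ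
  fin := fun n => by
    apply ((m.fin n).image π).subset
    intro g hg
    obtain ⟨x, hx, hx2⟩ := plen_ex m π hπ g
    exact ⟨x, by simp only [Set.mem_setOf_eq] at *; omega, hx⟩
  split := fun g n h => by
    obtain ⟨x, hx, hx2⟩ := plen_ex m π hπ g
    obtain ⟨a, b, h1, h2, h3⟩ := m.split x n (by omega)
    have e1 := plen_le m π a
    have e2 := plen_le m π b
    have e3 := plen_mul m π hπ (π a) (π b)
    rw [← map_mul, ← h1, hx] at e3
    exact ⟨π a, π b, by rw [← map_mul, ← h1, hx], by omega, by omega⟩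
  eq_one := fun g h => by
    obtain ⟨x, hx, hx2⟩ := plen_ex m π hπ g
    rw [h] at hx2
    rw [← hx, m.eq_one x hx2, map_one]

lemma WM.map_d_le (m : WM G) (π : G →* G') (hπ : Function.Surjective π) (x y : G) :
    (m.map π hπ).d (π x) (π y) ≤ m.d x y := by
  have := plen_le m π (x⁻¹ * y)
  rw [map_mul, map_inv] at this
  exact this

theorem NSW.map {m : WM G} (π : G →* G') (hπ : Function.Surjective π)
    (hker : (π.ker : Set G).Finite) (h : NSW m) : NSW (m.map π hπ) := by
  intro D
  obtain ⟨C, hC⟩ := (hker.image m.len).bddAbove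
  obtain ⟨D₀, hD₀⟩ := h (fun R => D R + C)
  refine ⟨D₀, fun X hX p q hp hq => ?_⟩
  obtain ⟨p', rfl⟩ := hπ p
  obtain ⟨q', rfl⟩ := hπ q
  have hthin : ThinW m (fun R => D R + C) (π ⁻¹' X) := by
    intro R x y hx hxy
    have h1 : (m.map π hπ).d (π x) (π y) ≤ D R := by
      apply hX R _ _ hx
      clear hp hq
      induction hxy with
      | refl => exact Relation.ReflTransGen.refl
      | tail _ hbc ih =>
        exact ih.tail ⟨hbc.1, (m.map_d_le π hπ _ _).trans hbc.2⟩
    obtain ⟨k, hk, hk2⟩ := plen_ex m π hπ (π (x⁻¹ * y))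
    have h2 : k⁻¹ * (x⁻¹ * y) ∈ π.ker := by
      rw [MonoidHom.mem_ker, map_mul, map_inv, hk, inv_mul_cancel]
    have h3 : m.len (k⁻¹ * (x⁻¹ * y)) ≤ C := hC ⟨_, h2, rfl⟩
    have h4 := m.len_mul k (k⁻¹ * (x⁻¹ * y))
    rw [mul_inv_cancel_left] at h4
    have h5 : plen m π (π (x⁻¹ * y)) ≤ D R := by
      have : (m.map π hπ).d (π x) (π y) = plen m π (π (x⁻¹ * y)) := by
        rw [map_mul, map_inv]; rfl
      rw [← this]; exact h1
    show m.len (x⁻¹ * y) ≤ D R + C
    omega
  have hc := hD₀ _ hthin p' q'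
    (fun x hx => lt_of_lt_of_le (hp _ hx) (m.map_d_le π hπ _ _))
    (fun x hx => lt_of_lt_of_le (hq _ hx) (m.map_d_le π hπ _ _))
  unfold Cn at *
  induction hc with
  | refl => exact Relation.ReflTransGen.refl
  | tail _ hbc ih =>
    rename_i b c hpb
    clear ih
    have : ∀ z, Relation.ReflTransGen
        (fun a b => a ∈ (π ⁻¹' X)ᶜ ∧ b ∈ (π ⁻¹' X)ᶜ ∧ m.d a b ≤ 1) p' z →
        Relation.ReflTransGen (fun a b => a ∈ Xᶜ ∧ b ∈ Xᶜ ∧ (m.map π hπ).d a b ≤ 1) (π p') (π z) := by
      intro z hz
      induction hz with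
      | refl => exact Relation.ReflTransGen.refl
      | tail _ hbc' ih' =>
        exact ih'.tail ⟨hbc'.1, hbc'.2.1, (m.map_d_le π hπ _ _).trans hbc'.2.2⟩
    exact this _ (hpb.tail hbc)

end

section

variable {H : Type*} [Group H]

/-- Commuting infinite finitely generated subgroups with finite intersection generate a
subgroup that is not thinly separable. -/
theorem commNSW (A B : Subgroup H) (hA : A.FG) (hB : B.FG) [Infinite A] [Infinite B]
    (hcomm : ∀ a ∈ A, ∀ b ∈ B, a * b = b * a) (hfin : ((A : Set H) ∩ (B : Set H)).Finite) :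
    ∃ P : Subgroup H, Infinite P ∧ ∃ mP : WM P, NSW mP := by
  obtain ⟨mA⟩ := exists_wm (G := A) ((Group.fg_iff_subgroup_fg A).mpr hA)
  obtain ⟨mB⟩ := exists_wm (G := B) ((Group.fg_iff_subgroup_fg B).mpr hB)
  set π : (A × B) →* H := MonoidHom.noncommCoprod A.subtype B.subtype
    (fun a b => hcomm a a.2 b b.2) with hπ
  have hπ' : ∀ x : A × B, π x = (x.1 : H) * (x.2 : H) := fun x => rfl
  have hker : (π.rangeRestrict.ker : Set (A × B)).Finite := by
    have hinj : Function.Injective (fun x : A × B => ((x.1 : H), (x.2 : H))) := by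
      rintro ⟨a, b⟩ ⟨a', b'⟩ h
      simp only [Prod.mk.injEq, Subtype.coe_inj] at h
      exact Prod.ext h.1 h.2
    have hf2 : ((fun h : H => (h, h⁻¹)) '' ((A : Set H) ∩ (B : Set H))).Finite := hfin.image _
    apply (Set.Finite.preimage hinj.injOn hf2).subset
    rintro ⟨a, b⟩ hx
    rw [SetLike.mem_coe, MonoidHom.mem_ker, ← MonoidHom.mem_ker,
      MonoidHom.ker_rangeRestrict, MonoidHom.mem_ker, hπ'] at hx
    simp only at hx
    have hb : (b : H) = (a : H)⁻¹ := (inv_eq_of_mul_eq_one_right hx).symm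
    refine ⟨(a : H), ⟨a.2, ?_⟩, ?_⟩
    · have := B.inv_mem b.2
      rw [hb, inv_inv] at this
      exact this
    · simp only [hb]
  refine ⟨π.range, ?_, _, NSW.map π.rangeRestrict π.rangeRestrict_surjective hker
    (prodNSW mA mB)⟩
  have hinj : Function.Injective (fun a : A => (⟨(a : H), ⟨(a, 1), by simp [hπ']⟩⟩ : π.range)) := by
    intro a a' h
    have h2 := congrArg (fun x : π.range => (x : H)) h
    exact Subtype.ext h2
  exact Infinite.of_injective _ hinj

end

end Pool.Agent.EndsLamp
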