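import Pool.Agent.EndsLamp.Lamp
import Pool.Agent.EndsLamp.Ends

/-! # Walls of a lamplighter over a one-ended group in a lamplighter over a group with
infinitely many ends -/

set_option autoImplicit false
set_option linter.unusedSectionVars false
set_option linter.unnecessarySimpa false
set_option linter.deprecated false
set_option linter.unusedVariables false

open scoped Pointwise Classical

namespace Pool.Agent.EndsLamp

variable {F₁ F₂ H₁ H₂ : Type*} [Group F₁] [Group F₂] [Group H₁] [Group H₂]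
  [Finite F₁] [Finite F₂] {m₁ : WM H₁} {m₂ : WM H₂} {ρ : ℕ}
  {f : Lm F₁ H₁ → Lm F₂ H₂} {φ : Lm F₂ H₂ → Lm F₁ H₁}

/-- If the lamp at `x` of `φ u` and `φ v` differ, then `u` is near the wall of `x`. -/
lemma cross (hf : LP (lw F₁ m₁) (lw F₂ m₂) ρ f φ) (x : H₁) {u v : Lm F₂ H₂}
    (h : cf (φ u) x ≠ cf (φ v) x) :
    ∃ c : Cfg F₁ H₁, (lw F₂ m₂).d u (f (mk c x)) ≤ ρ + ρ * (ρ * (lw F₂ m₂).d u v) := by
  refine ⟨cf (φ u), ?_⟩
  have h1 := lw_lamp m₁ (φ u) (φ v) h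
  have h2 := hf.gl u v
  have h3 := lw_leaf (F := F₁) m₁ (cf (φ u)) (ps (φ u)) x
  have h4 := hf.fl (φ u) (mk (cf (φ u)) x)
  have h5 := hf.fg u
  have h6 := (lw F₂ m₂).tri u (f (φ u)) (f (mk (cf (φ u)) x))
  rw [(lw F₂ m₂).d_comm] at h5
  rw [mk_cf_ps] at h3
  have h7 : ρ * (lw F₁ m₁).d (φ u) (mk (cf (φ u)) x) ≤ ρ * (ρ * (lw F₂ m₂).d u v) :=
    Nat.mul_le_mul_left _ (by omega)
  omega

/-- The wall of `x` is near every point of a good set. -/
lemma full (h1 : OneEnded H₁) (hf : LP (lw F₁ m₁) (lw F₂ m₂) ρ f φ) (x : H₁)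
    (Good : Set (Lm F₂ H₂)) (R₂ : ℕ)
    (hb : ∀ u ∈ Good, ∀ v, v ∉ Good → (lw F₂ m₂).d u v ≤ 1 →
      ∃ c : Cfg F₁ H₁, (lw F₂ m₂).d u (f (mk c x)) ≤ R₂)
    (hfar : ∀ n, ∃ u ∈ Good, ∀ c : Cfg F₁ H₁, n < (lw F₂ m₂).d u (f (mk c x))) :
    ∃ R : ℕ, ∀ c : Cfg F₁ H₁, ∃ u ∈ Good, (lw F₂ m₂).d (f (mk c x)) u ≤ R := by
  have hinf : Infinite H₁ := infinite_of_hasEnds one_pos h1.1
  -- steps of length `ρ`
  have hb' : ∀ u ∈ Good, ∀ v, v ∉ Good → (lw F₂ m₂).d u v ≤ ρ →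
      ∃ c : Cfg F₁ H₁, (lw F₂ m₂).d u (f (mk c x)) ≤ R₂ + ρ := by
    intro u hu v hv huv
    obtain ⟨a, b, ha, hb1, hab, h2, h3⟩ := (lw F₂ m₂).change (fun z => z ∈ Good) hu hv
    obtain ⟨c, hc⟩ := hb a ha b hb1 hab
    refine ⟨c, ?_⟩
    have := (lw F₂ m₂).tri u a (f (mk c x))
    omega
  set R₃ := ρ * (R₂ + ρ) + 2 * ρ with hR₃
  obtain ⟨B, hBf, hBsub, hBc⟩ := oneEnded_conn (m := m₁) h1 (m₁.ball_fin x R₃)
  obtain ⟨b, hb2⟩ := m₁.bdd hBf x
  obtain ⟨u, hu, hufar⟩ := hfar (ρ + ρ * b + (R₂ + ρ))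
  set v := φ u with hv
  have hvB : ps v ∉ B := by
    intro hcon
    have e1 := hb2 _ hcon
    have e2 := lw_leaf (F := F₁) m₁ (cf v) (ps v) x
    have e3 := hf.fl v (mk (cf v) x)
    have e4 := hf.fg u
    have e5 := (lw F₂ m₂).tri u (f v) (f (mk (cf v) x))
    have e6 := hufar (cf v)
    rw [mk_cf_ps] at e2
    rw [m₁.d_comm] at e2
    rw [(lw F₂ m₂).d_comm, ← hv] at e4
    have e7 : ρ * (lw F₁ m₁).d v (mk (cf v) x) ≤ ρ * b := Nat.mul_le_mul_left _ (by omega)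
    omega
  have hfv : f v ∈ Good := by
    by_contra hcon
    obtain ⟨c, hc⟩ := hb' u hu (f v) hcon (by rw [(lw F₂ m₂).d_comm]; exact hf.fg u)
    have := hufar c
    omega
  -- points outside `B` stay in `Good` under steps
  have hstep : ∀ w w' : Lm F₁ H₁, ps w ∉ B → (lw F₁ m₁).d w w' ≤ 1 → f w ∈ Good →
      f w' ∈ Good := by
    intro w w' hw hd hg
    by_contra hcon
    have e1 := hf.fl w w'
    have e1' : ρ * (lw F₁ m₁).d w w' ≤ ρ := by nlinarith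
    obtain ⟨c, hc⟩ := hb' (f w) hg (f w') hcon (by omega)
    have e2 := hf.low w (mk c x)
    have e3 := lw_ps m₁ w (mk c x)
    rw [ps_mk, m₁.d_comm] at e3
    apply hw
    apply hBsub
    simp only [Set.mem_setOf_eq]
    have e4 : ρ * (lw F₂ m₂).d (f w) (f (mk c x)) ≤ ρ * (R₂ + ρ) := Nat.mul_le_mul_left _ hc
    omega
  -- move inside `Bᶜ`
  have hmove : ∀ c : Cfg F₁ H₁, ∀ y y', y ∉ B → y' ∉ B → f (mk c y) ∈ Good →
      f (mk c y') ∈ Good := by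
    intro c y y' hy hy' hg
    refine (hBc y hy y' hy').prop (fun z => f (mk c z) ∈ Good) (fun a b ha hb hab hPa => ?_) hg
    exact hstep (mk c a) (mk c b) (by simpa using ha) ((lw_leaf m₁ c a b).trans hab) hPa
  obtain ⟨y₀, hy₀⟩ : ∃ y₀, y₀ ∉ B := ⟨ps v, hvB⟩
  have hall : ∀ c : Cfg F₁ H₁, (∀ z ∈ B, c z = cf v z) → f (mk c y₀) ∈ Good := by
    intro c hc
    refine cfg_induct (cf v) c (fun c => f (mk c y₀) ∈ Good) ?_ ?_
    · exact hmove _ _ _ hvB hy₀ hfv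
    · intro c' z _ hz _ hg
      have hzB : z ∉ B := fun h => hz (hc z h).symm
      have e1 := hmove _ _ _ hy₀ hzB hg
      have e2 := hstep _ _ (by simpa using hzB) (lw_upd m₁ c' z (c z)) e1
      exact hmove _ _ _ hzB hy₀ e2
  obtain ⟨M, hM⟩ := lw_bdd2 (F := F₁) m₁ b (m₁.d x y₀)
  refine ⟨ρ * M, fun c => ?_⟩
  refine ⟨f (mk (comb B (cf v) c) y₀), hall _ (fun z hz => by rw [comb_mem _ _ hz]), ?_⟩
  refine (hf.fl _ _).trans (Nat.mul_le_mul_left _ (hM _ _ ?_ ?_))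
  · intro z hz
    simp only [cf_mk] at hz
    have : z ∈ B := by
      by_contra hcon
      rw [comb_not _ _ hcon] at hz
      exact hz rfl
    simpa using hb2 z this
  · simp

/-- The lamp at `x` of `φ` is constant over an infinite component that stays away from the
wall of `x`. -/
lemma sepB (h1 : OneEnded H₁) (h2 : HasEnds 3 H₂) (hf : LP (lw F₁ m₁) (lw F₂ m₂) ρ f φ) (x : H₁)
    {K A : Set H₂} (hK : K.Finite) (hA : IsComp m₂ K A) (hAi : A.Infinite)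
    (hfar : ∀ (c : Cfg F₁ H₁), ∀ q ∈ A, ρ + ρ * ρ < m₂.d (ps (f (mk c x))) q)
    [Nontrivial F₂] :
    ∃ κ : F₁, ∀ u : Lm F₂ H₂, ps u ∈ A → cf (φ u) x = κ := by
  -- one step
  have hstep : ∀ u v : Lm F₂ H₂, ps u ∈ A → (lw F₂ m₂).d u v ≤ 1 → cf (φ v) x = cf (φ u) x := by
    intro u v hu huv
    by_contra hne
    obtain ⟨c, hc⟩ := cross hf x (Ne.symm hne)
    have e1 := hfar c _ hu
    have e2 := lw_ps m₂ u (f (mk c x))
    rw [m₂.d_comm] at e2
    have e3 : ρ * (ρ * (lw F₂ m₂).d u v) ≤ ρ * ρ :=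
      Nat.mul_le_mul_left _ (by nlinarith)
    omega
  have hmove : ∀ (c : Cfg F₂ H₂) (y y' : H₂), y ∈ A → y' ∈ A →
      cf (φ (mk c y')) x = cf (φ (mk c y)) x := by
    intro c y y' hy hy'
    refine (hA.conn y hy y' hy').prop (fun z => cf (φ (mk c z)) x = cf (φ (mk c y)) x)
      (fun a b ha hb hab hPa => ?_) rfl
    rw [← hPa]
    exact hstep _ _ (by simpa using ha) ((lw_leaf m₂ c a b).trans hab)
  obtain ⟨a₀, ha₀⟩ := hAi.nonempty
  have hin : ∀ (c c' : Cfg F₂ H₂), (∀ z, z ∉ A → c z = c' z) →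
      cf (φ (mk c' a₀)) x = cf (φ (mk c a₀)) x := by
    intro c c' hcc
    refine cfg_induct c c' (fun c' => cf (φ (mk c' a₀)) x = cf (φ (mk c a₀)) x) rfl ?_
    intro c'' z _ hz _ hP
    have hzA : z ∈ A := by
      by_contra hcon
      exact hz (hcc z hcon)
    rw [← hP, hmove _ z a₀ hzA ha₀, hmove c'' z a₀ hzA ha₀]
    exact hstep _ _ (by simpa using hzA) (lw_upd m₂ c'' z (c' z))
  refine ⟨cf (φ (mk c1 a₀)) x, ?_⟩
  by_contra hcon
  push Not at hcon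
  obtain ⟨u, hu, hne⟩ := hcon
  -- two configurations `i`, `i'` off `A` with different colours
  set i := cf u with hi
  have hne' : cf (φ (mk i a₀)) x ≠ cf (φ (mk c1 a₀)) x := by
    rw [hmove i (ps u) a₀ hu ha₀]
    simpa [hi] using hne
  -- all `(c, a₀)` with `c = i` off `A` are near the wall
  obtain ⟨r, hr⟩ := m₂.bdd (diff_fin i c1) a₀
  obtain ⟨ℓ, hℓ⟩ := lw_bdd (F := F₂) m₂ r
  set R₁ := ρ + ρ * (ρ * ℓ) with hR₁
  have hnear : ∀ c : Cfg F₂ H₂, (∀ z, z ∉ A → c z = i z) →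
      ∃ c' : Cfg F₁ H₁, (lw F₂ m₂).d (mk c a₀) (f (mk c' x)) ≤ R₁ := by
    intro c hc
    have hd : (lw F₂ m₂).d (mk c a₀) (mk (comb A c c1) a₀) ≤ ℓ := by
      apply hℓ
      intro z hz
      apply hr
      by_cases hzA : z ∈ A
      · rw [comb_mem _ _ hzA] at hz; exact absurd rfl hz
      · rw [comb_not _ _ hzA, hc z hzA] at hz; exact hz
    have hcol : cf (φ (mk c a₀)) x ≠ cf (φ (mk (comb A c c1) a₀)) x := by
      rw [hin i c (fun z hz => (hc z hz).symm),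
        hin c1 (comb A c c1) (fun z hz => by rw [comb_not _ _ hz])]
      exact hne'
    obtain ⟨c', hc'⟩ := cross hf x hcol
    refine ⟨c', hc'.trans ?_⟩
    have : ρ * (ρ * (lw F₂ m₂).d (mk c a₀) (mk (comb A c c1) a₀)) ≤ ρ * (ρ * ℓ) :=
      Nat.mul_le_mul_left _ (Nat.mul_le_mul_left _ hd)
    omega
  -- branching
  obtain ⟨K', A', A'', hK', hA', hA'i, hA''i, hsub', hsub'', hdisj, hKK⟩ := branch h2 hK hA hAi
  obtain ⟨r', hr'⟩ := m₂.bdd (hK'.union hK) a₀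
  set i₁ : Cfg F₂ H₂ := comb A c1 i with hi₁
  have hi₁A : ∀ z, z ∉ A → i₁ z = i z := fun z hz => by rw [hi₁, comb_not _ _ hz]
  set Good : Set (Lm F₂ H₂) := {u | ps u ∈ A' ∧ ∀ z, z ∉ A' → cf u z = i₁ z} with hGood
  obtain ⟨R, hR⟩ := full h1 hf x Good (R₁ + (r' + 1)) (by
      rintro u' ⟨hu1, hu2⟩ v' hv' huv
      have hpv : ps v' ∉ A' := by
        intro hcon
        apply hv'
        refine ⟨hcon, fun z hz => ?_⟩
        rw [← hu2 z hz]
        by_contra hne2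
        have := (lw_step m₂ huv).2 z hne2
        exact hz (this ▸ hu1)
      have hk : ps v' ∈ K' := by
        by_contra hcon
        exact hpv (hA'.clo _ hu1 _ hcon (lw_step m₂ huv).1)
      have e1 := hr' _ (Or.inl hk)
      have e2 := (lw_step m₂ huv).1
      have e3 := m₂.tri (ps u') (ps v') a₀
      rw [m₂.d_comm (ps v')] at e3
      have e4 := lw_leaf (F := F₂) m₂ (cf u') (ps u') a₀
      rw [mk_cf_ps] at e4
      obtain ⟨c', hc'⟩ := hnear (cf u') (fun z hz => by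
        rw [hu2 z (fun h => hz (hsub' h)), hi₁A z hz])
      refine ⟨c', ?_⟩
      have e5 := (lw F₂ m₂).tri u' (mk (cf u') a₀) (f (mk c' x))
      omega) (by
      intro n
      obtain ⟨q, hq, hqd⟩ := m₂.exists_far_of_infinite hA'i a₀ (n + r')
      refine ⟨mk i₁ q, ⟨hq, fun z _ => rfl⟩, fun c => ?_⟩
      have hout : ps (f (mk c x)) ∉ A := by
        intro hcon
        have := hfar c _ hcon
        simp at this
      obtain ⟨k, hk, hkd⟩ := hA.toClo.exit (hsub' hq) hout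
      have e1 := hr' k (Or.inr hk)
      have e2 := lw_ps m₂ (mk i₁ q) (f (mk c x))
      rw [ps_mk] at e2
      have e3 := m₂.tri a₀ k q
      rw [m₂.d_comm k q] at e3
      omega)
  obtain ⟨z, hz, hzd⟩ := m₂.exists_far_of_infinite hA''i a₀ (R₁ + R)
  have hzA : z ∈ A := hsub'' hz
  have hzA' : z ∉ A' := fun h => Set.disjoint_left.mp hdisj h hz
  obtain ⟨a, ha⟩ := exists_ne (i₁ z)
  obtain ⟨c', hc'⟩ := hnear (upd i z a) (fun z' hz' => by
    rw [upd_ne]; intro h; exact hz' (h ▸ hzA))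
  obtain ⟨g, hg, hgd⟩ := hR c'
  have e1 := lw_lamp m₂ (mk (upd i z a) a₀) g (z := z) (by
    rw [cf_mk, upd_self, hg.2 z hzA']; exact ha)
  rw [ps_mk] at e1
  have e2 := (lw F₂ m₂).tri (mk (upd i z a) a₀) (f (mk c' x)) g
  omega

/-- No wall is near a fibre. -/
lemma noBdd (h1 : OneEnded H₁) (h2 : HasEnds 3 H₂) (hf : LP (lw F₁ m₁) (lw F₂ m₂) ρ f φ)
    (x : H₁) [Nontrivial F₁] [Nontrivial F₂]
    (hfin : {q | ∃ c : Cfg F₁ H₁, ps (f (mk c x)) = q}.Finite) : False := by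
  have hinf1 : Infinite H₁ := infinite_of_hasEnds one_pos h1.1
  have hinf2 : Infinite H₂ := infinite_of_hasEnds (by norm_num) h2
  obtain ⟨r, hr⟩ := m₂.bdd hfin 1
  -- filled ball
  set K₀ : Set H₂ := {z | m₂.d 1 z ≤ r + (ρ + ρ * ρ)} with hK₀
  have hK₀f : K₀.Finite := m₂.ball_fin 1 _
  have hne : K₀.Nonempty := ⟨1, by simp [hK₀]⟩
  set K : Set H₂ := K₀ ∪ {x | x ∉ K₀ ∧ (compOf m₂ K₀ x).Finite} with hKdef
  have hKf : K.Finite := hK₀f.union (fin_comps hK₀f hne)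
  have out : ∀ x, x ∉ K → x ∉ K₀ ∧ (compOf m₂ K₀ x).Infinite := by
    intro x hx
    simp only [hKdef, Set.mem_union, Set.mem_setOf_eq, not_or, not_and] at hx
    exact ⟨hx.1, hx.2 hx.1⟩
  -- colour of a point outside `K`
  have hcol : ∀ k, k ∉ K → ∃ κ : F₁, ∀ u : Lm F₂ H₂, ps u ∈ compOf m₂ K₀ k → cf (φ u) x = κ := by
    intro k hk
    have hk' := out k hk
    apply sepB h1 h2 hf x hK₀f (compOf_isComp hk'.1) hk'.2
    intro c q hq
    have e1 := (compOf_isComp hk'.1).disj q hq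
    simp only [hK₀, Set.mem_setOf_eq, not_le] at e1
    have e2 := hr _ ⟨c, rfl⟩
    have e3 := m₂.tri 1 (ps (f (mk c x))) q
    omega
  -- every colour occurs
  obtain ⟨b, hb⟩ := m₂.bdd hKf 1
  obtain ⟨s, hs⟩ := m₂.exists_eq (1 : H₂) (2 * b + 1)
  have hocc : ∀ a : F₁, ∃ k, k ∉ K ∧ ∀ u : Lm F₂ H₂, ps u ∈ compOf m₂ K₀ k → cf (φ u) x = a := by
    intro a
    obtain ⟨y₀, hy₀⟩ := m₁.exists_far x (ρ * (2 * b + 1) + ρ)
    set v₀ : Lm F₁ H₁ := mk (upd c1 x a) y₀ with hv₀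
    -- leave `K`
    obtain ⟨k, hk, hkd⟩ : ∃ k, k ∉ K ∧ m₂.d (ps (f v₀)) k ≤ 2 * b + 1 := by
      by_cases h : ps (f v₀) ∈ K
      · refine ⟨ps (f v₀) * s, fun hcon => ?_, ?_⟩
        · have e1 := hb _ h
          have e2 := hb _ hcon
          have e3 : m₂.d (ps (f v₀)) (ps (f v₀) * s) = 2 * b + 1 := by
            rw [m₂.d_mul_right]; simpa [WM.d] using hs
          have e4 := m₂.tri (ps (f v₀)) 1 (ps (f v₀) * s)
          rw [m₂.d_comm _ 1] at e4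
          omega
        · rw [m₂.d_mul_right]
          have : m₂.len s = 2 * b + 1 := by simpa [WM.d] using hs
          omega
      · exact ⟨_, h, by simp⟩
    refine ⟨k, hk, ?_⟩
    obtain ⟨κ, hκ⟩ := hcol k hk
    have hu : ps (mk (cf (f v₀)) k) ∈ compOf m₂ K₀ k := mem_compOf k
    have hκ' := hκ _ hu
    have : κ = a := by
      by_contra hcon
      have hlam : cf v₀ x ≠ cf (φ (mk (cf (f v₀)) k)) x := by
        rw [hκ', hv₀, cf_mk, upd_self]; exact fun h => hcon h.symm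
      have e1 := lw_lamp m₁ _ _ hlam
      have e2 := (lw F₁ m₁).tri v₀ (φ (f v₀)) (φ (mk (cf (f v₀)) k))
      have e3 := hf.gf v₀
      have e4 := hf.gl (f v₀) (mk (cf (f v₀)) k)
      have e5 := lw_leaf (F := F₂) m₂ (cf (f v₀)) (ps (f v₀)) k
      rw [mk_cf_ps] at e5
      rw [(lw F₁ m₁).d_comm] at e3
      rw [hv₀, ps_mk, m₁.d_comm, ← hv₀] at e1
      have e6 : ρ * (lw F₂ m₂).d (f v₀) (mk (cf (f v₀)) k) ≤ ρ * (2 * b + 1) :=
        Nat.mul_le_mul_left _ (by omega)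
      omega
    intro u hu
    rw [← this]; exact hκ u hu
  obtain ⟨a, a', haa⟩ := exists_pair_ne F₁
  obtain ⟨k, hk, hka⟩ := hocc a
  obtain ⟨l, hl, hla⟩ := hocc a'
  have hk' := out k hk
  have hl' := out l hl
  have hkl : Disjoint (compOf m₂ K₀ k) (compOf m₂ K₀ l) := by
    rw [Set.disjoint_left]
    intro z hz1 hz2
    apply haa
    rw [← hka (mk c1 z) hz1, ← hla (mk c1 z) hz2]
  set R₇ := ρ + ρ * (ρ * m₂.d k l) with hR₇
  have hnear : ∀ c : Cfg F₂ H₂, ∃ c' : Cfg F₁ H₁, (lw F₂ m₂).d (mk c k) (f (mk c' x)) ≤ R₇ := by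
    intro c
    obtain ⟨c', hc'⟩ := cross hf x (u := mk c k) (v := mk c l) (by
      rw [hka _ (mem_compOf k), hla _ (mem_compOf l)]; exact haa)
    refine ⟨c', hc'.trans ?_⟩
    have : ρ * (ρ * (lw F₂ m₂).d (mk c k) (mk c l)) ≤ ρ * (ρ * m₂.d k l) :=
      Nat.mul_le_mul_left _ (Nat.mul_le_mul_left _ (lw_leaf m₂ c k l))
    omega
  have hC := compOf_isComp (m := m₂) hk'.1
  set Good : Set (Lm F₂ H₂) := {u | ps u ∈ compOf m₂ K₀ k ∧ ∀ z, z ∉ compOf m₂ K₀ k → cf u z = 1}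
    with hGood
  obtain ⟨b', hb'⟩ := m₂.bdd hK₀f k
  obtain ⟨R, hR⟩ := full h1 hf x Good (R₇ + (b' + 1)) (by
      rintro u' ⟨hu1, hu2⟩ v' hv' huv
      have hpv : ps v' ∉ compOf m₂ K₀ k := by
        intro hcon
        apply hv'
        refine ⟨hcon, fun z hz => ?_⟩
        rw [← hu2 z hz]
        by_contra hne2
        have := (lw_step m₂ huv).2 z hne2
        exact hz (this ▸ hu1)
      have hkk : ps v' ∈ K₀ := by
        by_contra hcon
        exact hpv (hC.clo _ hu1 _ hcon (lw_step m₂ huv).1)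
      have e1 := hb' _ hkk
      have e2 := (lw_step m₂ huv).1
      have e3 := m₂.tri (ps u') (ps v') k
      rw [m₂.d_comm (ps v')] at e3
      have e4 := lw_leaf (F := F₂) m₂ (cf u') (ps u') k
      rw [mk_cf_ps] at e4
      obtain ⟨c', hc'⟩ := hnear (cf u')
      refine ⟨c', ?_⟩
      have e5 := (lw F₂ m₂).tri u' (mk (cf u') k) (f (mk c' x))
      omega) (by
      intro n
      obtain ⟨q, hq, hqd⟩ := m₂.exists_far_of_infinite hk'.2 1 (n + r)
      refine ⟨mk c1 q, ⟨hq, fun z _ => rfl⟩, fun c => ?_⟩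
      have e1 := hr _ ⟨c, rfl⟩
      have e2 := lw_ps m₂ (mk c1 q) (f (mk c x))
      rw [ps_mk] at e2
      have e3 := m₂.tri 1 (ps (f (mk c x))) q
      rw [m₂.d_comm (ps (f (mk c x))) q] at e3
      omega)
  obtain ⟨z, hz, hzd⟩ := m₂.exists_far_of_infinite hl'.2 k (R₇ + R)
  have hzk : z ∉ compOf m₂ K₀ k := fun h => Set.disjoint_left.mp hkl h hz
  obtain ⟨e, he⟩ := exists_ne (1 : F₂)
  obtain ⟨c', hc'⟩ := hnear (upd c1 z e)
  obtain ⟨g, hg, hgd⟩ := hR c'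
  have e1 := lw_lamp m₂ (mk (upd c1 z e) k) g (z := z) (by
    rw [cf_mk, upd_self, hg.2 z hzk]; exact he)
  rw [ps_mk] at e1
  have e2 := (lw F₂ m₂).tri (mk (upd c1 z e) k) (f (mk c' x)) g
  omega

end Pool.Agent.EndsLamp
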