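import Pool.Agent.EndsLamp.T2

/-! # Restoring the lamps of a large ball at a cost controlled by the position of the image -/

set_option autoImplicit false
set_option linter.unusedSectionVars false
set_option linter.unnecessarySimpa false
set_option linter.unusedSimpArgs false
set_option linter.deprecated false

open scoped Pointwise Classical
open Filter

namespace Pool.Agent.EndsLamp

section

variable {F₁ F₂ H₁ H₂ : Type*} [Group F₁] [Group F₂] [Group H₁] [Group H₂]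
variable [Finite F₁] [Finite F₂]
variable {m₁ : WM H₁} {m₂ : WM H₂} {ρ : ℕ} {f : Lm F₁ H₁ → Lm F₂ H₂} {φ : Lm F₂ H₂ → Lm F₁ H₁}

/-- The lamps deep in `A` are frozen on the image of the set of states at `x` or with the lamp at
`x` different from `κ`. -/
lemma frozen [Nontrivial F₁] [Nontrivial F₂] (h1 : OneEnded H₁) (h2 : HasEnds 3 H₂)
    (hf : LP (lw F₁ m₁) (lw F₂ m₂) ρ f φ) (x : H₁) {K₁ A₁ : Set H₂} (hK₁f : K₁.Finite)
    (hA₁ : IsComp m₂ K₁ A₁) (hA₁i : A₁.Infinite)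
    (hfar : ∀ (c : Cfg F₁ H₁), ∀ q ∈ A₁, ρ + ρ * ρ < m₂.d (ps (f (mk c x))) q) :
    ∃ κ : F₁, ∀ (c : Cfg F₁ H₁) (y : H₁), (y = x ∨ c x ≠ κ) → ∀ q ∈ A₁, q ∉ m₂.nb ρ K₁ →
      cf (f (mk c y)) q = cf (f (mk c1 x)) q := by
  obtain ⟨κ, hκ⟩ := sepB h1 h2 hf x hK₁f hA₁ hA₁i hfar
  refine ⟨κ, ?_⟩
  -- the images of `M` miss `A₁`
  have hM : ∀ (c : Cfg F₁ H₁) (y : H₁), (y = x ∨ c x ≠ κ) → ps (f (mk c y)) ∉ A₁ := by
    intro c y hy hmem
    rcases hy with rfl | hy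
    · have := hfar c _ hmem
      simp at this
    · have e1 := hκ (f (mk c y)) hmem
      have e2 : cf (mk c y) x ≠ cf (φ (f (mk c y))) x := by rw [e1, cf_mk]; exact hy
      have e3 := lw_lamp m₁ _ _ e2
      have e4 := hf.gf (mk c y)
      rw [(lw F₁ m₁).d_comm] at e4
      rw [ps_mk] at e3
      have e5 := lw_leaf (F := F₁) m₁ c y x
      have e6 := hf.fl (mk c y) (mk c x)
      have e7 := lw_ps m₂ (f (mk c y)) (f (mk c x))
      have e8 : ρ * (lw F₁ m₁).d (mk c y) (mk c x) ≤ ρ * ρ := Nat.mul_le_mul_left _ (by omega)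
      have e9 := hfar c _ hmem
      rw [m₂.d_comm] at e9
      omega
  -- deeper again
  set K₃ : Set H₂ := m₂.nb ρ K₁ with hK₃
  have hfar3 : ∀ q ∈ A₁, q ∉ K₃ → ∀ x, x ∉ A₁ → ρ < m₂.d x q := by
    intro q hq hq3 x hx
    obtain ⟨k, hk, hk2⟩ := hA₁.toClo.exit hq hx
    by_contra hcon
    push Not at hcon
    apply hq3
    refine ⟨k, hk, ?_⟩
    rw [m₂.d_comm] at hcon
    omega
  have hstep : ∀ (u v : Lm F₁ H₁), ps (f u) ∉ A₁ → (lw F₁ m₁).d u v ≤ 1 → ∀ q ∈ A₁, q ∉ K₃ →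
      cf (f v) q = cf (f u) q := by
    intro u v hu huv q hq hq3
    by_contra hne
    have e1 := lw_lamp m₂ _ _ (Ne.symm hne)
    have e2 := hf.fl u v
    have e3 : ρ * (lw F₁ m₁).d u v ≤ ρ := by nlinarith
    have e4 := hfar3 q hq hq3 _ hu
    omega
  have hmove : ∀ (c : Cfg F₁ H₁), c x ≠ κ → ∀ y, ∀ q ∈ A₁, q ∉ K₃ →
      cf (f (mk c y)) q = cf (f (mk c x)) q := by
    intro c hc y q hq hq3
    have key : ∀ n, ∀ y, m₁.d x y = n → cf (f (mk c y)) q = cf (f (mk c x)) q := by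
      intro n
      induction n with
      | zero => intro y h; rw [m₁.eq_of_d h]
      | succ n ih =>
        intro y h'
        obtain ⟨y', e1, e2⟩ := m₁.prev h'
        rw [← ih y' e1]
        exact hstep (mk c y') (mk c y) (hM c y' (Or.inr hc)) ((lw_leaf m₁ c y' y).trans e2) q hq hq3
    exact key _ y rfl
  obtain ⟨b, hb⟩ := exists_ne κ
  have htog : ∀ (c : Cfg F₁ H₁) (a : F₁), ∀ q ∈ A₁, q ∉ K₃ →
      cf (f (mk (upd c x a) x)) q = cf (f (mk c x)) q := by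
    intro c a q hq hq3
    exact hstep (mk c x) (mk (upd c x a) x) (hM c x (Or.inl rfl)) (lw_upd m₁ c x a) q hq hq3
  have hall : ∀ (c : Cfg F₁ H₁), ∀ q ∈ A₁, q ∉ K₃ →
      cf (f (mk c x)) q = cf (f (mk c1 x)) q := by
    intro c q hq hq3
    refine cfg_induct c1 c (fun c => cf (f (mk c x)) q = cf (f (mk c1 x)) q) rfl ?_
    intro c' z _ _ _ ih
    by_cases hz : z = x
    · rw [hz, htog c' _ q hq hq3, ih]
    · -- toggle the lamp at `x` first
      have e1 := htog c' b q hq hq3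
      set w := upd c' x b with hw
      have hx1 : w x ≠ κ := by rw [hw, upd_self]; exact hb
      have e2 := hmove w hx1 z q hq hq3
      have e3 : cf (f (mk (upd w z (c z)) z)) q = cf (f (mk w z)) q :=
        hstep (mk w z) (mk (upd w z (c z)) z) (hM w z (Or.inr hx1)) (lw_upd m₁ w z _) q hq hq3
      have hx1' : upd w z (c z) x ≠ κ := by rw [upd_ne _ _ (Ne.symm hz)]; exact hx1
      have e4 := hmove (upd w z (c z)) hx1' z q hq hq3
      have e5 := htog (upd w z (c z)) (c' x) q hq hq3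
      have e6 : upd (upd w z (c z)) x (c' x) = upd c' z (c z) := by
        apply Cfg.ext
        intro t
        by_cases ht : t = x
        · rw [ht, upd_self, upd_ne _ _ (Ne.symm hz)]
        · rw [upd_ne _ _ ht]
          by_cases hw' : t = z
          · rw [hw', upd_self, upd_self]
          · rw [upd_ne _ _ hw', upd_ne _ _ hw', hw, upd_ne _ _ ht]
      rw [e6] at e5
      rw [e5, ← e4, e3, e2, e1, ih]
  intro c y hy q hq hq3
  rcases hy with rfl | hy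
  · exact hall c q hq hq3
  · rw [hmove c hy y q hq hq3, hall c q hq hq3]

/-- The lamps of a ball can be restored at a cost controlled by the position of the image. -/
lemma star [Nontrivial F₁] [Nontrivial F₂] (h1 : OneEnded H₁) (h2 : HasEnds 3 H₂)
    (hf : LP (lw F₁ m₁) (lw F₂ m₂) ρ f φ) {K A : Set H₂} (hK : K.Finite) (hA : IsComp m₂ K A)
    (hAi : A.Infinite) (hmiss : ∀ c : Cfg F₁ H₁, ps (f (mk c 1)) ∉ A) :
    ∃ C : ℕ, ∀ r : ℕ, ∃ κ : H₁ → F₁, ∀ v : Lm F₁ H₁, ∃ v' : Lm F₁ H₁,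
      (∀ x, m₁.d 1 x ≤ r → cf v' x = κ x) ∧
      (lw F₁ m₁).d v v' ≤ C * (m₂.d 1 (ps (f v)) + r + 1) := by
  obtain ⟨bK, hbK⟩ := m₂.bdd hK 1
  refine ⟨ρ + ρ * (2 * (ρ + 1 + (ρ + (ρ + ρ * ρ)) + bK) + 1 + 1), fun r => ?_⟩
  set K' : Set H₂ := insert 1 (m₂.nb (ρ * r + (ρ + ρ * ρ)) K) with hK'
  have hK'f : K'.Finite := (m₂.nb_fin hK _).insert 1
  have hKK' : K ⊆ K' := fun x hx => Or.inr (m₂.subset_nb _ _ hx)
  obtain ⟨A', hA', hA'i, hA'A⟩ := hA.toClo.subcomp hAi hKK' hK'f ⟨1, Or.inl rfl⟩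
  have hfar0 : ∀ q ∈ A', ∀ p, p ∉ A → ρ * r + (ρ + ρ * ρ) < m₂.d p q := by
    intro q hq p hp
    obtain ⟨k, hk, hk2⟩ := hA.toClo.exit (hA'A hq) hp
    have h := hA'.disj q hq
    by_contra hcon
    push Not at hcon
    apply h
    right
    refine ⟨k, hk, ?_⟩
    rw [m₂.d_comm] at hcon
    omega
  have hfar : ∀ x, m₁.d 1 x ≤ r → ∀ c : Cfg F₁ H₁, ∀ q ∈ A',
      ρ + ρ * ρ < m₂.d (ps (f (mk c x))) q := by
    intro x hx c q hq
    have e1 := hfar0 q hq _ (hmiss c)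
    have e2 := lw_leaf (F := F₁) m₁ c 1 x
    have e3 := hf.fl (mk c 1) (mk c x)
    have e4 := lw_ps m₂ (f (mk c 1)) (f (mk c x))
    have e5 := m₂.tri (ps (f (mk c 1))) (ps (f (mk c x))) q
    have e6 : ρ * (lw F₁ m₁).d (mk c 1) (mk c x) ≤ ρ * r := Nat.mul_le_mul_left _ (by omega)
    omega
  have hfr : ∀ x, ∃ κ : F₁, m₁.d 1 x ≤ r → ∀ (c : Cfg F₁ H₁) (y : H₁), (y = x ∨ c x ≠ κ) →
      ∀ q ∈ A', q ∉ m₂.nb ρ K' → cf (f (mk c y)) q = cf (f (mk c1 x)) q := by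
    intro x
    by_cases hx : m₁.d 1 x ≤ r
    · obtain ⟨κ, hκ⟩ := frozen h1 h2 hf x hK'f hA' hA'i (hfar x hx)
      exact ⟨κ, fun _ => hκ⟩
    · exact ⟨1, fun h => absurd h hx⟩
  choose κ hκ using hfr
  refine ⟨κ, fun v => ?_⟩
  -- common value of the frozen lamps
  have hcommon : ∀ x, m₁.d 1 x ≤ r → ∀ q ∈ A', q ∉ m₂.nb ρ K' →
      cf (f (mk c1 x)) q = cf (f (mk (c1 : Cfg F₁ H₁) 1)) q := by
    intro x hx q hq hq3
    by_cases hx1 : x = 1
    · rw [hx1]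
    obtain ⟨b, hb⟩ := exists_ne (κ x)
    have e1 := hκ x hx (upd c1 x b) 1 (Or.inr (by rw [upd_self]; exact hb)) q hq hq3
    have e2 := hκ 1 (by simp) (upd c1 x b) 1 (Or.inl rfl) q hq hq3
    rw [← e1, e2]
  -- a point just inside
  obtain ⟨z, hzA, hz3, hzd⟩ : ∃ z ∈ A', z ∉ m₂.nb ρ K' ∧
      m₂.d 1 z ≤ ρ + 1 + (ρ * r + (ρ + ρ * ρ)) + bK := by
    have hinf : (A' \ m₂.nb ρ K').Infinite := hA'i.diff (m₂.nb_fin hK'f _)
    have hclo : Clo m₂ (m₂.nb ρ K') (A' \ m₂.nb ρ K') := hA'.toClo.mono (m₂.subset_nb _ _)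
    obtain ⟨z', hz'⟩ := hinf.nonempty
    have h1n : (1 : H₂) ∉ (A' \ m₂.nb ρ K') := fun h => h.2 (m₂.subset_nb _ _ (Or.inl rfl))
    obtain ⟨a, b, ha, hb, hab, -, -⟩ := m₂.change (fun z => z ∈ A' \ m₂.nb ρ K') hz' h1n
    have hbn : b ∈ m₂.nb ρ K' := by
      by_contra hcon
      exact hb (hclo.clo a ha b hcon hab)
    obtain ⟨k, hk, hkd⟩ := hbn
    refine ⟨a, ha.1, ha.2, ?_⟩
    have e1 := m₂.tri 1 k a
    have e2 := m₂.tri k b a
    rw [m₂.d_comm k b, m₂.d_comm b a] at e2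
    rcases hk with rfl | ⟨k', hk', hkd'⟩
    · simp at e1; omega
    · have e3 := hbK k' hk'
      have e4 := m₂.tri 1 k' k
      rw [m₂.d_comm k' k] at e4
      omega
  obtain ⟨e, he⟩ := exists_ne (cf (f (mk (c1 : Cfg F₁ H₁) 1)) z)
  set u : Lm F₂ H₂ := mk (upd (cf (f v)) z e) 1 with hu
  refine ⟨φ u, fun x hx => ?_, ?_⟩
  · by_contra hne
    have e1 := hκ x hx (cf (φ u)) (ps (φ u)) (Or.inr hne) z hzA hz3
    rw [mk_cf_ps, hcommon x hx z hzA hz3] at e1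
    have e2 : cf u z ≠ cf (f (φ u)) z := by
      rw [e1, hu, cf_mk, upd_self]; exact he
    have e3 := lw_lamp m₂ _ _ e2
    have e4 := hf.fg u
    rw [(lw F₂ m₂).d_comm] at e4
    apply hz3
    refine ⟨1, Or.inl rfl, ?_⟩
    rw [hu, ps_mk, ← hu] at e3
    rw [m₂.d_comm]
    omega
  · have e1 := hf.gf v
    have e2 := hf.gl (f v) u
    have e3 := (lw F₁ m₁).tri v (φ (f v)) (φ u)
    rw [(lw F₁ m₁).d_comm v (φ (f v))] at e3
    have e4 : (lw F₂ m₂).d (f v) u ≤ m₂.d 1 (ps (f v)) + m₂.d 1 z + 1 + m₂.d 1 z := by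
      have t1 := lw_leaf (F := F₂) m₂ (cf (f v)) (ps (f v)) z
      have t2 := lw_upd (F := F₂) m₂ (cf (f v)) z e
      have t3 := lw_leaf (F := F₂) m₂ (upd (cf (f v)) z e) z 1
      have t4 := (lw F₂ m₂).tri (mk (cf (f v)) (ps (f v))) (mk (cf (f v)) z) u
      have t5 := (lw F₂ m₂).tri (mk (cf (f v)) z) (mk (upd (cf (f v)) z e) z) u
      have t6 := m₂.tri (ps (f v)) 1 z
      rw [m₂.d_comm (ps (f v)) 1] at t6
      rw [mk_cf_ps] at t4
      rw [mk_cf_ps] at t1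
      rw [m₂.d_comm z 1, ← hu] at t3
      omega
    have e5 : ρ * (lw F₂ m₂).d (f v) u ≤
        ρ * (m₂.d 1 (ps (f v)) + m₂.d 1 z + 1 + m₂.d 1 z) := Nat.mul_le_mul_left _ e4
    have e6 : (lw F₁ m₁).d v (φ u) ≤ ρ + ρ * (m₂.d 1 (ps (f v)) + m₂.d 1 z + 1 + m₂.d 1 z) := by
      omega
    refine e6.trans ?_
    set h := m₂.d 1 (ps (f v)) with hh
    have e7 : h + m₂.d 1 z + 1 + m₂.d 1 z ≤
        (2 * (ρ + 1 + (ρ + (ρ + ρ * ρ)) + bK) + 1 + 1) * (h + r + 1) := by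
      nlinarith [Nat.zero_le (ρ * r), Nat.zero_le (ρ * ρ * r), Nat.zero_le (ρ * h),
        Nat.zero_le (ρ * ρ * h), Nat.zero_le (bK * r), Nat.zero_le (bK * h)]
    calc ρ + ρ * (h + m₂.d 1 z + 1 + m₂.d 1 z) ≤
        ρ * (h + r + 1) + ρ * ((2 * (ρ + 1 + (ρ + (ρ + ρ * ρ)) + bK) + 1 + 1) * (h + r + 1)) := by
          have := Nat.mul_le_mul_left ρ e7
          nlinarith [Nat.zero_le (ρ * r), Nat.zero_le (ρ * h)]
      _ = _ := by ring

/-- The number of lamps that differ is at most the distance. -/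
lemma lw_count (m : WM H₁) (u v : Lm F₁ H₁) :
    {z | cf u z ≠ cf v z}.ncard ≤ (lw F₁ m).d u v := by
  have key : ∀ n, ∀ v, (lw F₁ m).d u v = n → {z | cf u z ≠ cf v z}.ncard ≤ n := by
    intro n
    induction n with
    | zero =>
      intro v h
      rw [(lw F₁ m).eq_of_d h]
      simp
    | succ n ih =>
      intro v h
      obtain ⟨v', h1, h2⟩ := (lw F₁ m).prev h
      have h3 := ih v' h1
      have h4 : {z | cf u z ≠ cf v z} ⊆ insert (ps v') {z | cf u z ≠ cf v' z} := by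
        intro z hz
        by_cases hc : cf v z = cf v' z
        · right
          simp only [Set.mem_setOf_eq] at hz ⊢
          rw [← hc]; exact hz
        · left
          exact (lw_step m h2).2 z hc
      refine (Set.ncard_le_ncard h4 ((diff_fin _ _).insert _)).trans ?_
      exact (Set.ncard_insert_le _ _).trans (by omega)
  exact key _ v rfl

end

end Pool.Agent.EndsLamp
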