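import Mathlib

/-!
# Definitions used in the statement of the main theorem

Restricted wreath products, word metrics, quasi-isometries, ends of groups (through almost
invariant sets) and the property of not being coarsely separable by a thin subset.
-/

set_option autoImplicit false

open scoped Pointwise

namespace Pool.Agent.EndsLamp

universe u v

/-- The restricted (standard, regular) wreath product `F ≀ K`: the subgroup of Mathlib's
(unrestricted) regular wreath product `(K → F) ⋊ K` consisting of the elements whose
function `K → F` has finite support. -/
def RWreath (F : Type u) (K : Type v) [Group F] [Group K] :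
    Subgroup (RegularWreathProduct F K) where
  carrier := {g | (Function.mulSupport g.left).Finite}
  mul_mem' := by
    intro a b ha hb
    have h1 : (Function.mulSupport fun x => b.left (a.right⁻¹ * x)).Finite := by
      have : (Function.mulSupport fun x => b.left (a.right⁻¹ * x)) ⊆
          (fun x => a.right * x) '' (Function.mulSupport b.left) := by
        intro x hx
        exact ⟨a.right⁻¹ * x, hx, by simp⟩
      exact (Set.Finite.image _ hb).subset this
    have h2 : (Function.mulSupport (a * b).left) ⊆
        Function.mulSupport a.left ∪ (Function.mulSupport fun x => b.left (a.right⁻¹ * x)) := by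
      rw [RegularWreathProduct.mul_left]
      exact Function.mulSupport_mul _ _
    exact (Set.Finite.union ha h1).subset h2
  one_mem' := by
    simp
  inv_mem' := by
    intro a ha
    have : (Function.mulSupport (a⁻¹).left) ⊆
        (fun x => a.right⁻¹ * x) '' (Function.mulSupport a.left) := by
      intro x hx
      refine ⟨a.right * x, ?_, by simp⟩
      simpa using hx
    exact (Set.Finite.image _ ha).subset this

/-- The word distance of the set `S`: the least `n` such that `x⁻¹ y` is a product of `n`
elements of `S ∪ S⁻¹ ∪ {1}`, that is, a product of at most `n` elements of `S ∪ S⁻¹`. -/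
noncomputable def wordDist {G : Type u} [Group G] (S : Set G) (x y : G) : ℕ :=
  sInf {n : ℕ | x⁻¹ * y ∈ (insert 1 (S ∪ S⁻¹) : Set G) ^ n}

/-- Two groups are quasi-isometric if for some finite generating sets there is a quasi-isometry
between them for the corresponding word metrics. -/
def QuasiIsometric (G₁ : Type u) (G₂ : Type v) [Group G₁] [Group G₂] : Prop :=
  ∃ (S : Set G₁) (T : Set G₂), S.Finite ∧ Subgroup.closure S = ⊤ ∧
    T.Finite ∧ Subgroup.closure T = ⊤ ∧
    ∃ (f : G₁ → G₂) (L C : ℝ), 1 ≤ L ∧ 0 ≤ C ∧
      (∀ x y, L⁻¹ * (wordDist S x y : ℝ) - C ≤ (wordDist T (f x) (f y) : ℝ) ∧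
        (wordDist T (f x) (f y) : ℝ) ≤ L * (wordDist S x y : ℝ) + C) ∧
      ∀ z, ∃ x, (wordDist T (f x) z : ℝ) ≤ C

/-- A subset `A` of a group is almost invariant if every right translate `A g` differs from `A`
by a finite set only. -/
def AlmostInvariant {G : Type u} [Group G] (A : Set G) : Prop :=
  ∀ g : G, (symmDiff A ((fun x => x * g) '' A)).Finite

/-- The group `G` has at least `n` ends: it has `n` pairwise disjoint infinite almost invariant
subsets.  (For finitely generated `G` this is the classical description, due to Freudenthal,
Hopf and Specker, of the number of ends of the Cayley graphs of `G`.) -/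
def HasEnds (n : ℕ) (G : Type u) [Group G] : Prop :=
  ∃ A : Fin n → Set G, (∀ i, (A i).Infinite) ∧ (∀ i, AlmostInvariant (A i)) ∧
    Pairwise fun i j => Disjoint (A i) (A j)

/-- `G` is one-ended: it has at least one end but not at least two ends. -/
def OneEnded (G : Type u) [Group G] : Prop := HasEnds 1 G ∧ ¬ HasEnds 2 G

/-- The set `X` is thin with control function `D` for the word metric of `S`: for every `R`, any
two points of `X` that are joined by a chain of points of `X` with steps of length at most `R`
are at distance at most `D R`.  (So the `X` admitting a control function are the subsets that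
are uniformly of asymptotic dimension zero.) -/
def Thin {G : Type u} [Group G] (S : Set G) (D : ℕ → ℕ) (X : Set G) : Prop :=
  ∀ (R : ℕ) (x y : G), x ∈ X → Relation.ReflTransGen
    (fun a b => b ∈ X ∧ wordDist S a b ≤ R) x y → wordDist S x y ≤ D R

/-- The group `G` is not coarsely separable by thin subsets: for the word metric of some finite
generating set `S` and for every control function `D` there is a constant `D₀` such that for
every subset `X` that is thin with control function `D`, any two points at distance more than
`D₀` from `X` are joined by a path in the Cayley graph that avoids `X`. -/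
def NotThinlySeparable (G : Type u) [Group G] : Prop :=
  ∃ S : Set G, S.Finite ∧ Subgroup.closure S = ⊤ ∧ ∀ D : ℕ → ℕ, ∃ D₀ : ℕ, ∀ X : Set G,
    Thin S D X → ∀ p q : G, (∀ x ∈ X, D₀ < wordDist S p x) → (∀ x ∈ X, D₀ < wordDist S q x) →
      Relation.ReflTransGen (fun a b => b ∉ X ∧ wordDist S a b ≤ 1) p q

/-- The group `H` contains a rigid subgroup: an infinite (finitely generated) subgroup that is
not coarsely separable by thin subsets, or a finitely presented one-ended subgroup, or two
infinite finitely generated subgroups that commute elementwise and have finite intersection. -/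
def HasRigidSubgroup (H : Type u) [Group H] : Prop :=
  (∃ P : Subgroup H, Infinite P ∧ NotThinlySeparable P) ∨
  (∃ P : Subgroup H, Group.IsFinitelyPresented P ∧ OneEnded P) ∨
  ∃ A B : Subgroup H, A.FG ∧ B.FG ∧ Infinite A ∧ Infinite B ∧
    (∀ a ∈ A, ∀ b ∈ B, a * b = b * a) ∧ ((A : Set H) ∩ (B : Set H)).Finite

end Pool.Agent.EndsLamp
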