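import Pool.Agent.EndsLamp.LemmaW

/-! # The case of a subgroup of the one-ended base group -/

set_option autoImplicit false
set_option linter.unusedSectionVars false
set_option linter.unnecessarySimpa false
set_option linter.unusedSimpArgs false
set_option linter.deprecated false

open scoped Pointwise Classical

namespace Pool.Agent.EndsLamp

lemma depth {H : Type*} [Group H] {m : WM H} {A : Set H} (hA : AlmostInvariant A) (n : ℕ) :
    ∃ R : ℕ, ∀ x y, R < m.d 1 x → m.d x y ≤ n → (x ∈ A ↔ y ∈ A) := by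
  obtain ⟨R, hR⟩ := m.bdd (ai_bd (m := m) hA n) 1
  refine ⟨R, fun x y hx hxy => ?_⟩
  by_contra hcon
  have hmem : x ∈ {x | (∃ y ∈ A, m.d x y ≤ n) ∧ ∃ y, y ∉ A ∧ m.d x y ≤ n} := by
    by_cases h : x ∈ A
    · have hy : y ∉ A := fun hy => hcon ⟨fun _ => hy, fun _ => h⟩
      exact ⟨⟨x, h, by simp⟩, y, hy, hxy⟩
    · have hy : y ∈ A := by
        by_contra hy
        exact hcon ⟨fun h' => absurd h' h, fun h' => absurd h' hy⟩
      exact ⟨⟨y, hy, hxy⟩, x, h, by simp⟩
  have := hR x hmem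
  omega

section

variable {F₁ F₂ H₁ H₂ : Type*} [Group F₁] [Group F₂] [Group H₁] [Group H₂]
variable [Finite F₁] [Finite F₂]
variable {m₁ : WM H₁} {m₂ : WM H₂} {ρ : ℕ} {f : Lm F₁ H₁ → Lm F₂ H₂} {φ : Lm F₂ H₂ → Lm F₁ H₁}

/-- The far points of the image of a leaf are all on one side. -/
lemma sides (hf : LP (lw F₁ m₁) (lw F₂ m₂) ρ f φ) (P : Subgroup H₁) (mP : WM P) (hNS : NSW mP)
    {A : Set H₂} (hA : AlmostInvariant A) :
    ∃ m₀ : ℕ, ∀ (c : Cfg F₁ H₁) (g : H₁),
      (∀ p : P, m₀ < m₂.d 1 (ps (f (mk c (g * p)))) → ps (f (mk c (g * p))) ∈ A) ∨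
      (∀ p : P, m₀ < m₂.d 1 (ps (f (mk c (g * p)))) → ps (f (mk c (g * p))) ∉ A) := by
  obtain ⟨l, hl⟩ := sub_lip m₁ P mP
  obtain ⟨r, hr⟩ := depth (m := m₂) hA (ρ * l)
  obtain ⟨D, hD⟩ := control hf P mP r
  obtain ⟨D₀, hD₀⟩ := hNS D
  have step : ∀ (c : Cfg F₁ H₁) (g : H₁) (a b : P),
      m₂.d (ps (f (mk c (g * a)))) (ps (f (mk c (g * b)))) ≤ ρ * (l * mP.d a b) := by
    intro c g a b
    have e1 := lw_ps m₂ (f (mk c (g * a))) (f (mk c (g * b)))
    have e2 := hf.fl (mk c (g * a)) (mk c (g * b))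
    have e3 := lw_leaf (F := F₁) m₁ c (g * a) (g * b)
    rw [m₁.d_mul] at e3
    exact (e1.trans e2).trans (Nat.mul_le_mul_left _ (e3.trans (hl a b)))
  refine ⟨r + ρ * (l * D₀), fun c g => ?_⟩
  have far : ∀ (p : P), r + ρ * (l * D₀) < m₂.d 1 (ps (f (mk c (g * p)))) →
      ∀ x ∈ {p : P | m₂.d 1 (ps (f (mk c (g * p)))) ≤ r}, D₀ < mP.d p x := by
    intro p hp x hx
    by_contra hcon
    push Not at hcon
    have e1 := step c g x p
    rw [mP.d_comm] at e1
    have e2 : ρ * (l * mP.d p x) ≤ ρ * (l * D₀) :=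
      Nat.mul_le_mul_left _ (Nat.mul_le_mul_left _ hcon)
    have e4 := m₂.tri 1 (ps (f (mk c (g * x)))) (ps (f (mk c (g * p))))
    have e5 : m₂.d 1 (ps (f (mk c (g * x)))) ≤ r := hx
    omega
  by_contra hcon
  push Not at hcon
  obtain ⟨⟨p, hp, hpA⟩, p', hp', hpA'⟩ := hcon
  apply hpA
  have hc := hD₀ _ (hD c g 1) p' p (far p' hp') (far p hp)
  refine hc.prop (fun x : P => ps (f (mk c (g * x))) ∈ A) (fun a b ha hb hab hPa => ?_) hpA'
  have e1 : r < m₂.d 1 (ps (f (mk c (g * a)))) := by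
    have : ¬ (m₂.d 1 (ps (f (mk c (g * a)))) ≤ r) := ha
    omega
  have e2 := step c g a b
  have e3 : ρ * (l * mP.d a b) ≤ ρ * l := Nat.mul_le_mul_left _ (by nlinarith)
  exact (hr _ _ e1 (e2.trans e3)).mp hPa

/-- Toggling one lamp does not change the side. -/
lemma side_toggle (hf : LP (lw F₁ m₁) (lw F₂ m₂) ρ f φ) (P : Subgroup H₁) [Infinite P]
    {D₂ : ℕ} (hL : LeafP m₂ f P D₂) [Nontrivial F₁]
    {A : Set H₂} (hA : AlmostInvariant A) (m₀ : ℕ) (hside : ∀ (c : Cfg F₁ H₁) (g : H₁),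
      (∀ p : P, m₀ < m₂.d 1 (ps (f (mk c (g * p)))) → ps (f (mk c (g * p))) ∈ A) ∨
      (∀ p : P, m₀ < m₂.d 1 (ps (f (mk c (g * p)))) → ps (f (mk c (g * p))) ∉ A))
    (c : Cfg F₁ H₁) (z : H₁) (a : F₁) (g : H₁)
    (h1 : ∀ p : P, m₀ < m₂.d 1 (ps (f (mk c (g * p)))) → ps (f (mk c (g * p))) ∈ A)
    (h2 : ∀ p : P, m₀ < m₂.d 1 (ps (f (mk (upd c z a) (g * p)))) →
      ps (f (mk (upd c z a) (g * p))) ∉ A) : False := by
  choose T hT using fun c => hL c g
  have hg1 : g * ((1 : P) : H₁) = g := by simp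
  -- Claim A
  have hcA : ∀ (c : Cfg F₁ H₁) (p : P) (b : F₁) (q : H₂),
      T (upd c (g * p) b) q ≠ T c q → m₂.d q (ps (f (mk c (g * p)))) ≤ D₂ + ρ := by
    intro c p b q hne
    by_contra hcon
    push Not at hcon
    have e1 := hf.fl (mk c (g * p)) (mk (upd c (g * p) b) (g * p))
    have e2 := lw_upd m₁ c (g * p) b
    have e3 : ρ * (lw F₁ m₁).d (mk c (g * p)) (mk (upd c (g * p) b) (g * p)) ≤ ρ := by nlinarith
    have e4 := lw_ps m₂ (f (mk c (g * p))) (f (mk (upd c (g * p) b) (g * p)))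
    have e5 := m₂.tri q (ps (f (mk (upd c (g * p) b) (g * p)))) (ps (f (mk c (g * p))))
    rw [m₂.d_comm (ps (f (mk (upd c (g * p) b) (g * p))))] at e5
    have e6 := hT c p q (by omega)
    have e7 := hT (upd c (g * p) b) p q (by omega)
    rw [← e6, ← e7] at hne
    have e8 := lw_lamp m₂ _ _ (Ne.symm hne)
    rw [m₂.d_comm] at e8
    omega
  set c' := upd c z a with hc'
  set k := ρ * (2 * m₁.d g z + 1) with hk
  set nn := D₂ + ρ + k with hnn
  obtain ⟨R, hR⟩ := depth (m := m₂) hA nn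
  obtain ⟨b, hb⟩ := exists_ne (1 : F₁)
  set N := R + m₀ + nn with hN
  -- good points
  set Good : Set P := {p | N < m₂.d 1 (ps (f (mk c (g * p)))) ∧
    N < m₂.d 1 (ps (f (mk c' (g * p)))) ∧ g * (p : H₁) ≠ z ∧ c (g * p) = 1} with hGood
  have hcofin : (Goodᶜ).Finite := by
    have f1 := hL.fin hf c g 1 N
    have f2 := hL.fin hf c' g 1 N
    have hinj : Function.Injective (fun p : P => g * (p : H₁)) := fun p p' h => by
      simpa using h
    have f3 : {p : P | g * (p : H₁) ∈ ({z} ∪ Function.mulSupport c.1 : Set H₁)}.Finite :=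
      Set.Finite.preimage (Set.injOn_of_injective hinj) ((Set.finite_singleton z).union c.2)
    apply ((f1.union f2).union f3).subset
    intro p hp
    by_contra hcon
    simp only [Set.mem_union, Set.mem_setOf_eq, not_or, not_le, Set.mem_singleton_iff,
      Function.mem_mulSupport, not_not] at hcon
    exact hp ⟨hcon.1.1, hcon.1.2, hcon.2.1, hcon.2.2⟩
  have hinf : Good.Infinite := by
    have : (Set.univ : Set P).Infinite := Set.infinite_univ
    intro hfin
    apply this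
    rw [← Set.union_compl_self Good]
    exact hfin.union hcofin
  -- properties of the good points
  have main : ∀ p ∈ Good, m₂.d 1 (ps (f (mk (upd c (g * p) b) g))) ≤ N ∧
      (∀ q, q ∉ A → N + nn < m₂.d 1 q → cf (f (mk (upd c (g * p) b) g)) q = T c q) ∧
      (∀ q, q ∈ A → N + nn < m₂.d 1 q → cf (f (mk (upd c (g * p) b) g)) q = T c' q) := by
    rintro p ⟨hp1, hp2, hp3, hp4⟩
    set cp := upd c (g * p) b with hcp
    set cp' := upd c' (g * p) b with hcp'
    have hcomm : cp' = upd cp z a := by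
      rw [hcp', hcp, hc']
      apply Cfg.ext
      intro w
      by_cases hw : w = z
      · rw [hw, upd_self, upd_ne _ _ hp3.symm, upd_self]
      · rw [upd_ne cp _ hw]
        by_cases hw' : w = g * p
        · rw [hw', upd_self, upd_self]
        · rw [upd_ne _ _ hw', upd_ne _ _ hw', upd_ne _ _ hw]
    have hpA := h1 p (by omega)
    have hpA' := h2 p (by omega)
    -- distances
    have d1 : m₂.d (ps (f (mk c (g * p)))) (ps (f (mk cp (g * p)))) ≤ ρ := by
      have e1 := hf.fl (mk c (g * p)) (mk cp (g * p))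
      have e2 := lw_upd m₁ c (g * p) b
      have e3 : ρ * (lw F₁ m₁).d (mk c (g * p)) (mk cp (g * p)) ≤ ρ := by nlinarith
      have e4 := lw_ps m₂ (f (mk c (g * p))) (f (mk cp (g * p)))
      omega
    have d2 : m₂.d (ps (f (mk c' (g * p)))) (ps (f (mk cp' (g * p)))) ≤ ρ := by
      have e1 := hf.fl (mk c' (g * p)) (mk cp' (g * p))
      have e2 := lw_upd m₁ c' (g * p) b
      have e3 : ρ * (lw F₁ m₁).d (mk c' (g * p)) (mk cp' (g * p)) ≤ ρ := by nlinarith
      have e4 := lw_ps m₂ (f (mk c' (g * p))) (f (mk cp' (g * p)))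
      omega
    have d3 : (lw F₂ m₂).d (f (mk cp g)) (f (mk cp' g)) ≤ k := by
      have e1 := hf.fl (mk cp g) (mk cp' g)
      have e2 := lw_upd_far m₁ cp g z a
      rw [← hcomm] at e2
      exact e1.trans (Nat.mul_le_mul_left _ e2)
    have d3' := lw_ps m₂ (f (mk cp g)) (f (mk cp' g))
    -- sides of the new leaves
    have s1 : ∀ p : P, m₀ < m₂.d 1 (ps (f (mk cp (g * p)))) → ps (f (mk cp (g * p))) ∈ A := by
      rcases hside cp g with h | h
      · exact h
      · exfalso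
        have e1 := m₂.tri 1 (ps (f (mk cp (g * p)))) (ps (f (mk c (g * p))))
        rw [m₂.d_comm (ps (f (mk cp (g * p))))] at e1
        exact h p (by omega) ((hR _ _ (by omega) (by omega)).mp hpA)
    have s2 : ∀ p : P, m₀ < m₂.d 1 (ps (f (mk cp' (g * p)))) → ps (f (mk cp' (g * p))) ∉ A := by
      rcases hside cp' g with h | h
      · exfalso
        have e1 := m₂.tri 1 (ps (f (mk cp' (g * p)))) (ps (f (mk c' (g * p))))
        rw [m₂.d_comm (ps (f (mk cp' (g * p))))] at e1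
        exact hpA' ((hR _ _ (by omega) (by omega)).mpr (h p (by omega)))
      · exact h
    -- colours of the new leaves
    have t1 : ∀ q, q ∉ A → T cp q = T c q := by
      intro q hq
      by_contra hne
      have e1 := hcA c p b q hne
      rw [m₂.d_comm] at e1
      exact hq ((hR _ _ (by omega) (by omega)).mp hpA)
    have t2 : ∀ q, q ∈ A → T cp' q = T c' q := by
      intro q hq
      by_contra hne
      have e1 := hcA c' p b q hne
      rw [m₂.d_comm] at e1
      exact hpA' ((hR _ _ (by omega) (by omega)).mpr hq)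
    have b1 : m₂.d 1 (ps (f (mk cp g))) ≤ N := by
      by_contra hcon
      push Not at hcon
      have e0 := s1 1
      have e0' := s2 1
      rw [hg1] at e0 e0'
      have e1 := e0 (by omega)
      have e2 := (hR _ _ (by omega) (show m₂.d _ (ps (f (mk cp' g))) ≤ nn by omega)).mp e1
      have e3 := m₂.tri 1 (ps (f (mk cp' g))) (ps (f (mk cp g)))
      rw [m₂.d_comm (ps (f (mk cp' g)))] at e3
      exact e0' (by omega) e2
    refine ⟨b1, fun q hq hqd => ?_, fun q hq hqd => ?_⟩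
    · rw [← t1 q hq]
      have e1 := hT cp 1 q
      rw [hg1] at e1
      apply e1
      have e2 := m₂.tri 1 (ps (f (mk cp g))) q
      rw [m₂.d_comm (ps (f (mk cp g))) q] at e2
      omega
    · rw [← t2 q hq]
      have e1 := hT cp' 1 q
      rw [hg1] at e1
      have e2 := m₂.tri 1 (ps (f (mk cp g))) q
      have e3 := m₂.tri (ps (f (mk cp g))) (ps (f (mk cp' g))) q
      rw [m₂.d_comm (ps (f (mk cp' g))) q] at e3
      rw [← e1 (by omega)]
      by_contra hne
      have e4 := lw_lamp m₂ _ _ hne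
      omega
  obtain ⟨M, hM⟩ := lw_bdd2 (F := F₂) m₂ (N + (N + nn)) (2 * N)
  obtain ⟨p₀, hp₀⟩ := hinf.nonempty
  apply hinf
  have hfin : {p : P | m₁.d 1 (p : H₁) ≤ ρ * M + 2 * ρ}.Finite :=
    Set.Finite.preimage (Set.injOn_of_injective Subtype.val_injective) (m₁.ball_fin _ _)
  apply (hfin.union (Set.finite_singleton p₀)).subset
  intro p hp
  by_cases hpp : p = p₀
  · right; exact hpp
  left
  obtain ⟨x1, x2, x3⟩ := main p hp
  obtain ⟨y1, y2, y3⟩ := main p₀ hp₀
  have e1 := hM (f (mk (upd c (g * p) b) g)) (f (mk (upd c (g * p₀) b) g)) (by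
    intro q hq
    have e2 := m₂.tri (ps (f (mk (upd c (g * p) b) g))) 1 q
    rw [m₂.d_comm _ 1] at e2
    by_contra hcon
    push Not at hcon
    apply hq
    by_cases hqA : q ∈ A
    · rw [x3 q hqA (by omega), y3 q hqA (by omega)]
    · rw [x2 q hqA (by omega), y2 q hqA (by omega)]) (by
    have e2 := m₂.tri (ps (f (mk (upd c (g * p) b) g))) 1 (ps (f (mk (upd c (g * p₀) b) g)))
    rw [m₂.d_comm _ 1] at e2
    omega)
  have e2 := hf.low (mk (upd c (g * p) b) g) (mk (upd c (g * p₀) b) g)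
  have e3 := lw_lamp m₁ (mk (upd c (g * p) b) g) (mk (upd c (g * p₀) b) g) (z := g * p) (by
    rw [cf_mk, cf_mk, upd_self, upd_ne]
    · rw [hp.2.2.2]; exact hb
    · intro h
      apply hpp
      simpa using h)
  have e4 : ρ * (lw F₂ m₂).d (f (mk (upd c (g * p) b) g)) (f (mk (upd c (g * p₀) b) g)) ≤ ρ * M :=
    Nat.mul_le_mul_left _ e1
  have e5 := m₁.d_mul g 1 (p : H₁)
  rw [mul_one] at e5
  rw [ps_mk, e5] at e3
  simp only [Set.mem_setOf_eq]
  omega

/-- The subgroup is in the one-ended base. -/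
theorem T1 [Nontrivial F₁] [Nontrivial F₂] (h1 : OneEnded H₁) (h2 : HasEnds 3 H₂)
    (hf : LP (lw F₁ m₁) (lw F₂ m₂) ρ f φ) (P : Subgroup H₁) [Infinite P] (mP : WM P)
    (hNS : NSW mP) : False := by
  obtain ⟨As, hAi, hAI, hAd⟩ := id h2
  set A := As 0 with hA
  have hAinf : A.Infinite := hAi 0
  have hAcinf : (Aᶜ).Infinite := (hAi 1).mono fun x hx hx' =>
    Set.disjoint_left.mp (hAd (i := 1) (j := 0) (by decide)) hx hx'
  obtain ⟨m₀, hside⟩ := sides hf P mP hNS (hAI 0)
  obtain ⟨D₂, hL⟩ := leaf hf P mP hNS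
  have hexcl : ∀ (c : Cfg F₁ H₁) (g : H₁),
      (∀ p : P, m₀ < m₂.d 1 (ps (f (mk c (g * p)))) → ps (f (mk c (g * p))) ∈ A) →
      (∀ p : P, m₀ < m₂.d 1 (ps (f (mk c (g * p)))) → ps (f (mk c (g * p))) ∉ A) → False := by
    intro c g h h'
    obtain ⟨p, hp⟩ := hL.far hf c g 1 m₀
    exact h' p hp (h p hp)
  have hback : ∀ (c : Cfg F₁ H₁) (z : H₁) (a : F₁), upd (upd c z a) z (c z) = c := by
    intro c z a
    apply Cfg.ext
    intro w
    by_cases hw : w = z
    · rw [hw, upd_self]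
    · rw [upd_ne _ _ hw, upd_ne _ _ hw]
  -- the side does not depend on the configuration
  have hindep : ∀ (c : Cfg F₁ H₁) (g : H₁),
      (∀ p : P, m₀ < m₂.d 1 (ps (f (mk c1 (g * p)))) → ps (f (mk c1 (g * p))) ∈ A) →
      (∀ p : P, m₀ < m₂.d 1 (ps (f (mk c (g * p)))) → ps (f (mk c (g * p))) ∈ A) := by
    intro c g h
    refine cfg_induct c1 c (fun c => ∀ p : P, m₀ < m₂.d 1 (ps (f (mk c (g * p)))) →
      ps (f (mk c (g * p))) ∈ A) h ?_
    intro c' z _ _ _ hc'
    rcases hside (upd c' z (c z)) g with h' | h'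
    · exact h'
    · exact (side_toggle hf P hL (hAI 0) m₀ hside c' z (c z) g hc' h').elim
  have hindep' : ∀ (c : Cfg F₁ H₁) (g : H₁),
      (∀ p : P, m₀ < m₂.d 1 (ps (f (mk c1 (g * p)))) → ps (f (mk c1 (g * p))) ∉ A) →
      (∀ p : P, m₀ < m₂.d 1 (ps (f (mk c (g * p)))) → ps (f (mk c (g * p))) ∉ A) := by
    intro c g h
    refine cfg_induct c1 c (fun c => ∀ p : P, m₀ < m₂.d 1 (ps (f (mk c (g * p)))) →
      ps (f (mk c (g * p))) ∉ A) h ?_
    intro c' z _ _ _ hc'
    rcases hside (upd c' z (c z)) g with h' | h'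
    · exact (side_toggle hf P hL (hAI 0) m₀ hside (upd c' z (c z)) z (c' z) g h'
        (by rw [hback]; exact hc')).elim
    · exact h'
  have one : ∀ (c : Cfg F₁ H₁) (g : H₁), mk c (g * ((1 : P) : H₁)) = mk c g := by
    intro c g; simp
  by_cases hall : ∀ g : H₁,
      (∀ p : P, m₀ < m₂.d 1 (ps (f (mk c1 (g * p)))) → ps (f (mk c1 (g * p))) ∈ A)
  · -- everything on the side of `A`
    obtain ⟨R, hR⟩ := depth (m := m₂) (hAI 0) ρ
    apply hAcinf
    apply m₂.fin_of_bdd 1 (R + m₀ + ρ)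
    intro y hy
    by_contra hcon
    push Not at hcon
    set v := φ (mk c1 y) with hv
    have e1 := hf.fg (mk c1 y)
    rw [← hv] at e1
    have e2 := lw_ps m₂ (f v) (mk c1 y)
    rw [ps_mk] at e2
    have e3 := hindep (cf v) (ps v) (hall (ps v)) 1
    rw [one, mk_cf_ps] at e3
    have e4 := m₂.tri 1 (ps (f v)) y
    have e5 := e3 (by omega)
    exact hy ((hR _ _ (by omega) (by omega)).mp e5)
  · by_cases hall' : ∀ g : H₁,
      (∀ p : P, m₀ < m₂.d 1 (ps (f (mk c1 (g * p)))) → ps (f (mk c1 (g * p))) ∉ A)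
    · obtain ⟨R, hR⟩ := depth (m := m₂) (hAI 0) ρ
      apply hAinf
      apply m₂.fin_of_bdd 1 (R + m₀ + ρ)
      intro y hy
      by_contra hcon
      push Not at hcon
      set v := φ (mk c1 y) with hv
      have e1 := hf.fg (mk c1 y)
      rw [← hv] at e1
      have e2 := lw_ps m₂ (f v) (mk c1 y)
      rw [ps_mk] at e2
      have e3 := hindep' (cf v) (ps v) (hall' (ps v)) 1
      rw [one, mk_cf_ps] at e3
      have e4 := m₂.tri 1 (ps (f v)) y
      have e5 := e3 (by omega)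
      exact e5 ((hR _ _ (by omega) (by omega)).mpr hy)
    · -- two fibres on different sides
      obtain ⟨g', hg'⟩ := not_forall.mp hall
      obtain ⟨g, hg⟩ := not_forall.mp hall'
      have hgA := (hside c1 g).resolve_right hg
      have hgA' := (hside c1 g').resolve_left hg'
      obtain ⟨R, hR⟩ := depth (m := m₂) (hAI 0) (ρ * m₁.d g g')
      apply noBdd h1 h2 hf g
      apply m₂.fin_of_bdd 1 (R + m₀ + ρ * m₁.d g g')
      rintro _ ⟨c, rfl⟩
      by_contra hcon
      push Not at hcon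
      have e1 := hindep c g hgA 1
      have e2 := hindep' c g' hgA' 1
      rw [one] at e1 e2
      have e3 := hf.fl (mk c g) (mk c g')
      have e4 := lw_leaf (F := F₁) m₁ c g g'
      have e5 := lw_ps m₂ (f (mk c g)) (f (mk c g'))
      have e6 : ρ * (lw F₁ m₁).d (mk c g) (mk c g') ≤ ρ * m₁.d g g' := Nat.mul_le_mul_left _ e4
      have e7 := m₂.tri 1 (ps (f (mk c g'))) (ps (f (mk c g)))
      rw [m₂.d_comm (ps (f (mk c g')))] at e7
      exact e2 (by omega) ((hR _ _ (by omega) (by omega)).mp (e1 (by omega)))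

end

end Pool.Agent.EndsLamp
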