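import Pool.Agent.EndsLamp.Window

/-! # Virtually free groups have slow boundaries -/

set_option autoImplicit false
set_option linter.unusedSectionVars false
set_option linter.unnecessarySimpa false
set_option linter.unusedSimpArgs false
set_option linter.unusedVariables false
set_option linter.deprecated false

open scoped Classical

namespace Pool.Agent.EndsLamp

section

variable {X : Type*}

/-- reduced word of the inverse -/
noncomputable def sg (a : FreeGroup X) : List (X × Bool) := (a⁻¹).toWord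

/-- `w` lies on the geodesic from `1` to `a` -/
def Pre (w a : FreeGroup X) : Prop := sg w <:+ sg a

lemma sg_inj {a b : FreeGroup X} (h : sg a = sg b) : a = b := by
  unfold sg at h
  exact inv_injective (FreeGroup.toWord_injective h)

lemma pre_step {w a : FreeGroup X} {x : X × Bool} (h : Pre w a)
    (h' : ¬ Pre w (a * FreeGroup.mk [x])) : a = w := by
  by_contra hne
  apply h'
  unfold Pre sg at *
  have e1 : (a * FreeGroup.mk [x])⁻¹ = FreeGroup.mk ((x.1, !x.2) :: (a⁻¹).toWord) := by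
    rw [mul_inv_rev, FreeGroup.inv_mk]
    conv_lhs => rw [← FreeGroup.mk_toWord (x := a⁻¹)]
    rw [FreeGroup.mul_mk]
    simp [FreeGroup.invRev]
  rw [e1, FreeGroup.toWord_mk, FreeGroup.reduce.cons, FreeGroup.reduce_toWord]
  rcases hL : (a⁻¹).toWord with _ | ⟨hd, tl⟩
  · rw [hL] at h
    simp only [List.suffix_nil] at h
    rw [h]
    exact List.nil_suffix
  · rw [hL] at h
    simp only
    have h3 : w⁻¹.toWord ≠ hd :: tl := by
      intro h4
      apply hne
      rw [← hL] at h4
      exact (inv_injective (FreeGroup.toWord_injective h4)).symm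
    split_ifs with hc
    · rcases List.suffix_cons_iff.mp h with h1 | h1
      · exact absurd h1 h3
      · exact h1
    · exact h.trans (List.suffix_cons _ _)

lemma cut_aux (w : FreeGroup X) : ∀ (l : List (X × Bool)) (a : FreeGroup X), Pre w a →
    ¬ Pre w (a * FreeGroup.mk l) → (w⁻¹ * a).norm ≤ l.length := by
  intro l
  induction l with
  | nil =>
    intro a h h'
    exfalso
    apply h'
    have : FreeGroup.mk ([] : List (X × Bool)) = 1 := rfl
    rw [this, mul_one]; exact h
  | cons x l ih =>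
    intro a h h'
    have e : a * FreeGroup.mk (x :: l) = a * FreeGroup.mk [x] * FreeGroup.mk l := by
      rw [mul_assoc, FreeGroup.mul_mk]; rfl
    by_cases h2 : Pre w (a * FreeGroup.mk [x])
    · rw [e] at h'
      have h3 := ih _ h2 h'
      have h4 : w⁻¹ * a = (w⁻¹ * (a * FreeGroup.mk [x])) * (FreeGroup.mk [x])⁻¹ := by group
      have h5 := FreeGroup.norm_mul_le (w⁻¹ * (a * FreeGroup.mk [x])) (FreeGroup.mk [x])⁻¹
      rw [← h4, FreeGroup.norm_inv_eq] at h5
      have h6 := FreeGroup.norm_mk_le (L₁ := [x])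
      simp only [List.length_cons, List.length_nil] at *
      omega
    · rw [pre_step h h2]
      simp

lemma cut {w a b : FreeGroup X} (h : Pre w a) (h' : ¬ Pre w b) :
    (w⁻¹ * a).norm ≤ (a⁻¹ * b).norm := by
  have := cut_aux w (a⁻¹ * b).toWord a h (by
    rw [FreeGroup.mk_toWord, mul_inv_cancel_left]; exact h')
  exact this

lemma pre_one_left (a : FreeGroup X) : Pre 1 a := by
  unfold Pre sg
  simp

lemma pre_one_right {w : FreeGroup X} (h : Pre w 1) : w = 1 := by
  unfold Pre at h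
  have : sg (1 : FreeGroup X) = [] := by simp [sg]
  rw [this, List.suffix_nil] at h
  apply sg_inj
  rw [this, h]

/-- longest common suffix -/
lemma common_suffix {β : Type*} (l l' : List β) : ∃ l₀ : List β, l₀ <:+ l ∧ l₀ <:+ l' ∧
    (l₀ = l ∨ ∃ h, (h :: l₀) <:+ l ∧ ¬ (h :: l₀) <:+ l') ∧
    (l₀ = l' ∨ ∃ h, (h :: l₀) <:+ l' ∧ ¬ (h :: l₀) <:+ l) := by
  have hex : ∃ n, ∃ l₀ : List β, l₀ <:+ l ∧ l₀ <:+ l' ∧ l.length - l₀.length = n :=
    ⟨_, [], List.nil_suffix, List.nil_suffix, rfl⟩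
  obtain ⟨l₀, h1, h2, h3⟩ := Nat.find_spec hex
  have hmax : ∀ l₁ : List β, l₁ <:+ l → l₁ <:+ l' → l₁.length ≤ l₀.length := by
    intro l₁ h4 h5
    have h6 := Nat.find_min' hex ⟨l₁, h4, h5, rfl⟩
    have h7 := h4.length_le
    have h8 := h1.length_le
    omega
  have hone : ∀ m : List β, l₀ <:+ m → l₀ = m ∨ ∃ h, (h :: l₀) <:+ m := by
    rintro m ⟨t, ht⟩
    rcases List.eq_nil_or_concat t with rfl | ⟨t', h, rfl⟩
    · left; simpa using ht
    · right
      refine ⟨h, t', ?_⟩
      rw [← ht]; simp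
  refine ⟨l₀, h1, h2, ?_, ?_⟩
  · rcases hone l h1 with h | ⟨h, hh⟩
    · left; exact h
    · right
      refine ⟨h, hh, fun h' => ?_⟩
      have := hmax _ hh h'
      simp at this
  · rcases hone l' h2 with h | ⟨h, hh⟩
    · left; exact h
    · right
      refine ⟨h, hh, fun h' => ?_⟩
      have := hmax _ h' hh
      simp at this

lemma suffix_reduced {l : List (X × Bool)} {a : FreeGroup X} (h : l <:+ sg a) :
    sg (FreeGroup.mk l)⁻¹ = l := by
  unfold sg at *
  rw [inv_inv, FreeGroup.toWord_mk]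
  have h1 : FreeGroup.IsReduced (a⁻¹).toWord := FreeGroup.isReduced_toWord
  have h2 : FreeGroup.IsReduced l := by
    unfold FreeGroup.IsReduced at *
    exact List.IsChain.suffix h1 h
  exact h2.reduce_eq

end

/-- A group with a finite index subgroup that is free of finite rank. -/
def VirtuallyFree (H : Type*) [Group H] : Prop :=
  ∃ (n : ℕ) (P : Subgroup H), P.FiniteIndex ∧ Nonempty (P ≃* FreeGroup (Fin n))

section

variable {H : Type*} [Group H]

lemma exists_proj (m : WM H) {X : Type*} [Finite X] (P : Subgroup H) [P.FiniteIndex]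
    (e : P ≃* FreeGroup X) :
    ∃ (ι : FreeGroup X →* H) (π : H → FreeGroup X) (τ L M : ℕ), π 1 = 1 ∧
      (∀ g, m.d (ι (π g)) g ≤ τ) ∧
      (∀ g g', m.d g g' ≤ 1 → ((π g)⁻¹ * π g').norm ≤ L) ∧
      (∀ u, m.len (ι u) ≤ M * u.norm) := by
  set ι : FreeGroup X →* H := P.subtype.comp e.symm.toMonoidHom with hι
  have hιinj : Function.Injective ι := by
    intro a b hab
    have : P.subtype (e.symm a) = P.subtype (e.symm b) := hab
    exact e.symm.injective (P.subtype_injective this)
  -- representatives of right cosets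
  have hfin : Finite (Quotient (QuotientGroup.rightRel P)) :=
    Finite.of_equiv _ (QuotientGroup.quotientRightRelEquivQuotientLeftRel P).symm
  obtain ⟨rep, hrep, hrep1⟩ : ∃ rep : Quotient (QuotientGroup.rightRel P) → H,
      (∀ g : H, g * (rep (Quotient.mk _ g))⁻¹ ∈ P) ∧
      rep (Quotient.mk _ 1) = 1 := by
    refine ⟨fun q => if q = Quotient.mk _ 1 then 1 else q.out, fun g => ?_, by simp⟩
    simp only
    split_ifs with h
    · have h1 := Quotient.exact h
      have h2 : (QuotientGroup.rightRel P) g 1 := h1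
      rw [QuotientGroup.rightRel_apply] at h2
      simpa using P.inv_mem h2
    · have h1 : (QuotientGroup.rightRel P) (Quotient.mk (QuotientGroup.rightRel P) g).out g :=
        Quotient.mk_out g
      rw [QuotientGroup.rightRel_apply] at h1
      exact h1
  obtain ⟨τ, hτ⟩ := m.bdd (Set.finite_range rep) 1
  set π : H → FreeGroup X := fun g => e ⟨_, hrep g⟩ with hπ
  have hιπ : ∀ g, ι (π g) = g * (rep (Quotient.mk _ g))⁻¹ := by
    intro g
    simp [hι, hπ]
  have hτ' : ∀ g, m.d (ι (π g)) g ≤ τ := by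
    intro g
    rw [hιπ, m.d_comm, m.d_mul_right, m.len_inv]
    have := hτ _ ⟨Quotient.mk _ g, rfl⟩
    simpa [WM.d] using this
  have hLfin : {u | m.len (ι u) ≤ τ + 1 + τ}.Finite :=
    (m.fin (τ + 1 + τ)).preimage hιinj.injOn
  obtain ⟨L, hL⟩ := (hLfin.image FreeGroup.norm).bddAbove
  obtain ⟨M, hM⟩ := (Set.finite_range fun x : X × Bool =>
    m.len (ι (FreeGroup.mk [x]))).bddAbove
  refine ⟨ι, π, τ, L, M, ?_, hτ', ?_, ?_⟩
  · apply hιinj
    rw [hιπ, hrep1]; simp
  · intro g g' hgg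
    apply hL
    refine ⟨_, ?_, rfl⟩
    simp only [Set.mem_setOf_eq]
    have e1 : m.len (ι ((π g)⁻¹ * π g')) = m.d (ι (π g)) (ι (π g')) := by
      simp [WM.d]
    rw [e1]
    have e2 := m.tri (ι (π g)) g (ι (π g'))
    have e3 := m.tri g g' (ι (π g'))
    have e4 := hτ' g
    have e5 := hτ' g'
    rw [m.d_comm] at e5
    omega
  · intro u
    have key : ∀ l : List (X × Bool), m.len (ι (FreeGroup.mk l)) ≤ M * l.length := by
      intro l
      induction l with
      | nil =>
        have : FreeGroup.mk ([] : List (X × Bool)) = 1 := rfl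
        rw [this]; simp [m.len_one]
      | cons x l ih =>
        have e1 : FreeGroup.mk (x :: l) = FreeGroup.mk [x] * FreeGroup.mk l := by
          rw [FreeGroup.mul_mk]; rfl
        rw [e1, map_mul]
        have e2 := m.len_mul (ι (FreeGroup.mk [x])) (ι (FreeGroup.mk l))
        have e3 : m.len (ι (FreeGroup.mk [x])) ≤ M := hM ⟨x, rfl⟩
        rw [List.length_cons, Nat.mul_succ]
        omega
    have := key u.toWord
    rw [FreeGroup.mk_toWord] at this
    exact this

lemma bottleneck_aux (m : WM H) {X : Type*} [Finite X] (P : Subgroup H) [P.FiniteIndex]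
    (e : P ≃* FreeGroup X) : ∃ δ : ℕ, ∀ (s : ℕ) (x y : H),
    m.d 1 x = s + 1 → m.d 1 y = s + 1 → Cn m {z | s < m.d 1 z} x y → m.d x y ≤ δ := by
  obtain ⟨ι, π, τ, L, M, hπ1, hτ, hL, hM⟩ := exists_proj m P e
  set c := M * L + τ with hc
  -- nearness
  have hnear : ∀ (w : FreeGroup X) (z z' : H), Pre w (π z) → ¬ Pre w (π z') → m.d z z' ≤ 1 →
      m.d (ι w) z ≤ c := by
    intro w z z' h1 h2 h3
    have e1 := (cut h1 h2).trans (hL z z' h3)
    have e2 := hM (w⁻¹ * π z)
    have e3 : m.len (ι (w⁻¹ * π z)) = m.d (ι w) (ι (π z)) := by simp [WM.d]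
    have e4 := m.tri (ι w) (ι (π z)) z
    have e5 := hτ z
    have e6 : M * (w⁻¹ * π z).norm ≤ M * L := Nat.mul_le_mul_left _ e1
    omega
  -- points separated by `w`
  have key : ∀ (s : ℕ) (x y : H), m.d 1 x = s + 1 → Cn m {z | s < m.d 1 z} x y →
      ∀ w, Pre w (π x) → ¬ Pre w (π y) → m.d x (ι w) ≤ 3 * c + 1 := by
    intro s x y hx hxy w h1 h2
    -- the path
    obtain ⟨z, hzs, hz⟩ : ∃ z, s < m.d 1 z ∧ m.d (ι w) z ≤ c := by
      by_contra hcon
      push Not at hcon
      apply h2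
      refine hxy.prop (fun z => Pre w (π z)) (fun a b ha hb hab hPa => ?_) h1
      by_contra hPb
      have e1 := hnear w a b hPa hPb hab
      have e2 := hcon a ha
      omega
    -- the geodesic
    have hw1 : ¬ Pre w (π 1) := by
      intro h3
      rw [hπ1] at h3
      apply h2
      rw [pre_one_right h3]
      exact pre_one_left _
    obtain ⟨a, b, ha, hb, hab, h4, -⟩ := m.change (fun z => Pre w (π z)) h1 hw1
    have e1 := hnear w a b ha hb hab
    have e2 := m.tri 1 (ι w) z
    have e3 := m.tri 1 a (ι w)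
    rw [m.d_comm a (ι w)] at e3
    have e4 := m.tri 1 b a
    rw [m.d_comm b a] at e4
    rw [m.d_comm b 1, m.d_comm x 1] at h4
    have e5 := m.tri x a (ι w)
    rw [m.d_comm a (ι w)] at e5
    omega
  refine ⟨2 * (3 * c + 1 + M + τ), ?_⟩
  intro s x y hx hy hxy
  obtain ⟨l₀, hl1, hl2, hl3, hl4⟩ := common_suffix (sg (π x)) (sg (π y))
  set w₀ := (FreeGroup.mk l₀)⁻¹ with hw₀
  have hside : ∀ (x y : H), m.d 1 x = s + 1 → Cn m {z | s < m.d 1 z} x y →
      l₀ <:+ sg (π x) → (l₀ = sg (π x) ∨ ∃ h, (h :: l₀) <:+ sg (π x) ∧ ¬ (h :: l₀) <:+ sg (π y)) →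
      m.d x (ι w₀) ≤ 3 * c + 1 + M + τ := by
    intro x y hx hxy hl hor
    rcases hor with h | ⟨h, h1, h2⟩
    · have : w₀ = π x := by
        apply sg_inj
        rw [hw₀, suffix_reduced hl, h]
      rw [this, m.d_comm]
      have := hτ x
      omega
    · set w₁ := (FreeGroup.mk (h :: l₀))⁻¹ with hw₁
      have e1 : sg w₁ = h :: l₀ := suffix_reduced h1
      have e2 := key s x y hx hxy w₁ (by unfold Pre; rw [e1]; exact h1)
        (by unfold Pre; rw [e1]; exact h2)
      have e3 : m.d (ι w₁) (ι w₀) ≤ M := by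
        have e4 : m.d (ι w₁) (ι w₀) = m.len (ι (w₁⁻¹ * w₀)) := by simp [WM.d]
        have e5 : w₁⁻¹ * w₀ = FreeGroup.mk [h] := by
          rw [hw₁, hw₀, inv_inv]
          have : FreeGroup.mk (h :: l₀) = FreeGroup.mk [h] * FreeGroup.mk l₀ := by
            rw [FreeGroup.mul_mk]; rfl
          rw [this, mul_inv_cancel_right]
        rw [e4, e5]
        refine (hM _).trans ?_
        have := FreeGroup.norm_mk_le (L₁ := [h])
        simp only [List.length_cons, List.length_nil] at this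
        nlinarith
      have e6 := m.tri x (ι w₁) (ι w₀)
      omega
  have e1 := hside x y hx hxy hl1 hl3
  have e2 := hside y x hy hxy.symm hl2 hl4
  have e3 := m.tri x (ι w₀) y
  rw [m.d_comm (ι w₀) y] at e3
  omega

lemma bottleneck (m : WM H) (h : VirtuallyFree H) : ∃ δ : ℕ, ∀ (s : ℕ) (x y : H),
    m.d 1 x = s + 1 → m.d 1 y = s + 1 → Cn m {z | s < m.d 1 z} x y → m.d x y ≤ δ := by
  obtain ⟨n, P, hP, ⟨e⟩⟩ := h
  exact bottleneck_aux m P e

theorem VirtuallyFree.slowB (m : WM H) (h : VirtuallyFree H) : SlowB m := by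
  obtain ⟨δ, hδ⟩ := bottleneck m h
  obtain ⟨Λ, hΛ1, hΛ⟩ := ball_card m
  intro K
  refine ⟨Λ ^ δ * K, fun s hs x => ?_⟩
  have hle : {y | m.d 1 y = s + 1 ∧ Cn m {z | s < m.d 1 z} x y}.ncard ≤ Λ ^ δ := by
    by_cases hne : ({y | m.d 1 y = s + 1 ∧ Cn m {z | s < m.d 1 z} x y}).Nonempty
    · obtain ⟨y₀, hy₀, hy₀c⟩ := hne
      refine (Set.ncard_le_ncard ?_ (m.ball_fin y₀ δ)).trans (hΛ δ y₀)
      rintro y ⟨hy, hyc⟩
      exact hδ s y₀ y hy₀ hy (hy₀c.symm.trans hyc)
    · rw [Set.not_nonempty_iff_eq_empty] at hne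
      rw [hne]; simp
  calc _ ≤ (Λ ^ δ) ^ K := Nat.pow_le_pow_left hle K
    _ ≤ (2 ^ (Λ ^ δ)) ^ K := Nat.pow_le_pow_left Nat.lt_two_pow_self.le K
    _ = 2 ^ (Λ ^ δ * K) := by rw [← pow_mul]
    _ ≤ 2 ^ s := Nat.pow_le_pow_right (by norm_num) hs

end

end Pool.Agent.EndsLamp
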