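import Pool.Agent.EndsLamp.Stmt

/-! # Abstract word metrics -/

set_option autoImplicit false

open scoped Pointwise

namespace Pool.Agent.EndsLamp

/-- A word length function. -/
structure WM (G : Type*) [Group G] where
  len : G → ℕ
  len_one : len 1 = 0
  len_inv : ∀ g, len g⁻¹ = len g
  len_mul : ∀ g h, len (g * h) ≤ len g + len h
  fin : ∀ n, {g | len g ≤ n}.Finite
  split : ∀ g n, len g = n + 1 → ∃ a b, g = a * b ∧ len a = n ∧ len b ≤ 1
  eq_one : ∀ g, len g = 0 → g = 1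

namespace WM

variable {G : Type*} [Group G] (m : WM G)

/-- distance -/
def d (x y : G) : ℕ := m.len (x⁻¹ * y)

@[simp] lemma d_self (x : G) : m.d x x = 0 := by simp [d, m.len_one]

lemma d_comm (x y : G) : m.d x y = m.d y x := by
  unfold d; rw [← m.len_inv]; congr 1; group

lemma tri (x y z : G) : m.d x z ≤ m.d x y + m.d y z := by
  unfold d
  have := m.len_mul (x⁻¹ * y) (y⁻¹ * z)
  have h : x⁻¹ * y * (y⁻¹ * z) = x⁻¹ * z := by group
  rwa [h] at this

@[simp] lemma d_mul (g x y : G) : m.d (g * x) (g * y) = m.d x y := by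
  unfold d; congr 1; group

lemma d_mul_right (x g : G) : m.d x (x * g) = m.len g := by
  unfold d; congr 1; group

lemma eq_of_d {x y : G} (h : m.d x y = 0) : x = y := by
  have := m.eq_one _ h
  exact (inv_mul_eq_one.mp this)

lemma ball_fin (x : G) (n : ℕ) : {y | m.d x y ≤ n}.Finite := by
  have : {y | m.d x y ≤ n} = (fun y => x * y) '' {g | m.len g ≤ n} := by
    ext y; constructor
    · intro h; exact ⟨x⁻¹ * y, h, by simp⟩
    · rintro ⟨g, hg, rfl⟩; simpa [d] using hg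
  rw [this]; exact (m.fin n).image _

lemma prev {x y : G} {n : ℕ} (h : m.d x y = n + 1) : ∃ y', m.d x y' = n ∧ m.d y' y ≤ 1 := by
  obtain ⟨a, b, hab, ha, hb⟩ := m.split _ _ h
  refine ⟨x * a, by simpa [d] using ha, ?_⟩
  unfold d
  have : (x * a)⁻¹ * y = b := by
    have : y = x * (a * b) := by rw [← hab]; group
    rw [this]; group
  rwa [this]

/-- a point at each intermediate distance. -/
lemma mid {x y : G} : ∀ (k n : ℕ), m.d x y = n → k ≤ n → ∃ z, m.d x z = k ∧ m.d z y = n - k := by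
  intro k n
  induction n generalizing y with
  | zero => intro h hk; exact ⟨y, by omega, by simp⟩
  | succ n ih =>
    intro h hk
    rcases Nat.lt_or_ge k (n + 1) with hlt | hge
    · obtain ⟨y', h1, h2⟩ := m.prev h
      obtain ⟨z, hz1, hz2⟩ := ih h1 (by omega)
      refine ⟨z, hz1, ?_⟩
      have t1 := m.tri z y' y
      have t2 := m.tri x z y
      omega
    · have : k = n + 1 := by omega
      subst this
      exact ⟨y, h, by simp⟩

lemma exists_far [Infinite G] (x : G) (n : ℕ) : ∃ y, n < m.d x y := by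
  by_contra h
  push Not at h
  have := m.ball_fin x n
  have h2 : {y | m.d x y ≤ n} = Set.univ := by ext y; simp [h y]
  rw [h2] at this
  exact Set.infinite_univ this

lemma exists_far_of_infinite {S : Set G} (hS : S.Infinite) (x : G) (n : ℕ) :
    ∃ y ∈ S, n < m.d x y := by
  by_contra h
  push Not at h
  exact hS ((m.ball_fin x n).subset fun y hy => h y hy)

lemma exists_eq [Infinite G] (x : G) (n : ℕ) : ∃ y, m.d x y = n := by
  obtain ⟨y, hy⟩ := m.exists_far x n
  obtain ⟨z, hz, -⟩ := m.mid n _ rfl hy.le (x := x) (y := y)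
  exact ⟨z, hz⟩

/-- finite sets are bounded -/
lemma bdd {S : Set G} (hS : S.Finite) (x : G) : ∃ n, ∀ y ∈ S, m.d x y ≤ n := by
  obtain ⟨n, hn⟩ := (hS.image (fun y => m.d x y)).bddAbove
  exact ⟨n, fun y hy => hn ⟨y, hy, rfl⟩⟩

lemma fin_of_bdd {S : Set G} (x : G) (n : ℕ) (h : ∀ y ∈ S, m.d x y ≤ n) : S.Finite :=
  (m.ball_fin x n).subset h

/-- thickening -/
def nb (n : ℕ) (S : Set G) : Set G := {x | ∃ y ∈ S, m.d x y ≤ n}

lemma nb_fin {S : Set G} (hS : S.Finite) (n : ℕ) : (m.nb n S).Finite := by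
  have : m.nb n S = ⋃ y ∈ S, {x | m.d y x ≤ n} := by
    ext x; simp [nb, m.d_comm x]
  rw [this]
  exact hS.biUnion fun y _ => m.ball_fin y n

lemma subset_nb (n : ℕ) (S : Set G) : S ⊆ m.nb n S := fun x hx => ⟨x, hx, by simp⟩

/-- walking along a geodesic: if a property holds at `x` and fails at `y` then there is a unit
step where it changes, at controlled distance. -/
lemma change (Pr : G → Prop) {x y : G} (hx : Pr x) (hy : ¬ Pr y) :
    ∃ a b, Pr a ∧ ¬ Pr b ∧ m.d a b ≤ 1 ∧ m.d x a + m.d b y + 1 ≤ m.d x y ∧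
      m.d x b ≤ m.d x a + 1 := by
  have key : ∀ n, ∀ y, m.d x y = n → ¬ Pr y → ∃ a b, Pr a ∧ ¬ Pr b ∧ m.d a b ≤ 1 ∧
      m.d x a + m.d b y + 1 ≤ m.d x y ∧ m.d x b ≤ m.d x a + 1 := by
    intro n
    induction n with
    | zero =>
      intro y h hy
      exact absurd ((m.eq_of_d h) ▸ hx) hy
    | succ n ih =>
      intro y h hy
      obtain ⟨y', h1, h2⟩ := m.prev h
      by_cases hP : Pr y'
      · refine ⟨y', y, hP, hy, h2, ?_, ?_⟩
        · simp; omega
        · omega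
      · obtain ⟨a, b, ha, hb, hab, h3, h4⟩ := ih y' h1 hP
        refine ⟨a, b, ha, hb, hab, ?_, h4⟩
        have := m.tri b y' y
        omega
  exact key _ y rfl hy

end WM

/-- A pair of Lipschitz maps that are coarse inverses of each other. -/
structure LP {G₁ G₂ : Type*} [Group G₁] [Group G₂] (m₁ : WM G₁) (m₂ : WM G₂) (ρ : ℕ)
    (f : G₁ → G₂) (φ : G₂ → G₁) : Prop where
  fl : ∀ x y, m₂.d (f x) (f y) ≤ ρ * m₁.d x y
  gl : ∀ x y, m₁.d (φ x) (φ y) ≤ ρ * m₂.d x y
  gf : ∀ x, m₁.d (φ (f x)) x ≤ ρ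
  fg : ∀ y, m₂.d (f (φ y)) y ≤ ρ

namespace LP

variable {G₁ G₂ : Type*} [Group G₁] [Group G₂] {m₁ : WM G₁} {m₂ : WM G₂} {ρ : ℕ}
    {f : G₁ → G₂} {φ : G₂ → G₁}

lemma symm (h : LP m₁ m₂ ρ f φ) : LP m₂ m₁ ρ φ f := ⟨h.gl, h.fl, h.fg, h.gf⟩

/-- lower bound -/
lemma low (h : LP m₁ m₂ ρ f φ) (x y : G₁) : m₁.d x y ≤ ρ * m₂.d (f x) (f y) + 2 * ρ := by
  have h1 := m₁.tri x (φ (f x)) y
  have h2 := m₁.tri (φ (f x)) (φ (f y)) y
  have h3 := h.gf x
  have h4 := h.gf y
  have h5 := h.gl (f x) (f y)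
  rw [m₁.d_comm] at h3
  omega

end LP

/-- Connectedness inside a set by unit steps. -/
def Cn {G : Type*} [Group G] (m : WM G) (U : Set G) (x y : G) : Prop :=
  Relation.ReflTransGen (fun a b => a ∈ U ∧ b ∈ U ∧ m.d a b ≤ 1) x y

namespace Cn

variable {G : Type*} [Group G] {m : WM G} {U : Set G}

lemma symm {x y : G} (h : Cn m U x y) : Cn m U y x := by
  unfold Cn at *
  induction h with
  | refl => exact Relation.ReflTransGen.refl
  | tail _ hbc ih =>
    exact Relation.ReflTransGen.head ⟨hbc.2.1, hbc.1, by rw [m.d_comm]; exact hbc.2.2⟩ ih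

lemma trans {x y z : G} (h : Cn m U x y) (h' : Cn m U y z) : Cn m U x z :=
  Relation.ReflTransGen.trans h h'

lemma refl (x : G) : Cn m U x x := Relation.ReflTransGen.refl

lemma step {x y : G} (hx : x ∈ U) (hy : y ∈ U) (h : m.d x y ≤ 1) : Cn m U x y :=
  Relation.ReflTransGen.single ⟨hx, hy, h⟩

lemma mono {V : Set G} (hUV : U ⊆ V) {x y : G} (h : Cn m U x y) : Cn m V x y :=
  Relation.ReflTransGen.mono (fun _ _ h => ⟨hUV h.1, hUV h.2.1, h.2.2⟩) _ _ h

/-- propagation of a property along a path in `U`. -/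
lemma prop {x y : G} (h : Cn m U x y) (Pr : G → Prop)
    (hs : ∀ a b, a ∈ U → b ∈ U → m.d a b ≤ 1 → Pr a → Pr b) (hx : Pr x) : Pr y := by
  unfold Cn at h
  induction h with
  | refl => exact hx
  | tail _ hbc ih => exact hs _ _ hbc.1 hbc.2.1 hbc.2.2 ih

lemma mem {x y : G} (h : Cn m U x y) (hx : x ∈ U) : y ∈ U :=
  h.prop (fun z => z ∈ U) (fun _ _ _ hb _ _ => hb) hx

lemma translate {x y : G} (h : Cn m U x y) (g : G) :
    Cn m ((fun z => g * z) '' U) (g * x) (g * y) := by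
  unfold Cn at *
  induction h with
  | refl => exact Relation.ReflTransGen.refl
  | tail _ hbc ih =>
    exact ih.tail ⟨⟨_, hbc.1, rfl⟩, ⟨_, hbc.2.1, rfl⟩, by simpa using hbc.2.2⟩

end Cn

end Pool.Agent.EndsLamp
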