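import Pool.Agent.EndsLamp.Cube

/-! # The counting argument -/

set_option autoImplicit false
set_option linter.unusedSectionVars false
set_option linter.unnecessarySimpa false
set_option linter.unusedSimpArgs false
set_option linter.unusedVariables false
set_option linter.deprecated false

open scoped Classical

namespace Pool.Agent.EndsLamp

/-- The boundaries of the components of the complements of balls grow subexponentially. -/
def SlowB {H : Type*} [Group H] (m : WM H) : Prop := ∀ K : ℕ, ∃ s₀ : ℕ, ∀ s, s₀ ≤ s → ∀ x,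
  {y | m.d 1 y = s + 1 ∧ Cn m {z | s < m.d 1 z} x y}.ncard ^ K ≤ 2 ^ s

section

variable {F₁ F₂ H₁ H₂ : Type*} [Group F₁] [Group F₂] [Group H₁] [Group H₂]
variable [Finite F₁] [Finite F₂]
variable {m₁ : WM H₁} {m₂ : WM H₂} {ρ : ℕ} {f : Lm F₁ H₁ → Lm F₂ H₂} {φ : Lm F₂ H₂ → Lm F₁ H₁}

lemma window (hf : LP (lw F₁ m₁) (lw F₂ m₂) ρ f φ) {N r : ℕ}
    (c : (Fin N → Fin r → Bool) → Cfg F₁ H₁) (a : ℕ)
    (hrow : ∀ ω i θ, (lw F₂ m₂).d (f (mk (c ω) 1)) (f (mk (c (Function.update ω i θ)) 1)) ≤ a)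
    (k G s : ℕ) (hkG : k + G ≤ N) (ωm ωp : Fin N → Fin r → Bool)
    (Good : Finset (Fin N → Fin r → Bool))
    (hm : ∀ ω ∈ Good, ∀ j, j ≤ N →
      m₂.d 1 (ps (f (mk (c (hyb k z0 (hyb j ω ωm))) 1))) + a ≤ s)
    (hp : ∀ ω ∈ Good, ∀ j, j ≤ N →
      s + a < m₂.d 1 (ps (f (mk (c (hyb (k + G) z0 (hyb j ω ωp))) 1)))) :
    ∃ (x₀ : H₂) (pst : Cfg F₂ H₂), ∀ ω ∈ Good, ∃ y, m₂.d 1 y = s + 1 ∧
      Cn m₂ {z | s < m₂.d 1 z} x₀ y ∧
      (lw F₁ m₁).d (φ (mk pst y)) (mk (c (hyb k z0 ω)) 1) ≤ ρ + ρ * (2 * (G * a)) := by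
  by_cases hne : Good.Nonempty
  swap
  · rw [Finset.not_nonempty_iff_eq_empty] at hne
    refine ⟨1, c1, fun ω hω => ?_⟩
    rw [hne] at hω; simp at hω
  obtain ⟨ω₁, hω₁⟩ := hne
  set F : (Fin N → Fin r → Bool) → Lm F₂ H₂ := fun ω => f (mk (c ω) 1) with hF
  have hstep : ∀ k ω i θ, (lw F₂ m₂).d (F (hyb k z0 ω)) (F (hyb k z0 (Function.update ω i θ))) ≤ a := by
    intro k ω i θ
    rcases hyb_update k z0 ω i θ with h | h
    · rw [h]; simp
    · rw [h]; exact hrow _ _ _
  -- connectedness at the lower level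
  have hcm : ∀ ω ∈ Good, Cn (lw F₂ m₂) {w | m₂.d 1 (ps w) ≤ s} (F (hyb k z0 ω)) (F (hyb k z0 ωm)) := by
    intro ω hω
    have key : ∀ j, j ≤ N → Cn (lw F₂ m₂) {w | m₂.d 1 (ps w) ≤ s} (F (hyb k z0 ω))
        (F (hyb k z0 (hyb j ω ωm))) := by
      intro j
      induction j with
      | zero => intro _; rw [hyb_zero]; exact Cn.refl _
      | succ j ih =>
        intro hj
        refine (ih (by omega)).trans ?_
        rw [hyb_succ j (by omega)]
        refine Cn.of_close (hstep k _ _ _) fun w hw => ?_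
        have e1 := hm ω hω j (by omega)
        have e2 := lw_ps m₂ (F (hyb k z0 (hyb j ω ωm))) w
        have e3 := m₂.tri 1 (ps (F (hyb k z0 (hyb j ω ωm)))) (ps w)
        simp only [Set.mem_setOf_eq]
        simp only [hF] at e2 e3 hw
        omega
    have := key N le_rfl
    rwa [hyb_all] at this
  -- connectedness at the upper level
  have hcp : ∀ ω ∈ Good, Cn (lw F₂ m₂) {w | s < m₂.d 1 (ps w)} (F (hyb (k + G) z0 ω))
      (F (hyb (k + G) z0 ωp)) := by
    intro ω hω
    have key : ∀ j, j ≤ N → Cn (lw F₂ m₂) {w | s < m₂.d 1 (ps w)} (F (hyb (k + G) z0 ω))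
        (F (hyb (k + G) z0 (hyb j ω ωp))) := by
      intro j
      induction j with
      | zero => intro _; rw [hyb_zero]; exact Cn.refl _
      | succ j ih =>
        intro hj
        refine (ih (by omega)).trans ?_
        rw [hyb_succ j (by omega)]
        refine Cn.of_close (hstep (k + G) _ _ _) fun w hw => ?_
        have e1 := hp ω hω j (by omega)
        have e2 := lw_ps m₂ (F (hyb (k + G) z0 (hyb j ω ωp))) w
        have e3 := m₂.tri 1 (ps w) (ps (F (hyb (k + G) z0 (hyb j ω ωp))))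
        rw [m₂.d_comm (ps w)] at e3
        simp only [Set.mem_setOf_eq]
        simp only [hF] at e2 e3 hw
        omega
    have := key N le_rfl
    rwa [hyb_all] at this
  -- distance between the levels
  have hdist : ∀ ω, (lw F₂ m₂).d (F (hyb k z0 ω)) (F (hyb (k + G) z0 ω)) ≤ G * a := by
    intro ω
    have key : ∀ t, t ≤ G → (lw F₂ m₂).d (F (hyb k z0 ω)) (F (hyb (k + t) z0 ω)) ≤ t * a := by
      intro t
      induction t with
      | zero => intro _; simp
      | succ t ih =>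
        intro ht
        have e1 := ih (by omega)
        have e2 := (lw F₂ m₂).tri (F (hyb k z0 ω)) (F (hyb (k + t) z0 ω)) (F (hyb (k + (t + 1)) z0 ω))
        have e3 : (lw F₂ m₂).d (F (hyb (k + t) z0 ω)) (F (hyb (k + (t + 1)) z0 ω)) ≤ a := by
          rw [← add_assoc, hyb_succ (k + t) (by omega)]
          exact hrow _ _ _
        rw [Nat.succ_mul]; omega
    exact key G le_rfl
  -- the target
  set S : Set H₂ := {z | m₂.d 1 z ≤ s} with hS
  set pst : Cfg F₂ H₂ := comb S (cf (F (hyb (k + G) z0 ωp))) (cf (F (hyb k z0 ωm))) with hpst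
  set x₀ : H₂ := ps (F (hyb (k + G) z0 ωp)) with hx₀
  have hx₀s : s < m₂.d 1 x₀ := by
    have e1 := hp ω₁ hω₁ N le_rfl
    rw [hyb_all] at e1
    simp only [hx₀, hF]
    omega
  refine ⟨x₀, pst, ?_⟩
  · intro ω hω
    set u := F (hyb k z0 ω) with hu
    set u' := F (hyb (k + G) z0 ω) with hu'
    have hcomb : comb S (cf u') (cf u) = pst := by
      apply Cfg.ext
      intro z
      by_cases hz : z ∈ S
      · rw [hpst, comb_mem _ _ hz, comb_mem _ _ hz]
        exact ((cn_high (hcp ω hω)).1 z hz).symm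
      · rw [hpst, comb_not _ _ hz, comb_not _ _ hz]
        simp only [hS, Set.mem_setOf_eq, not_le] at hz
        exact (cn_low (hcm ω hω) z hz).symm
    have e1 := modify m₂ S u u'
    rw [hcomb] at e1
    have e2 := hdist ω
    rw [← hu, ← hu'] at e2
    have hcn : Cn m₂ {z | s < m₂.d 1 z} x₀ (ps u') := (cn_high (hcp ω hω)).2.symm
    have hul : m₂.d 1 (ps u) ≤ s := by
      have e3 := hm ω hω 0 (by omega)
      rw [hyb_zero] at e3
      simp only [hu, hF]
      omega
    have hun : ¬ Cn m₂ {z | s < m₂.d 1 z} x₀ (ps u) := by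
      intro h
      have := h.mem (by simpa using hx₀s)
      simp only [Set.mem_setOf_eq] at this
      omega
    obtain ⟨y, y', hy, hy', hyy, hyd, -⟩ := m₂.change
      (fun z => Cn m₂ {z | s < m₂.d 1 z} x₀ z) hcn hun
    have hys : s < m₂.d 1 y := hy.mem (by simpa using hx₀s)
    have hy's : m₂.d 1 y' ≤ s := by
      by_contra hcon
      push Not at hcon
      exact hy' (hy.trans (Cn.step hys hcon hyy))
    have hy1 : m₂.d 1 y = s + 1 := by
      have := m₂.tri 1 y' y
      rw [m₂.d_comm y' y] at this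
      omega
    refine ⟨y, hy1, hy, ?_⟩
    have e3 := lw_leaf (F := F₂) m₂ pst (ps u') y
    have e4 := (lw F₂ m₂).tri u (mk pst (ps u')) (mk pst y)
    have e5 := lw_ps m₂ u u'
    rw [m₂.d_comm (ps u) (ps u')] at e5
    have e6 : (lw F₂ m₂).d u (mk pst y) ≤ 2 * (G * a) := by omega
    have e7 := hf.gl (mk pst y) u
    have e8 := hf.gf (mk (c (hyb k z0 ω)) 1)
    have e9 := (lw F₁ m₁).tri (φ (mk pst y)) (φ u) (mk (c (hyb k z0 ω)) 1)
    have e10 : ρ * (lw F₂ m₂).d (mk pst y) u ≤ ρ * (2 * (G * a)) := by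
      apply Nat.mul_le_mul_left
      rw [(lw F₂ m₂).d_comm]; exact e6
    have e11 : (lw F₁ m₁).d (φ u) (mk (c (hyb k z0 ω)) 1) ≤ ρ := e8
    omega

end

end Pool.Agent.EndsLamp
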