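import Pool.Agent.EndsLamp.WM

/-! # Word metrics of finite generating sets -/

set_option autoImplicit false

open scoped Pointwise

namespace Pool.Agent.EndsLamp

section

variable {G : Type*} [Group G]

lemma finite_pow {E : Set G} (hfin : E.Finite) : ∀ n : ℕ, (E ^ n).Finite := by
  intro n
  induction n with
  | zero => simp
  | succ n ih => rw [pow_succ]; exact ih.mul hfin

lemma inv_mem_pow {E : Set G} (hinv : ∀ x ∈ E, x⁻¹ ∈ E) :
    ∀ (n : ℕ) (g : G), g ∈ E ^ n → g⁻¹ ∈ E ^ n := by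
  intro n
  induction n with
  | zero => intro g hg; simpa using hg
  | succ n ih =>
    intro g hg
    rw [pow_succ] at hg
    obtain ⟨a, ha, b, hb, rfl⟩ := hg
    rw [pow_succ']
    exact ⟨b⁻¹, hinv b hb, a⁻¹, ih a ha, by simp⟩

/-- The word length with respect to a finite symmetric set containing `1`. -/
noncomputable def WM.ofSet (E : Set G) (h1 : (1 : G) ∈ E) (hinv : ∀ x ∈ E, x⁻¹ ∈ E)
    (hfin : E.Finite) (hgen : ∀ g, ∃ n : ℕ, g ∈ E ^ n) : WM G := by
  have mono : ∀ {k n : ℕ}, k ≤ n → E ^ k ⊆ E ^ n := fun h => Set.pow_subset_pow_right h1 h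
  have le_iff : ∀ (g : G) (n : ℕ), sInf {n : ℕ | g ∈ E ^ n} ≤ n ↔ g ∈ E ^ n := by
    intro g n
    constructor
    · intro h
      exact mono h (Nat.sInf_mem (s := {n : ℕ | g ∈ E ^ n}) (hgen g))
    · intro h; exact Nat.sInf_le h
  have invp := inv_mem_pow hinv
  have lemul : ∀ g h : G, sInf {n : ℕ | g * h ∈ E ^ n} ≤
      sInf {n : ℕ | g ∈ E ^ n} + sInf {n : ℕ | h ∈ E ^ n} := by
    intro g h
    rw [le_iff, pow_add]
    exact Set.mul_mem_mul ((le_iff g _).mp le_rfl) ((le_iff h _).mp le_rfl)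
  exact
  { len := fun g => sInf {n : ℕ | g ∈ E ^ n}
    len_one := by
      have := (le_iff (1 : G) 0).mpr (by simp)
      simpa using this
    len_inv := by
      intro g
      apply le_antisymm
      · rw [le_iff]; exact invp _ _ ((le_iff g _).mp le_rfl)
      · rw [le_iff]
        have := invp _ _ ((le_iff g⁻¹ _).mp le_rfl)
        simpa using this
    len_mul := lemul
    fin := by
      intro n
      have : {g | sInf {n : ℕ | g ∈ E ^ n} ≤ n} = E ^ n := by
        ext g; exact le_iff g n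
      rw [this]
      exact finite_pow hfin n
    split := by
      intro g n h
      have hg : g ∈ E ^ (n + 1) := (le_iff g _).mp h.le
      rw [pow_succ] at hg
      obtain ⟨a, ha, b, hb, rfl⟩ := hg
      have h' : sInf {n : ℕ | a * b ∈ E ^ n} = n + 1 := h
      have ha' := (le_iff a n).mpr ha
      have hb' := (le_iff b 1).mpr (by simpa using hb)
      have := lemul a b
      exact ⟨a, b, rfl, by omega, hb'⟩
    eq_one := by
      intro g h
      have := (le_iff g 0).mp h.le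
      simpa using this }

lemma WM.ofSet_le (E : Set G) (h1 : (1 : G) ∈ E) (hinv : ∀ x ∈ E, x⁻¹ ∈ E)
    (hfin : E.Finite) (hgen : ∀ g, ∃ n : ℕ, g ∈ E ^ n) (g : G) (n : ℕ) :
    (WM.ofSet E h1 hinv hfin hgen).len g ≤ n ↔ g ∈ E ^ n := by
  constructor
  · intro h
    exact Set.pow_subset_pow_right h1 h (Nat.sInf_mem (s := {n : ℕ | g ∈ E ^ n}) (hgen g))
  · intro h; exact Nat.sInf_le h

lemma gen_pow (S : Set G) (hS : Subgroup.closure S = ⊤) (g : G) :
    ∃ n : ℕ, g ∈ (insert 1 (S ∪ S⁻¹) : Set G) ^ n := by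
  have hg : g ∈ Subgroup.closure S := by rw [hS]; trivial
  refine Subgroup.closure_induction (p := fun g _ => ∃ n : ℕ, g ∈ (insert 1 (S ∪ S⁻¹) : Set G) ^ n)
    ?_ ?_ ?_ ?_ hg
  · intro x hx; exact ⟨1, by simp [hx]⟩
  · exact ⟨0, by simp⟩
  · rintro x y _ _ ⟨n, hn⟩ ⟨k, hk⟩
    exact ⟨n + k, by rw [pow_add]; exact Set.mul_mem_mul hn hk⟩
  · rintro x _ ⟨n, hn⟩
    refine ⟨n, inv_mem_pow ?_ n x hn⟩
    intro b hb
    rcases hb with rfl | hb | hb
    · simp
    · right; right; simpa using hb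
    · right; left; simpa using hb

/-- The word metric of a finite generating set. -/
noncomputable def wm (S : Set G) (hf : S.Finite) (hS : Subgroup.closure S = ⊤) : WM G :=
  WM.ofSet (insert 1 (S ∪ S⁻¹)) (by simp)
    (by
      intro x hx
      rcases hx with rfl | hx | hx
      · simp
      · right; right; simpa using hx
      · right; left; simpa using hx)
    ((hf.union hf.inv).insert 1) (gen_pow S hS)

lemma wm_d (S : Set G) (hf : S.Finite) (hS : Subgroup.closure S = ⊤) (x y : G) :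
    (wm S hf hS).d x y = wordDist S x y := rfl

lemma exists_wm (h : Group.FG G) : Nonempty (WM G) := by
  obtain ⟨S, hS, hf⟩ := (Group.fg_iff (G := G)).mp h
  exact ⟨wm S hf hS⟩

/-- Two word metrics on the same group are Lipschitz equivalent. -/
lemma WM.lip_id (m m' : WM G) : ∃ ρ : ℕ, ∀ x y, m'.d x y ≤ ρ * m.d x y := by
  obtain ⟨ρ, hρ⟩ := ((m.fin 1).image m'.len).bddAbove
  refine ⟨ρ, fun x y => ?_⟩
  have key : ∀ n, ∀ y, m.d x y = n → m'.d x y ≤ ρ * n := by
    intro n
    induction n with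
    | zero => intro y h; rw [m.eq_of_d h]; simp
    | succ n ih =>
      intro y h
      obtain ⟨y', h1, h2⟩ := m.prev h
      have h3 := ih y' h1
      have h4 : m'.d y' y ≤ ρ := hρ ⟨_, h2, rfl⟩
      have := m'.tri x y' y
      rw [Nat.mul_succ]; omega
  exact key _ y rfl

/-- A map which moves neighbours by a bounded distance is Lipschitz. -/
lemma WM.lip_of_step {G' : Type*} [Group G'] (m : WM G) (m' : WM G') (f : G → G') (ρ : ℕ)
    (h : ∀ x y, m.d x y ≤ 1 → m'.d (f x) (f y) ≤ ρ) (x y : G) :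
    m'.d (f x) (f y) ≤ ρ * m.d x y := by
  have key : ∀ n, ∀ y, m.d x y = n → m'.d (f x) (f y) ≤ ρ * n := by
    intro n
    induction n with
    | zero => intro y h; rw [m.eq_of_d h]; simp
    | succ n ih =>
      intro y hy
      obtain ⟨y', h1, h2⟩ := m.prev hy
      have h3 := ih y' h1
      have h4 := h _ _ h2
      have := m'.tri (f x) (f y') (f y)
      rw [Nat.mul_succ]; omega
  exact key _ y rfl

end

/-- From a quasi-isometry to a pair of Lipschitz maps, for arbitrary word metrics. -/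
theorem exists_LP {G₁ : Type*} {G₂ : Type*} [Group G₁] [Group G₂] (m₁ : WM G₁) (m₂ : WM G₂)
    (h : QuasiIsometric G₁ G₂) : ∃ (ρ : ℕ) (f : G₁ → G₂) (φ : G₂ → G₁), LP m₁ m₂ ρ f φ := by
  obtain ⟨S, T, hSf, hS, hTf, hT, f, L, C, hL, hC, hf, hsurj⟩ := h
  choose φ hφ using hsurj
  obtain ⟨N, hN⟩ := exists_nat_ge (max L C)
  have hLN : L ≤ N := (le_max_left _ _).trans hN
  have hCN : C ≤ N := (le_max_right _ _).trans hN
  have hL0 : 0 < L := by linarith
  -- natural bounds
  have up : ∀ x y, wordDist T (f x) (f y) ≤ N * wordDist S x y + N := by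
    intro x y
    have h := (hf x y).2
    have : (wordDist T (f x) (f y) : ℝ) ≤ N * (wordDist S x y : ℝ) + N := by
      have h0 : (0 : ℝ) ≤ (wordDist S x y : ℝ) := Nat.cast_nonneg _
      nlinarith
    exact_mod_cast this
  have lo : ∀ x y, wordDist S x y ≤ N * wordDist T (f x) (f y) + N * N := by
    intro x y
    have h := (hf x y).1
    have h0 : (0 : ℝ) ≤ (wordDist T (f x) (f y) : ℝ) := Nat.cast_nonneg _
    have h1 : (wordDist S x y : ℝ) ≤ L * ((wordDist T (f x) (f y) : ℝ) + C) := by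
      have : L⁻¹ * (wordDist S x y : ℝ) ≤ (wordDist T (f x) (f y) : ℝ) + C := by linarith
      calc (wordDist S x y : ℝ) = L * (L⁻¹ * (wordDist S x y : ℝ)) := by
            field_simp
        _ ≤ _ := by exact mul_le_mul_of_nonneg_left this hL0.le
    have : (wordDist S x y : ℝ) ≤ N * (wordDist T (f x) (f y) : ℝ) + N * N := by
      have : L * ((wordDist T (f x) (f y) : ℝ) + C) ≤ N * ((wordDist T (f x) (f y) : ℝ) + N) := by
        apply mul_le_mul hLN (by linarith) (by linarith) (by positivity)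
      linarith
    exact_mod_cast this
  have sj : ∀ z, wordDist T (f (φ z)) z ≤ N := by
    intro z
    have : (wordDist T (f (φ z)) z : ℝ) ≤ N := (hφ z).trans hCN
    exact_mod_cast this
  -- word metrics
  set a := wm S hSf hS with ha
  set b := wm T hTf hT with hb
  obtain ⟨ρ₁, h₁⟩ := WM.lip_id m₁ a
  obtain ⟨ρ₂, h₂⟩ := WM.lip_id a m₁
  obtain ⟨ρ₃, h₃⟩ := WM.lip_id m₂ b
  obtain ⟨ρ₄, h₄⟩ := WM.lip_id b m₂
  have fstep : ∀ x y, m₁.d x y ≤ 1 → m₂.d (f x) (f y) ≤ ρ₄ * (N * ρ₁ + N) := by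
    intro x y hxy
    have e1 := h₄ (f x) (f y)
    have e2 : b.d (f x) (f y) ≤ N * a.d x y + N := up x y
    have e3 := h₁ x y
    have e4 : a.d x y ≤ ρ₁ := e3.trans (by nlinarith)
    calc m₂.d (f x) (f y) ≤ ρ₄ * b.d (f x) (f y) := e1
      _ ≤ _ := Nat.mul_le_mul_left _ (e2.trans (by nlinarith))
  have dlow : ∀ x y, a.d x y ≤ N * b.d (f x) (f y) + N * N := lo
  have gstep : ∀ x y, m₂.d x y ≤ 1 → m₁.d (φ x) (φ y) ≤ ρ₂ * (N * (2 * N + ρ₃) + N * N) := by
    intro x y hxy
    have e1 := h₂ (φ x) (φ y)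
    have e2 := dlow (φ x) (φ y)
    have e3 : b.d x y ≤ ρ₃ := (h₃ x y).trans (by nlinarith)
    have e4 := b.tri (f (φ x)) x (f (φ y))
    have e5 := b.tri x y (f (φ y))
    have e6 : b.d (f (φ x)) x ≤ N := sj x
    have e7 : b.d y (f (φ y)) ≤ N := by rw [b.d_comm]; exact sj y
    have e8 : b.d (f (φ x)) (f (φ y)) ≤ 2 * N + ρ₃ := by omega
    exact e1.trans (Nat.mul_le_mul_left _ (e2.trans (by nlinarith)))
  have hgf : ∀ x, m₁.d (φ (f x)) x ≤ ρ₂ * (N * N + N * N) := by
    intro x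
    have e1 := h₂ (φ (f x)) x
    have e2 := dlow (φ (f x)) x
    have e3 : b.d (f (φ (f x))) (f x) ≤ N := sj (f x)
    exact e1.trans (Nat.mul_le_mul_left _ (e2.trans (by nlinarith)))
  have hfg : ∀ y, m₂.d (f (φ y)) y ≤ ρ₄ * N := fun y =>
    (h₄ _ _).trans (Nat.mul_le_mul_left _ (sj y))
  set ρ := ρ₄ * (N * ρ₁ + N) + ρ₂ * (N * (2 * N + ρ₃) + N * N) + ρ₂ * (N * N + N * N) + ρ₄ * N
    with hρ
  refine ⟨ρ, f, φ, ?_, ?_, ?_, ?_⟩
  · exact WM.lip_of_step m₁ m₂ f ρ fun x y h => (fstep x y h).trans (by omega)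
  · exact WM.lip_of_step m₂ m₁ φ ρ fun x y h => (gstep x y h).trans (by omega)
  · exact fun x => (hgf x).trans (by omega)
  · exact fun y => (hfg y).trans (by omega)

end Pool.Agent.EndsLamp
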